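import Mathlib

namespace Pool.Agent.SWz

/-- MODULE DISC. All derivatives of `1/L` and `L'/L` at a point by Cauchy on a small disc.
HINT: `r = m/(2D) ≤ r0`. On the closed disc of radius `r`: `‖L z - L s‖ ≤ D r = m/2` (mean value on the convex ball), so
`‖L z‖ ≥ m/2`, `‖1/L‖ ≤ 2/m`, `‖L'/L‖ ≤ 2D/m`. Cauchy:
`Complex.norm_iteratedDeriv_le_of_forall_mem_sphere_norm_le` (radius `r`; if `DiffContOnCl` is needed: both are
differentiable on the open ball of radius `r0`; take radius `r/2` if convenient, the constant `4` below leaves room: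
`(4D/m)^k = (2/r)^k`). -/
theorem inv_core (L : ℂ → ℂ) (s : ℂ) (r0 m D : ℝ) (hr0 : 0 < r0) (hm : 0 < m) (hD : 0 < D)
    (hmD : m / (2 * D) ≤ r0)
    (hL : DifferentiableOn ℂ L (Metric.ball s r0))
    (hd : ∀ z ∈ Metric.ball s r0, ‖deriv L z‖ ≤ D) (hls : m ≤ ‖L s‖) (k : ℕ) :
    ‖iteratedDeriv k (fun z => (L z)⁻¹) s‖ ≤ k.factorial * (2 / m) * (4 * D / m) ^ k ∧
    ‖iteratedDeriv k (fun z => deriv L z / L z) s‖ ≤
      k.factorial * (2 * D / m) * (4 * D / m) ^ k := by
  set r : ℝ := m / (2 * D) with hr
  have hrpos : 0 < r := by positivity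
  have hsub : Metric.ball s r ⊆ Metric.ball s r0 := Metric.ball_subset_ball hmD
  have hopen : IsOpen (Metric.ball s r0) := Metric.isOpen_ball
  -- lower bound of `L` on the ball of radius `r`
  have hlow : ∀ z ∈ Metric.ball s r, m / 2 ≤ ‖L z‖ := by
    intro z hz
    have hs0 : s ∈ Metric.ball s r0 := Metric.mem_ball_self hr0
    have hmv : ‖L z - L s‖ ≤ D * ‖z - s‖ := by
      refine Convex.norm_image_sub_le_of_norm_deriv_le (𝕜 := ℂ) (f := L) (s := Metric.ball s r0) ?_ hd
        (convex_ball s r0) hs0 (hsub hz)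
      intro x hx
      exact (hL x hx).differentiableAt (hopen.mem_nhds hx)
    have hzr : ‖z - s‖ < r := by
      have := Metric.mem_ball.1 hz
      rwa [dist_eq_norm] at this
    have h1 : D * ‖z - s‖ ≤ m / 2 := by
      have : D * ‖z - s‖ ≤ D * r := mul_le_mul_of_nonneg_left hzr.le hD.le
      have h2 : D * r = m / 2 := by
        rw [hr]; field_simp
      linarith
    have h3 : ‖L s‖ ≤ ‖L z‖ + ‖L z - L s‖ := by
      have : L s = L z - (L z - L s) := by ring
      calc ‖L s‖ = ‖L z - (L z - L s)‖ := by rw [← this]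
        _ ≤ _ := norm_sub_le _ _
    linarith
  have hne : ∀ z ∈ Metric.ball s r, L z ≠ 0 := by
    intro z hz h0
    have := hlow z hz
    rw [h0, norm_zero] at this
    linarith
  have hr2 : (0 : ℝ) < r / 2 := by positivity
  have hcl : Metric.closedBall s (r / 2) ⊆ Metric.ball s r :=
    Metric.closedBall_subset_ball (by linarith)
  have hcl' : closure (Metric.ball s (r / 2)) ⊆ Metric.ball s r :=
    (Metric.closure_ball_subset_closedBall).trans hcl
  have hLr : DifferentiableOn ℂ L (Metric.ball s r) := hL.mono hsub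
  have hdL : DifferentiableOn ℂ (deriv L) (Metric.ball s r) :=
    (hL.deriv hopen).mono hsub
  have hinv : DifferentiableOn ℂ (fun z => (L z)⁻¹) (Metric.ball s r) :=
    hLr.inv hne
  have hlog : DifferentiableOn ℂ (fun z => deriv L z / L z) (Metric.ball s r) :=
    hdL.div hLr hne
  have hpow : (4 * D / m) ^ k = 1 / (r / 2) ^ k := by
    rw [one_div, ← inv_pow]
    congr 1
    rw [hr]; field_simp; norm_num
  have hsph : ∀ z ∈ Metric.sphere s (r / 2), z ∈ Metric.ball s r := fun z hz =>
    hcl (Metric.sphere_subset_closedBall hz)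
  constructor
  · have := Complex.norm_iteratedDeriv_le_of_forall_mem_sphere_norm_le (F := ℂ) (c := s) (R := r / 2)
      (C := 2 / m) (f := fun z => (L z)⁻¹) k hr2 ((hinv.mono hcl').diffContOnCl) (by
        intro z hz
        have h1 := hlow z (hsph z hz)
        rw [norm_inv]
        have h2 : (m / 2)⁻¹ = 2 / m := by rw [inv_div]
        rw [← h2]
        exact inv_anti₀ (by positivity) h1)
    refine this.trans (le_of_eq ?_)
    rw [hpow]; ring
  · have := Complex.norm_iteratedDeriv_le_of_forall_mem_sphere_norm_le (F := ℂ) (c := s) (R := r / 2)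
      (C := 2 * D / m) (f := fun z => deriv L z / L z) k hr2 ((hlog.mono hcl').diffContOnCl) (by
        intro z hz
        have h1 := hlow z (hsph z hz)
        have h0 : ‖deriv L z‖ ≤ D := hd z (hsub (hsph z hz))
        rw [norm_div]
        have h2 : D / (m / 2) = 2 * D / m := by field_simp
        rw [← h2]
        exact div_le_div₀ hD.le h0 (by positivity) h1)
    refine this.trans (le_of_eq ?_)
    rw [hpow]; ring

end Pool.Agent.SWz
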