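import Pool.Agent.SWz.Iface
import Pool.Agent.SWz.InvCore

namespace Pool.Agent.SWz

/-- MODULE INVDER. HINT: `inv_core` with `m = c Q^(-δ)` (Lower), `D = C Q^(4 ε)` enlarged (GrowthD on the ball of
radius `r0 = ε`; on it `Q` changes at most by a factor 2), `δ = 4 ε` small:
`(2/m)(4D/m)^k ≤ C Q^(δ + 2 δ k)`; choose `δ (2k + 2) ≤ 1/2`. -/
theorem inv_der (hD : GrowthD) (hL : Lower) (k : ℕ) :
    ∃ C : ℝ, ∀ (q : ℕ) [NeZero q] (χ : DirichletCharacter ℂ q), χ ≠ 1 →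
      ∀ s : ℂ, 1 < s.re → s.re ≤ 2 →
      ‖iteratedDeriv k (fun z => (χ.LFunction z)⁻¹) s‖ ≤
        C * ((q : ℝ) * (|s.im| + 2)) ^ (1 / 2 : ℝ) ∧
      ‖iteratedDeriv k (fun z => deriv χ.LFunction z / χ.LFunction z) s‖ ≤
        C * ((q : ℝ) * (|s.im| + 2)) ^ (1 / 2 : ℝ) := by
  have hk : (0 : ℝ) < (k : ℝ) + 1 := by positivity
  obtain ⟨ε, hε⟩ : ∃ ε : ℝ, ε = 1 / (16 * ((k : ℝ) + 1)) := ⟨_, rfl⟩
  obtain ⟨δ, hδ⟩ : ∃ δ : ℝ, δ = 4 * ε := ⟨_, rfl⟩
  have hε0 : 0 < ε := by rw [hε]; positivity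
  have hε8 : ε ≤ 1 / 8 := by
    rw [hε]
    apply one_div_le_one_div_of_le (by norm_num)
    have : (0 : ℝ) ≤ k := Nat.cast_nonneg k
    linarith
  have hδ0 : 0 < δ := by rw [hδ]; positivity
  have hδk : δ * (2 * k + 2) = 1 / 2 := by
    rw [hδ, hε]
    field_simp
    ring
  obtain ⟨CD, hCD⟩ := hD ε hε0 hε8
  obtain ⟨c, hc, hLow⟩ := hL δ hδ0
  obtain ⟨D0, hD0⟩ : ∃ D0 : ℝ, D0 = |CD| * 2 ^ (4 * ε) + c / (2 * ε) + 1 := ⟨_, rfl⟩
  have h2ε : (0 : ℝ) < 2 ^ (4 * ε) := Real.rpow_pos_of_pos (by norm_num) _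
  have hD0pos : 0 < D0 := by rw [hD0]; positivity
  have hD0a : |CD| * 2 ^ (4 * ε) ≤ D0 := by
    rw [hD0]
    have : 0 < c / (2 * ε) := by positivity
    linarith
  have hD0b : c / (2 * ε) ≤ D0 := by
    rw [hD0]
    have : 0 ≤ |CD| * 2 ^ (4 * ε) := by positivity
    linarith
  refine ⟨k.factorial * (2 / c + 2 * D0 / c) * (4 * D0 / c) ^ k, ?_⟩
  intro q _ χ hχ s hs1 hs2
  have hq1 : (1 : ℝ) ≤ q := by
    exact_mod_cast Nat.one_le_iff_ne_zero.2 (NeZero.ne q)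
  obtain ⟨Q, hQ⟩ : ∃ Q : ℝ, Q = (q : ℝ) * (|s.im| + 2) := ⟨_, rfl⟩
  have him : 0 ≤ |s.im| := abs_nonneg _
  have hQ1 : 1 ≤ Q := by
    rw [hQ]
    nlinarith
  have hQ0 : 0 < Q := lt_of_lt_of_le one_pos hQ1
  obtain ⟨P, hP⟩ : ∃ P : ℝ, P = Q ^ δ := ⟨_, rfl⟩
  have hP1 : 1 ≤ P := by rw [hP]; exact Real.one_le_rpow hQ1 hδ0.le
  have hP0 : 0 < P := lt_of_lt_of_le one_pos hP1
  have hPk : P ^ (2 * k + 2) = Q ^ (1 / 2 : ℝ) := by
    rw [hP, ← Real.rpow_natCast, ← Real.rpow_mul hQ0.le]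
    congr 1
    push_cast
    exact hδk
  have hm : 0 < c / P := by positivity
  have hD : 0 < D0 * P := by positivity
  have hls : c / P ≤ ‖χ.LFunction s‖ := by
    have h := hLow q χ hχ s hs1 hs2
    rw [← hQ, Real.rpow_neg hQ0.le, ← hP] at h
    rw [div_eq_mul_inv]
    exact h
  have hmD : c / P / (2 * (D0 * P)) ≤ ε := by
    have h1 : c ≤ D0 * (2 * ε) := by
      rw [div_le_iff₀ (by positivity)] at hD0b
      exact hD0b
    rw [div_div, div_le_iff₀ (by positivity)]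
    have h2 : 1 ≤ P * P := by nlinarith
    have h3 : 0 ≤ D0 * (2 * ε) := by positivity
    nlinarith
  have hdiff : DifferentiableOn ℂ χ.LFunction (Metric.ball s ε) :=
    (DirichletCharacter.differentiable_LFunction hχ).differentiableOn
  have hd : ∀ z ∈ Metric.ball s ε, ‖deriv χ.LFunction z‖ ≤ D0 * P := by
    intro z hz
    rw [Metric.mem_ball, Complex.dist_eq] at hz
    have hre : |z.re - s.re| ≤ ‖z - s‖ := by
      have := Complex.abs_re_le_norm (z - s)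
      rwa [Complex.sub_re] at this
    have him' : |z.im - s.im| ≤ ‖z - s‖ := by
      have := Complex.abs_im_le_norm (z - s)
      rwa [Complex.sub_im] at this
    have hre2 := abs_le.1 hre
    have h1 := hCD q χ hχ z (by linarith) (by linarith)
    have hzim : |z.im| ≤ |s.im| + ε := by
      have : |z.im| - |s.im| ≤ |z.im - s.im| := abs_sub_abs_le_abs_sub _ _
      linarith
    have hQz : (q : ℝ) * (|z.im| + 2) ≤ 2 * Q := by
      rw [hQ]
      have : |z.im| + 2 ≤ 2 * (|s.im| + 2) := by linarith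
      calc (q : ℝ) * (|z.im| + 2) ≤ (q : ℝ) * (2 * (|s.im| + 2)) :=
            mul_le_mul_of_nonneg_left this (by linarith)
        _ = 2 * ((q : ℝ) * (|s.im| + 2)) := by ring
    have hQz0 : 0 ≤ (q : ℝ) * (|z.im| + 2) := by positivity
    have h2 : ((q : ℝ) * (|z.im| + 2)) ^ (4 * ε) ≤ 2 ^ (4 * ε) * P := by
      calc ((q : ℝ) * (|z.im| + 2)) ^ (4 * ε) ≤ (2 * Q) ^ (4 * ε) :=
            Real.rpow_le_rpow hQz0 hQz (by positivity)
        _ = 2 ^ (4 * ε) * Q ^ (4 * ε) := Real.mul_rpow (by norm_num) hQ0.le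
        _ = 2 ^ (4 * ε) * P := by rw [hP, hδ]
    calc ‖deriv χ.LFunction z‖ ≤ CD * ((q : ℝ) * (|z.im| + 2)) ^ (4 * ε) := h1
      _ ≤ |CD| * ((q : ℝ) * (|z.im| + 2)) ^ (4 * ε) :=
          mul_le_mul_of_nonneg_right (le_abs_self _) (by positivity)
      _ ≤ |CD| * (2 ^ (4 * ε) * P) := mul_le_mul_of_nonneg_left h2 (abs_nonneg _)
      _ = |CD| * 2 ^ (4 * ε) * P := by ring
      _ ≤ D0 * P := mul_le_mul_of_nonneg_right hD0a hP0.le
  obtain ⟨h1, h2⟩ := inv_core χ.LFunction s ε (c / P) (D0 * P) hε0 hm hD hmD hdiff hd hls k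
  have e1 : 4 * (D0 * P) / (c / P) = 4 * D0 / c * (P * P) := by
    field_simp
  have e2 : (4 * D0 / c * (P * P)) ^ k = (4 * D0 / c) ^ k * P ^ (2 * k) := by
    rw [mul_pow, ← pow_two, ← pow_mul]
  have hF : 0 < (k.factorial : ℝ) := by exact_mod_cast k.factorial_pos
  have hR : 0 < (4 * D0 / c) ^ k := by positivity
  have hPP : P ^ (2 * k) * P ^ 2 = Q ^ (1 / 2 : ℝ) := by rw [← pow_add, hPk]
  have hPk0 : 0 < P ^ (2 * k) := by positivity
  have hP2 : P ≤ P ^ 2 := by nlinarith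
  rw [← hQ]
  constructor
  · refine le_trans h1 ?_
    rw [e1, e2]
    have e3 : (k.factorial : ℝ) * (2 / (c / P)) * ((4 * D0 / c) ^ k * P ^ (2 * k)) =
        k.factorial * (2 / c) * (4 * D0 / c) ^ k * (P ^ (2 * k) * P) := by
      field_simp
    rw [e3, ← hPP]
    have h4 : P ^ (2 * k) * P ≤ P ^ (2 * k) * P ^ 2 := mul_le_mul_of_nonneg_left hP2 hPk0.le
    have h5 : (k.factorial : ℝ) * (2 / c) * (4 * D0 / c) ^ k ≤
        k.factorial * (2 / c + 2 * D0 / c) * (4 * D0 / c) ^ k := by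
      apply mul_le_mul_of_nonneg_right _ hR.le
      apply mul_le_mul_of_nonneg_left _ hF.le
      have : 0 < 2 * D0 / c := by positivity
      linarith
    exact mul_le_mul h5 h4 (by positivity) (by positivity)
  · refine le_trans h2 ?_
    rw [e1, e2]
    have e3 : (k.factorial : ℝ) * (2 * (D0 * P) / (c / P)) * ((4 * D0 / c) ^ k * P ^ (2 * k)) =
        k.factorial * (2 * D0 / c) * (4 * D0 / c) ^ k * (P ^ (2 * k) * P ^ 2) := by
      field_simp
    rw [e3, hPP]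
    have h5 : (k.factorial : ℝ) * (2 * D0 / c) * (4 * D0 / c) ^ k ≤
        k.factorial * (2 / c + 2 * D0 / c) * (4 * D0 / c) ^ k := by
      apply mul_le_mul_of_nonneg_right _ hR.le
      apply mul_le_mul_of_nonneg_left _ hF.le
      have : 0 < 2 / c := by positivity
      linarith
    exact mul_le_mul_of_nonneg_right h5 (by positivity)

end Pool.Agent.SWz
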