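import Pool.Agent.SWz.KerInv

namespace Pool.Agent.SWz

open MeasureTheory

noncomputable def KER2den (ξ : ℝ) : ℂ :=
  (1 + 2 * Real.pi * Complex.I * ξ) * (2 + 2 * Real.pi * Complex.I * ξ)

lemma KER2_sq1 (ξ : ℝ) : ‖(1 + 2 * Real.pi * Complex.I * ξ : ℂ)‖ ^ 2 = 1 + (2 * Real.pi * ξ) ^ 2 := by
  have h : (1 + 2 * Real.pi * Complex.I * ξ : ℂ) = ((1 : ℝ) : ℂ) + ((2 * Real.pi * ξ : ℝ) : ℂ) * Complex.I := by
    push_cast; ring
  rw [h, ← Complex.normSq_eq_norm_sq, Complex.normSq_add_mul_I]; ring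

lemma KER2_sq2 (ξ : ℝ) : ‖(2 + 2 * Real.pi * Complex.I * ξ : ℂ)‖ ^ 2 = 4 + (2 * Real.pi * ξ) ^ 2 := by
  have h : (2 + 2 * Real.pi * Complex.I * ξ : ℂ) = ((2 : ℝ) : ℂ) + ((2 * Real.pi * ξ : ℝ) : ℂ) * Complex.I := by
    push_cast; ring
  rw [h, ← Complex.normSq_eq_norm_sq, Complex.normSq_add_mul_I]; ring

lemma KER2_bound (ξ : ℝ) : (|2 * Real.pi * ξ| + 2) ^ (1 / 2 : ℝ) * ‖(KER2den ξ)⁻¹‖ ≤
    2 * (1 + ‖ξ‖ ^ 2) ^ (-(3 / 2 : ℝ) / 2) := by
  set p : ℝ := ‖(1 + 2 * Real.pi * Complex.I * ξ : ℂ)‖ with hp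
  set q : ℝ := ‖(2 + 2 * Real.pi * Complex.I * ξ : ℂ)‖ with hq
  have hp2 : p ^ 2 = 1 + (2 * Real.pi * ξ) ^ 2 := KER2_sq1 ξ
  have hq2 : q ^ 2 = 4 + (2 * Real.pi * ξ) ^ 2 := KER2_sq2 ξ
  have hp0 : 0 ≤ p := norm_nonneg _
  have hq0 : 0 ≤ q := norm_nonneg _
  set y : ℝ := 2 * Real.pi * ξ with hy
  have hy2 : ξ ^ 2 ≤ y ^ 2 := by
    have hpi : (1 : ℝ) ≤ 2 * Real.pi := by linarith [Real.pi_gt_three]
    have h1 : (1 : ℝ) ≤ (2 * Real.pi) ^ 2 := one_le_pow₀ hpi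
    rw [hy, mul_pow]
    nlinarith [mul_le_mul_of_nonneg_right h1 (sq_nonneg ξ)]
  have hppos : 0 < p := by
    by_contra h
    have : p = 0 := le_antisymm (not_lt.1 h) hp0
    rw [this] at hp2; nlinarith [sq_nonneg y]
  have hqpos : 0 < q := by
    by_contra h
    have : q = 0 := le_antisymm (not_lt.1 h) hq0
    rw [this] at hq2; nlinarith [sq_nonneg y]
  set a : ℝ := |y| + 2 with ha
  have ha0 : 0 < a := by positivity
  have haq : a ≤ 2 * q := by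
    have : a ^ 2 ≤ (2 * q) ^ 2 := by
      rw [mul_pow, hq2, ha]
      have := sq_abs y
      nlinarith [sq_nonneg (|y| - 2), abs_nonneg y]
    exact (pow_le_pow_iff_left₀ ha0.le (by positivity) (two_ne_zero)).1 this
  set v : ℝ := 1 + ‖ξ‖ ^ 2 with hv
  have hv1 : v = 1 + ξ ^ 2 := by rw [hv, Real.norm_eq_abs, sq_abs]
  have hv0 : 0 < v := by positivity
  have hvp : v ^ (1 / 2 : ℝ) ≤ p := by
    rw [← Real.sqrt_eq_rpow]
    apply Real.sqrt_le_iff.2 ⟨hp0, ?_⟩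
    rw [hp2, hv1]; linarith
  have hva : v ^ (1 / 2 : ℝ) ≤ a := by
    rw [← Real.sqrt_eq_rpow]
    apply Real.sqrt_le_iff.2 ⟨ha0.le, ?_⟩
    rw [hv1, ha]
    have := sq_abs y
    nlinarith [abs_nonneg y]
  have hva4 : v ^ (1 / 4 : ℝ) ≤ a ^ (1 / 2 : ℝ) := by
    have h := Real.rpow_le_rpow (by positivity) hva (by norm_num : (0 : ℝ) ≤ 1 / 2)
    rw [← Real.rpow_mul hv0.le] at h
    norm_num at h ⊢
    exact h
  have hv34 : v ^ (3 / 4 : ℝ) ≤ a ^ (1 / 2 : ℝ) * p := by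
    have : v ^ (3 / 4 : ℝ) = v ^ (1 / 4 : ℝ) * v ^ (1 / 2 : ℝ) := by
      rw [← Real.rpow_add hv0]; norm_num
    rw [this]
    exact mul_le_mul hva4 hvp (by positivity) (by positivity)
  have hvneg : v ^ (-(3 / 2 : ℝ) / 2) = (v ^ (3 / 4 : ℝ))⁻¹ := by
    rw [← Real.rpow_neg hv0.le]; norm_num
  rw [hvneg, norm_inv]
  have hden : ‖KER2den ξ‖ = p * q := by rw [KER2den, norm_mul]
  rw [hden, ← div_eq_mul_inv, ← div_eq_mul_inv, div_le_div_iff₀ (by positivity) (by positivity)]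
  have haa : a ^ (1 / 2 : ℝ) * a ^ (1 / 2 : ℝ) = a := by
    rw [← Real.rpow_add ha0]; norm_num
  calc a ^ (1 / 2 : ℝ) * v ^ (3 / 4 : ℝ) ≤ a ^ (1 / 2 : ℝ) * (a ^ (1 / 2 : ℝ) * p) :=
        mul_le_mul_of_nonneg_left hv34 (by positivity)
    _ = a * p := by rw [← mul_assoc, haa]
    _ ≤ (2 * q) * p := mul_le_mul_of_nonneg_right haq hp0
    _ = 2 * (p * q) := by ring

lemma KER2_int : Integrable (fun ξ : ℝ => 2 * (1 + ‖ξ‖ ^ 2) ^ (-(3 / 2 : ℝ) / 2)) := by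
  apply Integrable.const_mul
  apply integrable_rpow_neg_one_add_norm_sq
  simp; norm_num

lemma KER2_bound1 (ξ : ℝ) : ‖(KER2den ξ)⁻¹‖ ≤ 2 * (1 + ‖ξ‖ ^ 2) ^ (-(3 / 2 : ℝ) / 2) := by
  refine le_trans ?_ (KER2_bound ξ)
  have h1 : (1 : ℝ) ≤ (|2 * Real.pi * ξ| + 2) ^ (1 / 2 : ℝ) := by
    apply Real.one_le_rpow
    · have := abs_nonneg (2 * Real.pi * ξ); linarith
    · norm_num
  calc ‖(KER2den ξ)⁻¹‖ = 1 * ‖(KER2den ξ)⁻¹‖ := (one_mul _).symm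
    _ ≤ _ := mul_le_mul_of_nonneg_right h1 (norm_nonneg _)

lemma KER2_den_ne (ξ : ℝ) : KER2den ξ ≠ 0 := by
  rw [KER2den]
  apply mul_ne_zero
  · intro h
    have := KER2_sq1 ξ
    rw [h, norm_zero] at this
    nlinarith [sq_nonneg (2 * Real.pi * ξ)]
  · intro h
    have := KER2_sq2 ξ
    rw [h, norm_zero] at this
    nlinarith [sq_nonneg (2 * Real.pi * ξ)]

lemma KER2_cont : Continuous (fun ξ : ℝ => (KER2den ξ)⁻¹) := by
  apply Continuous.inv₀ _ KER2_den_ne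
  unfold KER2den
  fun_prop

noncomputable def KER2K (u ξ : ℝ) : ℂ := Complex.exp (2 * Real.pi * Complex.I * ξ * u) / KER2den ξ

lemma KER2K_norm (u ξ : ℝ) : ‖KER2K u ξ‖ = ‖(KER2den ξ)⁻¹‖ := by
  rw [KER2K, div_eq_mul_inv, norm_mul]
  have : (2 * Real.pi * Complex.I * ξ * u : ℂ) = ((2 * Real.pi * ξ * u : ℝ) : ℂ) * Complex.I := by
    push_cast; ring
  rw [this, Complex.norm_exp_ofReal_mul_I, one_mul]

lemma KER2K_int (u : ℝ) : Integrable (KER2K u) := by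
  refine Integrable.mono' KER2_int ?_ (Filter.Eventually.of_forall fun ξ => ?_)
  · apply Continuous.aestronglyMeasurable
    unfold KER2K
    simp only [div_eq_mul_inv]
    exact Continuous.mul (by fun_prop) KER2_cont
  · rw [KER2K_norm]; exact KER2_bound1 ξ

lemma KER2_term (b : ℕ → ℂ) (σ x : ℝ) (hx : 0 < x) (n : ℕ) (ξ : ℝ) :
    LSeries.term b (σ + 2 * Real.pi * Complex.I * ξ) n *
      (Complex.exp (2 * Real.pi * Complex.I * ξ * Real.log x) / KER2den ξ) =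
    LSeries.term b σ n * KER2K (Real.log (x / n)) ξ := by
  rcases eq_or_ne n 0 with rfl | hn
  · simp
  · rw [LSeries.term_of_ne_zero hn, LSeries.term_of_ne_zero hn, KER2K]
    have hnC : (n : ℂ) ≠ 0 := Nat.cast_ne_zero.2 hn
    have hnR : (n : ℝ) ≠ 0 := Nat.cast_ne_zero.2 hn
    rw [Real.log_div hx.ne' hnR, Complex.cpow_add _ _ hnC]
    have h1 : (n : ℂ) ^ (2 * Real.pi * Complex.I * ξ : ℂ) =
        Complex.exp (2 * Real.pi * Complex.I * ξ * Real.log n) := by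
      rw [Complex.cpow_def_of_ne_zero hnC, ← Complex.natCast_log]
      congr 1; push_cast; ring
    rw [h1]
    have h2 : Complex.exp (2 * Real.pi * Complex.I * ξ * ((Real.log x - Real.log n : ℝ) : ℂ)) =
        Complex.exp (2 * Real.pi * Complex.I * ξ * Real.log x) /
        Complex.exp (2 * Real.pi * Complex.I * ξ * Real.log n) := by
      rw [← Complex.exp_sub]; congr 1; push_cast; ring
    rw [h2]
    have h3 : Complex.exp (2 * Real.pi * Complex.I * ξ * Real.log n) ≠ 0 := Complex.exp_ne_zero _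
    have h4 : (n : ℂ) ^ (σ : ℂ) ≠ 0 := by
      rw [Complex.cpow_def_of_ne_zero hnC]; exact Complex.exp_ne_zero _
    have h5 := KER2_den_ne ξ
    field_simp

lemma KER2_finite (b : ℕ → ℂ) (σ x : ℝ) (hx : 1 ≤ x) (hs : LSeriesSummable b σ) :
    ∫ ξ : ℝ, LSeries b (σ + 2 * Real.pi * Complex.I * ξ) *
      (Complex.exp (2 * Real.pi * Complex.I * ξ * Real.log x) / KER2den ξ) =
    ∑ n ∈ Finset.Icc 1 ⌊x⌋₊, LSeries.term b σ n * ((n : ℂ) / x * (1 - (n : ℂ) / x)) := by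
  have hx0 : 0 < x := by linarith
  have h1 : ∀ ξ : ℝ, LSeries b (σ + 2 * Real.pi * Complex.I * ξ) *
      (Complex.exp (2 * Real.pi * Complex.I * ξ * Real.log x) / KER2den ξ) =
      ∑' n : ℕ, LSeries.term b σ n * KER2K (Real.log (x / n)) ξ := by
    intro ξ
    rw [LSeries, ← tsum_mul_right]
    exact tsum_congr (fun n => KER2_term b σ x hx0 n ξ)
  simp_rw [h1]
  rw [← integral_tsum_of_summable_integral_norm]
  · have h2 : ∀ n : ℕ, ∫ ξ : ℝ, LSeries.term b σ n * KER2K (Real.log (x / n)) ξ =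
        if n ∈ Finset.Icc 1 ⌊x⌋₊ then LSeries.term b σ n * ((n : ℂ) / x * (1 - (n : ℂ) / x)) else 0 := by
      intro n
      rw [integral_const_mul]
      have h3 : ∫ ξ : ℝ, KER2K (Real.log (x / n)) ξ =
          if 0 ≤ Real.log (x / n) then ((Real.exp (-(Real.log (x / n))) * (1 - Real.exp (-(Real.log (x / n)))) : ℝ) : ℂ)
          else 0 := by
        have := ker_inv (Real.log (x / n))
        rw [← this]
        rfl
      rw [h3]
      rcases eq_or_ne n 0 with rfl | hn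
      · simp
      have hn1 : 1 ≤ n := Nat.one_le_iff_ne_zero.2 hn
      have hnpos : (0 : ℝ) < n := by exact_mod_cast hn1
      have hxn : 0 < x / n := by positivity
      have h4 : Real.exp (-(Real.log (x / n))) = n / x := by
        rw [Real.exp_neg, Real.exp_log hxn, inv_div]
      rw [h4]
      have hiff : 0 ≤ Real.log (x / n) ↔ n ∈ Finset.Icc 1 ⌊x⌋₊ := by
        rw [Real.log_nonneg_iff hxn, le_div_iff₀ hnpos, one_mul, Finset.mem_Icc, Nat.le_floor_iff hx0.le]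
        exact ⟨fun h => ⟨hn1, h⟩, fun h => h.2⟩
      by_cases hmem : n ∈ Finset.Icc 1 ⌊x⌋₊
      · rw [if_pos (hiff.2 hmem), if_pos hmem]; push_cast; ring
      · rw [if_neg (fun h => hmem (hiff.1 h)), if_neg hmem, mul_zero]
    simp_rw [h2]
    rw [tsum_eq_sum (s := Finset.Icc 1 ⌊x⌋₊)]
    · exact Finset.sum_congr rfl (fun n hn => if_pos hn)
    · intro n hn; exact if_neg hn
  · intro n
    exact (KER2K_int _).const_mul _
  · have h5 : ∀ n : ℕ, ∫ ξ : ℝ, ‖LSeries.term b σ n * KER2K (Real.log (x / n)) ξ‖ =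
        ‖LSeries.term b σ n‖ * ∫ ξ : ℝ, ‖(KER2den ξ)⁻¹‖ := by
      intro n
      simp_rw [norm_mul, KER2K_norm]
      rw [integral_const_mul]
    simp_rw [h5]
    exact (hs.norm).mul_right _

/-- MODULE KER2. Smoothed Perron formula as an inequality.
HINT: for `1 < σ ≤ 2`, `x ≥ 1`: `∑ n ≤ x, b n n^(-σ) (n/x) (1 - n/x) = ∑ n, b n n^(-σ) g(log (x/n))`
`= ∫ x^(2πiξ) LSeries b (σ + 2πiξ) / ((1+2πiξ)(2+2πiξ)) dξ` (`ker_inv`, `integral_tsum` or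
`hasSum_integral_of_summable_integral_norm`: `∑ ‖b n‖ n^(-σ)` times the integrable `1/(|1+2πiξ||2+2πiξ|)`), so its norm
is `≤ W ∫ (2π|ξ|+2)^(1/2)/(|1+2πiξ||2+2πiξ|) =: W C0`. The left side is a finite sum, let `σ → 1+`
(`le_of_tendsto`), it tends to `(1/x) ∑ b n (1 - n/x)`. (`b 0` never enters: `LSeries.term` at 0 is 0.) -/
theorem kernel : ∃ C0 : ℝ, 0 < C0 ∧ ∀ (b : ℕ → ℂ) (W : ℝ), 0 ≤ W →
    (∀ s : ℂ, 1 < s.re → LSeriesSummable b s) →
    (∀ s : ℂ, 1 < s.re → s.re ≤ 2 → ‖LSeries b s‖ ≤ W * (|s.im| + 2) ^ (1 / 2 : ℝ)) →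
    ∀ x : ℝ, 1 ≤ x →
      ‖∑ n ∈ Finset.Icc 1 ⌊x⌋₊, b n * (1 - (n : ℂ) / x)‖ ≤ C0 * W * x := by
  set I0 : ℝ := ∫ ξ : ℝ, 2 * (1 + ‖ξ‖ ^ 2) ^ (-(3 / 2 : ℝ) / 2) with hI0
  have hI0n : 0 ≤ I0 := integral_nonneg (fun ξ => by positivity)
  refine ⟨I0 + 1, by linarith, ?_⟩
  intro b W hW hsum hbd x hx
  have hx0 : 0 < x := by linarith
  -- bound for every `σ` in `(1, 2]`
  have key : ∀ σ : ℝ, 1 < σ → σ ≤ 2 →
      ‖∑ n ∈ Finset.Icc 1 ⌊x⌋₊, LSeries.term b σ n * ((n : ℂ) / x * (1 - (n : ℂ) / x))‖ ≤ W * I0 := by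
    intro σ h1 h2
    rw [← KER2_finite b σ x hx (hsum σ (by simpa using h1))]
    rw [hI0, ← integral_const_mul]
    refine norm_integral_le_of_norm_le (KER2_int.const_mul W) (Filter.Eventually.of_forall fun ξ => ?_)
    have hre : (σ + 2 * Real.pi * Complex.I * ξ : ℂ).re = σ := by simp
    have him : (σ + 2 * Real.pi * Complex.I * ξ : ℂ).im = 2 * Real.pi * ξ := by simp
    have hb := hbd (σ + 2 * Real.pi * Complex.I * ξ) (by rw [hre]; exact h1) (by rw [hre]; exact h2)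
    rw [him] at hb
    have hn : ‖Complex.exp (2 * Real.pi * Complex.I * ξ * Real.log x) / KER2den ξ‖ = ‖(KER2den ξ)⁻¹‖ :=
      KER2K_norm (Real.log x) ξ
    rw [norm_mul, hn]
    calc ‖LSeries b (σ + 2 * Real.pi * Complex.I * ξ)‖ * ‖(KER2den ξ)⁻¹‖
        ≤ (W * (|2 * Real.pi * ξ| + 2) ^ (1 / 2 : ℝ)) * ‖(KER2den ξ)⁻¹‖ :=
          mul_le_mul_of_nonneg_right hb (norm_nonneg _)
      _ = W * ((|2 * Real.pi * ξ| + 2) ^ (1 / 2 : ℝ) * ‖(KER2den ξ)⁻¹‖) := by ring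
      _ ≤ W * (2 * (1 + ‖ξ‖ ^ 2) ^ (-(3 / 2 : ℝ) / 2)) :=
          mul_le_mul_of_nonneg_left (KER2_bound ξ) hW
  -- the limit `σ → 1+`
  have hlim : Filter.Tendsto (fun σ : ℝ => ‖∑ n ∈ Finset.Icc 1 ⌊x⌋₊,
      LSeries.term b σ n * ((n : ℂ) / x * (1 - (n : ℂ) / x))‖) (nhdsWithin 1 (Set.Ioi 1))
      (nhds ‖∑ n ∈ Finset.Icc 1 ⌊x⌋₊, LSeries.term b (1 : ℝ) n * ((n : ℂ) / x * (1 - (n : ℂ) / x))‖) := by
    apply Filter.Tendsto.norm
    apply tendsto_finsetSum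
    intro n hn
    apply Filter.Tendsto.mul_const
    have hn0 : n ≠ 0 := by have := (Finset.mem_Icc.1 hn).1; omega
    have hnC : (n : ℂ) ≠ 0 := Nat.cast_ne_zero.2 hn0
    have hc : Continuous (fun σ : ℝ => LSeries.term b σ n) := by
      have : (fun σ : ℝ => LSeries.term b σ n) = fun σ : ℝ => b n / (n : ℂ) ^ (σ : ℂ) := by
        funext σ; rw [LSeries.term_of_ne_zero hn0]
      rw [this]
      apply Continuous.div continuous_const
      · simp_rw [Complex.cpow_def_of_ne_zero hnC]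
        fun_prop
      · intro σ
        rw [Complex.cpow_def_of_ne_zero hnC]; exact Complex.exp_ne_zero _
    exact (hc.tendsto 1).mono_left nhdsWithin_le_nhds
  have hle : ‖∑ n ∈ Finset.Icc 1 ⌊x⌋₊, LSeries.term b (1 : ℝ) n * ((n : ℂ) / x * (1 - (n : ℂ) / x))‖ ≤ W * I0 := by
    refine le_of_tendsto hlim ?_
    have : Set.Ioc (1 : ℝ) 2 ∈ nhdsWithin (1 : ℝ) (Set.Ioi 1) := Ioc_mem_nhdsGT (by norm_num)
    filter_upwards [this] with σ hσ
    exact key σ hσ.1 hσ.2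
  have hfin : ∑ n ∈ Finset.Icc 1 ⌊x⌋₊, b n * (1 - (n : ℂ) / x) =
      x * ∑ n ∈ Finset.Icc 1 ⌊x⌋₊, LSeries.term b (1 : ℝ) n * ((n : ℂ) / x * (1 - (n : ℂ) / x)) := by
    rw [Finset.mul_sum]
    apply Finset.sum_congr rfl
    intro n hn
    have hn0 : n ≠ 0 := by have := (Finset.mem_Icc.1 hn).1; omega
    have hnC : (n : ℂ) ≠ 0 := Nat.cast_ne_zero.2 hn0
    have hxC : (x : ℂ) ≠ 0 := by exact_mod_cast hx0.ne'
    rw [LSeries.term_of_ne_zero hn0]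
    simp only [Complex.ofReal_one, Complex.cpow_one]
    field_simp
  rw [hfin, norm_mul, Complex.norm_real, Real.norm_of_nonneg hx0.le]
  calc x * _ ≤ x * (W * I0) := mul_le_mul_of_nonneg_left hle hx0.le
    _ ≤ (I0 + 1) * W * x := by nlinarith [mul_nonneg hW hx0.le]

end Pool.Agent.SWz
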