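import Mathlib

namespace Pool.Agent.SWz

theorem SERDER_iter (f : ℕ → ℂ) (k : ℕ) :
    LSeries.logMul^[k] f = fun n => f n * (Real.log n : ℂ) ^ k := by
  induction k with
  | zero => funext n; simp
  | succ k ih =>
    rw [Function.iterate_succ_apply', ih]
    funext n
    rw [LSeries.logMul, Complex.natCast_log, pow_succ]
    ring

theorem SERDER_gen (f : ℕ → ℂ) (g : ℂ → ℂ)
    (hf : ∀ y : ℝ, 1 < y → LSeriesSummable f (y : ℂ))
    (hg : ∀ z : ℂ, 1 < z.re → g z = LSeries f z) (k : ℕ) (s : ℂ) (hs : 1 < s.re) :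
    iteratedDeriv k g s = (-1) ^ k * LSeries (fun n => f n * (Real.log n : ℂ) ^ k) s ∧
      LSeriesSummable (fun n => f n * (Real.log n : ℂ) ^ k) s := by
  have habs : LSeries.abscissaOfAbsConv f < s.re := by
    refine lt_of_le_of_lt (LSeries.abscissaOfAbsConv_le_of_forall_lt_LSeriesSummable (x := 1) hf) ?_
    exact_mod_cast hs
  have hopen : {z : ℂ | 1 < z.re} ∈ nhds s :=
    (isOpen_lt continuous_const Complex.continuous_re).mem_nhds hs
  have heq : g =ᶠ[nhds s] LSeries f := Filter.eventually_of_mem hopen (fun z hz => hg z hz)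
  constructor
  · rw [Filter.EventuallyEq.iteratedDeriv_eq k heq, LSeries_iteratedDeriv k habs, SERDER_iter]
  · rw [← SERDER_iter]
    apply LSeriesSummable_of_abscissaOfAbsConv_lt_re
    rw [LSeries.absicssaOfAbsConv_logPowMul]
    exact habs

open ArithmeticFunction in
/-- MODULE SERDER. Derivatives of `1/L` and `L'/L` as Dirichlet series, `Re s > 1`, every character.
HINT: on the open set `Re z > 1`: `(L z)⁻¹ = LSeries (fun n => χ n * μ n) z`
(`DirichletCharacter.LSeries.mul_mu_eq_one`), `L'/L = - LSeries (χ Λ)`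
(`DirichletCharacter.LSeries_twist_vonMangoldt_eq`); `iteratedDeriv` depends only on the germ
(`Filter.EventuallyEq.iteratedDeriv_eq`), and `LSeries_iteratedDeriv` (with `LSeries.logMul^[k]`). The abscissa of
absolute convergence is `≤ 1 < Re s` (`LSeries.abscissaOfAbsConv_le_of_forall_lt_LSeriesSummable`,
`DirichletCharacter.LSeriesSummable_mul`, `..._twist_vonMangoldt`). -/
theorem ser_der (q : ℕ) [NeZero q] (χ : DirichletCharacter ℂ q) (k : ℕ) (s : ℂ) (hs : 1 < s.re) :
    iteratedDeriv k (fun z => (χ.LFunction z)⁻¹) s =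
      (-1) ^ k * LSeries (fun n => χ n * ((moebius n : ℤ) : ℂ) * (Real.log n : ℂ) ^ k) s ∧
    iteratedDeriv k (fun z => deriv χ.LFunction z / χ.LFunction z) s =
      -(-1) ^ k * LSeries (fun n => χ n * ((vonMangoldt n : ℝ) : ℂ) * (Real.log n : ℂ) ^ k) s ∧
    LSeriesSummable (fun n => χ n * ((moebius n : ℤ) : ℂ) * (Real.log n : ℂ) ^ k) s ∧
    LSeriesSummable (fun n => χ n * ((vonMangoldt n : ℝ) : ℂ) * (Real.log n : ℂ) ^ k) s := by
  have hsum1 : ∀ y : ℝ, 1 < y →
      LSeriesSummable (fun n => χ n * ((moebius n : ℤ) : ℂ)) (y : ℂ) := by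
    intro y hy
    have h1 : LSeriesSummable (fun n => ((moebius n : ℤ) : ℂ)) (y : ℂ) := by
      rw [ArithmeticFunction.LSeriesSummable_moebius_iff]
      simpa using hy
    exact DirichletCharacter.LSeriesSummable_mul χ h1
  have hsum2 : ∀ y : ℝ, 1 < y →
      LSeriesSummable (fun n => χ n * ((vonMangoldt n : ℝ) : ℂ)) (y : ℂ) := by
    intro y hy
    exact DirichletCharacter.LSeriesSummable_twist_vonMangoldt χ (by simpa using hy)
  have h1 := SERDER_gen (fun n => χ n * ((moebius n : ℤ) : ℂ)) (fun z => (χ.LFunction z)⁻¹)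
    hsum1 (by
      intro z hz
      have h := DirichletCharacter.LSeries.mul_mu_eq_one χ hz
      rw [← DirichletCharacter.LFunction_eq_LSeries χ hz] at h
      exact (eq_inv_of_mul_eq_one_right h).symm) k s hs
  have h2 := SERDER_gen (fun n => χ n * ((vonMangoldt n : ℝ) : ℂ))
    (fun z => - (deriv χ.LFunction z / χ.LFunction z)) hsum2 (by
      intro z hz
      have h := DirichletCharacter.LSeries_twist_vonMangoldt_eq χ hz
      rw [← DirichletCharacter.LFunction_eq_LSeries χ hz,
        ← DirichletCharacter.deriv_LFunction_eq_deriv_LSeries χ hz, neg_div] at h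
      exact h.symm) k s hs
  refine ⟨h1.1, ?_, h1.2, h2.2⟩
  have h3 := h2.1
  rw [iteratedDeriv_fun_neg] at h3
  rw [neg_mul, ← h3, neg_neg]

end Pool.Agent.SWz
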