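import Pool.Agent.SWz.Tau1

namespace Pool.Agent.SWz

/-- Abel summation with a bound -/
lemma Tau2_abel (b : ℕ → ℂ) (f : ℕ → ℝ) (M : ℝ) (m N : ℕ) (hmN : m ≤ N)
    (hS : ∀ n, m ≤ n → n ≤ N → ‖∑ j ∈ Finset.Icc 1 n, b j‖ ≤ M)
    (hf0 : ∀ n, m + 1 ≤ n → 0 ≤ f n) (hf : ∀ n, m + 1 ≤ n → f (n + 1) ≤ f n) :
    ‖∑ n ∈ Finset.Ioc m N, b n * (f n : ℂ)‖ ≤ 2 * M * f (m + 1) := by
  have key : ∀ n, m ≤ n → n ≤ N →
      ‖∑ j ∈ Finset.Ioc m n, b j * (f j : ℂ) - (∑ j ∈ Finset.Icc 1 n, b j) * (f (n + 1) : ℂ)‖ ≤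
        M * (2 * f (m + 1) - f (n + 1)) := by
    intro n hn
    induction n, hn using Nat.le_induction with
    | base =>
      intro h
      rw [Finset.Ioc_self, Finset.sum_empty, zero_sub, norm_neg, norm_mul, Complex.norm_real,
        Real.norm_eq_abs, abs_of_nonneg (hf0 _ le_rfl)]
      have := mul_le_mul_of_nonneg_right (hS m le_rfl h) (hf0 (m + 1) le_rfl)
      linarith
    | succ n hn ih =>
      intro h
      have ih' := ih (by omega)
      have e1 : Finset.Ioc m (n + 1) = insert (n + 1) (Finset.Ioc m n) := by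
        ext j; simp; omega
      have e2 : Finset.Icc 1 (n + 1) = insert (n + 1) (Finset.Icc 1 n) := by
        ext j; simp; omega
      have h1 : ∑ j ∈ Finset.Ioc m (n + 1), b j * (f j : ℂ) =
          b (n + 1) * (f (n + 1) : ℂ) + ∑ j ∈ Finset.Ioc m n, b j * (f j : ℂ) := by
        rw [e1, Finset.sum_insert (by simp)]
      have h2 : ∑ j ∈ Finset.Icc 1 (n + 1), b j = b (n + 1) + ∑ j ∈ Finset.Icc 1 n, b j := by
        rw [e2, Finset.sum_insert (by simp)]
      have h3 : ∑ j ∈ Finset.Ioc m (n + 1), b j * (f j : ℂ) -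
          (∑ j ∈ Finset.Icc 1 (n + 1), b j) * (f (n + 1 + 1) : ℂ) =
          (∑ j ∈ Finset.Ioc m n, b j * (f j : ℂ) -
            (∑ j ∈ Finset.Icc 1 n, b j) * (f (n + 1) : ℂ)) +
          (∑ j ∈ Finset.Icc 1 (n + 1), b j) * ((f (n + 1) - f (n + 1 + 1) : ℝ) : ℂ) := by
        rw [h1, h2]; push_cast; ring
      rw [h3]
      refine (norm_add_le _ _).trans ?_
      rw [norm_mul _ ((f (n + 1) - f (n + 1 + 1) : ℝ) : ℂ), Complex.norm_real, Real.norm_eq_abs,
        abs_of_nonneg (sub_nonneg.2 (hf (n + 1) (by omega)))]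
      have h4 := mul_le_mul_of_nonneg_right (hS (n + 1) (by omega) h)
        (sub_nonneg.2 (hf (n + 1) (by omega)))
      linarith
  have h1 := key N hmN le_rfl
  have h2 : ‖(∑ j ∈ Finset.Icc 1 N, b j) * (f (N + 1) : ℂ)‖ ≤ M * f (N + 1) := by
    rw [norm_mul, Complex.norm_real, Real.norm_eq_abs, abs_of_nonneg (hf0 _ (by omega))]
    exact mul_le_mul_of_nonneg_right (hS N hmN le_rfl) (hf0 _ (by omega))
  have h3 := norm_sub_norm_le (∑ j ∈ Finset.Ioc m N, b j * (f j : ℂ))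
    ((∑ j ∈ Finset.Icc 1 N, b j) * (f (N + 1) : ℂ))
  linarith

/-- MODULE TAU2 (removing `(log n)^k`, `k = 2 A + 1`). HINT: `b n = a n (log n)^k`, `S` its summatory function, bounded by
`tau1`. For `x ≥ 4` put `m = ⌊√x⌋ ≥ 2`, `N = ⌊x⌋`: Abel summation (`Finset.sum_Ioc_by_parts` or induction) with
`f n = (log n)^(-k)` decreasing: `‖∑_(m<n≤N) a n‖ ≤ 2 f(m+1) max_(m≤n≤N) ‖S n‖`, and `‖∑_(n≤m) a n‖ ≤ √x (1+log x)`.
`f(m+1) ≤ (log √x)^(-k) = 2^k (log x)^(-k)`, `max ‖S‖ ≤ C √W x (1+log 2x)^((k+1)/2)`, `(k+1)/2 = A + 1`,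
`1 + log(2x) ≤ 3 log x` for `x ≥ 2`..., total `≤ C √W x (log x)^(A+1-k) = C √W x (log x)^(-A)`. For `2 ≤ x < 4`
trivial. -/
theorem tau2 (A : ℕ) : ∃ C : ℝ, 0 < C ∧ ∀ (a : ℕ → ℂ) (W : ℝ), 1 ≤ W →
    (∀ n : ℕ, 1 ≤ n → ‖a n‖ ≤ 1 + Real.log n) →
    (∀ x : ℝ, 1 ≤ x → ‖∑ n ∈ Finset.Icc 1 ⌊x⌋₊,
      (a n * (Real.log n : ℂ) ^ (2 * A + 1)) * (1 - (n : ℂ) / x)‖ ≤ W * x) →
    ∀ x : ℝ, 2 ≤ x → ‖∑ n ∈ Finset.Icc 1 ⌊x⌋₊, a n‖ ≤ C * √W * x / (Real.log x) ^ A := by
  obtain ⟨C1, hC1, htau⟩ := tau1 (2 * A + 1)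
  set F : ℝ := ((A + 1).factorial : ℝ) with hF
  have hF0 : 0 < F := by rw [hF]; exact_mod_cast Nat.factorial_pos _
  refine ⟨2 * 2 ^ (2 * A + 1) * 4 ^ (A + 1) * C1 + 2 ^ (A + 1) * F * 2, by positivity,
    fun a W hW ha hR x hx => ?_⟩
  have hx0 : 0 < x := by linarith
  set L : ℝ := Real.log x with hL
  have hlog2 : 0.6931 < Real.log 2 := by linarith [Real.log_two_gt_d9]
  have hL2 : Real.log 2 ≤ L := Real.log_le_log (by norm_num) hx
  have hL0 : 0 < L := by linarith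
  set b : ℕ → ℂ := fun n => a n * (Real.log n : ℂ) ^ (2 * A + 1) with hb
  have hbn : ∀ n : ℕ, 1 ≤ n → ‖b n‖ ≤ (1 + Real.log n) ^ (2 * A + 1 + 1) := by
    intro n hn
    have hn1 : (1 : ℝ) ≤ n := by exact_mod_cast hn
    have h0 : 0 ≤ Real.log n := Real.log_nonneg hn1
    rw [hb]
    simp only
    rw [norm_mul, norm_pow, Complex.norm_real, Real.norm_eq_abs, abs_of_nonneg h0,
      mul_comm, pow_succ (1 + Real.log n) (2 * A + 1)]
    exact mul_le_mul (pow_le_pow_left₀ h0 (by linarith) _) (ha n hn) (norm_nonneg _) (by positivity)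
  have hS := htau b W hW hbn hR
  have hsW : 1 ≤ √W := by rw [Real.one_le_sqrt]; exact hW
  set M : ℝ := C1 * √W * x * (4 * L) ^ (A + 1) with hM
  have hM0 : 0 ≤ M := by positivity
  have hlog2x : 1 + Real.log (2 * x) ≤ 4 * L := by
    rw [Real.log_mul (by norm_num) (by linarith)]
    linarith [Real.log_two_lt_d9]
  have hSM : ∀ n : ℕ, n ≤ ⌊x⌋₊ → ‖∑ j ∈ Finset.Icc 1 n, b j‖ ≤ M := by
    intro n hn
    rcases Nat.eq_zero_or_pos n with h0 | h0
    · rw [h0]; simpa using hM0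
    · have hn1 : (1 : ℝ) ≤ n := by exact_mod_cast h0
      have hnx : (n : ℝ) ≤ x := (Nat.le_floor_iff hx0.le).1 hn
      have h1 := hS n hn1
      rw [Nat.floor_natCast] at h1
      refine h1.trans ?_
      have e1 : (((2 * A + 1 : ℕ) : ℝ) + 1) / 2 = ((A + 1 : ℕ) : ℝ) := by push_cast; ring
      rw [e1, Real.rpow_natCast]
      have h2 : 0 ≤ Real.log (2 * n) := Real.log_nonneg (by linarith)
      have h3 : Real.log (2 * n) ≤ Real.log (2 * x) := Real.log_le_log (by linarith) (by linarith)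
      have h4 : (1 + Real.log (2 * n)) ^ (A + 1) ≤ (4 * L) ^ (A + 1) :=
        pow_le_pow_left₀ (by linarith) (by linarith) _
      rw [hM]
      have h5 : C1 * √W * n ≤ C1 * √W * x := mul_le_mul_of_nonneg_left hnx (by positivity)
      exact mul_le_mul h5 h4 (by positivity) (by positivity)
  set m : ℕ := ⌊√x⌋₊ with hm
  have hsx1 : 1 ≤ √x := by rw [Real.one_le_sqrt]; linarith
  have hsx : √x * √x = x := Real.mul_self_sqrt hx0.le
  have hsxx : √x ≤ x := by nlinarith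
  have hmN : m ≤ ⌊x⌋₊ := Nat.floor_le_floor hsxx
  set f : ℕ → ℝ := fun n => ((Real.log n) ^ (2 * A + 1))⁻¹ with hf
  have hlogn : ∀ n : ℕ, m + 1 ≤ n → L / 2 ≤ Real.log n := by
    intro n hn
    have h1 : √x < n := by
      have := Nat.lt_floor_add_one (√x)
      have h2 : ((m + 1 : ℕ) : ℝ) ≤ n := by exact_mod_cast hn
      push_cast at h2
      linarith
    have h2 : Real.log (√x) = L / 2 := Real.log_sqrt hx0.le
    rw [← h2]
    exact Real.log_le_log (by linarith) h1.le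
  have habel := Tau2_abel b f M m ⌊x⌋₊ hmN (fun n _ hn => hSM n hn)
    (fun n hn => by
      have := hlogn n hn
      have h0 : 0 ≤ Real.log n := by linarith
      exact inv_nonneg.2 (pow_nonneg h0 _))
    (fun n hn => by
      have h1 := hlogn n hn
      have h0 : 0 < Real.log n := by linarith
      have hn0 : (0 : ℝ) < n := by
        have : 0 < n := by omega
        exact_mod_cast this
      have h2 : Real.log n ≤ Real.log ((n + 1 : ℕ) : ℝ) := by
        apply Real.log_le_log hn0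
        push_cast; linarith
      exact inv_anti₀ (pow_pos h0 _) (pow_le_pow_left₀ h0.le h2 _))
  have hsplit : ∑ n ∈ Finset.Icc 1 ⌊x⌋₊, a n = ∑ n ∈ Finset.Icc 1 m, a n +
      ∑ n ∈ Finset.Ioc m ⌊x⌋₊, b n * (f n : ℂ) := by
    have e1 : Finset.Icc 1 ⌊x⌋₊ = Finset.Ioc 0 ⌊x⌋₊ := by ext; simp; omega
    have e2 : Finset.Icc 1 m = Finset.Ioc 0 m := by ext; simp; omega
    rw [e1, e2, ← Finset.sum_Ioc_consecutive _ (Nat.zero_le _) hmN]
    congr 1
    refine Finset.sum_congr rfl (fun n hn => ?_)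
    rw [Finset.mem_Ioc] at hn
    have h1 := hlogn n hn.1
    have h0 : (Real.log n : ℂ) ≠ 0 := by
      have : Real.log n ≠ 0 := by linarith
      exact_mod_cast this
    rw [hb, hf]
    simp only
    rw [Complex.ofReal_inv, Complex.ofReal_pow, mul_assoc, mul_inv_cancel₀ (pow_ne_zero _ h0),
      mul_one]
  have hsmall : ‖∑ n ∈ Finset.Icc 1 m, a n‖ ≤ √x * (1 + L) := by
    have h1 := Tau1_triv a (1 + L) m (fun n hn => by
      rw [Finset.mem_Icc] at hn
      have hn1 : (1 : ℝ) ≤ n := by exact_mod_cast hn.1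
      have h2 : (n : ℝ) ≤ √x := (Nat.le_floor_iff (by linarith)).1 hn.2
      have h3 : Real.log n ≤ L := Real.log_le_log (by linarith) (by linarith)
      linarith [ha n hn.1])
    have h2 : (m : ℝ) ≤ √x := Nat.floor_le (by linarith)
    exact h1.trans (mul_le_mul_of_nonneg_right h2 (by linarith))
  have hfm : f (m + 1) ≤ 2 ^ (2 * A + 1) / L ^ (2 * A + 1) := by
    have h1 := hlogn (m + 1) le_rfl
    rw [hf]
    simp only
    have h2 : (L / 2) ^ (2 * A + 1) ≤ (Real.log ((m + 1 : ℕ) : ℝ)) ^ (2 * A + 1) :=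
      pow_le_pow_left₀ (by linarith) h1 _
    have h3 : (2 : ℝ) ^ (2 * A + 1) / L ^ (2 * A + 1) = ((L / 2) ^ (2 * A + 1))⁻¹ := by
      rw [div_pow, inv_div]
    rw [h3]
    exact inv_anti₀ (by positivity) h2
  -- the small part
  have hexp : (1 + L) ^ (A + 1) ≤ 2 ^ (A + 1) * F * 2 * √x := by
    have h1 := Real.pow_div_factorial_le_exp ((1 + L) / 2) (by linarith) (A + 1)
    have h2 : Real.exp ((1 + L) / 2) ≤ 2 * √x := by
      have h3 : Real.exp ((1 + L) / 2) = Real.exp (1 / 2) * √x := by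
        rw [show (1 + L) / 2 = 1 / 2 + L / 2 by ring, Real.exp_add]
        congr 1
        rw [← Real.log_sqrt hx0.le, Real.exp_log (by linarith)]
      have h4 : Real.exp (1 / 2) ≤ 2 := by
        have h5 : Real.exp (1 / 2) * Real.exp (1 / 2) = Real.exp 1 := by
          rw [← Real.exp_add]; norm_num
        have h6 := Real.exp_one_lt_three
        have h7 := Real.exp_pos (1 / 2 : ℝ)
        nlinarith
      rw [h3]
      exact mul_le_mul_of_nonneg_right h4 (by linarith)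
    rw [div_le_iff₀ hF0, div_pow] at h1
    have h5 : (1 + L) ^ (A + 1) / 2 ^ (A + 1) ≤ 2 * √x * F :=
      h1.trans (mul_le_mul_of_nonneg_right h2 hF0.le)
    rw [div_le_iff₀ (by positivity)] at h5
    linarith
  have hsmall2 : √x * (1 + L) ≤ 2 ^ (A + 1) * F * 2 * √W * x / L ^ A := by
    rw [le_div_iff₀ (by positivity)]
    have h1 : L ^ A ≤ (1 + L) ^ A := pow_le_pow_left₀ hL0.le (by linarith) _
    have h2 : √x * (1 + L) * L ^ A ≤ √x * (1 + L) ^ (A + 1) := by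
      rw [pow_succ, mul_assoc]
      refine mul_le_mul_of_nonneg_left ?_ (by linarith)
      rw [mul_comm]
      exact mul_le_mul_of_nonneg_right h1 (by linarith)
    have h3 : √x * (1 + L) ^ (A + 1) ≤ √x * (2 ^ (A + 1) * F * 2 * √x) :=
      mul_le_mul_of_nonneg_left hexp (by linarith)
    have h4 : √x * (2 ^ (A + 1) * F * 2 * √x) = 2 ^ (A + 1) * F * 2 * x := by
      calc √x * (2 ^ (A + 1) * F * 2 * √x) = 2 ^ (A + 1) * F * 2 * (√x * √x) := by ring
        _ = _ := by rw [hsx]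
    have h5 : 2 ^ (A + 1) * F * 2 * x ≤ 2 ^ (A + 1) * F * 2 * √W * x := by
      have : 0 ≤ 2 ^ (A + 1) * F * 2 * x := by positivity
      nlinarith
    linarith
  have hbig : 2 * M * f (m + 1) ≤ 2 * 2 ^ (2 * A + 1) * 4 ^ (A + 1) * C1 * √W * x / L ^ A := by
    have h1 : 2 * M * f (m + 1) ≤ 2 * M * (2 ^ (2 * A + 1) / L ^ (2 * A + 1)) :=
      mul_le_mul_of_nonneg_left hfm (by linarith)
    refine h1.trans (le_of_eq ?_)
    rw [hM, mul_pow]
    have h2 : L ^ (2 * A + 1) = L ^ (A + 1) * L ^ A := by rw [← pow_add]; congr 1; ring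
    rw [h2]
    have h3 : L ^ (A + 1) ≠ 0 := by positivity
    have h4 : L ^ A ≠ 0 := by positivity
    field_simp
  rw [hsplit]
  refine (norm_add_le _ _).trans ?_
  calc _ ≤ √x * (1 + L) + 2 * M * f (m + 1) := add_le_add hsmall habel
    _ ≤ 2 ^ (A + 1) * F * 2 * √W * x / L ^ A +
        2 * 2 ^ (2 * A + 1) * 4 ^ (A + 1) * C1 * √W * x / L ^ A := add_le_add hsmall2 hbig
    _ = _ := by ring

end Pool.Agent.SWz
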