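import Pool.Agent.SWz.Iface
import Pool.Agent.SWz.InvDer
import Pool.Agent.SWz.SerDer
import Pool.Agent.SWz.Kernel
import Pool.Agent.SWz.Tau2

namespace Pool.Agent.SWz

open ArithmeticFunction

/-- From a bound of the Dirichlet series with `(log n)^(2A+1)` to the summatory function. -/
theorem FIN1_core (A : ℕ) : ∃ C : ℝ, 0 < C ∧ ∀ (a : ℕ → ℂ) (W : ℝ), 1 ≤ W →
    (∀ n : ℕ, 1 ≤ n → ‖a n‖ ≤ 1 + Real.log n) →
    (∀ s : ℂ, 1 < s.re →
      LSeriesSummable (fun n => a n * (Real.log n : ℂ) ^ (2 * A + 1)) s) →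
    (∀ s : ℂ, 1 < s.re → s.re ≤ 2 →
      ‖LSeries (fun n => a n * (Real.log n : ℂ) ^ (2 * A + 1)) s‖ ≤
        W * (|s.im| + 2) ^ (1 / 2 : ℝ)) →
    ∀ x : ℝ, 2 ≤ x → ‖∑ n ∈ Finset.Icc 1 ⌊x⌋₊, a n‖ ≤ C * W * x / (Real.log x) ^ A := by
  obtain ⟨C0, hC0, hk⟩ := kernel
  obtain ⟨C3, hC3, ht⟩ := tau2 A
  refine ⟨C3 * max C0 1, by positivity, ?_⟩
  intro a W hW ha hs hb x hx
  have hm : 1 ≤ max C0 1 := le_max_right C0 1
  have h1 : 1 ≤ max C0 1 * W := by nlinarith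
  have h2 := ht a (max C0 1 * W) h1 ha (fun y hy =>
    (hk _ W (by linarith) hs hb y hy).trans (by
      have : C0 * W ≤ max C0 1 * W :=
        mul_le_mul_of_nonneg_right (le_max_left C0 1) (by linarith)
      exact mul_le_mul_of_nonneg_right this (by linarith))) x hx
  refine h2.trans ?_
  have hlog : 0 ≤ Real.log x := Real.log_nonneg (by linarith)
  have h3 : √(max C0 1 * W) ≤ max C0 1 * W := by
    rw [Real.sqrt_le_left (by linarith)]
    nlinarith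
  apply div_le_div_of_nonneg_right _ (pow_nonneg hlog A)
  have h4 : C3 * √(max C0 1 * W) ≤ C3 * (max C0 1 * W) := mul_le_mul_of_nonneg_left h3 hC3.le
  calc C3 * √(max C0 1 * W) * x ≤ C3 * (max C0 1 * W) * x :=
        mul_le_mul_of_nonneg_right h4 (by linarith)
    _ = C3 * max C0 1 * W * x := by ring

theorem FIN1_mu (n : ℕ) : ‖((moebius n : ℤ) : ℂ)‖ ≤ 1 := by
  rw [Complex.norm_intCast]
  exact_mod_cast abs_moebius_le_one

theorem FIN1_vM (n : ℕ) (hn : 1 ≤ n) : ‖((vonMangoldt n : ℝ) : ℂ)‖ ≤ Real.log n := by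
  rw [Complex.norm_real, Real.norm_of_nonneg vonMangoldt_nonneg]
  exact vonMangoldt_le_log

theorem FIN1_pos (n : ℕ) (hn : 1 ≤ n) : 0 ≤ Real.log (n : ℝ) :=
  Real.log_nonneg (by exact_mod_cast hn)

/-- MODULE FIN1. HINT: `inv_der` with `k = 2A+1`, `ser_der`, `kernel` with `W = C q^(1/2)`
(`(q(|t|+2))^(1/2) = q^(1/2) (|t|+2)^(1/2)`), `tau2`; `√(C q^(1/2)) ≤ C' q`. -/
theorem mu_chi_aux (hD : GrowthD) (hL : Lower) (A : ℕ) :
    ∃ C : ℝ, ∀ (q : ℕ) [NeZero q] (χ : DirichletCharacter ℂ q), χ ≠ 1 → ∀ x : ℝ, 2 ≤ x →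
      ‖∑ n ∈ Finset.Icc 1 ⌊x⌋₊, χ n * ((moebius n : ℤ) : ℂ)‖ ≤ C * q * x / (Real.log x) ^ A ∧
      ‖∑ n ∈ Finset.Icc 1 ⌊x⌋₊, χ n * ((vonMangoldt n : ℝ) : ℂ)‖ ≤ C * q * x / (Real.log x) ^ A := by
  obtain ⟨C1, h1⟩ := inv_der hD hL (2 * A + 1)
  obtain ⟨C2, hC2, h2⟩ := FIN1_core A
  have hm : 1 ≤ max C1 1 := le_max_right C1 1
  refine ⟨C2 * max C1 1, ?_⟩
  intro q _ χ hχ x hx
  have hq : (1 : ℝ) ≤ q := by exact_mod_cast Nat.pos_of_ne_zero (NeZero.ne q)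
  have hlog : 0 ≤ Real.log x := Real.log_nonneg (by linarith)
  -- the constant
  have hW : 1 ≤ max C1 1 * q := by nlinarith
  have hbd : ∀ s : ℂ, 1 < s.re → s.re ≤ 2 →
      C1 * ((q : ℝ) * (|s.im| + 2)) ^ (1 / 2 : ℝ) ≤
        max C1 1 * q * (|s.im| + 2) ^ (1 / 2 : ℝ) := by
    intro s _ _
    have h3 : 0 ≤ |s.im| + 2 := by positivity
    rw [Real.mul_rpow (by linarith) h3]
    have h4 : (q : ℝ) ^ (1 / 2 : ℝ) ≤ q := by
      calc (q : ℝ) ^ (1 / 2 : ℝ) ≤ (q : ℝ) ^ (1 : ℝ) :=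
            Real.rpow_le_rpow_of_exponent_le hq (by norm_num)
        _ = q := Real.rpow_one _
    have h5 : 0 ≤ (q : ℝ) ^ (1 / 2 : ℝ) := Real.rpow_nonneg (by linarith) _
    have h6 : 0 ≤ (|s.im| + 2) ^ (1 / 2 : ℝ) := Real.rpow_nonneg h3 _
    have h7 : C1 * (q : ℝ) ^ (1 / 2 : ℝ) ≤ max C1 1 * q :=
      (mul_le_mul_of_nonneg_right (le_max_left C1 1) h5).trans
        (mul_le_mul_of_nonneg_left h4 (by linarith))
    calc C1 * ((q : ℝ) ^ (1 / 2 : ℝ) * (|s.im| + 2) ^ (1 / 2 : ℝ))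
        = C1 * (q : ℝ) ^ (1 / 2 : ℝ) * (|s.im| + 2) ^ (1 / 2 : ℝ) := by ring
      _ ≤ _ := mul_le_mul_of_nonneg_right h7 h6
  have hconv : C2 * (max C1 1 * q) * x / Real.log x ^ A = C2 * max C1 1 * q * x / Real.log x ^ A := by
    ring
  constructor
  · refine (h2 (fun n => χ n * ((moebius n : ℤ) : ℂ)) (max C1 1 * q) hW ?_ ?_ ?_ x hx).trans
      hconv.le
    · intro n hn
      rw [norm_mul]
      have h3 := χ.norm_le_one (n : ZMod q)
      have h4 := FIN1_mu n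
      have h5 := FIN1_pos n hn
      have h6 := norm_nonneg (((moebius n : ℤ) : ℂ))
      nlinarith [norm_nonneg (χ (n : ZMod q))]
    · intro s hs
      exact (ser_der q χ (2 * A + 1) s hs).2.2.1
    · intro s hs hs2
      have h3 := (h1 q χ hχ s hs hs2).1
      rw [(ser_der q χ (2 * A + 1) s hs).1, norm_mul, norm_pow, norm_neg, norm_one, one_pow,
        one_mul] at h3
      exact h3.trans (hbd s hs hs2)
  · refine (h2 (fun n => χ n * ((vonMangoldt n : ℝ) : ℂ)) (max C1 1 * q) hW ?_ ?_ ?_ x hx).trans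
      hconv.le
    · intro n hn
      rw [norm_mul]
      have h3 := χ.norm_le_one (n : ZMod q)
      have h4 := FIN1_vM n hn
      have h5 := FIN1_pos n hn
      have h6 := norm_nonneg (((vonMangoldt n : ℝ) : ℂ))
      nlinarith [norm_nonneg (χ (n : ZMod q))]
    · intro s hs
      exact (ser_der q χ (2 * A + 1) s hs).2.2.2
    · intro s hs hs2
      have h3 := (h1 q χ hχ s hs hs2).2
      rw [(ser_der q χ (2 * A + 1) s hs).2.1, norm_mul, norm_neg, norm_pow, norm_neg, norm_one,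
        one_pow, one_mul] at h3
      exact h3.trans (hbd s hs hs2)

end Pool.Agent.SWz
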