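import Mathlib

/-!
# Siegel-Walfisz, interface between the two halves (helper84: Growth, Siegel, TotLow; helper85: the rest)
-/

namespace Pool.Agent.SWz

/-- Growth of `L(s, chi)` for nonprincipal `chi` slightly left of the line `Re s = 1`. -/
def Growth : Prop :=
  ∀ ε : ℝ, 0 < ε → ε ≤ 1 / 4 → ∃ C : ℝ, ∀ (q : ℕ) [NeZero q] (χ : DirichletCharacter ℂ q), χ ≠ 1 →
    ∀ s : ℂ, 1 - ε ≤ s.re → s.re ≤ 3 →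
      ‖χ.LFunction s‖ ≤ C * ((q : ℝ) * (|s.im| + 2)) ^ (2 * ε)

/-- Siegel's theorem. -/
def Siegel : Prop :=
  ∀ ε : ℝ, 0 < ε → ∃ c : ℝ, 0 < c ∧ ∀ (q : ℕ) [NeZero q] (χ : DirichletCharacter ℂ q),
    χ ^ 2 = 1 → χ ≠ 1 → c * (q : ℝ) ^ (-ε) ≤ ‖χ.LFunction 1‖

/-- A lower bound of the Euler function. -/
def TotLow : Prop :=
  ∀ ε : ℝ, 0 < ε → ∃ c : ℝ, 0 < c ∧ ∀ q : ℕ, 1 ≤ q →
    c * (q : ℝ) ^ (-ε) ≤ (q.totient : ℝ) / q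

/-- Lower bound of `L(s, chi)` to the right of the line `Re s = 1`, `chi` nonprincipal. -/
def Lower : Prop :=
  ∀ δ : ℝ, 0 < δ → ∃ c : ℝ, 0 < c ∧ ∀ (q : ℕ) [NeZero q] (χ : DirichletCharacter ℂ q), χ ≠ 1 →
    ∀ s : ℂ, 1 < s.re → s.re ≤ 2 →
      c * ((q : ℝ) * (|s.im| + 2)) ^ (-δ) ≤ ‖χ.LFunction s‖

/-- Growth of the derivative. -/
def GrowthD : Prop :=
  ∀ ε : ℝ, 0 < ε → ε ≤ 1 / 8 → ∃ C : ℝ, ∀ (q : ℕ) [NeZero q] (χ : DirichletCharacter ℂ q), χ ≠ 1 →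
    ∀ s : ℂ, 1 - ε ≤ s.re → s.re ≤ 5 / 2 →
      ‖deriv χ.LFunction s‖ ≤ C * ((q : ℝ) * (|s.im| + 2)) ^ (4 * ε)

/-- Growth of the zeta function, away from the real axis. -/
def ZGrow : Prop :=
  ∀ ε : ℝ, 0 < ε → ε ≤ 1 / 4 → ∃ C : ℝ, ∀ s : ℂ, 1 - ε ≤ s.re → s.re ≤ 3 → s.im ≠ 0 →
    ‖riemannZeta s‖ ≤ C * (1 + 1 / |s.im|) * (|s.im| + 2) ^ (2 * ε)

/-- The principal character. -/
def LTriv : Prop :=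
  ∀ ε : ℝ, 0 < ε → ∃ C : ℝ, ∀ (q : ℕ) [NeZero q] (s : ℂ), 1 ≤ s.re → s ≠ 1 →
    ‖(1 : DirichletCharacter ℂ q).LFunction s‖ ≤ C * (q : ℝ) ^ ε * ‖riemannZeta s‖

end Pool.Agent.SWz
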