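import Mathlib

namespace Pool.Agent.SWz
open Filter Topology Complex

/-- the entire function `(s - 1) ζ(s)` -/
noncomputable def ZCompG : ℂ → ℂ := Function.update (fun s => (s - 1) * riemannZeta s) 1 1

lemma ZCompG_of_ne {s : ℂ} (hs : s ≠ 1) : ZCompG s = (s - 1) * riemannZeta s := by
  unfold ZCompG
  rw [Function.update_of_ne hs]

lemma ZCompG_one : ZCompG 1 = 1 := by
  unfold ZCompG
  rw [Function.update_self]

lemma ZCompG_differentiable : Differentiable ℂ ZCompG := by
  rw [← differentiableOn_univ,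
    ← differentiableOn_compl_singleton_and_continuousAt_iff (c := 1) Filter.univ_mem]
  refine ⟨DifferentiableOn.congr (f := fun s ↦ (s - 1) * riemannZeta s)
    (fun x hs ↦ DifferentiableAt.differentiableWithinAt ?_)
    fun _ hs ↦ ZCompG_of_ne (Set.mem_sdiff_singleton.mp hs).2, ?_⟩
  · have hx : x ≠ 1 := (Set.mem_sdiff_singleton.mp hs).2
    exact ((differentiableAt_id).sub_const 1).mul (differentiableAt_riemannZeta hx)
  · have : ContinuousAt ZCompG 1 := by
      unfold ZCompG
      rw [continuousAt_update_same]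
      exact riemannZeta_residue_one
    exact this

lemma ZCompG_ne_zero {s : ℂ} (hs : 1 ≤ s.re) : ZCompG s ≠ 0 := by
  by_cases h : s = 1
  · rw [h, ZCompG_one]; exact one_ne_zero
  · rw [ZCompG_of_ne h]
    exact mul_ne_zero (sub_ne_zero.2 h) (riemannZeta_ne_zero_of_one_le_re hs)

lemma ZComp_bound (F : ℂ → ℂ) (hF : DifferentiableOn ℂ F {z | ZCompG z ≠ 0}) (k : ℕ) :
    ∃ C : ℝ, ∀ s : ℂ, 1 < s.re → s.re ≤ 2 → |s.im| ≤ 1 → ‖iteratedDeriv k F s‖ ≤ C := by
  have hopen : IsOpen {z | ZCompG z ≠ 0} :=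
    isOpen_ne_fun ZCompG_differentiable.continuous continuous_const
  have han := (hF.analyticOnNhd hopen).iterated_deriv k
  have hK : IsCompact (Set.Icc (1:ℝ) 2 ×ℂ Set.Icc (-1:ℝ) 1) := isCompact_Icc.reProdIm isCompact_Icc
  have hsub : (Set.Icc (1:ℝ) 2 ×ℂ Set.Icc (-1:ℝ) 1) ⊆ {z | ZCompG z ≠ 0} := by
    intro z hz
    rw [mem_reProdIm] at hz
    exact ZCompG_ne_zero hz.1.1
  obtain ⟨C, hC⟩ := hK.exists_bound_of_continuousOn (han.continuousOn.mono hsub)
  refine ⟨C, fun s h1 h2 h3 => ?_⟩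
  rw [iteratedDeriv_eq_iterate]
  refine hC s ?_
  rw [mem_reProdIm]
  exact ⟨⟨h1.le, h2⟩, abs_le.1 h3⟩

/-- MODULE ZCOMP. Near the pole, by compactness. HINT: `G = DirichletCharacter.LFunctionTrivChar₁ 1` is entire,
`G s = (s-1) zeta(s)` for `s ≠ 1`, `G 1 = 1`, `G ≠ 0` on `Re s ≥ 1` (`riemannZeta_ne_zero_of_one_le_re`). For `Re s > 1`
the first function is `(s-1)/G s` near `s`, the second `G'/G + dslope G 1` near `s`
(`zeta'/zeta = G'/G - 1/(s-1)`, `zeta = G/(s-1)`, `(G s - 1)/(s-1) = dslope G 1 s`). Both are analytic on the open set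
`G ≠ 0`, hence their `iteratedDeriv k` is continuous there and bounded on the compact set `[1,2] × [-1,1]`. -/
theorem zcomp (k : ℕ) :
    ∃ C : ℝ, ∀ s : ℂ, 1 < s.re → s.re ≤ 2 → |s.im| ≤ 1 →
      ‖iteratedDeriv k (fun z => (riemannZeta z)⁻¹) s‖ ≤ C ∧
      ‖iteratedDeriv k (fun z => deriv riemannZeta z / riemannZeta z + riemannZeta z) s‖ ≤ C := by
  have hGd := ZCompG_differentiable
  obtain ⟨C1, hC1⟩ := ZComp_bound (fun z => (z - 1) / ZCompG z)
    (fun z hz => (((differentiableAt_id).sub_const 1).div (hGd z) hz).differentiableWithinAt) k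
  have hds : Differentiable ℂ (dslope ZCompG 1) := by
    rw [← differentiableOn_univ, Complex.differentiableOn_dslope univ_mem]
    exact hGd.differentiableOn
  have hdd : Differentiable ℂ (deriv ZCompG) := by
    have h1 := (hGd.differentiableOn (s := Set.univ)).deriv isOpen_univ
    exact differentiableOn_univ.1 h1
  obtain ⟨C2, hC2⟩ := ZComp_bound (fun z => deriv ZCompG z / ZCompG z + dslope ZCompG 1 z)
    (fun z hz => (((hdd z).div (hGd z) hz).add (hds z)).differentiableWithinAt) k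
  refine ⟨max C1 C2, fun s h1 h2 h3 => ?_⟩
  have hev : ∀ᶠ z in 𝓝 s, 1 < z.re :=
    (isOpen_lt continuous_const continuous_re).mem_nhds h1
  have e1 : (fun z => (riemannZeta z)⁻¹) =ᶠ[𝓝 s] (fun z => (z - 1) / ZCompG z) := by
    filter_upwards [hev] with z hz
    have hz1 : z ≠ 1 := by rintro rfl; simp at hz
    have hz2 : riemannZeta z ≠ 0 := riemannZeta_ne_zero_of_one_le_re hz.le
    have hz3 : z - 1 ≠ 0 := sub_ne_zero.2 hz1
    rw [ZCompG_of_ne hz1]
    field_simp
  have e2 : (fun z => deriv riemannZeta z / riemannZeta z + riemannZeta z) =ᶠ[𝓝 s]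
      (fun z => deriv ZCompG z / ZCompG z + dslope ZCompG 1 z) := by
    filter_upwards [hev] with z hz
    have hz1 : z ≠ 1 := by rintro rfl; simp at hz
    have hz2 : riemannZeta z ≠ 0 := riemannZeta_ne_zero_of_one_le_re hz.le
    have hz3 : z - 1 ≠ 0 := sub_ne_zero.2 hz1
    have hd : deriv ZCompG z = (z - 1) * deriv riemannZeta z + riemannZeta z := by
      have H : deriv ZCompG z = deriv (fun w ↦ (w - 1) * riemannZeta w) z := by
        refine EventuallyEq.deriv_eq ?_
        filter_upwards [isOpen_ne.mem_nhds hz1] with w hw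
        exact ZCompG_of_ne hw
      rw [H, deriv_fun_mul (by fun_prop) (differentiableAt_riemannZeta hz1), deriv_sub_const,
        deriv_id'', one_mul, add_comm]
    rw [hd, dslope_of_ne _ hz1, slope_def_field, ZCompG_one, ZCompG_of_ne hz1]
    field_simp
    ring
  constructor
  · rw [e1.iteratedDeriv_eq k]
    exact (hC1 s h1 h2 h3).trans (le_max_left _ _)
  · rw [e2.iteratedDeriv_eq k]
    exact (hC2 s h1 h2 h3).trans (le_max_right _ _)

end Pool.Agent.SWz
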