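import Mathlib

namespace Pool.Agent.SWz

open ArithmeticFunction

lemma ZSER_iter (f : ℕ → ℂ) (k : ℕ) (n : ℕ) :
    (LSeries.logMul^[k] f) n = f n * (Real.log n : ℂ) ^ k := by
  induction k with
  | zero => simp
  | succ k ih =>
    rw [Function.iterate_succ_apply']
    change Complex.log n * (LSeries.logMul^[k] f) n = _
    rw [ih, Complex.natCast_log]
    ring

lemma ZSER_gen (f : ℕ → ℂ) (F : ℂ → ℂ) (hf : ∀ y : ℝ, 1 < y → LSeriesSummable f y)
    (hF : ∀ z : ℂ, 1 < z.re → F z = LSeries f z) (k : ℕ) (s : ℂ) (hs : 1 < s.re) :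
    iteratedDeriv k F s = (-1) ^ k * LSeries (fun n => f n * (Real.log n : ℂ) ^ k) s ∧
    LSeriesSummable (fun n => f n * (Real.log n : ℂ) ^ k) s := by
  have hab : LSeries.abscissaOfAbsConv f ≤ ((1 : ℝ) : EReal) :=
    LSeries.abscissaOfAbsConv_le_of_forall_lt_LSeriesSummable hf
  have hab2 : LSeries.abscissaOfAbsConv f < s.re :=
    lt_of_le_of_lt hab (by exact_mod_cast hs)
  have hfun : LSeries.logMul^[k] f = fun n => f n * (Real.log n : ℂ) ^ k := by
    funext n; exact ZSER_iter f k n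
  have hev : F =ᶠ[nhds s] LSeries f := by
    have hopen : IsOpen {z : ℂ | 1 < z.re} := isOpen_lt continuous_const Complex.continuous_re
    filter_upwards [hopen.mem_nhds hs] with z hz
    exact hF z hz
  constructor
  · rw [hev.iteratedDeriv_eq k, LSeries_iteratedDeriv k hab2, hfun]
  · rw [← hfun]
    apply LSeriesSummable_of_abscissaOfAbsConv_lt_re
    rw [LSeries.absicssaOfAbsConv_logPowMul]
    exact hab2

/-- MODULE ZSER. As `ser_der` for zeta. -/
theorem zser (k : ℕ) (s : ℂ) (hs : 1 < s.re) :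
    iteratedDeriv k (fun z => (riemannZeta z)⁻¹) s =
      (-1) ^ k * LSeries (fun n => ((moebius n : ℤ) : ℂ) * (Real.log n : ℂ) ^ k) s ∧
    iteratedDeriv k (fun z => deriv riemannZeta z / riemannZeta z + riemannZeta z) s =
      -(-1) ^ k * LSeries (fun n => (((vonMangoldt n : ℝ) : ℂ) - 1) * (Real.log n : ℂ) ^ k) s ∧
    LSeriesSummable (fun n => ((moebius n : ℤ) : ℂ) * (Real.log n : ℂ) ^ k) s ∧
    LSeriesSummable (fun n => (((vonMangoldt n : ℝ) : ℂ) - 1) * (Real.log n : ℂ) ^ k) s := by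
  have h1 := ZSER_gen (fun n => ((moebius n : ℤ) : ℂ)) (fun z => (riemannZeta z)⁻¹)
    (fun y hy => LSeriesSummable_moebius_iff.2 (by simpa using hy))
    (fun z hz => by
      have h := LSeries_zeta_mul_Lseries_moebius hz
      rw [LSeries_zeta_eq_riemannZeta hz] at h
      exact inv_eq_of_mul_eq_one_right h) k s hs
  have hΛ : ∀ z : ℂ, 1 < z.re → LSeriesSummable (fun n => ((vonMangoldt n : ℝ) : ℂ)) z :=
    fun z hz => LSeriesSummable_vonMangoldt hz
  have h1s : ∀ z : ℂ, 1 < z.re → LSeriesSummable (1 : ℕ → ℂ) z :=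
    fun z hz => LSeriesSummable_one_iff.2 hz
  have hf : ∀ z : ℂ, 1 < z.re →
      LSeriesSummable (fun n => -((((vonMangoldt n : ℝ) : ℂ)) - 1)) z := by
    intro z hz
    have := ((hΛ z hz).sub (h1s z hz)).neg
    exact this
  have h2 := ZSER_gen (fun n => -((((vonMangoldt n : ℝ) : ℂ)) - 1))
    (fun z => deriv riemannZeta z / riemannZeta z + riemannZeta z)
    (fun y hy => hf y (by simpa using hy))
    (fun z hz => by
      have e1 : LSeries (fun n => -((((vonMangoldt n : ℝ) : ℂ)) - 1)) z =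
          -(LSeries (fun n => ((vonMangoldt n : ℝ) : ℂ)) z - LSeries (1 : ℕ → ℂ) z) := by
        rw [← LSeries_sub (hΛ z hz) (h1s z hz), ← LSeries_neg]
        rfl
      have e2 := LSeries_vonMangoldt_eq_deriv_riemannZeta_div hz
      have e3 : LSeries (1 : ℕ → ℂ) z = riemannZeta z := LSeries_one_eq_riemannZeta hz
      change deriv riemannZeta z / riemannZeta z + riemannZeta z = _
      rw [e1, e2, e3]
      ring) k s hs
  have e4 : (fun n : ℕ => -((((vonMangoldt n : ℝ) : ℂ)) - 1) * (Real.log n : ℂ) ^ k) =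
      -(fun n : ℕ => ((((vonMangoldt n : ℝ) : ℂ)) - 1) * (Real.log n : ℂ) ^ k) := by
    funext n
    simp only [Pi.neg_apply]
    ring
  refine ⟨h1.1, ?_, h1.2, ?_⟩
  · rw [h2.1, e4, LSeries_neg]
    ring
  · have h3 := h2.2
    rw [e4] at h3
    have := h3.neg
    rwa [neg_neg] at this

end Pool.Agent.SWz
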