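import Pool.Agent.SWz.ZInv
import Pool.Agent.SWz.ZComp
import Pool.Agent.SWz.ZSer
import Pool.Agent.SWz.Kernel
import Pool.Agent.SWz.Tau2
import Pool.Agent.SWz.Iface

namespace Pool.Agent.SWz

open ArithmeticFunction

theorem FIN2_core (A : ℕ) : ∃ C : ℝ, 0 < C ∧ ∀ (a : ℕ → ℂ) (W : ℝ), 1 ≤ W →
    (∀ n : ℕ, 1 ≤ n → ‖a n‖ ≤ 1 + Real.log n) →
    (∀ s : ℂ, 1 < s.re →
      LSeriesSummable (fun n => a n * (Real.log n : ℂ) ^ (2 * A + 1)) s) →
    (∀ s : ℂ, 1 < s.re → s.re ≤ 2 →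
      ‖LSeries (fun n => a n * (Real.log n : ℂ) ^ (2 * A + 1)) s‖ ≤
        W * (|s.im| + 2) ^ (1 / 2 : ℝ)) →
    ∀ x : ℝ, 2 ≤ x → ‖∑ n ∈ Finset.Icc 1 ⌊x⌋₊, a n‖ ≤ C * W * x / (Real.log x) ^ A := by
  obtain ⟨C0, hC0, hk⟩ := kernel
  obtain ⟨C3, hC3, ht⟩ := tau2 A
  refine ⟨C3 * max C0 1, by positivity, ?_⟩
  intro a W hW ha hs hb x hx
  have hm : 1 ≤ max C0 1 := le_max_right C0 1
  have h1 : 1 ≤ max C0 1 * W := by nlinarith
  have h2 := ht a (max C0 1 * W) h1 ha (fun y hy =>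
    (hk _ W (by linarith) hs hb y hy).trans (by
      have : C0 * W ≤ max C0 1 * W :=
        mul_le_mul_of_nonneg_right (le_max_left C0 1) (by linarith)
      exact mul_le_mul_of_nonneg_right this (by linarith))) x hx
  refine h2.trans ?_
  have hlog : 0 ≤ Real.log x := Real.log_nonneg (by linarith)
  have h3 : √(max C0 1 * W) ≤ max C0 1 * W := by
    rw [Real.sqrt_le_left (by linarith)]
    nlinarith
  apply div_le_div_of_nonneg_right _ (pow_nonneg hlog A)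
  have h4 : C3 * √(max C0 1 * W) ≤ C3 * (max C0 1 * W) := mul_le_mul_of_nonneg_left h3 hC3.le
  calc C3 * √(max C0 1 * W) * x ≤ C3 * (max C0 1 * W) * x :=
        mul_le_mul_of_nonneg_right h4 (by linarith)
    _ = C3 * max C0 1 * W * x := by ring

theorem FIN2_log (A : ℕ) (x : ℝ) (hx : 2 ≤ x) :
    1 ≤ ((A : ℝ) + 1) ^ A * x / (Real.log x) ^ A := by
  have hlog : 0 < Real.log x := Real.log_pos (by linarith)
  rw [one_le_div (pow_pos hlog A)]
  have hA : (0 : ℝ) < A + 1 := by positivity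
  have h1 := Real.log_le_rpow_div (x := x) (ε := 1 / ((A : ℝ) + 1)) (by linarith) (by positivity)
  rw [div_div_eq_mul_div, div_one] at h1
  calc Real.log x ^ A ≤ (x ^ (1 / ((A : ℝ) + 1)) * (A + 1)) ^ A :=
        pow_le_pow_left₀ hlog.le h1 A
    _ = (x ^ (1 / ((A : ℝ) + 1))) ^ A * (A + 1) ^ A := mul_pow _ _ _
    _ ≤ x * (A + 1) ^ A := by
        apply mul_le_mul_of_nonneg_right _ (by positivity)
        rw [← Real.rpow_natCast, ← Real.rpow_mul (by linarith)]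
        calc x ^ (1 / ((A : ℝ) + 1) * A) ≤ x ^ (1 : ℝ) := by
              apply Real.rpow_le_rpow_of_exponent_le (by linarith)
              rw [one_div_mul_eq_div, div_le_one hA]
              linarith
          _ = x := Real.rpow_one x
    _ = (A + 1) ^ A * x := mul_comm _ _

/-- MODULE FIN2. The prime number theorem with error `x/(log x)^A`. -/
theorem pnt (hZ : ZGrow) (A : ℕ) :
    ∃ C : ℝ, ∀ x : ℝ, 2 ≤ x →
      |∑ n ∈ Finset.Icc 1 ⌊x⌋₊, ((moebius n : ℤ) : ℝ)| ≤ C * x / (Real.log x) ^ A ∧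
      |∑ n ∈ Finset.Icc 1 ⌊x⌋₊, (vonMangoldt n : ℝ) - x| ≤ C * x / (Real.log x) ^ A := by
  obtain ⟨C1, h1⟩ := zinv hZ (2 * A + 1)
  obtain ⟨C1', h1'⟩ := zcomp (2 * A + 1)
  obtain ⟨C2, hC2, h2⟩ := FIN2_core A
  obtain ⟨W, hW⟩ : ∃ W : ℝ, W = max (max C1 C1') 1 := ⟨_, rfl⟩
  have hW1 : 1 ≤ W := by rw [hW]; exact le_max_right _ _
  have hWC : C1 ≤ W := by rw [hW]; exact (le_max_left _ _).trans (le_max_left _ _)
  have hWC' : C1' ≤ W := by rw [hW]; exact (le_max_right _ _).trans (le_max_left _ _)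
  -- the bound of the derivatives
  have hbd : ∀ s : ℂ, 1 < s.re → s.re ≤ 2 →
      ‖iteratedDeriv (2 * A + 1) (fun z => (riemannZeta z)⁻¹) s‖ ≤
        W * (|s.im| + 2) ^ (1 / 2 : ℝ) ∧
      ‖iteratedDeriv (2 * A + 1) (fun z => deriv riemannZeta z / riemannZeta z + riemannZeta z) s‖ ≤
        W * (|s.im| + 2) ^ (1 / 2 : ℝ) := by
    intro s hs hs2
    have h3 : (1 : ℝ) ≤ (|s.im| + 2) ^ (1 / 2 : ℝ) :=
      Real.one_le_rpow (by linarith [abs_nonneg s.im]) (by norm_num)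
    rcases le_total 1 |s.im| with h | h
    · have h4 := h1 s hs hs2 h
      have h5 : C1 * (|s.im| + 2) ^ (1 / 2 : ℝ) ≤ W * (|s.im| + 2) ^ (1 / 2 : ℝ) :=
        mul_le_mul_of_nonneg_right hWC (by linarith)
      exact ⟨h4.1.trans h5, h4.2.trans h5⟩
    · have h4 := h1' s hs hs2 h
      have h5 : C1' ≤ W * (|s.im| + 2) ^ (1 / 2 : ℝ) := by nlinarith
      exact ⟨h4.1.trans h5, h4.2.trans h5⟩
  refine ⟨C2 * W + ((A : ℝ) + 1) ^ A, ?_⟩
  intro x hx
  have hlog : 0 < Real.log x := Real.log_pos (by linarith)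
  have hxA : 0 ≤ x / Real.log x ^ A := by positivity
  have hA0 : 0 ≤ ((A : ℝ) + 1) ^ A := by positivity
  have hpos : ∀ n : ℕ, 1 ≤ n → 0 ≤ Real.log (n : ℝ) := fun n hn =>
    Real.log_nonneg (by exact_mod_cast hn)
  constructor
  · have h3 := h2 (fun n => ((moebius n : ℤ) : ℂ)) W hW1 (by
      intro n hn
      have h4 : ‖((moebius n : ℤ) : ℂ)‖ ≤ 1 := by
        rw [Complex.norm_intCast]
        exact_mod_cast abs_moebius_le_one
      linarith [hpos n hn]) (fun s hs => (zser (2 * A + 1) s hs).2.2.1) (by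
      intro s hs hs2
      have h3 := (hbd s hs hs2).1
      rwa [(zser (2 * A + 1) s hs).1, norm_mul, norm_pow, norm_neg, norm_one, one_pow,
        one_mul] at h3) x hx
    have h4 : ‖∑ n ∈ Finset.Icc 1 ⌊x⌋₊, ((moebius n : ℤ) : ℂ)‖ =
        |∑ n ∈ Finset.Icc 1 ⌊x⌋₊, ((moebius n : ℤ) : ℝ)| := by
      rw [← Real.norm_eq_abs, ← Complex.norm_real]
      push_cast
      rfl
    rw [h4] at h3
    refine h3.trans ?_
    rw [mul_div_assoc, mul_div_assoc]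
    apply mul_le_mul_of_nonneg_right _ hxA
    linarith
  · have h3 := h2 (fun n => ((vonMangoldt n : ℝ) : ℂ) - 1) W hW1 (by
      intro n hn
      have h4 : ((vonMangoldt n : ℝ) : ℂ) - 1 = ((vonMangoldt n - 1 : ℝ) : ℂ) := by push_cast; rfl
      rw [h4, Complex.norm_real, Real.norm_eq_abs, abs_le]
      have h5 : vonMangoldt n ≤ Real.log n := vonMangoldt_le_log
      have h6 : 0 ≤ vonMangoldt n := vonMangoldt_nonneg
      constructor
      · linarith [hpos n hn]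
      · linarith) (fun s hs => (zser (2 * A + 1) s hs).2.2.2) (by
      intro s hs hs2
      have h3 := (hbd s hs hs2).2
      rwa [(zser (2 * A + 1) s hs).2.1, norm_mul, norm_neg, norm_pow, norm_neg, norm_one,
        one_pow, one_mul] at h3) x hx
    have h4 : ‖∑ n ∈ Finset.Icc 1 ⌊x⌋₊, (((vonMangoldt n : ℝ) : ℂ) - 1)‖ =
        |∑ n ∈ Finset.Icc 1 ⌊x⌋₊, (vonMangoldt n : ℝ) - (⌊x⌋₊ : ℝ)| := by
      rw [← Real.norm_eq_abs, ← Complex.norm_real]
      congr 1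
      rw [Finset.sum_sub_distrib]
      push_cast
      simp
    rw [h4] at h3
    have h5 : |(⌊x⌋₊ : ℝ) - x| ≤ 1 := by
      rw [abs_le]
      have h6 := Nat.floor_le (by linarith : 0 ≤ x)
      have h7 := Nat.lt_floor_add_one x
      constructor <;> linarith
    have h6 := FIN2_log A x hx
    have h7 : |∑ n ∈ Finset.Icc 1 ⌊x⌋₊, (vonMangoldt n : ℝ) - x| ≤
        |∑ n ∈ Finset.Icc 1 ⌊x⌋₊, (vonMangoldt n : ℝ) - (⌊x⌋₊ : ℝ)| + |(⌊x⌋₊ : ℝ) - x| := by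
      have := abs_add_le (∑ n ∈ Finset.Icc 1 ⌊x⌋₊, (vonMangoldt n : ℝ) - (⌊x⌋₊ : ℝ))
        ((⌊x⌋₊ : ℝ) - x)
      rwa [sub_add_sub_cancel] at this
    refine h7.trans ?_
    calc |∑ n ∈ Finset.Icc 1 ⌊x⌋₊, (vonMangoldt n : ℝ) - (⌊x⌋₊ : ℝ)| + |(⌊x⌋₊ : ℝ) - x| ≤
        C2 * W * x / Real.log x ^ A + ((A : ℝ) + 1) ^ A * x / (Real.log x) ^ A :=
          add_le_add h3 (h5.trans h6)
      _ = (C2 * W + ((A : ℝ) + 1) ^ A) * x / Real.log x ^ A := by ring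

end Pool.Agent.SWz
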