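import Mathlib

/-! MP_3509fd_nt part C1 (Siegel-Walfisz): Euler factors at the primes dividing `q`. -/

namespace Pool.Agent.SWz

open Complex

/-- `2^(number of primes dividing q) <= C q^ε`. -/
theorem two_pow_card_le (ε : ℝ) (hε : 0 < ε) : ∃ C : ℝ, 0 < C ∧ ∀ q : ℕ, 0 < q →
    (2 : ℝ) ^ q.primeFactors.card ≤ C * (q : ℝ) ^ ε := by
  obtain ⟨P, hP⟩ := exists_nat_gt ((2 : ℝ) ^ (1 / ε))
  have hPpos : (0 : ℝ) < P := lt_trans (Real.rpow_pos_of_pos (by norm_num) _) hP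
  have hP2 : (2 : ℝ) ≤ (P : ℝ) ^ ε := by
    have h1 : ((2 : ℝ) ^ (1 / ε)) ^ ε ≤ (P : ℝ) ^ ε :=
      Real.rpow_le_rpow (Real.rpow_pos_of_pos (by norm_num) _).le hP.le hε.le
    rwa [← Real.rpow_mul (by norm_num), one_div, inv_mul_cancel₀ hε.ne', Real.rpow_one] at h1
  refine ⟨2 ^ P, by positivity, ?_⟩
  intro q hq
  have h1 : (2 : ℝ) ^ q.primeFactors.card = ∏ p ∈ q.primeFactors, (2 : ℝ) := by
    rw [Finset.prod_const]
  rw [h1, ← Finset.prod_filter_mul_prod_filter_not q.primeFactors (fun p => p < P)]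
  have h2 : ∏ p ∈ q.primeFactors with p < P, (2 : ℝ) ≤ 2 ^ P := by
    rw [Finset.prod_const]
    apply pow_le_pow_right₀ (by norm_num)
    have : (q.primeFactors.filter (fun p => p < P)) ⊆ Finset.range P := by
      intro p hp
      rw [Finset.mem_filter] at hp
      exact Finset.mem_range.2 hp.2
    simpa using Finset.card_le_card this
  have h3 : ∏ p ∈ q.primeFactors with ¬ p < P, (2 : ℝ) ≤ (q : ℝ) ^ ε := by
    have h4 : ∏ p ∈ q.primeFactors with ¬ p < P, (2 : ℝ) ≤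
        ∏ p ∈ q.primeFactors with ¬ p < P, (p : ℝ) ^ ε := by
      apply Finset.prod_le_prod
      · intro p _
        norm_num
      · intro p hp
        rw [Finset.mem_filter] at hp
        refine le_trans hP2 ?_
        apply Real.rpow_le_rpow hPpos.le _ hε.le
        exact_mod_cast not_lt.1 hp.2
    have h5 : ∏ p ∈ q.primeFactors with ¬ p < P, (p : ℝ) ^ ε ≤
        ∏ p ∈ q.primeFactors, (p : ℝ) ^ ε := by
      apply Finset.prod_le_prod_of_subset_of_one_le (Finset.filter_subset _ _)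
      · intro p _
        positivity
      · intro p hp _
        apply Real.one_le_rpow _ hε.le
        exact_mod_cast (Nat.prime_of_mem_primeFactors hp).one_lt.le
    have h6 : ∏ p ∈ q.primeFactors, (p : ℝ) ^ ε ≤ (q : ℝ) ^ ε := by
      rw [Real.finsetProd_rpow _ _ (fun p _ => Nat.cast_nonneg p)]
      apply Real.rpow_le_rpow (Finset.prod_nonneg fun p _ => Nat.cast_nonneg p) _ hε.le
      rw [← Nat.cast_prod]
      exact_mod_cast Nat.le_of_dvd hq (Nat.prod_primeFactors_dvd q)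
    exact le_trans h4 (le_trans h5 h6)
  exact mul_le_mul h2 h3 (Finset.prod_nonneg fun _ _ => by norm_num) (by positivity)

/-- `∏_(p | q) (1 + 1/p) <= ∏_(p | q) (1 - 1/p)^(-1) <= C q^ε`: at most `log q / log P` primes
`p > P` divide `q`, each factor is at most `2`; take `log P = log 2 / ε`. -/
theorem prod_inv_le (ε : ℝ) (hε : 0 < ε) : ∃ C : ℝ, 0 < C ∧ ∀ q : ℕ, 0 < q →
    ∏ p ∈ q.primeFactors, (1 - (p : ℝ)⁻¹)⁻¹ ≤ C * (q : ℝ) ^ ε := by
  obtain ⟨C, hC, h⟩ := two_pow_card_le ε hε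
  refine ⟨C, hC, fun q hq => le_trans ?_ (h q hq)⟩
  rw [← Finset.prod_const]
  apply Finset.prod_le_prod
  · intro p hp
    have h1 : (2 : ℝ) ≤ p := by exact_mod_cast (Nat.prime_of_mem_primeFactors hp).two_le
    have h2 : (p : ℝ)⁻¹ ≤ 1 := inv_le_one_of_one_le₀ (by linarith)
    exact inv_nonneg.2 (by linarith)
  · intro p hp
    have h1 : (2 : ℝ) ≤ p := by exact_mod_cast (Nat.prime_of_mem_primeFactors hp).two_le
    have h2 : (p : ℝ)⁻¹ ≤ 2⁻¹ := inv_anti₀ (by norm_num) h1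
    rw [inv_le_comm₀ (by linarith) (by norm_num)]
    linarith

theorem prod_add_le (ε : ℝ) (hε : 0 < ε) : ∃ C : ℝ, 0 < C ∧ ∀ q : ℕ, 0 < q →
    ∏ p ∈ q.primeFactors, (1 + (p : ℝ)⁻¹) ≤ C * (q : ℝ) ^ ε := by
  obtain ⟨C, hC, h⟩ := two_pow_card_le ε hε
  refine ⟨C, hC, fun q hq => le_trans ?_ (h q hq)⟩
  rw [← Finset.prod_const]
  apply Finset.prod_le_prod
  · intro p hp
    positivity
  · intro p hp
    have h1 : (2 : ℝ) ≤ p := by exact_mod_cast (Nat.prime_of_mem_primeFactors hp).two_le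
    have h2 : (p : ℝ)⁻¹ ≤ 2⁻¹ := inv_anti₀ (by norm_num) h1
    linarith

namespace PhiAux

theorem norm_factor {p : ℕ} (hp : p.Prime) (c : ℂ) (hc : ‖c‖ ≤ 1) (s : ℂ) (hs : 1 ≤ s.re) :
    ‖c * (p : ℂ) ^ (-s)‖ ≤ (p : ℝ)⁻¹ := by
  rw [norm_mul]
  have h1 : ‖(p : ℂ) ^ (-s)‖ = (p : ℝ) ^ (-s.re) := by
    rw [← Complex.ofReal_natCast, Complex.norm_cpow_eq_rpow_re_of_pos (by exact_mod_cast hp.pos)]
    simp
  rw [h1]
  have h2 : (p : ℝ) ^ (-s.re) ≤ (p : ℝ) ^ (-1 : ℝ) := by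
    apply Real.rpow_le_rpow_of_exponent_le (by exact_mod_cast hp.one_lt.le)
    linarith
  rw [Real.rpow_neg_one] at h2
  calc ‖c‖ * (p : ℝ) ^ (-s.re) ≤ 1 * (p : ℝ) ^ (-s.re) :=
        mul_le_mul_of_nonneg_right hc (by positivity)
    _ = (p : ℝ) ^ (-s.re) := one_mul _
    _ ≤ _ := h2

theorem upper {p : ℕ} (hp : p.Prime) (c : ℂ) (hc : ‖c‖ ≤ 1) (s : ℂ) (hs : 1 ≤ s.re) :
    ‖1 - c * (p : ℂ) ^ (-s)‖ ≤ 1 + (p : ℝ)⁻¹ := by
  refine le_trans (norm_sub_le _ _) ?_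
  rw [norm_one]
  have := norm_factor hp c hc s hs
  linarith

theorem lower {p : ℕ} (hp : p.Prime) (c : ℂ) (hc : ‖c‖ ≤ 1) (s : ℂ) (hs : 1 ≤ s.re) :
    1 - (p : ℝ)⁻¹ ≤ ‖1 - c * (p : ℂ) ^ (-s)‖ := by
  have h1 := norm_sub_norm_le (1 : ℂ) (c * (p : ℂ) ^ (-s))
  rw [norm_one] at h1
  have := norm_factor hp c hc s hs
  linarith

theorem pos {p : ℕ} (hp : p.Prime) : 0 < 1 - (p : ℝ)⁻¹ := by
  have h1 : (2 : ℝ) ≤ p := by exact_mod_cast hp.two_le
  have h2 : (p : ℝ)⁻¹ ≤ 2⁻¹ := inv_anti₀ (by norm_num) h1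
  linarith

end PhiAux

/-- Passing to a higher level changes the L-function on `Re s >= 1` by at most a factor
`C N^ε` (both directions).  `LFunction_changeLevel`; each Euler factor `1 - χ(p) p^(-s)` has norm
between `1 - 1/p` and `1 + 1/p`. -/
theorem changeLevel_le (ε : ℝ) (hε : 0 < ε) : ∃ C : ℝ, 0 < C ∧
    ∀ (M N : ℕ) [NeZero M] [NeZero N] (h : M ∣ N) (χ : DirichletCharacter ℂ M), χ ≠ 1 →
      ∀ s : ℂ, 1 ≤ s.re →
      ‖(DirichletCharacter.changeLevel h χ).LFunction s‖ ≤ C * (N : ℝ) ^ ε * ‖χ.LFunction s‖ ∧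
      ‖χ.LFunction s‖ ≤ C * (N : ℝ) ^ ε * ‖(DirichletCharacter.changeLevel h χ).LFunction s‖ := by
  obtain ⟨C₁, hC₁, h₁⟩ := prod_add_le ε hε
  obtain ⟨C₂, hC₂, h₂⟩ := prod_inv_le ε hε
  refine ⟨max C₁ C₂, lt_max_of_lt_left hC₁, ?_⟩
  intro M N _ _ h χ hχ s hs
  have hN : 0 < N := Nat.pos_of_ne_zero (NeZero.ne N)
  have key := DirichletCharacter.LFunction_changeLevel h χ (s := s) (Or.inl hχ)
  rw [key, norm_mul, norm_prod]
  have hup : ∏ p ∈ N.primeFactors, ‖1 - χ p * (p : ℂ) ^ (-s)‖ ≤ max C₁ C₂ * (N : ℝ) ^ ε := by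
    refine le_trans (Finset.prod_le_prod (fun p _ => norm_nonneg _) (fun p hp =>
      PhiAux.upper (Nat.prime_of_mem_primeFactors hp) _ (DirichletCharacter.norm_le_one χ _) s hs)) ?_
    refine le_trans (h₁ N hN) ?_
    exact mul_le_mul_of_nonneg_right (le_max_left _ _) (by positivity)
  have hlow : 1 ≤ (max C₁ C₂ * (N : ℝ) ^ ε) * ∏ p ∈ N.primeFactors, ‖1 - χ p * (p : ℂ) ^ (-s)‖ := by
    have h3 : ∏ p ∈ N.primeFactors, (1 - (p : ℝ)⁻¹) ≤
        ∏ p ∈ N.primeFactors, ‖1 - χ p * (p : ℂ) ^ (-s)‖ :=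
      Finset.prod_le_prod (fun p hp => (PhiAux.pos (Nat.prime_of_mem_primeFactors hp)).le)
        (fun p hp => PhiAux.lower (Nat.prime_of_mem_primeFactors hp) _
          (DirichletCharacter.norm_le_one χ _) s hs)
    have h4 : 0 < ∏ p ∈ N.primeFactors, (1 - (p : ℝ)⁻¹) :=
      Finset.prod_pos fun p hp => PhiAux.pos (Nat.prime_of_mem_primeFactors hp)
    have h5 : (∏ p ∈ N.primeFactors, (1 - (p : ℝ)⁻¹))⁻¹ ≤ max C₁ C₂ * (N : ℝ) ^ ε := by
      rw [← Finset.prod_inv_distrib]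
      refine le_trans (h₂ N hN) ?_
      exact mul_le_mul_of_nonneg_right (le_max_right _ _) (by positivity)
    calc (1 : ℝ) = (∏ p ∈ N.primeFactors, (1 - (p : ℝ)⁻¹))⁻¹ *
          ∏ p ∈ N.primeFactors, (1 - (p : ℝ)⁻¹) := (inv_mul_cancel₀ h4.ne').symm
      _ ≤ _ := mul_le_mul h5 h3 h4.le (by positivity)
  constructor
  · rw [mul_comm]
    exact mul_le_mul_of_nonneg_right hup (norm_nonneg _)
  · calc ‖χ.LFunction s‖ = 1 * ‖χ.LFunction s‖ := (one_mul _).symm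
      _ ≤ ((max C₁ C₂ * (N : ℝ) ^ ε) * ∏ p ∈ N.primeFactors, ‖1 - χ p * (p : ℂ) ^ (-s)‖) *
          ‖χ.LFunction s‖ := mul_le_mul_of_nonneg_right hlow (norm_nonneg _)
      _ = _ := by ring

/-- The L-function of the trivial character against zeta on `Re s > 1`. -/
theorem triv_le (ε : ℝ) (hε : 0 < ε) : ∃ C : ℝ, 0 < C ∧ ∀ (q : ℕ) [NeZero q], ∀ s : ℂ, 1 < s.re →
    ‖(1 : DirichletCharacter ℂ q).LFunction s‖ ≤ C * (q : ℝ) ^ ε * ‖riemannZeta s‖ := by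
  obtain ⟨C₁, hC₁, h₁⟩ := prod_add_le ε hε
  refine ⟨C₁, hC₁, ?_⟩
  intro q _ s hs
  have hq : 0 < q := Nat.pos_of_ne_zero (NeZero.ne q)
  have hs1 : s ≠ 1 := by
    rintro rfl
    simp at hs
  have key := DirichletCharacter.LFunctionTrivChar_eq_mul_riemannZeta (N := q) (s := s) hs1
  have key' : (1 : DirichletCharacter ℂ q).LFunction s =
    (∏ p ∈ q.primeFactors, (1 - (p : ℂ) ^ (-s))) * riemannZeta s := key
  rw [key', norm_mul, norm_prod]
  refine mul_le_mul_of_nonneg_right ?_ (norm_nonneg _)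
  refine le_trans (Finset.prod_le_prod (fun p _ => norm_nonneg _) (fun p hp => ?_)) (h₁ q hq)
  have h2 := PhiAux.upper (Nat.prime_of_mem_primeFactors hp) 1 (by simp) s hs.le
  rwa [one_mul] at h2

end Pool.Agent.SWz
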