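import Mathlib

/-! MP_3509fd_nt part C1 (Siegel-Walfisz): removing a coprimality condition from the Moebius
function, `μ 1_((n,s)=1) = μ * 1_(d | s^∞)`. -/

namespace Pool.Agent.SWz

open Finset ArithmeticFunction

/-- Indicator of the numbers all of whose prime factors divide `s`. -/
noncomputable def Fs (s : ℕ) : ArithmeticFunction ℝ :=
  ⟨fun n => if n ≠ 0 ∧ n.primeFactors ⊆ s.primeFactors then 1 else 0, by simp⟩

theorem Fs_apply (s n : ℕ) :
    Fs s n = if n ≠ 0 ∧ n.primeFactors ⊆ s.primeFactors then 1 else 0 := rfl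

theorem Fs_nonneg (s n : ℕ) : 0 ≤ Fs s n := by
  rw [Fs_apply]; split_ifs <;> norm_num

theorem Fs_mult (s : ℕ) : (Fs s).IsMultiplicative := by
  rw [IsMultiplicative.iff_ne_zero]
  refine ⟨by simp [Fs_apply], ?_⟩
  intro m n hm hn hmn
  simp only [Fs_apply]
  have key : (m * n).primeFactors ⊆ s.primeFactors ↔
      (m.primeFactors ⊆ s.primeFactors ∧ n.primeFactors ⊆ s.primeFactors) := by
    rw [hmn.primeFactors_mul, Finset.union_subset_iff]
  by_cases h1 : m.primeFactors ⊆ s.primeFactors <;> by_cases h2 : n.primeFactors ⊆ s.primeFactors <;>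
    simp [key, h1, h2, hm, hn]

/-- Moebius restricted to the numbers coprime to `s`. -/
noncomputable def Mus (s : ℕ) : ArithmeticFunction ℝ :=
  ⟨fun n => if Nat.Coprime n s then ((moebius n : ℤ) : ℝ) else 0, by simp⟩

theorem Mus_apply (s n : ℕ) :
    Mus s n = if Nat.Coprime n s then ((moebius n : ℤ) : ℝ) else 0 := rfl

theorem Mus_mult (s : ℕ) : (Mus s).IsMultiplicative := by
  rw [IsMultiplicative.iff_ne_zero]
  refine ⟨by simp [Mus_apply], ?_⟩
  intro m n hm hn hmn
  simp only [Mus_apply]
  have key : Nat.Coprime (m * n) s ↔ (Nat.Coprime m s ∧ Nat.Coprime n s) :=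
    Nat.coprime_mul_iff_left
  have := isMultiplicative_moebius.map_mul_of_coprime hmn
  by_cases h1 : Nat.Coprime m s
  · by_cases h2 : Nat.Coprime n s
    · rw [if_pos (key.mpr ⟨h1, h2⟩), if_pos h1, if_pos h2, this]
      push_cast; rfl
    · rw [if_neg (fun h => h2 (key.mp h).2), if_neg h2, mul_zero]
  · rw [if_neg (fun h => h1 (key.mp h).1), if_neg h1, zero_mul]

theorem mus_eq (s : ℕ) (hs : s ≠ 0) : Mus s = Fs s * (moebius : ArithmeticFunction ℝ) := by
  have hμ : ((moebius : ArithmeticFunction ℤ) : ArithmeticFunction ℝ).IsMultiplicative :=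
    isMultiplicative_moebius.intCast
  rw [IsMultiplicative.eq_iff_eq_on_prime_powers _ (Mus_mult s) _ ((Fs_mult s).mul hμ)]
  intro p k hp
  rcases Nat.eq_zero_or_pos k with rfl | hk
  · simp [Mus_apply, mul_apply, Fs_apply]
  rw [mul_apply]
  by_cases hps : p ∣ s
  · -- both vanish
    have h1 : Mus s (p ^ k) = 0 := by
      rw [Mus_apply, if_neg]
      intro h
      have := Nat.Coprime.coprime_dvd_left (dvd_pow_self p hk.ne') h
      exact (Nat.Prime.coprime_iff_not_dvd hp).mp this hps
    rw [h1]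
    have h2 : ∀ x ∈ (p ^ k).divisorsAntidiagonal, Fs s x.1 *
        ((moebius : ArithmeticFunction ℤ) : ArithmeticFunction ℝ) x.2 =
        ((moebius x.2 : ℤ) : ℝ) := by
      intro x hx
      rw [Nat.mem_divisorsAntidiagonal] at hx
      have hx1 : x.1 ∣ p ^ k := ⟨x.2, hx.1.symm⟩
      have : Fs s x.1 = 1 := by
        rw [Fs_apply, if_pos]
        refine ⟨ne_zero_of_dvd_ne_zero hx.2 hx1, ?_⟩
        intro r hr
        have hr1 := Nat.prime_of_mem_primeFactors hr
        have hr2 : r ∣ p ^ k := (Nat.dvd_of_mem_primeFactors hr).trans hx1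
        have hr3 := (Nat.prime_dvd_prime_iff_eq hr1 hp).mp (hr1.dvd_of_dvd_pow hr2)
        rw [hr3]
        exact Nat.mem_primeFactors.mpr ⟨hp, hps, hs⟩
      rw [this, one_mul, intCoe_apply]
    rw [Finset.sum_congr rfl h2]
    have h3 : (∑ x ∈ (p ^ k).divisorsAntidiagonal, moebius x.2) = (0 : ℤ) := by
      have e := congrArg (fun f : ArithmeticFunction ℤ => f (p ^ k)) coe_zeta_mul_moebius
      simp only [mul_apply] at e
      rw [one_apply_ne (by
        intro h
        have := Nat.one_lt_pow hk.ne' hp.one_lt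
        omega)] at e
      rw [← e]
      refine Finset.sum_congr rfl fun x hx => ?_
      rw [Nat.mem_divisorsAntidiagonal] at hx
      have hx0 : x.1 ≠ 0 := by
        intro h
        rw [h, zero_mul] at hx
        exact hx.2 hx.1.symm
      simp [natCoe_apply, zeta_apply, hx0]
    exact_mod_cast h3.symm
  · have hcop : Nat.Coprime (p ^ k) s := Nat.Coprime.pow_left _ ((Nat.Prime.coprime_iff_not_dvd hp).mpr hps)
    rw [Mus_apply, if_pos hcop]
    rw [Finset.sum_eq_single (1, p ^ k)]
    · simp [Fs_apply, intCoe_apply]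
    · intro x hx hne
      rw [Nat.mem_divisorsAntidiagonal] at hx
      have hx1 : x.1 ∣ p ^ k := ⟨x.2, hx.1.symm⟩
      rw [Fs_apply, if_neg, zero_mul]
      rintro ⟨h0, hsub⟩
      obtain ⟨j, hj, hxj⟩ := (Nat.dvd_prime_pow hp).mp hx1
      rcases Nat.eq_zero_or_pos j with rfl | hj0
      · apply hne
        have h1 : x.1 = 1 := by simpa using hxj
        ext
        · exact h1
        · have := hx.1
          rw [h1, one_mul] at this
          exact this
      · have : p ∈ x.1.primeFactors := by
          rw [hxj, Nat.primeFactors_prime_pow hj0.ne' hp]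
          simp
        exact hps (Nat.dvd_of_mem_primeFactors (hsub this))
    · intro h
      exact absurd (Nat.mem_divisorsAntidiagonal.mpr ⟨one_mul _, pow_ne_zero _ hp.ne_zero⟩) h

/-- `∑_(d | s^∞) d^(-3/4) <= 2 τ(s)`. -/
theorem Fs_sum_le (s : ℕ) (hs : s ≠ 0) (N : ℕ) :
    ∑ d ∈ Icc 1 N, Fs s d * (d : ℝ) ^ (-(3 / 4 : ℝ)) ≤ 2 * (s.divisors.card : ℝ) := by
  let f : ℕ →* ℝ :=
    { toFun := fun n => (n : ℝ) ^ (-(3 / 4 : ℝ))
      map_one' := by simp
      map_mul' := fun m n => by
        push_cast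
        exact Real.mul_rpow (by positivity) (by positivity) }
  have hf : ∀ n : ℕ, f n = (n : ℝ) ^ (-(3 / 4 : ℝ)) := fun n => rfl
  have hlt : ∀ {p : ℕ}, p.Prime → ‖f p‖ < 1 := by
    intro p hp
    rw [hf, Real.norm_of_nonneg (by positivity)]
    exact Real.rpow_lt_one_of_one_lt_of_neg (by exact_mod_cast hp.one_lt) (by norm_num)
  obtain ⟨hS, hH⟩ := EulerProduct.summable_and_hasSum_factoredNumbers_prod_filter_prime_geometric
    hlt s.primeFactors
  have hfilter : (s.primeFactors.filter Nat.Prime) = s.primeFactors :=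
    Finset.filter_true_of_mem fun p hp => Nat.prime_of_mem_primeFactors hp
  rw [hfilter] at hH
  -- compare the finite sum with the series
  have h1 : ∑ d ∈ Icc 1 N, Fs s d * (d : ℝ) ^ (-(3 / 4 : ℝ)) =
      ∑ d ∈ (Icc 1 N).filter (fun d => d ∈ Nat.factoredNumbers s.primeFactors), f d := by
    rw [Finset.sum_filter]
    refine Finset.sum_congr rfl fun d hd => ?_
    have hd0 : d ≠ 0 := by
      rw [Finset.mem_Icc] at hd; omega
    rw [hf, Fs_apply]
    by_cases hsub : d.primeFactors ⊆ s.primeFactors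
    · rw [if_pos ⟨hd0, hsub⟩, if_pos (Nat.mem_factoredNumbers_of_primeFactors_subset hd0 hsub),
        one_mul]
    · rw [if_neg (fun h => hsub h.2), if_neg, zero_mul]
      exact fun h => hsub (Nat.primeFactors_subset_of_mem_factoredNumbers h)
  have h2 : ∑ d ∈ (Icc 1 N).filter (fun d => d ∈ Nat.factoredNumbers s.primeFactors), f d ≤
      ∏ p ∈ s.primeFactors, (1 - f p)⁻¹ := by
    set T := (Icc 1 N).filter (fun d => d ∈ Nat.factoredNumbers s.primeFactors) with hT
    have hTm : ∀ d ∈ T, d ∈ Nat.factoredNumbers s.primeFactors := fun d hd =>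
      (Finset.mem_filter.mp hd).2
    have hinj : Function.Injective (fun x : {x // x ∈ T} =>
        (⟨x.1, hTm x.1 x.2⟩ : Nat.factoredNumbers s.primeFactors)) := by
      intro a b hab
      have := congrArg Subtype.val hab
      exact Subtype.ext this
    have e1 : ∑ d ∈ T, f d = ∑ x ∈ T.attach.map ⟨fun x : {x // x ∈ T} =>
        (⟨x.1, hTm x.1 x.2⟩ : Nat.factoredNumbers s.primeFactors), hinj⟩, f (x : ℕ) := by
      rw [Finset.sum_map]
      exact (Finset.sum_attach T (fun d => f d)).symm
    rw [e1]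
    refine sum_le_hasSum _ (fun x _ => ?_) hH
    rw [hf]; positivity
  have h3 : ∏ p ∈ s.primeFactors, (1 - f p)⁻¹ ≤ 2 * 2 ^ s.primeFactors.card := by
    have hp2 : ∀ p : ℕ, p.Prime → 0 < (1 - f p)⁻¹ := by
      intro p hp
      have := hlt hp
      rw [Real.norm_of_nonneg (by rw [hf]; positivity)] at this
      exact inv_pos.mpr (by linarith)
    have hp3 : ∀ p : ℕ, p.Prime → p ≠ 2 → (1 - f p)⁻¹ ≤ 2 := by
      intro p hp hne
      have hp3 : 3 ≤ p := by
        have := hp.two_le
        omega
      have hle : f p ≤ 1 / 2 := by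
        rw [hf]
        calc (p : ℝ) ^ (-(3 / 4 : ℝ)) ≤ (3 : ℝ) ^ (-(3 / 4 : ℝ)) :=
              Real.rpow_le_rpow_of_nonpos (by norm_num) (by exact_mod_cast hp3) (by norm_num)
          _ ≤ 1 / 2 := by
              rw [Real.rpow_neg (by norm_num), one_div]
              apply inv_anti₀ (by norm_num)
              have : (2 : ℝ) ^ (4 : ℝ) ≤ ((3 : ℝ) ^ (3 / 4 : ℝ)) ^ (4 : ℝ) := by
                rw [← Real.rpow_mul (by norm_num)]
                norm_num
              exact (Real.rpow_le_rpow_iff (by norm_num) (by positivity) (by norm_num)).mp this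
      rw [inv_le_comm₀ (by linarith) (by norm_num)]
      linarith
    have h22 : (1 - f 2)⁻¹ ≤ 4 := by
      have hle : f 2 ≤ 3 / 4 := by
        rw [hf]
        push_cast
        rw [Real.rpow_neg (by norm_num)]
        rw [inv_le_comm₀ (by positivity) (by norm_num)]
        have : ((3 / 4 : ℝ)⁻¹) ^ (4 : ℝ) ≤ ((2 : ℝ) ^ (3 / 4 : ℝ)) ^ (4 : ℝ) := by
          rw [← Real.rpow_mul (by norm_num)]
          norm_num
        exact (Real.rpow_le_rpow_iff (by norm_num) (by positivity) (by norm_num)).mp this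
      rw [inv_le_comm₀ (by linarith) (by norm_num)]
      linarith
    by_cases h2m : 2 ∈ s.primeFactors
    · rw [← Finset.mul_prod_erase _ _ h2m]
      have e2 : ∏ p ∈ s.primeFactors.erase 2, (1 - f p)⁻¹ ≤ 2 ^ (s.primeFactors.erase 2).card := by
        rw [← Finset.prod_const]
        refine Finset.prod_le_prod (fun p hp => (hp2 p ?_).le) fun p hp => hp3 p ?_ ?_
        · exact Nat.prime_of_mem_primeFactors (Finset.mem_of_mem_erase hp)
        · exact Nat.prime_of_mem_primeFactors (Finset.mem_of_mem_erase hp)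
        · exact Finset.ne_of_mem_erase hp
      have hc : s.primeFactors.card = (s.primeFactors.erase 2).card + 1 := by
        rw [Finset.card_erase_of_mem h2m]
        have : 0 < s.primeFactors.card := Finset.card_pos.mpr ⟨2, h2m⟩
        omega
      have e3 : 0 ≤ ∏ p ∈ s.primeFactors.erase 2, (1 - f p)⁻¹ :=
        Finset.prod_nonneg fun p hp =>
          (hp2 p (Nat.prime_of_mem_primeFactors (Finset.mem_of_mem_erase hp))).le
      rw [hc, pow_succ]
      calc (1 - f 2)⁻¹ * ∏ p ∈ s.primeFactors.erase 2, (1 - f p)⁻¹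
          ≤ 4 * 2 ^ (s.primeFactors.erase 2).card := by
            apply mul_le_mul h22 e2 e3 (by norm_num)
        _ = _ := by ring
    · have e2 : ∏ p ∈ s.primeFactors, (1 - f p)⁻¹ ≤ 2 ^ s.primeFactors.card := by
        rw [← Finset.prod_const]
        refine Finset.prod_le_prod (fun p hp => (hp2 p ?_).le) fun p hp => hp3 p ?_ ?_
        · exact Nat.prime_of_mem_primeFactors hp
        · exact Nat.prime_of_mem_primeFactors hp
        · rintro rfl; exact h2m hp
      have : (0 : ℝ) < 2 ^ s.primeFactors.card := by positivity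
      linarith
  have h4 : (2 : ℝ) ^ s.primeFactors.card ≤ s.divisors.card := by
    have : 2 ^ s.primeFactors.card ≤ s.divisors.card := by
      rw [Nat.card_divisors hs, ← Finset.prod_const]
      refine Finset.prod_le_prod (fun _ _ => by norm_num) fun p hp => ?_
      have : 0 < s.factorization p :=
        (Nat.prime_of_mem_primeFactors hp).factorization_pos_of_dvd hs
          (Nat.dvd_of_mem_primeFactors hp)
      omega
    exact_mod_cast this
  rw [h1]
  linarith

end Pool.Agent.SWz
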