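import Mathlib
import Pool.Agent.SWz.Twist

/-! MP_3509fd_nt part C1 (Siegel-Walfisz): elementary lemmas for the passage from characters to
residue classes. -/

namespace Pool.Agent.SWz

open Finset ArithmeticFunction

/-- A power of the logarithm is smaller than any power. -/
theorem logpow (A : ℕ) (δ : ℝ) (hδ : 0 < δ) : ∃ K : ℝ, 1 ≤ K ∧ ∀ y : ℝ, 1 ≤ y →
    (Real.log y) ^ A ≤ K * y ^ δ := by
  rcases Nat.eq_zero_or_pos A with rfl | hA
  · refine ⟨1, le_rfl, fun y hy => ?_⟩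
    rw [pow_zero, one_mul]
    exact Real.one_le_rpow hy hδ.le
  have hA' : (0 : ℝ) < A := by exact_mod_cast hA
  refine ⟨max 1 ((δ / A)⁻¹ ^ A), le_max_left _ _, fun y hy => ?_⟩
  have h1 := Real.log_le_rpow_div (show 0 ≤ y by linarith) (show 0 < δ / A by positivity)
  have h2 : (Real.log y) ^ A ≤ (y ^ (δ / A) / (δ / A)) ^ A :=
    pow_le_pow_left₀ (Real.log_nonneg hy) h1 A
  have h3 : (y ^ (δ / A) / (δ / A)) ^ A = (δ / A)⁻¹ ^ A * y ^ δ := by
    rw [div_eq_mul_inv, mul_pow, ← Real.rpow_natCast (y ^ (δ / A)), ← Real.rpow_mul (by linarith),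
      div_mul_cancel₀ _ hA'.ne', mul_comm]
  rw [h3] at h2
  refine h2.trans (mul_le_mul_of_nonneg_right (le_max_right _ _) (by positivity))

/-- Number of elements of a residue class in an initial interval. -/
theorem prog_card (r : ℕ) (hr : 1 ≤ r) (b : ℤ) (x : ℝ) (hx : 0 ≤ x) :
    (((Icc 1 ⌊x⌋₊).filter fun n : ℕ => (r : ℤ) ∣ (n : ℤ) - b).card : ℝ) ≤ x / r + 1 := by
  have hr0 : (0 : ℝ) < r := by exact_mod_cast hr
  have h1 : ((Icc 1 ⌊x⌋₊).filter fun n : ℕ => (r : ℤ) ∣ (n : ℤ) - b).card ≤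
      (Finset.range (⌊x⌋₊ / r + 1)).card := by
    refine Finset.card_le_card_of_injOn (fun n => n / r) ?_ ?_
    · intro n hn
      simp only [coe_filter, Set.mem_ofPred_eq, mem_Icc, coe_range, Set.mem_Iio] at hn ⊢
      exact Nat.lt_succ_of_le (Nat.div_le_div_right hn.1.2)
    · intro m hm n hn h
      simp only [coe_filter, Set.mem_ofPred_eq, mem_Icc] at hm hn
      have hd : (r : ℤ) ∣ (m : ℤ) - n := by
        have := dvd_sub hm.2 hn.2
        rwa [show (m : ℤ) - b - (n - b) = m - n by ring] at this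
      have hmod : m % r = n % r := by
        have : n ≡ m [MOD r] := (Nat.modEq_iff_dvd).mpr hd
        exact this.symm
      have e1 := Nat.div_add_mod m r
      have e2 := Nat.div_add_mod n r
      simp only at h
      rw [← e1, ← e2, h, hmod]
  rw [Finset.card_range] at h1
  calc (((Icc 1 ⌊x⌋₊).filter fun n : ℕ => (r : ℤ) ∣ (n : ℤ) - b).card : ℝ)
      ≤ ((⌊x⌋₊ / r + 1 : ℕ) : ℝ) := by exact_mod_cast h1
    _ ≤ x / r + 1 := by
        push_cast
        have : (((⌊x⌋₊ / r : ℕ)) : ℝ) ≤ (⌊x⌋₊ : ℝ) / r := Nat.cast_div_le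
        have h3 : (⌊x⌋₊ : ℝ) / r ≤ x / r := by
          gcongr
          exact Nat.floor_le hx
        linarith

/-- Orthogonality: a residue class against the coprime numbers. -/
theorem orth (r : ℕ) [NeZero r] (b : ℤ) (hb : IsCoprime b (r : ℤ)) (N : ℕ) (f : ℕ → ℂ) (B : ℝ)
    (hB0 : 0 ≤ B) (hB : ∀ χ : DirichletCharacter ℂ r, χ ≠ 1 → ‖∑ n ∈ Icc 1 N, χ n * f n‖ ≤ B) :
    ‖(∑ n ∈ Icc 1 N, if (r : ℤ) ∣ (n : ℤ) - b then f n else 0)
      - (∑ n ∈ Icc 1 N, if Nat.Coprime n r then f n else 0) / (r.totient : ℂ)‖ ≤ B := by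
  classical
  have hφ : (0 : ℝ) < r.totient := by
    exact_mod_cast Nat.totient_pos.mpr (Nat.pos_of_ne_zero (NeZero.ne r))
  have hφC : (r.totient : ℂ) ≠ 0 := by exact_mod_cast hφ.ne'
  have hu : IsUnit ((b : ZMod r)) := by
    rw [ZMod.coe_int_isUnit_iff_isCoprime]
    exact hb.symm
  -- the key identity
  have key : (r.totient : ℂ) * (∑ n ∈ Icc 1 N, if (r : ℤ) ∣ (n : ℤ) - b then f n else 0) =
      ∑ χ : DirichletCharacter ℂ r, χ ((b : ZMod r))⁻¹ * ∑ n ∈ Icc 1 N, χ n * f n := by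
    simp_rw [Finset.mul_sum]
    rw [Finset.sum_comm]
    refine Finset.sum_congr rfl fun n _ => ?_
    have e := DirichletCharacter.sum_char_inv_mul_char_eq ℂ hu (n : ZMod r)
    calc (r.totient : ℂ) * (if (r : ℤ) ∣ (n : ℤ) - b then f n else 0)
        = (if (b : ZMod r) = (n : ZMod r) then (r.totient : ℂ) else 0) * f n := by
          have hiff : ((b : ZMod r) = (n : ZMod r)) ↔ (r : ℤ) ∣ (n : ℤ) - b := by
            rw [show ((n : ZMod r)) = (((n : ℤ) : ZMod r)) by push_cast; rfl,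
              ZMod.intCast_eq_intCast_iff_dvd_sub]
          by_cases h : (r : ℤ) ∣ (n : ℤ) - b
          · rw [if_pos h, if_pos (hiff.mpr h)]
          · rw [if_neg h, if_neg (fun h' => h (hiff.mp h'))]; simp
      _ = (∑ χ : DirichletCharacter ℂ r, χ ((b : ZMod r))⁻¹ * χ (n : ZMod r)) * f n := by rw [e]
      _ = _ := by
          rw [Finset.sum_mul]
          exact Finset.sum_congr rfl fun χ _ => by ring
  have hprin : ∑ n ∈ Icc 1 N, (1 : DirichletCharacter ℂ r) n * f n =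
      ∑ n ∈ Icc 1 N, if Nat.Coprime n r then f n else 0 := by
    refine Finset.sum_congr rfl fun n _ => ?_
    by_cases h : Nat.Coprime n r
    · rw [if_pos h, MulChar.one_apply ((ZMod.isUnit_iff_coprime n r).mpr h), one_mul]
    · rw [if_neg h, MulChar.map_nonunit _ (fun h' => h ((ZMod.isUnit_iff_coprime n r).mp h')),
        zero_mul]
  have hinv : IsUnit ((b : ZMod r))⁻¹ := by
    obtain ⟨u, hu'⟩ := hu
    rw [← hu', ZMod.inv_coe_unit]
    exact (u⁻¹).isUnit
  have hone : (1 : DirichletCharacter ℂ r) ((b : ZMod r))⁻¹ = 1 := MulChar.one_apply hinv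
  have hsplit : (r.totient : ℂ) * (∑ n ∈ Icc 1 N, if (r : ℤ) ∣ (n : ℤ) - b then f n else 0) =
      (∑ n ∈ Icc 1 N, if Nat.Coprime n r then f n else 0) +
      ∑ χ ∈ (Finset.univ : Finset (DirichletCharacter ℂ r)).erase 1,
        χ ((b : ZMod r))⁻¹ * ∑ n ∈ Icc 1 N, χ n * f n := by
    rw [key, ← Finset.add_sum_erase _ _ (Finset.mem_univ (1 : DirichletCharacter ℂ r)), hone,
      one_mul, hprin]
  have hdiff : (∑ n ∈ Icc 1 N, if (r : ℤ) ∣ (n : ℤ) - b then f n else 0)
      - (∑ n ∈ Icc 1 N, if Nat.Coprime n r then f n else 0) / (r.totient : ℂ) =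
      (∑ χ ∈ (Finset.univ : Finset (DirichletCharacter ℂ r)).erase 1,
        χ ((b : ZMod r))⁻¹ * ∑ n ∈ Icc 1 N, χ n * f n) / (r.totient : ℂ) := by
    rw [eq_div_iff hφC, sub_mul, div_mul_cancel₀ _ hφC, mul_comm, hsplit]
    ring
  have hcard : ((Finset.univ : Finset (DirichletCharacter ℂ r)).card : ℝ) = r.totient := by
    have := DirichletCharacter.card_eq_totient_of_hasEnoughRootsOfUnity ℂ r
    rw [Nat.card_eq_fintype_card] at this
    rw [Finset.card_univ]
    exact_mod_cast this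
  have hcard2 : (((Finset.univ : Finset (DirichletCharacter ℂ r)).erase 1).card : ℝ) ≤ r.totient := by
    rw [← hcard]
    exact_mod_cast Finset.card_le_card (Finset.erase_subset _ _)
  rw [hdiff, norm_div, div_le_iff₀ (by simpa using hφ)]
  calc ‖∑ χ ∈ (Finset.univ : Finset (DirichletCharacter ℂ r)).erase 1,
        χ ((b : ZMod r))⁻¹ * ∑ n ∈ Icc 1 N, χ n * f n‖
      ≤ ∑ χ ∈ (Finset.univ : Finset (DirichletCharacter ℂ r)).erase 1, B := by
        refine (norm_sum_le _ _).trans (Finset.sum_le_sum fun χ hχ => ?_)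
        rw [norm_mul]
        calc ‖χ ((b : ZMod r))⁻¹‖ * ‖∑ n ∈ Icc 1 N, χ n * f n‖
            ≤ 1 * B := mul_le_mul (DirichletCharacter.norm_le_one χ _)
              (hB χ (Finset.ne_of_mem_erase hχ)) (norm_nonneg _) zero_le_one
          _ = B := one_mul _
    _ = (((Finset.univ : Finset (DirichletCharacter ℂ r)).erase 1).card : ℝ) * B := by
        rw [Finset.sum_const, nsmul_eq_mul]
    _ ≤ (r.totient : ℝ) * B := mul_le_mul_of_nonneg_right hcard2 hB0
    _ = B * ‖(r.totient : ℂ)‖ := by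
        rw [Complex.norm_natCast]; ring

end Pool.Agent.SWz
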