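import Mathlib
import Pool.Agent.SWz.ProgA

/-! MP_3509fd_nt part C1 (Siegel-Walfisz): the coprimality condition in residue classes. -/

namespace Pool.Agent.SWz

open Finset ArithmeticFunction

/-- Opening the coprimality condition. -/
theorem twist_open (r s : ℕ) (hs : s ≠ 0) (b : ℤ) (hb : IsCoprime b (r : ℤ))
    (N : ℕ) (G : ℕ → ℝ) (hG0 : ∀ d, 0 ≤ G d)
    (hG : ∀ d : ℕ, 1 ≤ d → d ≤ N → ∀ b' : ℤ, IsCoprime b' (r : ℤ) →
      |∑ m ∈ Icc 1 (N / d), (if (r : ℤ) ∣ (m : ℤ) - b' then ((moebius m : ℤ) : ℝ) else 0)| ≤ G d) :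
    |∑ n ∈ Icc 1 N, (if (r : ℤ) ∣ (n : ℤ) - b ∧ Nat.Coprime n s then
        ((moebius n : ℤ) : ℝ) else 0)| ≤ ∑ d ∈ Icc 1 N, Fs s d * G d := by
  have h1 : ∑ n ∈ Icc 1 N, (if (r : ℤ) ∣ (n : ℤ) - b ∧ Nat.Coprime n s then
        ((moebius n : ℤ) : ℝ) else 0) =
      ∑ n ∈ Icc 1 N, ∑ x ∈ n.divisorsAntidiagonal,
        (if (r : ℤ) ∣ ((x.1 * x.2 : ℕ) : ℤ) - b then Fs s x.1 * ((moebius x.2 : ℤ) : ℝ) else 0) := by
    refine Finset.sum_congr rfl fun n _ => ?_
    have e := congrArg (fun f : ArithmeticFunction ℝ => f n) (mus_eq s hs)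
    simp only [mul_apply, Mus_apply, intCoe_apply] at e
    have e2 : ∑ x ∈ n.divisorsAntidiagonal,
        (if (r : ℤ) ∣ ((x.1 * x.2 : ℕ) : ℤ) - b then Fs s x.1 * ((moebius x.2 : ℤ) : ℝ) else 0) =
        ∑ x ∈ n.divisorsAntidiagonal,
        (if (r : ℤ) ∣ (n : ℤ) - b then Fs s x.1 * ((moebius x.2 : ℤ) : ℝ) else 0) := by
      refine Finset.sum_congr rfl fun x hx => ?_
      rw [(Nat.mem_divisorsAntidiagonal.mp hx).1]
    rw [e2]
    by_cases h : (r : ℤ) ∣ (n : ℤ) - b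
    · simp only [h, true_and, if_true]
      exact e
    · simp [h]
  have h2 : ∑ n ∈ Icc 1 N, ∑ x ∈ n.divisorsAntidiagonal,
        (if (r : ℤ) ∣ ((x.1 * x.2 : ℕ) : ℤ) - b then Fs s x.1 * ((moebius x.2 : ℤ) : ℝ) else 0) =
      ∑ d ∈ Icc 1 N, ∑ m ∈ Icc 1 (N / d),
        (if (r : ℤ) ∣ ((d * m : ℕ) : ℤ) - b then Fs s d * ((moebius m : ℤ) : ℝ) else 0) := by
    rw [Finset.sum_sigma', Finset.sum_sigma']
    refine Finset.sum_bij' (fun x _ => ⟨x.2.1, x.2.2⟩) (fun y _ => ⟨y.1 * y.2, (y.1, y.2)⟩) ?_ ?_ ?_ ?_ ?_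
    · rintro ⟨n, d, m⟩ h
      simp only [mem_sigma, mem_Icc, Nat.mem_divisorsAntidiagonal] at h ⊢
      obtain ⟨⟨hn1, hn2⟩, hdm, hn0⟩ := h
      have hd : 0 < d := Nat.pos_of_ne_zero (by rintro rfl; simp at hdm; omega)
      have hm : 0 < m := Nat.pos_of_ne_zero (by rintro rfl; simp at hdm; omega)
      refine ⟨⟨hd, ?_⟩, hm, ?_⟩
      · calc d ≤ d * m := Nat.le_mul_of_pos_right _ hm
          _ = n := hdm
          _ ≤ N := hn2
      · rw [Nat.le_div_iff_mul_le hd, mul_comm, hdm]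
        exact hn2
    · rintro ⟨d, m⟩ h
      simp only [mem_sigma, mem_Icc, Nat.mem_divisorsAntidiagonal] at h ⊢
      obtain ⟨⟨hd1, hd2⟩, hm1, hm2⟩ := h
      rw [Nat.le_div_iff_mul_le hd1] at hm2
      refine ⟨⟨Nat.mul_pos hd1 hm1, by rw [mul_comm]; exact hm2⟩, trivial, ?_⟩
      exact (Nat.mul_pos hd1 hm1).ne'
    · rintro ⟨n, d, m⟩ h
      simp only [mem_sigma, mem_Icc, Nat.mem_divisorsAntidiagonal] at h
      obtain ⟨_, hdm, _⟩ := h
      simp only [hdm]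
    · rintro ⟨d, m⟩ _
      rfl
    · rintro ⟨n, d, m⟩ _
      rfl
  rw [h1, h2]
  refine (Finset.abs_sum_le_sum_abs _ _).trans (Finset.sum_le_sum fun d hd => ?_)
  rw [mem_Icc] at hd
  have h3 : ∑ m ∈ Icc 1 (N / d),
        (if (r : ℤ) ∣ ((d * m : ℕ) : ℤ) - b then Fs s d * ((moebius m : ℤ) : ℝ) else 0) =
      Fs s d * ∑ m ∈ Icc 1 (N / d),
        (if (r : ℤ) ∣ ((d * m : ℕ) : ℤ) - b then ((moebius m : ℤ) : ℝ) else 0) := by
    rw [Finset.mul_sum]
    refine Finset.sum_congr rfl fun m _ => ?_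
    split_ifs <;> simp
  rw [h3, abs_mul, abs_of_nonneg (Fs_nonneg s d)]
  refine mul_le_mul_of_nonneg_left ?_ (Fs_nonneg s d)
  by_cases hdr : IsCoprime (d : ℤ) (r : ℤ)
  · obtain ⟨u, v, huv⟩ := hdr
    -- u d + v r = 1, inverse of d is u
    have hur : IsCoprime u (r : ℤ) := ⟨(d : ℤ), v, by rw [← huv]; ring⟩
    have hcl : ∀ m : ℕ, ((r : ℤ) ∣ ((d * m : ℕ) : ℤ) - b) ↔ ((r : ℤ) ∣ (m : ℤ) - u * b) := by
      intro m
      push_cast
      constructor
      · intro h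
        have h5 : (m : ℤ) - u * b = u * ((d : ℤ) * m - b) + v * m * r := by
          linear_combination (-(m : ℤ)) * huv
        rw [h5]
        exact dvd_add (Dvd.dvd.mul_left h _) (Dvd.intro_left _ rfl)
      · intro h
        have h5 : (d : ℤ) * m - b = d * ((m : ℤ) - u * b) - v * b * r := by
          linear_combination b * huv
        rw [h5]
        exact dvd_sub (Dvd.dvd.mul_left h _) (Dvd.intro_left _ rfl)
    simp_rw [hcl]
    exact hG d hd.1 hd.2 (u * b) (IsCoprime.mul_left hur hb)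
  · have hz : ∀ m : ℕ, ¬ ((r : ℤ) ∣ ((d * m : ℕ) : ℤ) - b) := by
      intro m h
      apply hdr
      obtain ⟨c, hc⟩ := h
      obtain ⟨u, v, huv⟩ := hb
      push_cast at hc
      refine ⟨u * m, v - u * c, ?_⟩
      linear_combination huv + u * hc
    simp only [hz, if_false, Finset.sum_const_zero, abs_zero]
    exact hG0 d

/-- The coprimality condition costs a factor `C τ(s)`. -/
theorem twist_bound (A : ℕ) (C₀ : ℝ) : ∃ C : ℝ, ∀ (r s : ℕ), 1 ≤ r → s ≠ 0 →
    (∀ x : ℝ, 2 ≤ x → ∀ b : ℤ, IsCoprime b (r : ℤ) →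
      |∑ m ∈ Icc 1 ⌊x⌋₊, (if (r : ℤ) ∣ (m : ℤ) - b then ((moebius m : ℤ) : ℝ) else 0)| ≤
        C₀ * x / (Real.log x) ^ A) →
    ∀ y : ℝ, 2 ≤ y → ∀ b : ℤ, IsCoprime b (r : ℤ) →
      |∑ n ∈ Icc 1 ⌊y⌋₊, (if (r : ℤ) ∣ (n : ℤ) - b ∧ Nat.Coprime n s then
        ((moebius n : ℤ) : ℝ) else 0)| ≤ C * (s.divisors.card : ℝ) * y / (Real.log y) ^ A := by
  obtain ⟨K, hK1, hK⟩ := logpow A (1 / 8) (by norm_num)
  set D : ℝ := max C₀ 0 * 2 ^ A + 2 * K with hD
  have hD0 : 0 ≤ D := by positivity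
  refine ⟨2 * D, fun r s _ hs h0 y hy b hb => ?_⟩
  have hlog : 0 < Real.log y := Real.log_pos (by linarith)
  have hlogA : 0 < (Real.log y) ^ A := by positivity
  have hy0 : (0 : ℝ) < y := by linarith
  have htriv : ∀ (N : ℕ) (b' : ℤ),
      |∑ m ∈ Icc 1 N, (if (r : ℤ) ∣ (m : ℤ) - b' then ((moebius m : ℤ) : ℝ) else 0)| ≤ N := by
    intro N b'
    refine (Finset.abs_sum_le_sum_abs _ _).trans ?_
    calc ∑ m ∈ Icc 1 N, |(if (r : ℤ) ∣ (m : ℤ) - b' then ((moebius m : ℤ) : ℝ) else 0)|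
        ≤ ∑ m ∈ Icc 1 N, (1 : ℝ) := by
          refine Finset.sum_le_sum fun m _ => ?_
          split_ifs
          · have := abs_moebius_le_one (n := m)
            exact_mod_cast this
          · simp
      _ = N := by simp
  have hfl : ∀ d : ℕ, ⌊y⌋₊ / d = ⌊y / d⌋₊ := fun d => (Nat.floor_div_natCast y d).symm
  have main := twist_open r s hs b hb ⌊y⌋₊
    (fun d => D * y / (Real.log y) ^ A * (d : ℝ) ^ (-(3 / 4 : ℝ))) (fun d => by positivity)
    (fun d hd1 hd2 b' hb' => ?_)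
  · refine main.trans ?_
    have e1 : ∑ d ∈ Icc 1 ⌊y⌋₊, Fs s d * (D * y / (Real.log y) ^ A * (d : ℝ) ^ (-(3 / 4 : ℝ))) =
        D * y / (Real.log y) ^ A * ∑ d ∈ Icc 1 ⌊y⌋₊, Fs s d * (d : ℝ) ^ (-(3 / 4 : ℝ)) := by
      rw [Finset.mul_sum]
      exact Finset.sum_congr rfl fun d _ => by ring
    rw [e1]
    calc D * y / (Real.log y) ^ A * ∑ d ∈ Icc 1 ⌊y⌋₊, Fs s d * (d : ℝ) ^ (-(3 / 4 : ℝ))
        ≤ D * y / (Real.log y) ^ A * (2 * (s.divisors.card : ℝ)) :=
          mul_le_mul_of_nonneg_left (Fs_sum_le s hs _) (by positivity)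
      _ = _ := by ring
  · have hd0 : (0 : ℝ) < d := by exact_mod_cast hd1
    have hdy : (d : ℝ) ≤ y := (Nat.le_floor_iff hy0.le).mp hd2
    have hd34 : 0 < (d : ℝ) ^ (-(3 / 4 : ℝ)) := Real.rpow_pos_of_pos hd0 _
    have hdle : (1 : ℝ) / d ≤ (d : ℝ) ^ (-(3 / 4 : ℝ)) := by
      rw [one_div, ← Real.rpow_neg_one]
      exact Real.rpow_le_rpow_of_exponent_le (by exact_mod_cast hd1) (by norm_num)
    rw [hfl]
    by_cases hcase : 4 ≤ y ∧ (d : ℝ) ≤ √y
    · obtain ⟨hy4, hdsq⟩ := hcase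
      have hsq2 : (2 : ℝ) ≤ √y := by
        rw [show (2 : ℝ) = √4 by
          rw [show (4 : ℝ) = 2 ^ 2 by norm_num]; exact (Real.sqrt_sq (by norm_num)).symm]
        exact Real.sqrt_le_sqrt hy4
      have hyd : √y ≤ y / d := by
        rw [le_div_iff₀ hd0]
        calc √y * d ≤ √y * √y := by gcongr
          _ = y := Real.mul_self_sqrt hy0.le
      have h1 := h0 (y / d) (hsq2.trans hyd) b' hb'
      have hlog2 : Real.log y / 2 ≤ Real.log (y / d) := by
        rw [← Real.log_sqrt hy0.le]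
        exact Real.log_le_log (by linarith) hyd
      have h2 : (Real.log y) ^ A / 2 ^ A ≤ (Real.log (y / d)) ^ A := by
        rw [← div_pow]
        exact pow_le_pow_left₀ (by positivity) hlog2 A
      have h3 : C₀ * (y / d) / (Real.log (y / d)) ^ A ≤ max C₀ 0 * 2 ^ A * (y / d) / (Real.log y) ^ A := by
        have hp : 0 < (Real.log (y / d)) ^ A := by
          have : 0 < Real.log (y / d) := by linarith
          positivity
        calc C₀ * (y / d) / (Real.log (y / d)) ^ A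
            ≤ max C₀ 0 * (y / d) / (Real.log (y / d)) ^ A := by
              gcongr
              exact le_max_left _ _
          _ ≤ max C₀ 0 * (y / d) / ((Real.log y) ^ A / 2 ^ A) := by
              gcongr
          _ = _ := by
              field_simp
      refine h1.trans (h3.trans ?_)
      calc max C₀ 0 * 2 ^ A * (y / d) / (Real.log y) ^ A
          = max C₀ 0 * 2 ^ A * y / (Real.log y) ^ A * (1 / d) := by ring
        _ ≤ D * y / (Real.log y) ^ A * (d : ℝ) ^ (-(3 / 4 : ℝ)) := by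
            apply mul_le_mul _ hdle (by positivity) (by positivity)
            gcongr
            rw [hD]
            linarith
    · -- trivial bound
      have h1 : |∑ m ∈ Icc 1 ⌊y / d⌋₊, (if (r : ℤ) ∣ (m : ℤ) - b' then
          ((moebius m : ℤ) : ℝ) else 0)| ≤ y / d :=
        (htriv _ _).trans (Nat.floor_le (by positivity))
      refine h1.trans ?_
      have h4 : y / d = y * ((d : ℝ) ^ (-(3 / 4 : ℝ)) * (d : ℝ) ^ (-(1 / 4 : ℝ))) := by
        rw [← Real.rpow_add hd0]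
        norm_num
        rw [Real.rpow_neg_one]
        rfl
      have h5 : (d : ℝ) ^ (-(1 / 4 : ℝ)) ≤ 2 * K / (Real.log y) ^ A := by
        by_cases hy4 : 4 ≤ y
        · have hdsq : √y < d := by
            by_contra hcon
            exact hcase ⟨hy4, not_lt.mp hcon⟩
          have h6 : (d : ℝ) ^ (-(1 / 4 : ℝ)) ≤ (√y) ^ (-(1 / 4 : ℝ)) :=
            Real.rpow_le_rpow_of_nonpos (Real.sqrt_pos.mpr hy0) hdsq.le (by norm_num)
          have h7 : (√y) ^ (-(1 / 4 : ℝ)) = (y ^ (1 / 8 : ℝ))⁻¹ := by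
            rw [Real.sqrt_eq_rpow, ← Real.rpow_mul hy0.le, ← Real.rpow_neg hy0.le]
            norm_num
          have h8 := hK y (by linarith)
          have h9 : (y ^ (1 / 8 : ℝ))⁻¹ ≤ K / (Real.log y) ^ A := by
            rw [le_div_iff₀ hlogA, inv_mul_le_iff₀ (by positivity), mul_comm]
            exact h8
          calc (d : ℝ) ^ (-(1 / 4 : ℝ)) ≤ K / (Real.log y) ^ A := by
                rw [h7] at h6; exact h6.trans h9
            _ ≤ 2 * K / (Real.log y) ^ A := by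
                gcongr
                linarith
        · push Not at hy4
          have h6 : (d : ℝ) ^ (-(1 / 4 : ℝ)) ≤ 1 := by
            apply Real.rpow_le_one_of_one_le_of_nonpos (by exact_mod_cast hd1) (by norm_num)
          have h8 := hK y (by linarith)
          have h9 : y ^ (1 / 8 : ℝ) ≤ 2 := by
            calc y ^ (1 / 8 : ℝ) ≤ (4 : ℝ) ^ (1 / 8 : ℝ) :=
                  Real.rpow_le_rpow hy0.le hy4.le (by norm_num)
              _ ≤ (4 : ℝ) ^ (1 / 2 : ℝ) :=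
                  Real.rpow_le_rpow_of_exponent_le (by norm_num) (by norm_num)
              _ = 2 := by
                  rw [← Real.sqrt_eq_rpow, show (4 : ℝ) = 2 ^ 2 by norm_num]
                  exact Real.sqrt_sq (by norm_num)
          refine h6.trans ?_
          rw [le_div_iff₀ hlogA]
          nlinarith
      rw [h4]
      calc y * ((d : ℝ) ^ (-(3 / 4 : ℝ)) * (d : ℝ) ^ (-(1 / 4 : ℝ)))
          ≤ y * ((d : ℝ) ^ (-(3 / 4 : ℝ)) * (2 * K / (Real.log y) ^ A)) := by gcongr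
        _ = (2 * K) * y / (Real.log y) ^ A * (d : ℝ) ^ (-(3 / 4 : ℝ)) := by ring
        _ ≤ D * y / (Real.log y) ^ A * (d : ℝ) ^ (-(3 / 4 : ℝ)) := by
            gcongr
            rw [hD]
            have : 0 ≤ max C₀ 0 * 2 ^ A := by positivity
            linarith

end Pool.Agent.SWz
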