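import Mathlib
import Pool.Agent.BGG.Defs
import Pool.Agent.SWz.ProgB
import Pool.Agent.SWz.PhiLow

/-! MP_3509fd_nt part C1 (Siegel-Walfisz): the final statements, from the bounds for characters. -/

namespace Pool.Agent.SWz

open Finset ArithmeticFunction

/-- The bounds for nonprincipal characters (any modulus). -/
def CharBd : Prop :=
  ∀ A : ℕ, ∃ C : ℝ, ∀ (q : ℕ) [NeZero q] (χ : DirichletCharacter ℂ q), χ ≠ 1 → ∀ x : ℝ, 2 ≤ x →
      ‖∑ n ∈ Finset.Icc 1 ⌊x⌋₊, χ n * ((moebius n : ℤ) : ℂ)‖ ≤ C * q * x / (Real.log x) ^ A ∧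
      ‖∑ n ∈ Finset.Icc 1 ⌊x⌋₊, χ n * ((vonMangoldt n : ℝ) : ℂ)‖ ≤ C * q * x / (Real.log x) ^ A

/-- The prime number theorem with a power of the logarithm saved. -/
def PntBd : Prop :=
  ∀ A : ℕ, ∃ C : ℝ, ∀ x : ℝ, 2 ≤ x →
      |∑ n ∈ Finset.Icc 1 ⌊x⌋₊, ((moebius n : ℤ) : ℝ)| ≤ C * x / (Real.log x) ^ A ∧
      |∑ n ∈ Finset.Icc 1 ⌊x⌋₊, (vonMangoldt n : ℝ) - x| ≤ C * x / (Real.log x) ^ A

/-- Coprimality condition without residue classes. -/
theorem mu_coprime (hP : PntBd) (A : ℕ) : ∃ C : ℝ, 0 ≤ C ∧ ∀ y : ℝ, 2 ≤ y → ∀ s : ℕ, s ≠ 0 →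
    |∑ n ∈ Icc 1 ⌊y⌋₊, (if Nat.Coprime n s then ((moebius n : ℤ) : ℝ) else 0)| ≤
      C * (s.divisors.card : ℝ) * y / (Real.log y) ^ A := by
  obtain ⟨C₀, hC₀⟩ := hP A
  obtain ⟨C, hC⟩ := twist_bound A C₀
  refine ⟨max C 0, le_max_right _ _, fun y hy s hs => ?_⟩
  have h := hC 1 s le_rfl hs (fun x hx b _ => by simpa using (hC₀ x hx).1) y hy 1
    (by simpa using isCoprime_one_left)
  simp only [Nat.cast_one, one_dvd, true_and] at h
  refine h.trans ?_
  have hlog : 0 < Real.log y := Real.log_pos (by linarith)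
  gcongr
  exact le_max_left _ _

/-- Residue classes, no coprimality condition. -/
theorem mu_prog (hC : CharBd) (hP : PntBd) (A : ℕ) : ∃ C : ℝ, ∀ y : ℝ, 2 ≤ y →
    ∀ (r : ℕ) (b : ℤ), 1 ≤ r → IsCoprime b (r : ℤ) →
    |∑ n ∈ Icc 1 ⌊y⌋₊, (if (r : ℤ) ∣ (n : ℤ) - b then ((moebius n : ℤ) : ℝ) else 0)| ≤
      C * y / (Real.log y) ^ A := by
  obtain ⟨C₁, hC₁⟩ := hC (2 * A)
  obtain ⟨C₂, hC₂0, hC₂⟩ := mu_coprime hP (2 * A)
  obtain ⟨K, hK1, hK⟩ := logpow A 1 one_pos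
  refine ⟨max (1 + K) (C₂ + max C₁ 0), fun y hy r b hr hb => ?_⟩
  have hlog : 0 < Real.log y := Real.log_pos (by linarith)
  have hlogA : 0 < (Real.log y) ^ A := by positivity
  have hy0 : (0 : ℝ) < y := by linarith
  have hr0 : (0 : ℝ) < r := by exact_mod_cast hr
  by_cases hbig : (Real.log y) ^ A ≤ r
  · -- trivial bound
    have h1 : |∑ n ∈ Icc 1 ⌊y⌋₊, (if (r : ℤ) ∣ (n : ℤ) - b then ((moebius n : ℤ) : ℝ) else 0)| ≤
        (((Icc 1 ⌊y⌋₊).filter fun n : ℕ => (r : ℤ) ∣ (n : ℤ) - b).card : ℝ) := by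
      refine (Finset.abs_sum_le_sum_abs _ _).trans ?_
      rw [Finset.card_filter]
      push_cast
      refine Finset.sum_le_sum fun n _ => ?_
      split_ifs
      · have := abs_moebius_le_one (n := n)
        exact_mod_cast this
      · simp
    have h2 := prog_card r hr b y hy0.le
    have h3 : y / r ≤ y / (Real.log y) ^ A := by gcongr
    have h4 : 1 ≤ K * y / (Real.log y) ^ A := by
      rw [le_div_iff₀ hlogA, one_mul]
      have := hK y (by linarith)
      rwa [Real.rpow_one] at this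
    calc _ ≤ y / r + 1 := h1.trans h2
      _ ≤ y / (Real.log y) ^ A + K * y / (Real.log y) ^ A := add_le_add h3 h4
      _ = (1 + K) * y / (Real.log y) ^ A := by ring
      _ ≤ _ := by
          gcongr
          exact le_max_left _ _
  · push Not at hbig
    have : NeZero r := ⟨by omega⟩
    have hφ : (1 : ℝ) ≤ r.totient := by
      exact_mod_cast Nat.totient_pos.mpr hr
    have ho := orth r b hb ⌊y⌋₊ (fun n => ((moebius n : ℤ) : ℂ))
      (max C₁ 0 * r * y / (Real.log y) ^ (2 * A)) (by positivity) (fun χ hχ => by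
        refine (hC₁ r χ hχ y hy).1.trans ?_
        gcongr
        exact le_max_left _ _)
    have hco := hC₂ y hy r (by omega)
    -- cast the complex identity to the reals
    have hcast : ‖(∑ n ∈ Icc 1 ⌊y⌋₊, if (r : ℤ) ∣ (n : ℤ) - b then ((moebius n : ℤ) : ℂ) else 0)
      - (∑ n ∈ Icc 1 ⌊y⌋₊, if Nat.Coprime n r then ((moebius n : ℤ) : ℂ) else 0) / (r.totient : ℂ)‖ =
      |(∑ n ∈ Icc 1 ⌊y⌋₊, if (r : ℤ) ∣ (n : ℤ) - b then ((moebius n : ℤ) : ℝ) else 0)
      - (∑ n ∈ Icc 1 ⌊y⌋₊, if Nat.Coprime n r then ((moebius n : ℤ) : ℝ) else 0) / (r.totient : ℝ)| := by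
      rw [← Real.norm_eq_abs, ← Complex.norm_real]
      congr 1
      push_cast
      congr 1
      · refine Finset.sum_congr rfl fun n _ => ?_
        split_ifs <;> simp
      · congr 1
        refine Finset.sum_congr rfl fun n _ => ?_
        split_ifs <;> simp
    rw [hcast] at ho
    set S := ∑ n ∈ Icc 1 ⌊y⌋₊, if (r : ℤ) ∣ (n : ℤ) - b then ((moebius n : ℤ) : ℝ) else 0 with hS
    set T := ∑ n ∈ Icc 1 ⌊y⌋₊, if Nat.Coprime n r then ((moebius n : ℤ) : ℝ) else 0 with hT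
    have hτ : (r.divisors.card : ℝ) ≤ r := by exact_mod_cast Nat.card_divisors_le_self r
    have h5 : |T / (r.totient : ℝ)| ≤ C₂ * r * y / (Real.log y) ^ (2 * A) := by
      rw [abs_div, abs_of_pos (by linarith : (0 : ℝ) < r.totient)]
      calc |T| / (r.totient : ℝ) ≤ |T| / 1 := by gcongr
        _ = |T| := div_one _
        _ ≤ C₂ * (r.divisors.card : ℝ) * y / (Real.log y) ^ (2 * A) := hco
        _ ≤ C₂ * r * y / (Real.log y) ^ (2 * A) := by gcongr
    have h6 : |S| ≤ max C₁ 0 * r * y / (Real.log y) ^ (2 * A) +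
        C₂ * r * y / (Real.log y) ^ (2 * A) := by
      have := abs_sub_abs_le_abs_sub S (T / (r.totient : ℝ))
      linarith
    have h7 : (r : ℝ) / (Real.log y) ^ (2 * A) ≤ 1 / (Real.log y) ^ A := by
      rw [div_le_div_iff₀ (by positivity) hlogA, one_mul, two_mul, pow_add]
      gcongr
    calc |S| ≤ (C₂ + max C₁ 0) * y * (r / (Real.log y) ^ (2 * A)) := by
          refine h6.trans (le_of_eq ?_); ring
      _ ≤ (C₂ + max C₁ 0) * y * (1 / (Real.log y) ^ A) := by gcongr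
      _ = (C₂ + max C₁ 0) * y / (Real.log y) ^ A := by ring
      _ ≤ _ := by
          gcongr
          exact le_max_right _ _

theorem swmu_of (hC : CharBd) (hP : PntBd) : Pool.Agent.BGG.SWmu := by
  intro A
  obtain ⟨C₀, hC₀⟩ := mu_prog hC hP A
  obtain ⟨C, hC'⟩ := twist_bound A C₀
  refine ⟨C, fun y hy r s b hr hs hb => ?_⟩
  exact hC' r s hr (by omega) (fun x hx b' hb' => hC₀ x hx r b' hr hb') y hy b hb

/-- The prime powers of the primes dividing `r` contribute at most `r log y`. -/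
theorem lam_noncoprime (r : ℕ) (hr : 1 ≤ r) (y : ℝ) (hy : 2 ≤ y) :
    |(∑ n ∈ Icc 1 ⌊y⌋₊, (vonMangoldt n : ℝ)) -
      ∑ n ∈ Icc 1 ⌊y⌋₊, (if Nat.Coprime n r then (vonMangoldt n : ℝ) else 0)| ≤ r * Real.log y := by
  set N := ⌊y⌋₊ with hN
  have hN2 : 2 ≤ N := Nat.le_floor hy
  have hNy : (N : ℝ) ≤ y := Nat.floor_le (by linarith)
  have h1 : (∑ n ∈ Icc 1 N, (vonMangoldt n : ℝ)) -
      ∑ n ∈ Icc 1 N, (if Nat.Coprime n r then (vonMangoldt n : ℝ) else 0) =
      ∑ n ∈ (Icc 1 N).filter (fun n => ¬ Nat.Coprime n r), (vonMangoldt n : ℝ) := by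
    rw [Finset.sum_filter, ← Finset.sum_sub_distrib]
    refine Finset.sum_congr rfl fun n _ => ?_
    by_cases h : Nat.Coprime n r
    · rw [if_pos h, if_neg (not_not.mpr h), sub_self]
    · rw [if_neg h, if_pos h, sub_zero]
  rw [h1, abs_of_nonneg (Finset.sum_nonneg fun n _ => vonMangoldt_nonneg)]
  set T := r.primeFactors.biUnion fun p => (Icc 1 (Nat.log p N)).image fun k => p ^ k with hT
  have h2 : ∑ n ∈ (Icc 1 N).filter (fun n => ¬ Nat.Coprime n r), (vonMangoldt n : ℝ) ≤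
      ∑ n ∈ T, (vonMangoldt n : ℝ) := by
    rw [← Finset.sum_filter_ne_zero]
    refine Finset.sum_le_sum_of_subset_of_nonneg ?_ fun _ _ _ => vonMangoldt_nonneg
    intro n hn
    simp only [mem_filter, mem_Icc] at hn
    obtain ⟨⟨⟨hn1, hn2⟩, hn3⟩, hn4⟩ := hn
    have hpp : IsPrimePow n := by
      by_contra hcon
      exact hn4 (vonMangoldt_eq_zero_iff.mpr hcon)
    obtain ⟨p, k, hp, hk, rfl⟩ := (isPrimePow_nat_iff n).mp hpp
    have hpr : p ∣ r := by
      by_contra hcon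
      exact hn3 (Nat.Coprime.pow_left k ((Nat.Prime.coprime_iff_not_dvd hp).mpr hcon))
    rw [hT, mem_biUnion]
    refine ⟨p, Nat.mem_primeFactors.mpr ⟨hp, hpr, by omega⟩, ?_⟩
    rw [mem_image]
    exact ⟨k, mem_Icc.mpr ⟨hk, Nat.le_log_of_pow_le hp.one_lt hn2⟩, rfl⟩
  have h3 : ∑ n ∈ T, (vonMangoldt n : ℝ) ≤ ∑ p ∈ r.primeFactors, Real.log y := by
    rw [hT, Finset.sum_biUnion]
    swap
    · intro p hp q hq hne
      simp only [Function.onFun]
      rw [Finset.disjoint_left]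
      intro n h1 h2
      rw [mem_image] at h1 h2
      obtain ⟨a, ha, rfl⟩ := h1
      obtain ⟨c, hc, hcc⟩ := h2
      rw [mem_Icc] at ha
      have hpp := Nat.prime_of_mem_primeFactors hp
      have hqq := Nat.prime_of_mem_primeFactors hq
      have : p ∣ q ^ c := by
        rw [hcc]; exact dvd_pow_self p (by omega)
      exact hne ((Nat.prime_dvd_prime_iff_eq hpp hqq).mp (hpp.dvd_of_dvd_pow this))
    refine Finset.sum_le_sum fun p hp => ?_
    · have hpp := Nat.prime_of_mem_primeFactors hp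
      rw [Finset.sum_image (fun a _ b _ h => Nat.pow_right_injective hpp.two_le h)]
      have e1 : ∑ k ∈ Icc 1 (Nat.log p N), (vonMangoldt (p ^ k) : ℝ) =
          ∑ k ∈ Icc 1 (Nat.log p N), Real.log p := by
        refine Finset.sum_congr rfl fun k hk => ?_
        rw [mem_Icc] at hk
        rw [vonMangoldt_apply_pow (by omega), vonMangoldt_apply_prime hpp]
      rw [e1, Finset.sum_const, Nat.card_Icc, nsmul_eq_mul, Nat.add_sub_cancel]
      have e2 : ((p ^ Nat.log p N : ℕ) : ℝ) ≤ N := by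
        exact_mod_cast Nat.pow_log_le_self p (by omega)
      have hp0 : (0 : ℝ) < p := by exact_mod_cast hpp.pos
      calc (Nat.log p N : ℝ) * Real.log p = Real.log ((p ^ Nat.log p N : ℕ) : ℝ) := by
            push_cast
            rw [Real.log_pow]
        _ ≤ Real.log y := by
            apply Real.log_le_log
            · push_cast; positivity
            · exact e2.trans hNy
  have hlog : 0 ≤ Real.log y := Real.log_nonneg (by linarith)
  have h4 : (r.primeFactors.card : ℝ) ≤ r := by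
    have : r.primeFactors.card ≤ r := by
      calc r.primeFactors.card ≤ r.divisors.card :=
            Finset.card_le_card fun p hp =>
              Nat.mem_divisors.mpr ⟨Nat.dvd_of_mem_primeFactors hp, by omega⟩
        _ ≤ r := Nat.card_divisors_le_self r
    exact_mod_cast this
  rw [Finset.sum_const, nsmul_eq_mul] at h3
  calc _ ≤ (r.primeFactors.card : ℝ) * Real.log y := h2.trans h3
    _ ≤ r * Real.log y := by gcongr

/-- `φ(r) >= c √r`. -/
theorem totient_sqrt : ∃ D : ℝ, 0 < D ∧ ∀ r : ℕ, 1 ≤ r → √(r : ℝ) ≤ D * r.totient := by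
  obtain ⟨D, hD, h⟩ := prod_inv_le (1 / 2) (by norm_num)
  refine ⟨D, hD, fun r hr => ?_⟩
  have hr0 : (0 : ℝ) < r := by exact_mod_cast hr
  have h1 := h r hr
  have h2 : (r.totient : ℝ) = r * ∏ p ∈ r.primeFactors, (1 - (p : ℝ)⁻¹) := by
    have := Nat.totient_eq_mul_prod_factors r
    have h3 := congrArg (fun x : ℚ => (x : ℝ)) this
    push_cast at h3
    exact h3
  have hprod : 0 < ∏ p ∈ r.primeFactors, (1 - (p : ℝ)⁻¹) := by
    refine Finset.prod_pos fun p hp => ?_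
    have hp2 : (2 : ℝ) ≤ p := by exact_mod_cast (Nat.prime_of_mem_primeFactors hp).two_le
    have : (p : ℝ)⁻¹ ≤ 2⁻¹ := inv_anti₀ (by norm_num) hp2
    norm_num at this ⊢
    linarith
  rw [Finset.prod_inv_distrib, ← Real.sqrt_eq_rpow, inv_le_iff_one_le_mul₀ hprod] at h1
  rw [h2]
  have hs : √(r : ℝ) * √(r : ℝ) = r := Real.mul_self_sqrt hr0.le
  have hs0 : 0 < √(r : ℝ) := Real.sqrt_pos.mpr hr0
  calc √(r : ℝ) = √(r : ℝ) * 1 := (mul_one _).symm
    _ ≤ √(r : ℝ) * (D * √(r : ℝ) * ∏ p ∈ r.primeFactors, (1 - (p : ℝ)⁻¹)) := by gcongr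
    _ = D * ((√(r : ℝ) * √(r : ℝ)) * ∏ p ∈ r.primeFactors, (1 - (p : ℝ)⁻¹)) := by ring
    _ = _ := by rw [hs]

theorem swlam_of (hC : CharBd) (hP : PntBd) : Pool.Agent.BGG.SWLam := by
  intro A
  obtain ⟨C₁, hC₁⟩ := hC (3 * A + 2)
  obtain ⟨C₂, hC₂⟩ := hP A
  obtain ⟨K, hK1, hK⟩ := logpow (A + 1) 1 one_pos
  obtain ⟨K', hK'1, hK'⟩ := logpow (3 * A + 3) 1 one_pos
  obtain ⟨D, hD, hDr⟩ := totient_sqrt
  refine ⟨max (1 + K + D) ((5 / 2) ^ (2 * A + 2) * max C₁ 0 + (max C₂ 0 + (5 / 2) ^ (2 * A + 2) * K')),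
    fun y hy r b hr hb => ?_⟩
  set ℓ := Real.log y with hℓ
  have hlog2 : (0.69 : ℝ) < ℓ := by
    have h := Real.log_two_gt_d9
    have h2 : Real.log 2 ≤ ℓ := Real.log_le_log (by norm_num) hy
    linarith
  have hℓ0 : 0 < ℓ := by linarith
  have hℓA : 0 < ℓ ^ A := by positivity
  have hy0 : (0 : ℝ) < y := by linarith
  have hr0 : (0 : ℝ) < r := by exact_mod_cast hr
  have hφ : (1 : ℝ) ≤ r.totient := by exact_mod_cast Nat.totient_pos.mpr hr
  have h1ℓ : 1 + ℓ ≤ (5 / 2) * ℓ := by linarith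
  by_cases hbig : (1 + ℓ) ^ (2 * A + 2) ≤ r
  · -- trivial bound
    have hS0 : 0 ≤ ∑ n ∈ Icc 1 ⌊y⌋₊, if (r : ℤ) ∣ (n : ℤ) - b then (vonMangoldt n : ℝ) else 0 :=
      Finset.sum_nonneg fun n _ => by split_ifs; exacts [vonMangoldt_nonneg, le_rfl]
    have hS : ∑ n ∈ Icc 1 ⌊y⌋₊, (if (r : ℤ) ∣ (n : ℤ) - b then (vonMangoldt n : ℝ) else 0) ≤
        (y / r + 1) * ℓ := by
      calc ∑ n ∈ Icc 1 ⌊y⌋₊, (if (r : ℤ) ∣ (n : ℤ) - b then (vonMangoldt n : ℝ) else 0)
          ≤ ∑ n ∈ Icc 1 ⌊y⌋₊, (if (r : ℤ) ∣ (n : ℤ) - b then ℓ else 0) := by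
            refine Finset.sum_le_sum fun n hn => ?_
            rw [mem_Icc] at hn
            split_ifs
            · refine vonMangoldt_le_log.trans ?_
              apply Real.log_le_log (by exact_mod_cast hn.1)
              exact (Nat.le_floor_iff hy0.le).mp hn.2
            · exact le_rfl
        _ = (((Icc 1 ⌊y⌋₊).filter fun n : ℕ => (r : ℤ) ∣ (n : ℤ) - b).card : ℝ) * ℓ := by
            rw [← Finset.sum_filter, Finset.sum_const, nsmul_eq_mul]
        _ ≤ (y / r + 1) * ℓ := by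
            gcongr
            exact prog_card r hr b y hy0.le
    have e1 : y / r * ℓ ≤ 1 * y / ℓ ^ A := by
      have : ℓ * ℓ ^ A ≤ r := by
        calc ℓ * ℓ ^ A = ℓ ^ (A + 1) := by ring
          _ ≤ (1 + ℓ) ^ (A + 1) := pow_le_pow_left₀ hℓ0.le (by linarith) _
          _ ≤ (1 + ℓ) ^ (2 * A + 2) := pow_le_pow_right₀ (by linarith) (by omega)
          _ ≤ r := hbig
      rw [le_div_iff₀ hℓA, one_mul, div_mul_eq_mul_div, div_mul_eq_mul_div, div_le_iff₀ hr0, mul_assoc]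
      gcongr
    have e2 : ℓ ≤ K * y / ℓ ^ A := by
      rw [le_div_iff₀ hℓA]
      have := hK y (by linarith)
      rw [Real.rpow_one] at this
      calc ℓ * ℓ ^ A = ℓ ^ (A + 1) := by ring
        _ ≤ K * y := this
    have e3 : y / (r.totient : ℝ) ≤ D * y / ℓ ^ A := by
      have h5 := hDr r hr
      have h6 : ℓ ^ A ≤ √(r : ℝ) := by
        apply Real.le_sqrt_of_sq_le
        calc (ℓ ^ A) ^ 2 ≤ ((1 + ℓ) ^ (A + 1)) ^ 2 := by
              have : ℓ ^ A ≤ (1 + ℓ) ^ (A + 1) :=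
                (pow_le_pow_left₀ hℓ0.le (by linarith) _).trans
                  (pow_le_pow_right₀ (by linarith) (by omega))
              gcongr
          _ = (1 + ℓ) ^ (2 * A + 2) := by rw [← pow_mul]; congr 1; ring
          _ ≤ r := hbig
      rw [div_le_div_iff₀ (by linarith) hℓA]
      calc y * ℓ ^ A ≤ y * (D * r.totient) := by gcongr; exact h6.trans h5
        _ = D * y * r.totient := by ring
    have e4 : 0 ≤ y / (r.totient : ℝ) := by positivity
    rw [abs_le]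
    have hmax : (1 + K + D) * y / ℓ ^ A ≤ max (1 + K + D) ((5 / 2) ^ (2 * A + 2) * max C₁ 0 +
        (max C₂ 0 + (5 / 2) ^ (2 * A + 2) * K')) * y / ℓ ^ A := by
      gcongr
      exact le_max_left _ _
    have hsum : (1 + K + D) * y / ℓ ^ A = 1 * y / ℓ ^ A + K * y / ℓ ^ A + D * y / ℓ ^ A := by ring
    have p1 : 0 ≤ 1 * y / ℓ ^ A := by positivity
    have p2 : 0 ≤ K * y / ℓ ^ A := by positivity
    have p3 : 0 ≤ D * y / ℓ ^ A := by positivity
    constructor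
    · linarith
    · have : (y / r + 1) * ℓ = y / r * ℓ + ℓ := by ring
      linarith
  · push Not at hbig
    have : NeZero r := ⟨by omega⟩
    have hr52 : (r : ℝ) ≤ (5 / 2) ^ (2 * A + 2) * ℓ ^ (2 * A + 2) := by
      rw [← mul_pow]
      exact hbig.le.trans (pow_le_pow_left₀ (by linarith) h1ℓ _)
    have ho := orth r b hb ⌊y⌋₊ (fun n => ((vonMangoldt n : ℝ) : ℂ))
      (max C₁ 0 * r * y / ℓ ^ (3 * A + 2)) (by positivity) (fun χ hχ => by
        refine (hC₁ r χ hχ y hy).2.trans ?_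
        rw [← hℓ]
        gcongr
        exact le_max_left _ _)
    have hcast : ‖(∑ n ∈ Icc 1 ⌊y⌋₊, if (r : ℤ) ∣ (n : ℤ) - b then ((vonMangoldt n : ℝ) : ℂ) else 0)
      - (∑ n ∈ Icc 1 ⌊y⌋₊, if Nat.Coprime n r then ((vonMangoldt n : ℝ) : ℂ) else 0) / (r.totient : ℂ)‖ =
      |(∑ n ∈ Icc 1 ⌊y⌋₊, if (r : ℤ) ∣ (n : ℤ) - b then (vonMangoldt n : ℝ) else 0)
      - (∑ n ∈ Icc 1 ⌊y⌋₊, if Nat.Coprime n r then (vonMangoldt n : ℝ) else 0) / (r.totient : ℝ)| := by
      rw [← Real.norm_eq_abs, ← Complex.norm_real]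
      congr 1
      push_cast
      congr 1
      · refine Finset.sum_congr rfl fun n _ => ?_
        split_ifs <;> simp
      · congr 1
        refine Finset.sum_congr rfl fun n _ => ?_
        split_ifs <;> simp
    rw [hcast] at ho
    have hnc := lam_noncoprime r hr y hy
    have hpnt := (hC₂ y hy).2
    rw [← hℓ] at hpnt hnc
    set S := ∑ n ∈ Icc 1 ⌊y⌋₊, if (r : ℤ) ∣ (n : ℤ) - b then (vonMangoldt n : ℝ) else 0 with hS
    set T := ∑ n ∈ Icc 1 ⌊y⌋₊, if Nat.Coprime n r then (vonMangoldt n : ℝ) else 0 with hT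
    set P := ∑ n ∈ Icc 1 ⌊y⌋₊, (vonMangoldt n : ℝ) with hPdef
    have f1 : max C₁ 0 * r * y / ℓ ^ (3 * A + 2) ≤ (5 / 2) ^ (2 * A + 2) * max C₁ 0 * y / ℓ ^ A := by
      rw [div_le_div_iff₀ (by positivity) hℓA]
      calc max C₁ 0 * r * y * ℓ ^ A
          ≤ max C₁ 0 * ((5 / 2) ^ (2 * A + 2) * ℓ ^ (2 * A + 2)) * y * ℓ ^ A := by gcongr
        _ = (5 / 2) ^ (2 * A + 2) * max C₁ 0 * y * ℓ ^ (3 * A + 2) := by ring
    have f2 : r * ℓ ≤ (5 / 2) ^ (2 * A + 2) * K' * y / ℓ ^ A := by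
      rw [le_div_iff₀ hℓA]
      have := hK' y (by linarith)
      rw [Real.rpow_one] at this
      calc (r : ℝ) * ℓ * ℓ ^ A ≤ ((5 / 2) ^ (2 * A + 2) * ℓ ^ (2 * A + 2)) * ℓ * ℓ ^ A := by gcongr
        _ = (5 / 2) ^ (2 * A + 2) * ℓ ^ (3 * A + 3) := by ring
        _ ≤ (5 / 2) ^ (2 * A + 2) * (K' * y) := by gcongr
        _ = _ := by ring
    have f3 : |T - y| ≤ (max C₂ 0 + (5 / 2) ^ (2 * A + 2) * K') * y / ℓ ^ A := by
      have g1 : |P - y| ≤ max C₂ 0 * y / ℓ ^ A := by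
        refine hpnt.trans ?_
        gcongr
        exact le_max_left _ _
      have g2 : |T - y| ≤ |P - T| + |P - y| := by
        rw [show T - y = (P - y) - (P - T) by ring]
        have := abs_sub (P - y) (P - T)
        linarith
      calc |T - y| ≤ |P - T| + |P - y| := g2
        _ ≤ (5 / 2) ^ (2 * A + 2) * K' * y / ℓ ^ A + max C₂ 0 * y / ℓ ^ A := by
            linarith
        _ = _ := by ring
    have f4 : |T / (r.totient : ℝ) - y / (r.totient : ℝ)| ≤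
        (max C₂ 0 + (5 / 2) ^ (2 * A + 2) * K') * y / ℓ ^ A := by
      rw [← sub_div, abs_div, abs_of_pos (by linarith : (0 : ℝ) < r.totient)]
      calc |T - y| / (r.totient : ℝ) ≤ |T - y| / 1 := by gcongr
        _ = |T - y| := div_one _
        _ ≤ _ := f3
    have f5 : |S - y / (r.totient : ℝ)| ≤ |S - T / (r.totient : ℝ)| +
        |T / (r.totient : ℝ) - y / (r.totient : ℝ)| := abs_sub_le _ _ _
    calc |S - y / (r.totient : ℝ)|
        ≤ (5 / 2) ^ (2 * A + 2) * max C₁ 0 * y / ℓ ^ A +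
          (max C₂ 0 + (5 / 2) ^ (2 * A + 2) * K') * y / ℓ ^ A := by linarith
      _ = ((5 / 2) ^ (2 * A + 2) * max C₁ 0 +
          (max C₂ 0 + (5 / 2) ^ (2 * A + 2) * K')) * y / ℓ ^ A := by ring
      _ ≤ _ := by
          gcongr
          exact le_max_right _ _

end Pool.Agent.SWz
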