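import Pool.Agent.SWz.Iface

namespace Pool.Agent.SWz

/-- MODULE GROWTHD. Cauchy estimate (`Complex.norm_deriv_le_of_forall_mem_sphere_norm_le`) on the circle of radius `ε`
about `s`, with `Growth` for `2 ε` (so `1 - 2ε ≤ Re z ≤ 3` on it and
`q (|Im z| + 2) ≤ 2 q (|Im s| + 2)`); `chi.LFunction` is differentiable everywhere
(`DirichletCharacter.differentiable_LFunction`). -/
theorem growthD (hG : Growth) : GrowthD := by
  intro ε hε hε2
  obtain ⟨C, hC⟩ := hG (2 * ε) (by linarith) (by linarith)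
  refine ⟨|C| * 2 ^ (4 * ε) / ε, ?_⟩
  intro q _ χ hχ s h1 h2
  have hq : (1 : ℝ) ≤ q := by exact_mod_cast NeZero.one_le
  have hb : ∀ z ∈ Metric.sphere s ε,
      ‖χ.LFunction z‖ ≤ |C| * 2 ^ (4 * ε) * ((q : ℝ) * (|s.im| + 2)) ^ (4 * ε) := by
    intro z hz
    rw [mem_sphere_iff_norm] at hz
    have hre : |z.re - s.re| ≤ ε := by
      have := Complex.abs_re_le_norm (z - s)
      rwa [hz, Complex.sub_re] at this
    have him : |z.im - s.im| ≤ ε := by
      have := Complex.abs_im_le_norm (z - s)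
      rwa [hz, Complex.sub_im] at this
    have hre' := abs_le.mp hre
    have himz : |z.im| ≤ |s.im| + ε := by
      have := abs_sub_abs_le_abs_sub z.im s.im
      linarith
    have h3 := hC q χ hχ z (by linarith [hre'.1]) (by linarith [hre'.2])
    rw [show 2 * (2 * ε) = 4 * ε by ring] at h3
    refine h3.trans ?_
    have hA : (0 : ℝ) ≤ (q : ℝ) * (|z.im| + 2) := by positivity
    have h4 : (q : ℝ) * (|z.im| + 2) ≤ 2 * ((q : ℝ) * (|s.im| + 2)) := by
      have : |z.im| + 2 ≤ 2 * (|s.im| + 2) := by linarith [abs_nonneg s.im]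
      nlinarith
    calc C * ((q : ℝ) * (|z.im| + 2)) ^ (4 * ε)
        ≤ |C| * ((q : ℝ) * (|z.im| + 2)) ^ (4 * ε) :=
          mul_le_mul_of_nonneg_right (le_abs_self C) (Real.rpow_nonneg hA _)
      _ ≤ |C| * (2 * ((q : ℝ) * (|s.im| + 2))) ^ (4 * ε) := by gcongr
      _ = |C| * 2 ^ (4 * ε) * ((q : ℝ) * (|s.im| + 2)) ^ (4 * ε) := by
          rw [Real.mul_rpow (by norm_num) (by positivity)]; ring
  have h := Complex.norm_deriv_le_of_forall_mem_sphere_norm_le (c := s) hε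
    (DirichletCharacter.differentiable_LFunction hχ).diffContOnCl hb
  calc ‖deriv χ.LFunction s‖
      ≤ |C| * 2 ^ (4 * ε) * ((q : ℝ) * (|s.im| + 2)) ^ (4 * ε) / ε := h
    _ = |C| * 2 ^ (4 * ε) / ε * ((q : ℝ) * (|s.im| + 2)) ^ (4 * ε) := by ring

end Pool.Agent.SWz
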