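import Pool.Agent.SWz.Iface

namespace Pool.Agent.SWz

namespace LTRIVAux

lemma norm_factor_le (p : ℕ) (hp : p.Prime) (s : ℂ) (hs : 1 ≤ s.re) :
    ‖1 - (p : ℂ) ^ (-s)‖ ≤ (1 - (p : ℝ)⁻¹)⁻¹ := by
  have hp2 : (2 : ℝ) ≤ p := by exact_mod_cast hp.two_le
  have hp0 : (0 : ℝ) < p := by linarith
  have h1 : ‖(p : ℂ) ^ (-s)‖ ≤ (p : ℝ)⁻¹ := by
    rw [Complex.norm_natCast_cpow_of_pos hp.pos, Complex.neg_re]
    calc (p : ℝ) ^ (-s.re) ≤ (p : ℝ) ^ (-1 : ℝ) :=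
          Real.rpow_le_rpow_of_exponent_le (by linarith) (by linarith)
      _ = (p : ℝ)⁻¹ := Real.rpow_neg_one _
  have h2 : ‖1 - (p : ℂ) ^ (-s)‖ ≤ 1 + (p : ℝ)⁻¹ := by
    calc _ ≤ ‖(1 : ℂ)‖ + ‖(p : ℂ) ^ (-s)‖ := norm_sub_le _ _
      _ ≤ 1 + (p : ℝ)⁻¹ := by rw [norm_one]; linarith
  have h3 : (p : ℝ)⁻¹ < 1 := inv_lt_one_of_one_lt₀ (by linarith)
  have h4 : 0 < (p : ℝ)⁻¹ := inv_pos.mpr hp0
  refine h2.trans ?_
  have h5 : 0 < 1 - (p : ℝ)⁻¹ := by linarith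
  rw [inv_eq_one_div (1 - (p : ℝ)⁻¹), le_div_iff₀ h5]
  nlinarith

end LTRIVAux

/-- MODULE LTRIV. HINT: `DirichletCharacter.LFunctionTrivChar_eq_mul_riemannZeta`: the factor is
`∏ p ∈ q.primeFactors, (1 - p^(-s))`, of norm `≤ ∏ (1 + 1/p) ≤ ∏ (1 - 1/p)⁻¹ = q / φ(q)`
(`Nat.totient_eq_mul_prod_factors`), and `TotLow` gives `q/φ(q) ≤ q^ε / c`. -/
theorem ltriv (hT : TotLow) : LTriv := by
  intro ε hε
  obtain ⟨c, hc, hT'⟩ := hT ε hε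
  refine ⟨1 / c, ?_⟩
  intro q _ s hs hs1
  have hq1 : 1 ≤ q := NeZero.one_le
  have hq0 : (0 : ℝ) < q := by exact_mod_cast hq1
  have heq := DirichletCharacter.LFunctionTrivChar_eq_mul_riemannZeta (N := q) hs1
  have heq' : (1 : DirichletCharacter ℂ q).LFunction s =
      (∏ p ∈ q.primeFactors, (1 - (p : ℂ) ^ (-s))) * riemannZeta s := heq
  rw [heq', norm_mul]
  refine mul_le_mul_of_nonneg_right ?_ (norm_nonneg _)
  rw [norm_prod]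
  have h1 : ∏ p ∈ q.primeFactors, ‖1 - (p : ℂ) ^ (-s)‖ ≤
      ∏ p ∈ q.primeFactors, (1 - (p : ℝ)⁻¹)⁻¹ :=
    Finset.prod_le_prod (fun _ _ => norm_nonneg _) fun p hp =>
      LTRIVAux.norm_factor_le p (Nat.prime_of_mem_primeFactors hp) s hs
  have h2 : (q.totient : ℝ) = q * ∏ p ∈ q.primeFactors, (1 - (p : ℝ)⁻¹) := by
    have h := Nat.totient_eq_mul_prod_factors q
    have h' : ((q.totient : ℚ) : ℝ) = (((q : ℚ) * ∏ p ∈ q.primeFactors, (1 - (p : ℚ)⁻¹) : ℚ) : ℝ) := by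
      rw [h]
    push_cast at h'
    exact h'
  have hφ : (0 : ℝ) < q.totient := by exact_mod_cast Nat.totient_pos.mpr hq1
  have h3 : ∏ p ∈ q.primeFactors, (1 - (p : ℝ)⁻¹)⁻¹ = q / q.totient := by
    rw [Finset.prod_inv_distrib, h2]
    have hne : (q : ℝ) ≠ 0 := hq0.ne'
    have hne2 : ∏ p ∈ q.primeFactors, (1 - (p : ℝ)⁻¹) ≠ 0 := by
      intro h0
      rw [h0, mul_zero] at h2
      exact hφ.ne' h2
    field_simp
  refine h1.trans ?_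
  rw [h3]
  have h4 := hT' q hq1
  rw [le_div_iff₀ hq0] at h4
  rw [div_le_iff₀ hφ]
  have hqe : (0 : ℝ) < (q : ℝ) ^ ε := Real.rpow_pos_of_pos hq0 _
  have h5 : (q : ℝ) ^ (-ε) * (q : ℝ) ^ ε = 1 := by
    rw [← Real.rpow_add hq0]; simp
  calc (q : ℝ) = (1 / c * (q : ℝ) ^ ε) * (c * (q : ℝ) ^ (-ε) * q) := by
        have : (1 / c * (q : ℝ) ^ ε) * (c * (q : ℝ) ^ (-ε) * q)
            = (1 / c * c) * ((q : ℝ) ^ (-ε) * (q : ℝ) ^ ε) * q := by ring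
        rw [this, h5, one_div_mul_cancel hc.ne']
        ring
    _ ≤ (1 / c * (q : ℝ) ^ ε) * q.totient := by
        exact mul_le_mul_of_nonneg_left h4 (by positivity)

end Pool.Agent.SWz
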