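import Pool.Agent.SWz.LowCore

namespace Pool.Agent.SWz

theorem LOWA_zeta (σ : ℝ) (hσ : 1 < σ) : ∑' n : ℕ, ((n : ℝ) ^ σ)⁻¹ ≤ 1 + 1 / (σ - 1) := by
  have hs : Summable fun n : ℕ => ((n : ℝ) ^ σ)⁻¹ := Real.summable_nat_rpow_inv.2 hσ
  have hanti : AntitoneOn (fun x : ℝ => x ^ (-σ)) (Set.Ici ((1 : ℕ) : ℝ)) := by
    intro x hx y hy hxy
    have hx' : (1 : ℝ) ≤ x := by simpa using hx
    exact Real.rpow_le_rpow_of_nonpos (by linarith) hxy (by linarith)
  have hint : MeasureTheory.IntegrableOn (fun x : ℝ => x ^ (-σ)) (Set.Ioi ((1 : ℕ) : ℝ)) := by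
    have := (integrableOn_Ioi_rpow_iff (s := -σ) (t := 1) one_pos).2 (by linarith)
    simpa using this
  have hnn : ∀ t ∈ Set.Ioi ((1 : ℕ) : ℝ), 0 ≤ (fun x : ℝ => x ^ (-σ)) t := by
    intro t ht
    have : (1 : ℝ) < t := by simpa using ht
    exact Real.rpow_nonneg (by linarith) _
  have h := AntitoneOn.tsum_comp_add_le_integral 1 hanti hint hnn
  have hval : ∫ x in Set.Ioi ((1 : ℕ) : ℝ), (fun x : ℝ => x ^ (-σ)) x = 1 / (σ - 1) := by
    have := integral_Ioi_rpow_of_lt (a := -σ) (by linarith) (c := 1) one_pos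
    simp only [Nat.cast_one]
    rw [this, Real.one_rpow]
    rw [show -σ + 1 = -(σ - 1) by ring, neg_div_neg_eq]
  rw [hval] at h
  have h2 := hs.sum_add_tsum_nat_add 2
  have h3 : ∑ i ∈ Finset.range 2, ((i : ℝ) ^ σ)⁻¹ = 1 := by
    rw [Finset.sum_range_succ, Finset.sum_range_one]
    simp [Real.zero_rpow (by linarith : σ ≠ 0)]
  rw [← h2, h3]
  have h4 : ∑' i : ℕ, (((i + 2 : ℕ) : ℝ) ^ σ)⁻¹ = ∑' n : ℕ, (fun x : ℝ => x ^ (-σ)) ((n + 1 + 1 : ℕ) : ℝ) := by
    refine tsum_congr fun i => ?_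
    simp only
    rw [Real.rpow_neg (by positivity)]
  rw [h4]
  linarith

theorem LOWA_triv (q : ℕ) [NeZero q] (χ : DirichletCharacter ℂ q) (x : ℝ) (hx : 0 < x) (hx1 : x ≤ 1) :
    ‖χ.LFunction (1 + x)‖ ≤ 2 / x := by
  have hre : ((1 : ℂ) + (x : ℂ)).re = 1 + x := by simp
  have h1 : 1 < ((1 : ℂ) + (x : ℂ)).re := by rw [hre]; linarith
  rw [DirichletCharacter.LFunction_eq_LSeries χ h1, LSeries]
  have hs : Summable fun n : ℕ => ((n : ℝ) ^ (1 + x))⁻¹ := Real.summable_nat_rpow_inv.2 (by linarith)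
  have hb : ∀ n : ℕ, ‖LSeries.term (fun n => χ n) (1 + x) n‖ ≤ ((n : ℝ) ^ (1 + x))⁻¹ := by
    intro n
    rw [LSeries.norm_term_eq]
    split_ifs with h0
    · subst h0; positivity
    · rw [hre, div_eq_mul_inv]
      have := χ.norm_le_one (n : ZMod q)
      calc ‖χ n‖ * ((n : ℝ) ^ (1 + x))⁻¹ ≤ 1 * ((n : ℝ) ^ (1 + x))⁻¹ :=
            mul_le_mul_of_nonneg_right this (by positivity)
        _ = _ := one_mul _
  calc ‖∑' n : ℕ, LSeries.term (fun n => χ n) (1 + x) n‖ ≤ ∑' n : ℕ, ((n : ℝ) ^ (1 + x))⁻¹ :=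
        tsum_of_norm_bounded hs.hasSum hb
    _ ≤ 1 + 1 / ((1 + x) - 1) := LOWA_zeta _ (by linarith)
    _ ≤ 2 / x := by
        rw [add_sub_cancel_left]
        have : 2 / x = 1 / x + 1 / x := by ring
        have h1x : 1 ≤ 1 / x := by rw [le_div_iff₀ hx]; linarith
        linarith

/-- MODULE LOWA. One point, abstractly: upper bounds `D` for `L'` on the segment `1 + x + it`, `0 < x ≤ 1`, and `V` for
`L(1 + x + 2it, chi^2)` give the lower bound `1/(128 V D^3)`. -/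
theorem low_point (q : ℕ) [NeZero q] (χ : DirichletCharacter ℂ q) (t V D : ℝ)
    (hχ : χ ≠ 1 ∨ t ≠ 0) (hV : 1 ≤ V) (hD : 1 ≤ D)
    (hd : ∀ x : ℝ, 0 < x → x ≤ 1 → ‖deriv χ.LFunction (1 + x + t * Complex.I)‖ ≤ D)
    (hv : ∀ x : ℝ, 0 < x → x ≤ 1 → ‖(χ ^ 2).LFunction (1 + x + 2 * t * Complex.I)‖ ≤ V) :
    ∀ x : ℝ, 0 < x → x ≤ 1 → 1 / (128 * V * D ^ 3) ≤ ‖χ.LFunction (1 + x + t * Complex.I)‖ := by
  refine low_core (fun x => ‖χ.LFunction (1 + x + t * Complex.I)‖) V D hV hD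
    (fun x _ _ => norm_nonneg _) ?_ ?_
  · intro x y hx hxy hy
    have hder : ∀ u ∈ Set.Ioc (0 : ℝ) 1, DifferentiableAt ℂ χ.LFunction (1 + u + t * Complex.I) := by
      intro u hu
      refine DirichletCharacter.differentiableAt_LFunction χ _ ?_
      left
      intro h0
      have := congrArg Complex.re h0
      simp at this
      exact hu.1.ne' this
    have hlin : ∀ u : ℝ, HasDerivAt (fun v : ℝ => (1 : ℂ) + v + t * Complex.I) 1 u := by
      intro u
      have := (Complex.ofRealCLM.hasDerivAt (x := u)).const_add (1 : ℂ)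
      simpa using this.add_const ((t : ℂ) * Complex.I)
    have hg : ∀ u ∈ Set.Icc x y, HasDerivWithinAt (fun v : ℝ => χ.LFunction (1 + v + t * Complex.I))
        (deriv χ.LFunction (1 + u + t * Complex.I)) (Set.Icc x y) u := by
      intro u hu
      have h1 := (hder u ⟨lt_of_lt_of_le hx hu.1, le_trans hu.2 hy⟩).hasDerivAt
      have h2 := h1.scomp u (hlin u)
      simp only [one_smul] at h2
      exact h2.hasDerivWithinAt
    have hb := norm_image_sub_le_of_norm_deriv_le_segment' hg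
      (fun u hu => hd u (lt_of_lt_of_le hx hu.1) (le_trans hu.2.le hy)) y ⟨hxy, le_rfl⟩
    calc |‖χ.LFunction (1 + x + t * Complex.I)‖ - ‖χ.LFunction (1 + y + t * Complex.I)‖|
        ≤ ‖χ.LFunction (1 + x + t * Complex.I) - χ.LFunction (1 + y + t * Complex.I)‖ :=
          abs_norm_sub_norm_le _ _
      _ = ‖χ.LFunction (1 + y + t * Complex.I) - χ.LFunction (1 + x + t * Complex.I)‖ :=
          norm_sub_rev _ _
      _ ≤ D * (y - x) := hb
  · intro x hx hx1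
    have h := DirichletCharacter.norm_LFunction_product_ge_one χ hx t
    rw [norm_mul, norm_mul, norm_pow, norm_pow] at h
    have e1 : (1 : ℂ) + x + Complex.I * t = 1 + x + t * Complex.I := by ring
    have e2 : (1 : ℂ) + x + 2 * Complex.I * t = 1 + x + 2 * t * Complex.I := by ring
    rw [e1, e2] at h
    have h0 := LOWA_triv q 1 x hx hx1
    refine le_trans h ?_
    have hp : 0 ≤ ‖χ.LFunction (1 + x + t * Complex.I)‖ ^ 4 := by positivity
    have hq : ‖DirichletCharacter.LFunctionTrivChar q (1 + x)‖ ^ 3 ≤ (2 / x) ^ 3 :=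
      pow_le_pow_left₀ (norm_nonneg _) h0 3
    exact mul_le_mul (mul_le_mul_of_nonneg_right hq hp) (hv x hx hx1) (norm_nonneg _)
      (by positivity)

end Pool.Agent.SWz
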