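import Mathlib

namespace Pool.Agent.SWz

namespace LOWTRIVAux

lemma sum_rpow_le (σ : ℝ) (hσ : 1 < σ) :
    Summable (fun n : ℕ => 1 / ((n : ℝ) + 1) ^ σ) ∧
      ∑' n : ℕ, 1 / ((n : ℝ) + 1) ^ σ ≤ 1 + 1 / (σ - 1) := by
  constructor
  · have h := (Real.summable_one_div_nat_rpow.mpr hσ)
    have h2 := (summable_nat_add_iff 1).mpr h
    simpa using h2
  · have h := ZetaAsymptotics.zeta_limit_aux1 hσ
    have h2 : 0 ≤ ZetaAsymptotics.termTSum σ :=
      tsum_nonneg fun n => ZetaAsymptotics.term_nonneg _ _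
    have h3 : 0 ≤ σ * ZetaAsymptotics.termTSum σ := mul_nonneg (by linarith) h2
    linarith

end LOWTRIVAux

/-- MODULE LOWTRIV. Trivial lower bound: `1/|L(s,chi)| = |sum mu chi n^-s| ≤ zeta(sig) ≤ 1 + 1/(sig-1) ≤ 2/(sig-1)`.
HINT: `DirichletCharacter.LFunction_eq_LSeries`, `DirichletCharacter.LSeries.mul_mu_eq_one`
(product of `LSeries chi` and `LSeries (chi * mu)` is 1), `norm_tsum_le_tsum_norm`, each term has norm `≤ n^(-sig)`,
and `∑ n^(-sig) ≤ 1 + 1/(sig-1)` (`sum_Ioc_inv_rpow...`/integral comparison, or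
`ZetaAsymptotics` / `tsum_one_div_nat_cpow`; any proof). -/
theorem low_triv (q : ℕ) [NeZero q] (χ : DirichletCharacter ℂ q) (s : ℂ) (h1 : 1 < s.re)
    (h2 : s.re ≤ 2) : (s.re - 1) / 2 ≤ ‖χ.LFunction s‖ := by
  have hprod := DirichletCharacter.LSeries.mul_mu_eq_one χ h1
  rw [DirichletCharacter.LFunction_eq_LSeries χ h1]
  set g : ℕ → ℂ := (fun n : ℕ => χ (n : ZMod q)) *
    (fun n : ℕ => ((ArithmeticFunction.moebius n : ℤ) : ℂ)) with hg
  obtain ⟨hsum, hle⟩ := LOWTRIVAux.sum_rpow_le s.re h1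
  have hgle : ∀ n, ‖g n‖ ≤ 1 := by
    intro n
    rw [hg, Pi.mul_apply, norm_mul]
    have e1 := DirichletCharacter.norm_le_one χ (n : ZMod q)
    have e2 : ‖((ArithmeticFunction.moebius n : ℤ) : ℂ)‖ ≤ 1 := by
      rw [Complex.norm_intCast]
      exact_mod_cast ArithmeticFunction.abs_moebius_le_one
    calc _ ≤ (1 : ℝ) * 1 := mul_le_mul e1 e2 (norm_nonneg _) zero_le_one
      _ = 1 := one_mul 1
  have hterm : ∀ n : ℕ, ‖LSeries.term g s (n + 1)‖ ≤ 1 / ((n : ℝ) + 1) ^ s.re := by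
    intro n
    rw [LSeries.norm_term_eq]
    simp only [Nat.add_eq_zero_iff, one_ne_zero, and_false, if_false]
    push_cast
    gcongr
    exact hgle _
  have hL : ‖LSeries g s‖ ≤ 1 + 1 / (s.re - 1) := by
    have hs1 : Summable (fun n : ℕ => LSeries.term g s (n + 1)) :=
      Summable.of_norm_bounded hsum hterm
    have hs2 : Summable (LSeries.term g s) := (summable_nat_add_iff 1).mp hs1
    rw [LSeries, hs2.tsum_eq_zero_add, LSeries.term_zero, zero_add]
    exact (tsum_of_norm_bounded hsum.hasSum hterm).trans hle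
  have hnorm : ‖LSeries (fun n : ℕ => χ (n : ZMod q)) s‖ * ‖LSeries g s‖ = 1 := by
    rw [← norm_mul]
    have : LSeries (fun n : ℕ => χ (n : ZMod q)) s * LSeries g s = 1 := hprod
    rw [this, norm_one]
  have hσ : 0 < s.re - 1 := by linarith
  have hL2 : ‖LSeries g s‖ ≤ 2 / (s.re - 1) := by
    refine hL.trans ?_
    rw [le_div_iff₀ hσ]
    have : (1 + 1 / (s.re - 1)) * (s.re - 1) = s.re := by field_simp; ring
    linarith
  have hpos : 0 ≤ ‖LSeries (fun n : ℕ => χ (n : ZMod q)) s‖ := norm_nonneg _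
  have h5 : 1 ≤ ‖LSeries (fun n : ℕ => χ (n : ZMod q)) s‖ * (2 / (s.re - 1)) := by
    calc (1 : ℝ) = ‖LSeries (fun n : ℕ => χ (n : ZMod q)) s‖ * ‖LSeries g s‖ := hnorm.symm
      _ ≤ _ := mul_le_mul_of_nonneg_left hL2 hpos
  rw [mul_div_assoc', le_div_iff₀ hσ] at h5
  linarith

end Pool.Agent.SWz
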