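import Pool.Agent.SWz.Iface
import Pool.Agent.SWz.LowPt
import Pool.Agent.SWz.LowTriv

namespace Pool.Agent.SWz

theorem LOWC_seg {L : ℂ → ℂ} (hL : Differentiable ℂ L) (s : ℂ) (D τ : ℝ) (h1 : 1 < s.re)
    (h2 : s.re ≤ 2) (ht : |s.im| ≤ τ)
    (hd : ∀ z : ℂ, 1 ≤ z.re → z.re ≤ 2 → |z.im| ≤ τ → ‖deriv L z‖ ≤ D) :
    ‖L s - L 1‖ ≤ D * ‖s - 1‖ := by
  have hconv : Convex ℝ ({z : ℂ | 1 ≤ z.re} ∩ {z : ℂ | z.re ≤ 2} ∩ {z : ℂ | z.im ≤ τ} ∩
      {z : ℂ | -τ ≤ z.im}) := by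
    refine ((Convex.inter ?_ ?_).inter ?_).inter ?_
    · exact convex_halfSpace_re_ge 1
    · exact convex_halfSpace_re_le 2
    · exact convex_halfSpace_im_le τ
    · exact convex_halfSpace_im_ge (-τ)
  have hτ := le_trans (abs_nonneg _) ht
  rw [abs_le] at ht
  refine hconv.norm_image_sub_le_of_norm_deriv_le (f := L) (fun z _ => hL z) ?_ ?_ ?_
  · rintro z ⟨⟨⟨a, b⟩, c⟩, d⟩
    exact hd z a b (abs_le.2 ⟨d, c⟩)
  · refine ⟨⟨⟨?_, ?_⟩, ?_⟩, ?_⟩ <;> simp [hτ]
  · exact ⟨⟨⟨h1.le, h2⟩, ht.2⟩, ht.1⟩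

theorem lower_real (hG : Growth) (hD : GrowthD) (hS : Siegel) (hL : LTriv) (hZ : ZGrow) :
    ∀ δ : ℝ, 0 < δ → ∃ c : ℝ, 0 < c ∧ ∀ (q : ℕ) [NeZero q] (χ : DirichletCharacter ℂ q),
      χ ^ 2 = 1 → χ ≠ 1 → ∀ s : ℂ, 1 < s.re → s.re ≤ 2 →
      c * ((q : ℝ) * (|s.im| + 2)) ^ (-δ) ≤ ‖χ.LFunction s‖ := by
  intro δ hδ
  obtain ⟨η, hη0, hη1, hη2⟩ : ∃ η : ℝ, 0 < η ∧ η ≤ δ / 40 ∧ η ≤ 1 / 40 :=
    ⟨min (δ / 40) (1 / 40), by positivity, min_le_left _ _, min_le_right _ _⟩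
  obtain ⟨C', hC'⟩ := hD η hη0 (by linarith)
  obtain ⟨C, hC1, hCC'⟩ : ∃ C : ℝ, 1 ≤ C ∧ C' ≤ C := ⟨max 1 C', le_max_left _ _, le_max_right _ _⟩
  obtain ⟨c1, hc1, hSi⟩ := hS η hη0
  obtain ⟨Z', hZ'⟩ := hZ η hη0 (by linarith)
  obtain ⟨Z, hZ1, hZZ'⟩ : ∃ C : ℝ, 1 ≤ C ∧ Z' ≤ C := ⟨max 1 Z', le_max_left _ _, le_max_right _ _⟩
  obtain ⟨T', hT'⟩ := hL η hη0
  obtain ⟨T, hT1, hTT'⟩ : ∃ C : ℝ, 1 ≤ C ∧ T' ≤ C := ⟨max 1 T', le_max_left _ _, le_max_right _ _⟩
  have h3 : 0 < (3 : ℝ) ^ (4 * η) := by positivity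
  obtain ⟨c2, hc20, hc21, hc22⟩ : ∃ c2 : ℝ, 0 < c2 ∧ c2 ≤ 1 ∧ c2 * (4 * C * 3 ^ (4 * η)) ≤ c1 := by
    refine ⟨min 1 (c1 / (4 * C * 3 ^ (4 * η))), by positivity, min_le_left _ _, ?_⟩
    have h4 : 0 < 4 * C * (3 : ℝ) ^ (4 * η) := by positivity
    calc min 1 (c1 / (4 * C * 3 ^ (4 * η))) * (4 * C * 3 ^ (4 * η))
        ≤ (c1 / (4 * C * 3 ^ (4 * η))) * (4 * C * 3 ^ (4 * η)) :=
          mul_le_mul_of_nonneg_right (min_le_right _ _) h4.le
      _ = c1 := by field_simp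
  set K : ℝ := T * Z * (2 / c2) * 2 ^ (2 * η) with hK
  have hK1 : 1 ≤ K := by
    have e1 : (1 : ℝ) ≤ T * Z := one_le_mul_of_one_le_of_one_le hT1 hZ1
    have e2 : (1 : ℝ) ≤ 2 / c2 := by rw [le_div_iff₀ hc20]; linarith
    have e3 : (1 : ℝ) ≤ 2 ^ (2 * η) := Real.one_le_rpow (by norm_num) (by positivity)
    exact one_le_mul_of_one_le_of_one_le (one_le_mul_of_one_le_of_one_le e1 e2) e3
  have hK0 : 0 < K := by linarith
  have hC0 : 0 < C := by linarith
  refine ⟨min (min (c1 / 2) (c2 / 2)) (1 / (128 * K * C ^ 3)), by positivity, ?_⟩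
  intro q hq χ hχ2 hχ s hs1 hs2
  have hq1 : (1 : ℝ) ≤ q := by exact_mod_cast Nat.one_le_iff_ne_zero.2 (NeZero.ne q)
  have hq0 : (0 : ℝ) < q := by linarith
  set Q : ℝ := (q : ℝ) * (|s.im| + 2) with hQ
  have hqQ : (q : ℝ) ≤ Q := by
    rw [hQ]; nlinarith [abs_nonneg s.im]
  have hQ1 : 1 ≤ Q := le_trans hq1 hqQ
  have hQ0 : 0 < Q := by linarith
  have hQδ : 0 < Q ^ (-δ) := by positivity
  -- comparison of powers
  have hpow : ∀ e : ℝ, 0 ≤ e → e ≤ δ → Q ^ (-δ) ≤ (q : ℝ) ^ (-e) := by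
    intro e he hed
    calc Q ^ (-δ) ≤ Q ^ (-e) := Real.rpow_le_rpow_of_exponent_le hQ1 (by linarith)
      _ ≤ (q : ℝ) ^ (-e) := Real.rpow_le_rpow_of_nonpos hq0 hqQ (by linarith)
  have hdiff : Differentiable ℂ χ.LFunction := DirichletCharacter.differentiable_LFunction hχ
  set τ : ℝ := c2 * (q : ℝ) ^ (-(5 * η)) with hτ
  have hτ0 : 0 < τ := by positivity
  have hτ1 : τ ≤ 1 := by
    have : (q : ℝ) ^ (-(5 * η)) ≤ 1 := Real.rpow_le_one_of_one_le_of_nonpos hq1 (by linarith)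
    calc τ ≤ 1 * 1 := mul_le_mul hc21 this (by positivity) (by norm_num)
      _ = 1 := by norm_num
  rcases le_or_gt |s.im| τ with ht | ht
  · rcases le_or_gt (s.re - 1) τ with hx | hx
    · -- case 1
      have hd : ∀ z : ℂ, 1 ≤ z.re → z.re ≤ 2 → |z.im| ≤ τ →
          ‖deriv χ.LFunction z‖ ≤ C * (3 * (q : ℝ)) ^ (4 * η) := by
        intro z hz1 hz2 hz3
        have h := hC' q χ hχ z (by linarith) (by linarith)
        have hb : (q : ℝ) * (|z.im| + 2) ≤ 3 * q := by nlinarith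
        have hb0 : 0 ≤ (q : ℝ) * (|z.im| + 2) := by positivity
        calc ‖deriv χ.LFunction z‖ ≤ C' * ((q : ℝ) * (|z.im| + 2)) ^ (4 * η) := h
          _ ≤ C * ((q : ℝ) * (|z.im| + 2)) ^ (4 * η) :=
              mul_le_mul_of_nonneg_right hCC' (by positivity)
          _ ≤ C * (3 * (q : ℝ)) ^ (4 * η) :=
              mul_le_mul_of_nonneg_left (Real.rpow_le_rpow hb0 hb (by positivity)) hC0.le
      have hseg := LOWC_seg hdiff s _ τ hs1 hs2 ht hd
      have hnorm : ‖s - 1‖ ≤ 2 * τ := by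
        have h := Complex.norm_le_abs_re_add_abs_im (s - 1)
        simp only [Complex.sub_re, Complex.one_re, Complex.sub_im, Complex.one_im, sub_zero] at h
        have : |s.re - 1| ≤ τ := by rw [abs_of_pos (by linarith)]; exact hx
        linarith
      have hbd : ‖χ.LFunction s - χ.LFunction 1‖ ≤ c1 / 2 * (q : ℝ) ^ (-η) := by
        calc ‖χ.LFunction s - χ.LFunction 1‖ ≤ C * (3 * (q : ℝ)) ^ (4 * η) * ‖s - 1‖ := hseg
          _ ≤ C * (3 * (q : ℝ)) ^ (4 * η) * (2 * τ) :=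
              mul_le_mul_of_nonneg_left hnorm (by positivity)
          _ = (c2 * (4 * C * 3 ^ (4 * η))) / 2 * ((q : ℝ) ^ (4 * η) * (q : ℝ) ^ (-(5 * η))) := by
              rw [Real.mul_rpow (by norm_num) hq0.le, hτ]; ring
          _ = (c2 * (4 * C * 3 ^ (4 * η))) / 2 * (q : ℝ) ^ (-η) := by
              rw [← Real.rpow_add hq0]; congr 2; ring
          _ ≤ c1 / 2 * (q : ℝ) ^ (-η) := by
              apply mul_le_mul_of_nonneg_right _ (by positivity)
              linarith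
      have hs := hSi q χ hχ2 hχ
      have htri : ‖χ.LFunction 1‖ ≤ ‖χ.LFunction s‖ + ‖χ.LFunction s - χ.LFunction 1‖ := by
        have := norm_sub_norm_le (χ.LFunction 1) (χ.LFunction s)
        rw [norm_sub_rev] at this; linarith
      calc min (min (c1 / 2) (c2 / 2)) (1 / (128 * K * C ^ 3)) * Q ^ (-δ)
          ≤ c1 / 2 * Q ^ (-δ) := mul_le_mul_of_nonneg_right
            (le_trans (min_le_left _ _) (min_le_left _ _)) hQδ.le
        _ ≤ c1 / 2 * (q : ℝ) ^ (-η) :=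
            mul_le_mul_of_nonneg_left (hpow η hη0.le (by linarith)) (by positivity)
        _ ≤ ‖χ.LFunction s‖ := by linarith
    · -- case 2
      have h := low_triv q χ s hs1 hs2
      calc min (min (c1 / 2) (c2 / 2)) (1 / (128 * K * C ^ 3)) * Q ^ (-δ)
          ≤ c2 / 2 * Q ^ (-δ) := mul_le_mul_of_nonneg_right
            (le_trans (min_le_left _ _) (min_le_right _ _)) hQδ.le
        _ ≤ c2 / 2 * (q : ℝ) ^ (-(5 * η)) :=
            mul_le_mul_of_nonneg_left (hpow (5 * η) (by positivity) (by linarith)) (by positivity)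
        _ = τ / 2 := by rw [hτ]; ring
        _ ≤ (s.re - 1) / 2 := by linarith
        _ ≤ ‖χ.LFunction s‖ := h
  · -- case 3
    have htne : s.im ≠ 0 := by
      intro h0; rw [h0, abs_zero] at ht; linarith
    have htpos : 0 < |s.im| := abs_pos.2 htne
    have hDD : 1 ≤ C * Q ^ (4 * η) :=
      one_le_mul_of_one_le_of_one_le hC1 (Real.one_le_rpow hQ1 (by positivity))
    have hVV : 1 ≤ K * Q ^ (6 * η) :=
      one_le_mul_of_one_le_of_one_le hK1 (Real.one_le_rpow hQ1 (by positivity))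
    have hpt := low_point q χ s.im (K * Q ^ (6 * η)) (C * Q ^ (4 * η)) (Or.inl hχ) hVV hDD ?_ ?_
      (s.re - 1) (by linarith) (by linarith)
    · have hsx : (1 : ℂ) + ((s.re - 1 : ℝ) : ℂ) + (s.im : ℂ) * Complex.I = s := by
        apply Complex.ext <;> simp
      rw [hsx] at hpt
      refine le_trans ?_ hpt
      have hexp : (K * Q ^ (6 * η)) * (C * Q ^ (4 * η)) ^ 3 = K * C ^ 3 * Q ^ (18 * η) := by
        rw [mul_pow, ← Real.rpow_natCast (Q ^ (4 * η)) 3, ← Real.rpow_mul hQ0.le]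
        have : Q ^ (18 * η) = Q ^ (6 * η) * Q ^ (4 * η * ((3 : ℕ) : ℝ)) := by
          rw [← Real.rpow_add hQ0]; congr 1; push_cast; ring
        rw [this]; ring
      have hle : 1 / (128 * (K * Q ^ (6 * η)) * (C * Q ^ (4 * η)) ^ 3) =
          1 / (128 * K * C ^ 3) * Q ^ (-(18 * η)) := by
        rw [mul_assoc 128 (K * Q ^ (6 * η)), hexp, Real.rpow_neg hQ0.le]
        field_simp
      rw [hle]
      calc min (min (c1 / 2) (c2 / 2)) (1 / (128 * K * C ^ 3)) * Q ^ (-δ)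
          ≤ 1 / (128 * K * C ^ 3) * Q ^ (-δ) :=
            mul_le_mul_of_nonneg_right (min_le_right _ _) hQδ.le
        _ ≤ 1 / (128 * K * C ^ 3) * Q ^ (-(18 * η)) :=
            mul_le_mul_of_nonneg_left
              (Real.rpow_le_rpow_of_exponent_le hQ1 (by linarith)) (by positivity)
    · intro x hx0 hx1
      have hre : ((1 : ℂ) + (x : ℂ) + (s.im : ℂ) * Complex.I).re = 1 + x := by simp
      have him : ((1 : ℂ) + (x : ℂ) + (s.im : ℂ) * Complex.I).im = s.im := by simp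
      have h := hC' q χ hχ (1 + x + s.im * Complex.I) (by rw [hre]; linarith)
        (by rw [hre]; linarith)
      rw [him] at h
      exact le_trans h (mul_le_mul_of_nonneg_right hCC' (by positivity))
    · intro x hx0 hx1
      have hre : ((1 : ℂ) + (x : ℂ) + 2 * (s.im : ℂ) * Complex.I).re = 1 + x := by simp
      have him : ((1 : ℂ) + (x : ℂ) + 2 * (s.im : ℂ) * Complex.I).im = 2 * s.im := by simp
      have hne : ((1 : ℂ) + (x : ℂ) + 2 * (s.im : ℂ) * Complex.I) ≠ 1 := by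
        intro h0
        have := congrArg Complex.im h0
        rw [him] at this; simp at this; exact htne this
      have hz := hZ' (1 + x + 2 * s.im * Complex.I) (by rw [hre]; linarith)
        (by rw [hre]; linarith) (by rw [him]; exact mul_ne_zero two_ne_zero htne)
      rw [him, abs_mul, abs_two] at hz
      have ht' := hT' q (1 + x + 2 * s.im * Complex.I) (by rw [hre]; linarith) hne
      rw [hχ2]
      have hinv : 1 + 1 / (2 * |s.im|) ≤ (2 / c2) * (q : ℝ) ^ (5 * η) := by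
        have e1 : 1 / (2 * |s.im|) ≤ 1 / (2 * τ) :=
          one_div_le_one_div_of_le (by positivity) (by linarith)
        have e2 : 1 / (2 * τ) = (1 / (2 * c2)) * (q : ℝ) ^ (5 * η) := by
          rw [hτ, Real.rpow_neg hq0.le]; field_simp
        have e3 : (1 : ℝ) ≤ (1 / c2) * (q : ℝ) ^ (5 * η) := by
          refine one_le_mul_of_one_le_of_one_le ?_ (Real.one_le_rpow hq1 (by positivity))
          rw [le_div_iff₀ hc20]; linarith
        have e4 : (2 / c2) * (q : ℝ) ^ (5 * η) = (1 / c2) * (q : ℝ) ^ (5 * η) +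
            (1 / (2 * c2)) * (q : ℝ) ^ (5 * η) + (1 / (2 * c2)) * (q : ℝ) ^ (5 * η) := by
          field_simp; ring
        have e5 : 0 ≤ (1 / (2 * c2)) * (q : ℝ) ^ (5 * η) := by positivity
        rw [e2] at e1; linarith
      have hpw : (2 * |s.im| + 2) ^ (2 * η) ≤ 2 ^ (2 * η) * (|s.im| + 2) ^ (2 * η) := by
        rw [← Real.mul_rpow (by norm_num) (by positivity)]
        exact Real.rpow_le_rpow (by positivity) (by linarith [abs_nonneg s.im]) (by positivity)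
      have hz2 : ‖riemannZeta (1 + x + 2 * s.im * Complex.I)‖ ≤
          Z * ((2 / c2) * (q : ℝ) ^ (5 * η)) * (2 ^ (2 * η) * (|s.im| + 2) ^ (2 * η)) := by
        calc ‖riemannZeta (1 + x + 2 * s.im * Complex.I)‖
            ≤ Z' * (1 + 1 / (2 * |s.im|)) * (2 * |s.im| + 2) ^ (2 * η) := hz
          _ ≤ Z * (1 + 1 / (2 * |s.im|)) * (2 * |s.im| + 2) ^ (2 * η) := by
              apply mul_le_mul_of_nonneg_right _ (by positivity)
              exact mul_le_mul_of_nonneg_right hZZ' (by positivity)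
          _ ≤ Z * ((2 / c2) * (q : ℝ) ^ (5 * η)) * (2 * |s.im| + 2) ^ (2 * η) := by
              apply mul_le_mul_of_nonneg_right _ (by positivity)
              exact mul_le_mul_of_nonneg_left hinv (by linarith)
          _ ≤ _ := mul_le_mul_of_nonneg_left hpw (by positivity)
      calc ‖(1 : DirichletCharacter ℂ q).LFunction (1 + x + 2 * s.im * Complex.I)‖
          ≤ T' * (q : ℝ) ^ η * ‖riemannZeta (1 + x + 2 * s.im * Complex.I)‖ := ht'
        _ ≤ T * (q : ℝ) ^ η * ‖riemannZeta (1 + x + 2 * s.im * Complex.I)‖ := by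
            apply mul_le_mul_of_nonneg_right _ (norm_nonneg _)
            exact mul_le_mul_of_nonneg_right hTT' (by positivity)
        _ ≤ T * (q : ℝ) ^ η * (Z * ((2 / c2) * (q : ℝ) ^ (5 * η)) *
            (2 ^ (2 * η) * (|s.im| + 2) ^ (2 * η))) :=
            mul_le_mul_of_nonneg_left hz2 (by positivity)
        _ = K * ((q : ℝ) ^ (6 * η) * (|s.im| + 2) ^ (2 * η)) := by
            have : (q : ℝ) ^ (6 * η) = (q : ℝ) ^ η * (q : ℝ) ^ (5 * η) := by
              rw [← Real.rpow_add hq0]; congr 1; ring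
            rw [this, hK]; ring
        _ ≤ K * Q ^ (6 * η) := by
            apply mul_le_mul_of_nonneg_left _ hK0.le
            rw [hQ, Real.mul_rpow hq0.le (by positivity)]
            apply mul_le_mul_of_nonneg_left _ (by positivity)
            exact Real.rpow_le_rpow_of_exponent_le (by linarith [abs_nonneg s.im]) (by linarith)

end Pool.Agent.SWz
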