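import Pool.Agent.SWz.LowCx
import Pool.Agent.SWz.LowRe

namespace Pool.Agent.SWz

theorem lower (hG : Growth) (hD : GrowthD) (hS : Siegel) (hL : LTriv) (hZ : ZGrow) : Lower := by
  intro δ hδ
  obtain ⟨c, hc, h⟩ := lower_complex hG hD δ hδ
  obtain ⟨c', hc', h'⟩ := lower_real hG hD hS hL hZ δ hδ
  refine ⟨min c c', lt_min hc hc', ?_⟩
  intro q _ χ hχ s hs hs2
  have hQ : 0 ≤ ((q : ℝ) * (|s.im| + 2)) ^ (-δ) := by positivity
  by_cases h2 : χ ^ 2 = 1
  · exact le_trans (mul_le_mul_of_nonneg_right (min_le_right _ _) hQ) (h' q χ h2 hχ s hs hs2)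
  · exact le_trans (mul_le_mul_of_nonneg_right (min_le_left _ _) hQ) (h q χ h2 s hs hs2)

end Pool.Agent.SWz
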