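import Mathlib

/-! MP_3509fd_nt part C1 (Siegel-Walfisz): Estermann's inequality. -/

namespace Pool.Agent.SWz

open Complex
open scoped ComplexOrder

namespace EstermAux

open Filter Topology

theorem zeta_bound : ∃ C₁ : ℝ, 0 < C₁ ∧ ∀ s : ℂ, ‖s - 2‖ = 3 / 2 → ‖riemannZeta s‖ ≤ C₁ := by
  have hcomp : IsCompact (Metric.sphere (2 : ℂ) (3 / 2)) := isCompact_sphere _ _
  have hcont : ContinuousOn riemannZeta (Metric.sphere (2 : ℂ) (3 / 2)) := by
    intro s hs
    apply ContinuousAt.continuousWithinAt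
    apply (differentiableAt_riemannZeta _).continuousAt
    rintro rfl
    rw [mem_sphere_iff_norm] at hs
    norm_num at hs
  obtain ⟨C, hC⟩ := hcomp.exists_bound_of_continuousOn hcont
  refine ⟨max C 1, lt_of_lt_of_le one_pos (le_max_right _ _), ?_⟩
  intro s hs
  exact (hC s (mem_sphere_iff_norm.mpr hs)).trans (le_max_left _ _)

/-- the entire function `(s - 1) ζ(s) G(s)` -/
noncomputable def H (G : ℂ → ℂ) : ℂ → ℂ :=
  Function.update (fun s => (s - 1) * riemannZeta s * G s) 1 (G 1)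

theorem H_diff {G : ℂ → ℂ} (hG : Differentiable ℂ G) : Differentiable ℂ (H G) := by
  rw [← differentiableOn_univ]
  rw [← Complex.differentiableOn_compl_singleton_and_continuousAt_iff (c := (1 : ℂ)) univ_mem]
  constructor
  · have h1 : DifferentiableOn ℂ (fun s => (s - 1) * riemannZeta s * G s)
        (Set.univ \ {(1 : ℂ)}) := by
      intro s hs
      have hs1 : s ≠ 1 := fun h => hs.2 h
      apply DifferentiableAt.differentiableWithinAt
      exact ((differentiableAt_id.sub_const 1).mul (differentiableAt_riemannZeta hs1)).mul (hG s)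
    refine h1.congr ?_
    intro s hs
    have hs1 : s ≠ 1 := fun h => hs.2 h
    unfold H
    rw [Function.update_of_ne hs1]
  · unfold H
    rw [continuousAt_update_same]
    have h1 := riemannZeta_residue_one
    have h2 : Tendsto G (𝓝[≠] 1) (𝓝 (G 1)) :=
      (hG.continuous.tendsto 1).mono_left nhdsWithin_le_nhds
    have h3 := h1.mul h2
    rw [one_mul] at h3
    exact h3

/-- `ζ(s) G(s) - G(1)/(s-1)` -/
noncomputable def Ph (G : ℂ → ℂ) : ℂ → ℂ := dslope (H G) 1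

theorem Ph_diff {G : ℂ → ℂ} (hG : Differentiable ℂ G) : Differentiable ℂ (Ph G) := by
  rw [← differentiableOn_univ]
  exact (Complex.differentiableOn_dslope univ_mem).mpr (H_diff hG).differentiableOn

theorem Ph_eq (G : ℂ → ℂ) {s : ℂ} (hs : s ≠ 1) :
    Ph G s = riemannZeta s * G s - G 1 / (s - 1) := by
  unfold Ph
  rw [dslope_of_ne _ hs, slope_def_field]
  unfold H
  rw [Function.update_of_ne hs, Function.update_self]
  have hs' : s - 1 ≠ 0 := sub_ne_zero.mpr hs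
  field_simp

theorem Ph_bound {G : ℂ → ℂ} {K C₁ : ℝ} (hC₁ : ∀ s : ℂ, ‖s - 2‖ = 3 / 2 → ‖riemannZeta s‖ ≤ C₁)
    (hK : ∀ s : ℂ, ‖s - 2‖ ≤ 3 / 2 → ‖G s‖ ≤ K) (s : ℂ) (hs : ‖s - 2‖ = 3 / 2) :
    ‖Ph G s‖ ≤ (C₁ + 2) * K := by
  have h1 : (1 : ℝ) / 2 ≤ ‖s - 1‖ := by
    have h := norm_sub_le (s - 1) 1
    have h2 : s - 1 - 1 = s - 2 := by ring
    rw [h2, hs, norm_one] at h
    linarith
  have hs1 : s ≠ 1 := by
    rintro rfl
    rw [sub_self, norm_zero] at h1
    linarith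
  rw [Ph_eq G hs1]
  refine (norm_sub_le _ _).trans ?_
  rw [norm_mul, norm_div]
  have hG1 : ‖G 1‖ ≤ K := hK 1 (by norm_num)
  have hGs : ‖G s‖ ≤ K := hK s hs.le
  have hK0 : 0 ≤ K := (norm_nonneg _).trans hG1
  have h2 : ‖riemannZeta s‖ * ‖G s‖ ≤ C₁ * K :=
    mul_le_mul (hC₁ s hs) hGs (norm_nonneg _) ((norm_nonneg _).trans (hC₁ s hs))
  have h3 : ‖G 1‖ / ‖s - 1‖ ≤ K / (1 / 2) := div_le_div₀ hK0 hG1 (by norm_num) h1
  have h4 : K / (1 / 2) = 2 * K := by ring
  rw [h4] at h3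
  linarith

theorem inv_deriv (m : ℕ) : iteratedDeriv m (fun s : ℂ => (1 * s - 1)⁻¹) 2 =
    (-1) ^ m * (m.factorial : ℂ) := by
  rw [iteratedDeriv_eq_iterate, iter_deriv_inv_linear_sub]
  have h : (1 * 2 - 1 : ℂ) = 1 := by norm_num
  dsimp only
  rw [h]
  simp

end EstermAux

open EstermAux

/-- Estermann's inequality.  `G` entire, `ζ G` is on `Re s > 1` the Dirichlet series of `f >= 0`
with `f 1 = 1`, `‖G‖ <= K` on `‖s - 2‖ <= 3/2`.  Then for `7/8 <= α < 1` and every `M`: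
`Re (ζ(α) G(α)) >= 1 - Re G(1) (2-α)^M/(1-α) - C K (3/4)^M` (`C` absolute).
Proof: `Φ(s) = ζ(s) G(s) - G(1)/(s-1)` is entire (removable singularity), on `‖s-2‖ = 3/2` it is
at most `C₀ K`, so `Φ(α) = ∑ c_m (2-α)^m` with `|c_m| <= C₀ K (2/3)^m` and `c_m = b_m - G(1)`,
`b_m = (-1)^m (LSeries f)^(m)(2)/m! >= 0`, `b_0 >= 1`. -/
theorem estermann : ∃ C : ℝ, 0 < C ∧ ∀ (f : ArithmeticFunction ℂ) (G : ℂ → ℂ) (K : ℝ),
    (∀ n, 0 ≤ f n) → f 1 = 1 →
    (∀ s : ℂ, 1 < s.re → LSeriesSummable (f ·) s ∧ LSeries (f ·) s = riemannZeta s * G s) →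
    Differentiable ℂ G → (∀ s : ℂ, ‖s - 2‖ ≤ 3 / 2 → ‖G s‖ ≤ K) →
    ∀ α : ℝ, 7 / 8 ≤ α → α < 1 → ∀ M : ℕ,
      1 - (G 1).re * (2 - α) ^ M / (1 - α) - C * K * (3 / 4) ^ M
        ≤ (riemannZeta α * G α).re := by
  obtain ⟨C₁, hC₁0, hC₁⟩ := zeta_bound
  refine ⟨4 * (C₁ + 2) + ‖riemannZeta 2‖, by positivity, ?_⟩
  intro f G K hf0 hf1 hfG hG hK α hα1 hα2 M
  have hK0 : 0 ≤ K := (norm_nonneg _).trans (hK 2 (by norm_num))
  -- the Dirichlet series near 2
  have habs : LSeries.abscissaOfAbsConv (f ·) ≤ ((1 : ℝ) : EReal) := by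
    apply LSeries.abscissaOfAbsConv_le_of_forall_lt_LSeriesSummable
    intro y hy
    exact (hfG y (by simpa using hy)).1
  have habs2 : LSeries.abscissaOfAbsConv (f ·) < ((2 : ℝ) : EReal) :=
    lt_of_le_of_lt habs (by exact_mod_cast (by norm_num : (1 : ℝ) < 2))
  have hb0 : ∀ m : ℕ, 0 ≤ (-1 : ℂ) ^ m * iteratedDeriv m (LSeries (f ·)) 2 := by
    intro m
    have h := ArithmeticFunction.iteratedDeriv_LSeries_alternating f hf0 habs2 m
    simpa using h
  have hb1 : (1 : ℂ) ≤ LSeries (f ·) 2 := by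
    have hsum := (hfG 2 (by norm_num)).1
    have h1 := Summable.le_tsum hsum 1 (fun j _ => LSeries.term_nonneg (hf0 j) 2)
    rw [LSeries.term_of_ne_zero one_ne_zero] at h1
    have h2 : f 1 / ((1 : ℕ) : ℂ) ^ (2 : ℂ) = 1 := by
      rw [hf1]
      simp
    rw [h2] at h1
    exact h1
  -- derivatives of Ph at 2
  have hder : ∀ m : ℕ, iteratedDeriv m (Ph G) 2 =
      iteratedDeriv m (LSeries (f ·)) 2 - G 1 * ((-1) ^ m * (m.factorial : ℂ)) := by
    intro m
    have hev : Ph G =ᶠ[nhds 2] (LSeries (f ·) - G 1 • (fun s : ℂ => (1 * s - 1)⁻¹)) := by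
      have hV : IsOpen {s : ℂ | 1 < s.re} := isOpen_lt continuous_const continuous_re
      have h2V : (2 : ℂ) ∈ {s : ℂ | 1 < s.re} := by
        show (1 : ℝ) < (2 : ℂ).re
        norm_num
      filter_upwards [hV.mem_nhds h2V] with s hs
      have hs' : 1 < s.re := hs
      have hs1 : s ≠ 1 := by
        rintro rfl
        norm_num at hs'
      rw [Ph_eq G hs1, Pi.sub_apply, Pi.smul_apply, (hfG s hs').2, smul_eq_mul, one_mul,
        div_eq_mul_inv]
    rw [hev.iteratedDeriv_eq]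
    have hc1 : ContDiffAt ℂ m (LSeries (f ·)) 2 := by
      apply AnalyticAt.contDiffAt
      apply LSeries_analyticOnNhd (f ·)
      show LSeries.abscissaOfAbsConv (f ·) < (((2 : ℂ).re : ℝ) : EReal)
      simpa using habs2
    have hc2 : ContDiffAt ℂ m (fun s : ℂ => (1 * s - 1)⁻¹) 2 := by
      apply ContDiffAt.inv
      · fun_prop
      · norm_num
    have hc3 : ContDiffAt ℂ m (G 1 • (fun s : ℂ => (1 * s - 1)⁻¹)) 2 := hc2.const_smul (G 1)
    rw [iteratedDeriv_sub hc1 hc3, iteratedDeriv_const_smul hc2, inv_deriv, smul_eq_mul]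
  -- the Taylor series at α
  set u : ℕ → ℂ := fun m => ((m.factorial : ℂ))⁻¹ • ((α : ℂ) - 2) ^ m • iteratedDeriv m (Ph G) 2
    with hu
  have hsum : HasSum u (Ph G α) := Complex.hasSum_taylorSeries_of_entire (Ph_diff hG) 2 α
  have hub : ∀ m, ‖u m‖ ≤ (C₁ + 2) * K * (3 / 4) ^ m := by
    intro m
    have h1 := Complex.norm_iteratedDeriv_le_of_forall_mem_sphere_norm_le (c := 2) (R := 3 / 2)
      (C := (C₁ + 2) * K) m (by norm_num) (Ph_diff hG).diffContOnCl
      (fun z hz => Ph_bound hC₁ hK z (mem_sphere_iff_norm.mp hz))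
    have h2 : ‖(α : ℂ) - 2‖ ≤ 9 / 8 := by
      have h3 : (α : ℂ) - 2 = ((α - 2 : ℝ) : ℂ) := by push_cast; ring
      rw [h3, Complex.norm_real, Real.norm_eq_abs, abs_le]
      constructor <;> linarith
    rw [hu]
    dsimp only
    rw [norm_smul, norm_smul, norm_inv, norm_pow]
    have h4 : ‖(m.factorial : ℂ)‖ = (m.factorial : ℝ) := by
      rw [Complex.norm_natCast]
    rw [h4]
    have h5 : (0 : ℝ) < m.factorial := by exact_mod_cast m.factorial_pos
    have h6 : ‖(α : ℂ) - 2‖ ^ m ≤ (9 / 8) ^ m := pow_le_pow_left₀ (norm_nonneg _) h2 m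
    calc (m.factorial : ℝ)⁻¹ * (‖(α : ℂ) - 2‖ ^ m * ‖iteratedDeriv m (Ph G) 2‖)
        ≤ (m.factorial : ℝ)⁻¹ * ((9 / 8) ^ m * (m.factorial * ((C₁ + 2) * K) / (3 / 2) ^ m)) := by
          apply mul_le_mul_of_nonneg_left _ (by positivity)
          exact mul_le_mul h6 h1 (norm_nonneg _) (by positivity)
      _ = (C₁ + 2) * K * ((9 / 8) ^ m / (3 / 2) ^ m) := by
          field_simp
      _ = (C₁ + 2) * K * (3 / 4) ^ m := by
          rw [← div_pow]
          norm_num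
  have hut : ∀ m, u m = ((2 - α : ℝ) : ℂ) ^ m *
      (((m.factorial : ℂ))⁻¹ * ((-1 : ℂ) ^ m * iteratedDeriv m (LSeries (f ·)) 2) - G 1) := by
    intro m
    rw [hu]
    dsimp only
    rw [hder m, smul_eq_mul, smul_eq_mul]
    have h1 : ((α : ℂ) - 2) ^ m = (-1) ^ m * ((2 - α : ℝ) : ℂ) ^ m := by
      rw [← mul_pow]
      congr 1
      push_cast
      ring
    have h5 : (m.factorial : ℂ) ≠ 0 := by exact_mod_cast m.factorial_ne_zero
    have h6 : (-1 : ℂ) ^ m * (-1) ^ m = 1 := by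
      rw [← mul_pow]
      norm_num
    rw [h1]
    field_simp
    linear_combination (-(((2 - α : ℝ) : ℂ) ^ m * G 1 * (m.factorial : ℂ))) * h6
  have hre : HasSum (fun m => (u m).re) (Ph G α).re := Complex.hasSum_re hsum
  have hsplit : (Ph G α).re = ∑ m ∈ Finset.range M, (u m).re + ∑' m, (u (m + M)).re := by
    rw [← hre.tsum_eq]
    exact (hre.summable.sum_add_tsum_nat_add M).symm
  have htail : ‖∑' m, (u (m + M)).re‖ ≤ 4 * (C₁ + 2) * K * (3 / 4) ^ M := by
    have hg : HasSum (fun m : ℕ => (C₁ + 2) * K * (3 / 4) ^ M * (3 / 4) ^ m)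
        ((C₁ + 2) * K * (3 / 4) ^ M * (1 - 3 / 4)⁻¹) :=
      (hasSum_geometric_of_lt_one (by norm_num) (by norm_num)).mul_left _
    have h1 := tsum_of_norm_bounded hg (f := fun m => (u (m + M)).re) (fun m => by
      rw [Real.norm_eq_abs]
      refine (Complex.abs_re_le_norm _).trans ((hub (m + M)).trans (le_of_eq ?_))
      rw [pow_add]
      ring)
    refine h1.trans (le_of_eq ?_)
    norm_num
    ring
  have htail' : -(4 * (C₁ + 2) * K * (3 / 4) ^ M) ≤ ∑' m, (u (m + M)).re := by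
    rw [Real.norm_eq_abs] at htail
    exact (abs_le.mp htail).1
  have h1α : 0 < 1 - α := by linarith
  have hterm : ∀ m, (u m).re = (2 - α) ^ m *
      ((((m.factorial : ℂ))⁻¹ * ((-1 : ℂ) ^ m * iteratedDeriv m (LSeries (f ·)) 2)).re
        - (G 1).re) := by
    intro m
    rw [hut m, ← Complex.ofReal_pow, Complex.re_ofReal_mul, Complex.sub_re]
  have hbre : ∀ m : ℕ,
      0 ≤ (((m.factorial : ℂ))⁻¹ * ((-1 : ℂ) ^ m * iteratedDeriv m (LSeries (f ·)) 2)).re := by
    intro m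
    have h1 : ((m.factorial : ℂ))⁻¹ = (((m.factorial : ℝ)⁻¹ : ℝ) : ℂ) := by push_cast; rfl
    rw [h1, Complex.re_ofReal_mul]
    have h2 := (Complex.le_def.mp (hb0 m)).1
    rw [Complex.zero_re] at h2
    positivity
  have hb0re : 1 ≤ ((((0 : ℕ).factorial : ℂ))⁻¹ *
      ((-1 : ℂ) ^ 0 * iteratedDeriv 0 (LSeries (f ·)) 2)).re := by
    have h2 := (Complex.le_def.mp hb1).1
    simpa using h2
  have hgeom : ∑ m ∈ Finset.range M, (2 - α) ^ m = ((2 - α) ^ M - 1) / (1 - α) := by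
    rw [geom_sum_eq (by linarith)]
    congr 1
    ring
  have hα0 : (α : ℂ) ≠ 1 := by
    intro h
    have h2 : α = 1 := by exact_mod_cast h
    linarith
  have hfin : (riemannZeta α * G α).re = (Ph G α).re - (G 1).re / (1 - α) := by
    rw [Ph_eq G hα0, Complex.sub_re]
    have h3 : G 1 / ((α : ℂ) - 1) = ((-(1 - α)⁻¹ : ℝ) : ℂ) * G 1 := by
      have h4 : (α : ℂ) - 1 ≠ 0 := sub_ne_zero.mpr hα0
      have h5 : (1 : ℂ) - α ≠ 0 := sub_ne_zero.mpr (Ne.symm hα0)
      push_cast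
      field_simp
      ring
    rw [h3, Complex.re_ofReal_mul]
    ring
  rw [hfin, hsplit]
  rcases Nat.eq_zero_or_pos M with hM | hM
  · subst hM
    have h1 : 1 ≤ ‖riemannZeta 2‖ * K := by
      have h2 := (Complex.le_def.mp hb1).1
      rw [Complex.one_re, (hfG 2 (by norm_num)).2] at h2
      have h3 := Complex.re_le_norm (riemannZeta 2 * G 2)
      rw [norm_mul] at h3
      have h4 := mul_le_mul_of_nonneg_left (hK 2 (by norm_num)) (norm_nonneg (riemannZeta 2))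
      linarith
    simp only [pow_zero, mul_one, Finset.range_zero, Finset.sum_empty, zero_add] at htail' ⊢
    have h5 : (4 * (C₁ + 2) + ‖riemannZeta 2‖) * K = 4 * (C₁ + 2) * K + ‖riemannZeta 2‖ * K := by
      ring
    rw [h5]
    linarith
  · have h1 : ∑ m ∈ Finset.range M, (u m).re ≥ 1 - (G 1).re * (((2 - α) ^ M - 1) / (1 - α)) := by
      rw [← hgeom, Finset.mul_sum]
      have h2 : ∑ m ∈ Finset.range M, (u m).re =
          ∑ m ∈ Finset.range M, (2 - α) ^ m *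
          ((((m.factorial : ℂ))⁻¹ * ((-1 : ℂ) ^ m * iteratedDeriv m (LSeries (f ·)) 2)).re)
          - ∑ m ∈ Finset.range M, (G 1).re * (2 - α) ^ m := by
        rw [← Finset.sum_sub_distrib]
        refine Finset.sum_congr rfl ?_
        intro m _
        rw [hterm m]
        ring
      rw [h2]
      have h3 : 1 ≤ ∑ m ∈ Finset.range M, (2 - α) ^ m *
          ((((m.factorial : ℂ))⁻¹ * ((-1 : ℂ) ^ m * iteratedDeriv m (LSeries (f ·)) 2)).re) := by
        refine le_trans ?_ (Finset.single_le_sum (f := fun m : ℕ => (2 - α) ^ m *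
          ((((m.factorial : ℂ))⁻¹ * ((-1 : ℂ) ^ m * iteratedDeriv m (LSeries (f ·)) 2)).re))
          (fun m _ => mul_nonneg (pow_nonneg (by linarith) _) (hbre m))
          (Finset.mem_range.mpr hM))
        rw [pow_zero (2 - α), one_mul]
        exact hb0re
      linarith
    have h2 : (G 1).re * (((2 - α) ^ M - 1) / (1 - α)) + (G 1).re / (1 - α) =
        (G 1).re * (2 - α) ^ M / (1 - α) := by
      field_simp
      ring
    have h3 : 0 ≤ ‖riemannZeta 2‖ * K * (3 / 4) ^ M := by positivity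
    have h5 : (4 * (C₁ + 2) + ‖riemannZeta 2‖) * K * (3 / 4) ^ M =
        4 * (C₁ + 2) * K * (3 / 4) ^ M + ‖riemannZeta 2‖ * K * (3 / 4) ^ M := by
      ring
    rw [h5]
    linarith

end Pool.Agent.SWz
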