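import Mathlib

/-! MP_3509fd_nt part C1 (Siegel-Walfisz): character sums over an interval. -/

namespace Pool.Agent.SWz

open Complex

namespace CharsAux

/-- the sum over a full period -/
theorem period {q : ℕ} [NeZero q] (χ : DirichletCharacter ℂ q) (hχ : χ ≠ 1) (a : ℕ) :
    ∑ n ∈ Finset.Ioc a (a + q), χ (n : ZMod q) = 0 := by
  have hq : 0 < q := Nat.pos_of_ne_zero (NeZero.ne q)
  induction a with
  | zero =>
    have h1 : ∑ n ∈ Finset.Ioc 0 (0 + q), χ (n : ZMod q) =
        ∑ n ∈ Finset.range q, χ (((n + 1 : ℕ)) : ZMod q) := by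
      rw [zero_add, Finset.range_eq_Ico, Finset.sum_Ico_add' (fun n => χ ((n : ℕ) : ZMod q)) 0 q 1]
      refine Finset.sum_congr ?_ fun _ _ => rfl
      ext n
      simp only [Finset.mem_Ioc, Finset.mem_Ico]
      omega
    rw [h1]
    obtain ⟨m, rfl⟩ : ∃ m, q = m + 1 := ⟨q - 1, by omega⟩
    rw [Finset.sum_range (fun n => χ (((n + 1 : ℕ)) : ZMod (m + 1)))]
    have h2 : ∀ i : Fin (m + 1), χ ((((i : ℕ) + 1 : ℕ)) : ZMod (m + 1)) =
        χ ((show ZMod (m + 1) from i) + 1) := by
      intro i
      have h4 : ((((i : ℕ) + 1 : ℕ)) : ZMod (m + 1)) = (show ZMod (m + 1) from i) + 1 := by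
        rw [Nat.cast_add, Nat.cast_one]
        congr 1
        exact Fin.cast_val_eq_self i
      rw [h4]
    rw [Finset.sum_congr rfl fun i _ => h2 i]
    have h3 : ∑ i : ZMod (m + 1), χ (i + 1) = ∑ i : ZMod (m + 1), χ i :=
      Equiv.sum_comp (Equiv.addRight (1 : ZMod (m + 1))) (fun i => χ i)
    exact h3.trans (MulChar.sum_eq_zero_of_ne_one hχ)
  | succ a ih =>
    have h1 : Finset.Ioc a (a + q) = insert (a + 1) (Finset.Ioc (a + 1) (a + q)) := by
      ext n
      simp only [Finset.mem_Ioc, Finset.mem_insert]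
      omega
    have h2 : Finset.Ioc (a + 1) (a + 1 + q) =
        insert (a + 1 + q) (Finset.Ioc (a + 1) (a + q)) := by
      ext n
      simp only [Finset.mem_Ioc, Finset.mem_insert]
      omega
    rw [h1, Finset.sum_insert (by simp)] at ih
    rw [h2, Finset.sum_insert (by simp)]
    rw [← ih]
    congr 2
    rw [Nat.cast_add, ZMod.natCast_self, add_zero]

end CharsAux

open CharsAux

/-- The sum of a nontrivial Dirichlet character mod `q` over an interval is at most `q`. -/
theorem char_sum_le {q : ℕ} [NeZero q] (χ : DirichletCharacter ℂ q) (hχ : χ ≠ 1) (a b : ℕ) :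
    ‖∑ n ∈ Finset.Ioc a b, χ (n : ZMod q)‖ ≤ q := by
  have hq : 0 < q := Nat.pos_of_ne_zero (NeZero.ne q)
  induction b using Nat.strong_induction_on with
  | _ b ih =>
    rcases le_or_gt b (a + q) with hb | hb
    · refine (norm_sum_le _ _).trans ?_
      have h1 : ∑ n ∈ Finset.Ioc a b, ‖χ (n : ZMod q)‖ ≤ ∑ n ∈ Finset.Ioc a b, (1 : ℝ) :=
        Finset.sum_le_sum fun n _ => χ.norm_le_one _
      refine h1.trans ?_
      rw [Finset.sum_const, Nat.card_Ioc, nsmul_eq_mul, mul_one]
      exact_mod_cast (by omega : b - a ≤ q)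
    · have h1 : Finset.Ioc a b = Finset.Ioc a (b - q) ∪ Finset.Ioc (b - q) (b - q + q) := by
        ext n
        simp only [Finset.mem_Ioc, Finset.mem_union]
        omega
      have h2 : Disjoint (Finset.Ioc a (b - q)) (Finset.Ioc (b - q) (b - q + q)) := by
        rw [Finset.disjoint_left]
        intro n h3 h4
        rw [Finset.mem_Ioc] at h3 h4
        omega
      rw [h1, Finset.sum_union h2, period χ hχ, add_zero]
      exact ih (b - q) (by omega)

end Pool.Agent.SWz
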