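import Mathlib
import Pool.Agent.SWz.Chars

/-! MP_3509fd_nt part C1 (Siegel-Walfisz): the L-function in `Re s > 0`. -/

namespace Pool.Agent.SWz

open Complex Filter Topology

namespace AbelLAux

theorem cpow_diff (n : ℕ) (hn : 1 ≤ n) (s : ℂ) (hs : 0 < s.re) :
    ‖(n : ℂ) ^ (-s) - ((n + 1 : ℕ) : ℂ) ^ (-s)‖ ≤
      ‖s‖ / s.re * ((n : ℝ) ^ (-s.re) - ((n + 1 : ℕ) : ℝ) ^ (-s.re)) := by
  have hn0 : (0 : ℝ) < n := by exact_mod_cast hn
  have hle : (n : ℝ) ≤ ((n + 1 : ℕ) : ℝ) := by push_cast; linarith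
  have hs0 : s ≠ 0 := by
    rintro rfl
    simp at hs
  have h0 : (0 : ℝ) ∉ Set.uIcc (n : ℝ) ((n + 1 : ℕ) : ℝ) := by
    rw [Set.uIcc_of_le hle]
    intro h
    linarith [h.1]
  have h1 : ∫ x in (n : ℝ)..((n + 1 : ℕ) : ℝ), (x : ℂ) ^ (-s - 1) =
      (((((n + 1 : ℕ) : ℝ) : ℂ)) ^ (-s) - ((n : ℝ) : ℂ) ^ (-s)) / (-s) := by
    rw [integral_cpow (Or.inr ⟨?_, h0⟩)]
    · congr 1 <;> ring_nf
    · intro h
      apply hs0
      linear_combination -h
  have h2 : ∫ x in (n : ℝ)..((n + 1 : ℕ) : ℝ), x ^ (-s.re - 1) =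
      ((((n + 1 : ℕ) : ℝ)) ^ (-s.re) - (n : ℝ) ^ (-s.re)) / (-s.re) := by
    rw [integral_rpow (Or.inr ⟨?_, h0⟩)]
    · congr 1 <;> ring_nf
    · intro h
      linarith
  have h3 : ‖∫ x in (n : ℝ)..((n + 1 : ℕ) : ℝ), (x : ℂ) ^ (-s - 1)‖ ≤
      ∫ x in (n : ℝ)..((n + 1 : ℕ) : ℝ), x ^ (-s.re - 1) := by
    refine (intervalIntegral.norm_integral_le_integral_norm hle).trans (le_of_eq ?_)
    refine intervalIntegral.integral_congr ?_
    intro x hx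
    rw [Set.uIcc_of_le hle] at hx
    have hx0 : 0 < x := lt_of_lt_of_le hn0 hx.1
    show ‖(x : ℂ) ^ (-s - 1)‖ = x ^ (-s.re - 1)
    rw [norm_cpow_eq_rpow_re_of_pos hx0]
    simp
  rw [h1, h2, norm_div, norm_neg] at h3
  have hsn : 0 < ‖s‖ := norm_pos_iff.mpr hs0
  rw [div_le_iff₀ hsn, norm_sub_rev] at h3
  have h4 : (n : ℂ) = ((n : ℝ) : ℂ) := by simp
  have h5 : ((n + 1 : ℕ) : ℂ) = (((n + 1 : ℕ) : ℝ) : ℂ) := by simp
  rw [h4, h5]
  refine h3.trans (le_of_eq ?_)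
  field_simp
  ring

/-- the partial sums -/
noncomputable def S {q : ℕ} (χ : DirichletCharacter ℂ q) (M : ℕ) (s : ℂ) : ℂ :=
  ∑ n ∈ Finset.Icc 1 M, χ (n : ZMod q) * (n : ℂ) ^ (-s)

theorem parts {q : ℕ} (χ : DirichletCharacter ℂ q) (s : ℂ) (N M : ℕ) (h : N ≤ M) :
    ∑ n ∈ Finset.Ioc N M, χ (n : ZMod q) * (n : ℂ) ^ (-s) =
      (∑ k ∈ Finset.Ioc N M, χ (k : ZMod q)) * (M : ℂ) ^ (-s) +
      ∑ n ∈ Finset.Ico N M, (∑ k ∈ Finset.Ioc N n, χ (k : ZMod q)) *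
        ((n : ℂ) ^ (-s) - ((n + 1 : ℕ) : ℂ) ^ (-s)) := by
  induction M, h using Nat.le_induction with
  | base => simp
  | succ M hM ih =>
    rw [Finset.sum_Ioc_succ_top (by omega), Finset.sum_Ioc_succ_top (by omega),
      Finset.sum_Ico_succ_top hM, ih]
    ring

theorem S_sub {q : ℕ} (χ : DirichletCharacter ℂ q) (s : ℂ) (N M : ℕ) (h : N ≤ M) :
    S χ M s - S χ N s = ∑ n ∈ Finset.Ioc N M, χ (n : ZMod q) * (n : ℂ) ^ (-s) := by
  induction M, h using Nat.le_induction with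
  | base => simp
  | succ M hM ih =>
    rw [Finset.sum_Ioc_succ_top (by omega), ← ih]
    unfold S
    rw [Finset.sum_Icc_succ_top (by omega)]
    ring

theorem S_diff_le {q : ℕ} [NeZero q] (χ : DirichletCharacter ℂ q) (hχ : χ ≠ 1) (s : ℂ)
    (hs : 0 < s.re) (N M : ℕ) (hN : 1 ≤ N) (h : N ≤ M) :
    ‖S χ M s - S χ N s‖ ≤ q * (M : ℝ) ^ (-s.re) + q * ‖s‖ * (N : ℝ) ^ (-s.re) / s.re := by
  rw [S_sub χ s N M h, parts χ s N M h]
  refine (norm_add_le _ _).trans ?_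
  have hM0 : (0 : ℝ) < M := by exact_mod_cast lt_of_lt_of_le hN h
  have h1 : ‖(∑ k ∈ Finset.Ioc N M, χ (k : ZMod q)) * (M : ℂ) ^ (-s)‖ ≤ q * (M : ℝ) ^ (-s.re) := by
    rw [norm_mul]
    have h2 : ‖(M : ℂ) ^ (-s)‖ = (M : ℝ) ^ (-s.re) := by
      have h4 : (M : ℂ) = ((M : ℝ) : ℂ) := by simp
      rw [h4, norm_cpow_eq_rpow_re_of_pos hM0]
      simp
    rw [h2]
    exact mul_le_mul_of_nonneg_right (char_sum_le χ hχ N M) (Real.rpow_nonneg hM0.le _)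
  have h2 : ‖∑ n ∈ Finset.Ico N M, (∑ k ∈ Finset.Ioc N n, χ (k : ZMod q)) *
      ((n : ℂ) ^ (-s) - ((n + 1 : ℕ) : ℂ) ^ (-s))‖ ≤
      ∑ n ∈ Finset.Ico N M, (q * (‖s‖ / s.re)) *
        ((n : ℝ) ^ (-s.re) - ((n + 1 : ℕ) : ℝ) ^ (-s.re)) := by
    refine (norm_sum_le _ _).trans (Finset.sum_le_sum ?_)
    intro n hn
    rw [Finset.mem_Ico] at hn
    rw [norm_mul, mul_assoc]
    exact mul_le_mul (char_sum_le χ hχ N n) (cpow_diff n (by omega) s hs) (norm_nonneg _)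
      (Nat.cast_nonneg _)
  have h3 : ∀ M, N ≤ M → ∑ n ∈ Finset.Ico N M, (q * (‖s‖ / s.re)) *
        ((n : ℝ) ^ (-s.re) - ((n + 1 : ℕ) : ℝ) ^ (-s.re)) =
      (q * (‖s‖ / s.re)) * ((N : ℝ) ^ (-s.re) - (M : ℝ) ^ (-s.re)) := by
    intro M hM
    induction M, hM using Nat.le_induction with
    | base => simp
    | succ M hM ih =>
      rw [Finset.sum_Ico_succ_top hM, ih]
      ring
  rw [h3 M h] at h2
  refine add_le_add h1 (h2.trans ?_)
  have h5 : 0 ≤ (M : ℝ) ^ (-s.re) := Real.rpow_nonneg hM0.le _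
  have h6 : 0 ≤ (q : ℝ) * (‖s‖ / s.re) := by positivity
  have h7 : q * ‖s‖ * (N : ℝ) ^ (-s.re) / s.re = (q * (‖s‖ / s.re)) * (N : ℝ) ^ (-s.re) := by
    ring
  rw [h7]
  exact mul_le_mul_of_nonneg_left (by linarith) h6

theorem rpow_tendsto {a : ℝ} (ha : 0 < a) :
    Tendsto (fun n : ℕ => ((n : ℝ)) ^ (-a)) atTop (𝓝 0) :=
  (tendsto_rpow_neg_atTop ha).comp tendsto_natCast_atTop_atTop

theorem exists_lim {q : ℕ} [NeZero q] (χ : DirichletCharacter ℂ q) (hχ : χ ≠ 1) (s : ℂ)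
    (hs : 0 < s.re) : ∃ g : ℂ, Tendsto (fun M => S χ M s) atTop (𝓝 g) := by
  apply cauchySeq_tendsto_of_complete
  rw [← cauchySeq_shift 1]
  refine cauchySeq_of_le_tendsto_0
    (fun N : ℕ => 2 * (q * ((N + 1 : ℕ) : ℝ) ^ (-s.re) +
      q * ‖s‖ * ((N + 1 : ℕ) : ℝ) ^ (-s.re) / s.re)) ?_ ?_
  · intro n m N hn hm
    have key : ∀ m, N ≤ m → dist (S χ (m + 1) s) (S χ (N + 1) s) ≤
        q * ((N + 1 : ℕ) : ℝ) ^ (-s.re) + q * ‖s‖ * ((N + 1 : ℕ) : ℝ) ^ (-s.re) / s.re := by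
      intro m hm
      rw [dist_eq_norm]
      refine (S_diff_le χ hχ s hs (N + 1) (m + 1) (by omega) (by omega)).trans ?_
      have h1 : ((m + 1 : ℕ) : ℝ) ^ (-s.re) ≤ ((N + 1 : ℕ) : ℝ) ^ (-s.re) := by
        apply Real.rpow_le_rpow_of_nonpos
        · positivity
        · exact_mod_cast Nat.succ_le_succ hm
        · linarith
      have h2 : (q : ℝ) * ((m + 1 : ℕ) : ℝ) ^ (-s.re) ≤ q * ((N + 1 : ℕ) : ℝ) ^ (-s.re) :=
        mul_le_mul_of_nonneg_left h1 (Nat.cast_nonneg _)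
      linarith
    have h1 := key n hn
    have h2 := key m hm
    have h3 := dist_triangle_right (S χ (n + 1) s) (S χ (m + 1) s) (S χ (N + 1) s)
    linarith
  · have h1 : Tendsto (fun N : ℕ => ((N + 1 : ℕ) : ℝ) ^ (-s.re)) atTop (𝓝 0) :=
      (rpow_tendsto hs).comp (tendsto_add_atTop_nat 1)
    have h2 : Tendsto (fun N : ℕ => 2 * (q * ((N + 1 : ℕ) : ℝ) ^ (-s.re) +
        q * ‖s‖ * ((N + 1 : ℕ) : ℝ) ^ (-s.re) / s.re)) atTop
        (𝓝 (2 * (q * 0 + q * ‖s‖ * 0 / s.re))) :=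
      Tendsto.const_mul _ (Tendsto.add (Tendsto.const_mul _ h1)
        (Tendsto.div_const (Tendsto.const_mul _ h1) _))
    simpa using h2

/-- the limit -/
noncomputable def g {q : ℕ} (χ : DirichletCharacter ℂ q) (s : ℂ) : ℂ :=
  limUnder atTop (fun M => S χ M s)

theorem g_tendsto {q : ℕ} [NeZero q] (χ : DirichletCharacter ℂ q) (hχ : χ ≠ 1) (s : ℂ)
    (hs : 0 < s.re) : Tendsto (fun M => S χ M s) atTop (𝓝 (g χ s)) :=
  tendsto_nhds_limUnder (exists_lim χ hχ s hs)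

theorem g_bound {q : ℕ} [NeZero q] (χ : DirichletCharacter ℂ q) (hχ : χ ≠ 1) (s : ℂ)
    (hs : 0 < s.re) (N : ℕ) (hN : 1 ≤ N) :
    ‖g χ s - S χ N s‖ ≤ q * ‖s‖ * (N : ℝ) ^ (-s.re) / s.re := by
  have h1 : Tendsto (fun M => ‖S χ M s - S χ N s‖) atTop (𝓝 ‖g χ s - S χ N s‖) :=
    ((g_tendsto χ hχ s hs).sub_const _).norm
  have h2 : Tendsto (fun M : ℕ => q * (M : ℝ) ^ (-s.re) + q * ‖s‖ * (N : ℝ) ^ (-s.re) / s.re)
      atTop (𝓝 (q * 0 + q * ‖s‖ * (N : ℝ) ^ (-s.re) / s.re)) :=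
    Tendsto.add_const _ (Tendsto.const_mul _ (rpow_tendsto hs))
  rw [mul_zero, zero_add] at h2
  refine le_of_tendsto_of_tendsto h1 h2 ?_
  filter_upwards [eventually_ge_atTop N] with M hM
  exact S_diff_le χ hχ s hs N M hN hM

theorem g_diff {q : ℕ} [NeZero q] (χ : DirichletCharacter ℂ q) (hχ : χ ≠ 1) :
    DifferentiableOn ℂ (g χ) {s : ℂ | 0 < s.re} := by
  have hU : IsOpen {s : ℂ | 0 < s.re} := isOpen_lt continuous_const continuous_re
  have hlu : TendstoLocallyUniformlyOn (fun M s => S χ M s) (g χ) atTop {s : ℂ | 0 < s.re} := by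
    rw [Metric.tendstoLocallyUniformlyOn_iff]
    intro ε hε s0 hs0
    have hs0' : 0 < s0.re := hs0
    set δ := s0.re / 2 with hδ
    have hδ0 : 0 < δ := by positivity
    refine ⟨Metric.ball s0 δ, mem_nhdsWithin_of_mem_nhds (Metric.ball_mem_nhds _ hδ0), ?_⟩
    have h1 : Tendsto (fun N : ℕ => q * (‖s0‖ + δ) * (N : ℝ) ^ (-δ) / δ) atTop
        (𝓝 (q * (‖s0‖ + δ) * 0 / δ)) :=
      Tendsto.div_const (Tendsto.const_mul _ (rpow_tendsto hδ0)) _
    rw [mul_zero, zero_div] at h1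
    filter_upwards [h1.eventually (gt_mem_nhds hε), eventually_ge_atTop 1] with N hN hN1
    intro s hs
    rw [Metric.mem_ball, dist_eq_norm] at hs
    have hre : |s.re - s0.re| ≤ ‖s - s0‖ := by
      have := Complex.abs_re_le_norm (s - s0)
      rwa [Complex.sub_re] at this
    have hsre : δ ≤ s.re := by
      have h3 := (abs_lt.mp (lt_of_le_of_lt hre hs)).1
      have h4 : s0.re = 2 * δ := by rw [hδ]; ring
      linarith
    have hsn : ‖s‖ ≤ ‖s0‖ + δ := by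
      have h3 := norm_add_le s0 (s - s0)
      rw [add_sub_cancel] at h3
      linarith
    have hspos : 0 < s.re := lt_of_lt_of_le hδ0 hsre
    rw [dist_eq_norm]
    refine lt_of_le_of_lt (g_bound χ hχ s hspos N hN1) (lt_of_le_of_lt ?_ hN)
    have hN1' : (1 : ℝ) ≤ N := by exact_mod_cast hN1
    have h5 : (N : ℝ) ^ (-s.re) ≤ (N : ℝ) ^ (-δ) :=
      Real.rpow_le_rpow_of_exponent_le hN1' (by linarith)
    have h6 : 0 ≤ (N : ℝ) ^ (-s.re) := Real.rpow_nonneg (by linarith) _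
    have h7 : 0 ≤ (N : ℝ) ^ (-δ) := Real.rpow_nonneg (by linarith) _
    apply div_le_div₀ (by positivity) _ hδ0 hsre
    apply mul_le_mul _ h5 h6 (by positivity)
    exact mul_le_mul_of_nonneg_left hsn (Nat.cast_nonneg _)
  refine hlu.differentiableOn ?_ hU
  refine Eventually.of_forall (fun M => ?_)
  intro s hs
  apply DifferentiableAt.differentiableWithinAt
  unfold S
  apply DifferentiableAt.fun_sum
  intro n hn
  rw [Finset.mem_Icc] at hn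
  apply DifferentiableAt.const_mul
  apply DifferentiableAt.const_cpow
  · exact differentiableAt_id.neg
  · left
    exact_mod_cast (by omega : n ≠ 0)

theorem g_eq_of_one_lt {q : ℕ} [NeZero q] (χ : DirichletCharacter ℂ q) (hχ : χ ≠ 1) (s : ℂ)
    (hs : 1 < s.re) : g χ s = χ.LFunction s := by
  rw [DirichletCharacter.LFunction_eq_LSeries χ hs]
  have h1 := (χ.LSeriesSummable_of_one_lt_re hs).hasSum.tendsto_sum_nat
  have h2 := (tendsto_add_atTop_iff_nat 1).mpr h1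
  refine tendsto_nhds_unique (g_tendsto χ hχ s (by linarith)) (h2.congr ?_)
  intro M
  unfold S
  rw [Finset.sum_range_succ']
  rw [LSeries.term_zero, add_zero]
  have h3 : Finset.Icc 1 M = (Finset.range M).image (fun n => n + 1) := by
    ext n
    simp only [Finset.mem_Icc, Finset.mem_image, Finset.mem_range]
    constructor
    · intro h
      exact ⟨n - 1, by omega, by omega⟩
    · rintro ⟨m, hm, rfl⟩
      omega
  rw [h3, Finset.sum_image (by intro a _ b _ h; exact Nat.succ_injective h)]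
  refine Finset.sum_congr rfl ?_
  intro n _
  rw [LSeries.term_of_ne_zero (by omega), cpow_neg, div_eq_mul_inv]

theorem g_eq {q : ℕ} [NeZero q] (χ : DirichletCharacter ℂ q) (hχ : χ ≠ 1) (s : ℂ)
    (hs : 0 < s.re) : g χ s = χ.LFunction s := by
  have hU : IsOpen {s : ℂ | 0 < s.re} := isOpen_lt continuous_const continuous_re
  have h1 : AnalyticOnNhd ℂ (g χ) {s : ℂ | 0 < s.re} := (g_diff χ hχ).analyticOnNhd hU
  have h2 : AnalyticOnNhd ℂ χ.LFunction {s : ℂ | 0 < s.re} :=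
    (DirichletCharacter.differentiable_LFunction hχ).differentiableOn.analyticOnNhd hU
  have hpre : IsPreconnected {s : ℂ | 0 < s.re} := (convex_halfSpace_re_gt 0).isPreconnected
  have h0 : (2 : ℂ) ∈ {s : ℂ | 0 < s.re} := by
    show (0 : ℝ) < (2 : ℂ).re
    norm_num
  have hev : g χ =ᶠ[𝓝 2] χ.LFunction := by
    have hV : IsOpen {s : ℂ | 1 < s.re} := isOpen_lt continuous_const continuous_re
    have h2V : (2 : ℂ) ∈ {s : ℂ | 1 < s.re} := by
      show (1 : ℝ) < (2 : ℂ).re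
      norm_num
    filter_upwards [hV.mem_nhds h2V] with s hs
    exact g_eq_of_one_lt χ hχ s hs
  exact h1.eqOn_of_preconnected_of_eventuallyEq h2 hpre h0 hev hs

end AbelLAux

open AbelLAux

/-- Truncation bound in `Re s > 0`.  Proof: with `A(t) = ∑_(N < n <= t) χ(n)` (zero for `t <= N`,
at most `q` in norm), `L(s,χ) = ∑_(n <= N) χ(n) n^(-s) + s ∫_N^∞ A(t) t^(-s-1) dt` for `Re s > 1`
(`LSeries_eq_mul_integral` with `r = 0`), both sides are analytic in `Re s > 0`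
(`mellin_differentiableAt_of_isBigO_rpow` at `-s`), identity theorem. -/
theorem norm_LFunction_le {q : ℕ} [NeZero q] (χ : DirichletCharacter ℂ q) (hχ : χ ≠ 1)
    (N : ℕ) (hN : 1 ≤ N) (s : ℂ) (hs : 0 < s.re) :
    ‖χ.LFunction s‖ ≤ ∑ n ∈ Finset.Icc 1 N, (n : ℝ) ^ (-s.re)
      + q * ‖s‖ * (N : ℝ) ^ (-s.re) / s.re := by
  have h1 := g_bound χ hχ s hs N hN
  rw [g_eq χ hχ s hs] at h1
  have h2 : ‖S χ N s‖ ≤ ∑ n ∈ Finset.Icc 1 N, (n : ℝ) ^ (-s.re) := by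
    unfold S
    refine (norm_sum_le _ _).trans (Finset.sum_le_sum ?_)
    intro n hn
    rw [Finset.mem_Icc] at hn
    have hn0 : (0 : ℝ) < n := by exact_mod_cast hn.1
    rw [norm_mul]
    have h4 : (n : ℂ) = ((n : ℝ) : ℂ) := by simp
    have h5 : ‖(n : ℂ) ^ (-s)‖ = (n : ℝ) ^ (-s.re) := by
      rw [h4, norm_cpow_eq_rpow_re_of_pos hn0]
      simp
    rw [h5]
    have h6 : ‖χ (n : ZMod q)‖ ≤ 1 := DirichletCharacter.norm_le_one χ _
    calc ‖χ (n : ZMod q)‖ * (n : ℝ) ^ (-s.re) ≤ 1 * (n : ℝ) ^ (-s.re) :=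
          mul_le_mul_of_nonneg_right h6 (Real.rpow_nonneg hn0.le _)
      _ = (n : ℝ) ^ (-s.re) := one_mul _
  have h3 := norm_add_le (χ.LFunction s - S χ N s) (S χ N s)
  rw [sub_add_cancel] at h3
  linarith

end Pool.Agent.SWz
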