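import Mathlib
import Pool.Agent.SWz.AbelL

/-! MP_3509fd_nt part C1 (Siegel-Walfisz): growth of L-functions near the line `Re s = 1`. -/

namespace Pool.Agent.SWz

open Complex

namespace GROWAux

lemma sum_le (ε : ℝ) (hε : 0 < ε) (σ : ℝ) (h1 : 1 - ε ≤ σ) (N : ℕ) (hN : 1 ≤ N) :
    ∑ n ∈ Finset.Icc 1 N, (n : ℝ) ^ (-σ) ≤ (1 + 1 / ε) * (N : ℝ) ^ (2 * ε) := by
  have hN' : (1 : ℝ) ≤ N := by exact_mod_cast hN
  have hN0 : (0 : ℝ) < N := by linarith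
  have hterm : ∀ n ∈ Finset.Icc 1 N, (n : ℝ) ^ (-σ) ≤ (N : ℝ) ^ ε * ((n : ℝ))⁻¹ := by
    intro n hn
    obtain ⟨hn1, hn2⟩ := Finset.mem_Icc.mp hn
    have hn1' : (1 : ℝ) ≤ n := by exact_mod_cast hn1
    have hn0 : (0 : ℝ) < n := by linarith
    calc (n : ℝ) ^ (-σ) ≤ (n : ℝ) ^ (ε - 1) :=
          Real.rpow_le_rpow_of_exponent_le hn1' (by linarith)
      _ = (n : ℝ) ^ ε * ((n : ℝ))⁻¹ := by
          rw [Real.rpow_sub hn0, Real.rpow_one, div_eq_mul_inv]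
      _ ≤ (N : ℝ) ^ ε * ((n : ℝ))⁻¹ := by
          have : (n : ℝ) ≤ N := by exact_mod_cast hn2
          gcongr
  have hharm : ∑ n ∈ Finset.Icc 1 N, ((n : ℝ))⁻¹ ≤ 1 + Real.log N := by
    have h := harmonic_le_one_add_log N
    rw [harmonic_eq_sum_Icc] at h
    push_cast at h
    exact h
  have hlog : 1 + Real.log N ≤ (1 + 1 / ε) * (N : ℝ) ^ ε := by
    have h1 := Real.log_le_rpow_div hN0.le hε
    have h2 : (1 : ℝ) ≤ (N : ℝ) ^ ε := Real.one_le_rpow hN' hε.le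
    calc 1 + Real.log N ≤ (N : ℝ) ^ ε + (N : ℝ) ^ ε / ε := add_le_add h2 h1
      _ = (1 + 1 / ε) * (N : ℝ) ^ ε := by ring
  calc ∑ n ∈ Finset.Icc 1 N, (n : ℝ) ^ (-σ)
      ≤ ∑ n ∈ Finset.Icc 1 N, (N : ℝ) ^ ε * ((n : ℝ))⁻¹ := Finset.sum_le_sum hterm
    _ = (N : ℝ) ^ ε * ∑ n ∈ Finset.Icc 1 N, ((n : ℝ))⁻¹ := by rw [Finset.mul_sum]
    _ ≤ (N : ℝ) ^ ε * ((1 + 1 / ε) * (N : ℝ) ^ ε) := by
        gcongr
        exact hharm.trans hlog
    _ = (1 + 1 / ε) * (N : ℝ) ^ (2 * ε) := by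
        rw [two_mul, Real.rpow_add hN0]; ring

end GROWAux

open GROWAux

/-- Growth.  Take `N` about `q (|t| + 2)` in `norm_LFunction_le`
(`n^(-σ) <= N^ε / n`, `∑ 1/n <= 1 + log N <= C N^ε`). -/
theorem growth (ε : ℝ) (hε : 0 < ε) : ∃ C : ℝ, 0 < C ∧
    ∀ (q : ℕ) [NeZero q] (χ : DirichletCharacter ℂ q), χ ≠ 1 → ∀ s : ℂ,
      1 - ε ≤ s.re → 1 / 4 ≤ s.re → s.re ≤ 4 →
      ‖χ.LFunction s‖ ≤ C * ((q : ℝ) * (|s.im| + 2)) ^ (2 * ε) := by
  refine ⟨(1 + 1 / ε + 8) * 2 ^ (2 * ε), by positivity, ?_⟩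
  intro q _ χ hχ s h1 h2 h3
  set A : ℝ := (q : ℝ) * (|s.im| + 2) with hA
  have hq : (1 : ℝ) ≤ q := by exact_mod_cast NeZero.one_le
  have hA2 : 2 ≤ A := by
    rw [hA]
    nlinarith [abs_nonneg s.im]
  set N : ℕ := ⌈A⌉₊ with hNdef
  have hAN : A ≤ N := Nat.le_ceil A
  have hNA : (N : ℝ) ≤ 2 * A := by
    have := Nat.ceil_lt_add_one (by linarith : 0 ≤ A)
    linarith
  have hN1 : 1 ≤ N := by
    have : (1 : ℝ) ≤ N := by linarith
    exact_mod_cast this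
  have hN1' : (1 : ℝ) ≤ N := by exact_mod_cast hN1
  have hN0 : (0 : ℝ) < N := by linarith
  have hσ : 0 < s.re := by linarith
  have hmain := norm_LFunction_le χ hχ N hN1 s hσ
  have hs : ‖s‖ ≤ 2 * (|s.im| + 2) := by
    have := Complex.norm_le_abs_re_add_abs_im s
    rw [abs_of_pos hσ] at this
    linarith [abs_nonneg s.im]
  have hsecond : q * ‖s‖ * (N : ℝ) ^ (-s.re) / s.re ≤ 8 * (N : ℝ) ^ (2 * ε) := by
    have e1 : q * ‖s‖ ≤ 2 * N := by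
      calc q * ‖s‖ ≤ q * (2 * (|s.im| + 2)) := by gcongr
        _ = 2 * A := by rw [hA]; ring
        _ ≤ 2 * N := by linarith
    have e2 : (1 : ℝ) / s.re ≤ 4 := by
      rw [div_le_iff₀ hσ]; linarith
    calc q * ‖s‖ * (N : ℝ) ^ (-s.re) / s.re = q * ‖s‖ * (N : ℝ) ^ (-s.re) * (1 / s.re) := by ring
      _ ≤ 2 * N * (N : ℝ) ^ (-s.re) * 4 := by gcongr
      _ = 8 * (N : ℝ) ^ (1 - s.re) := by
          rw [sub_eq_add_neg, Real.rpow_add hN0, Real.rpow_one]; ring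
      _ ≤ 8 * (N : ℝ) ^ (2 * ε) := by
          have : (N : ℝ) ^ (1 - s.re) ≤ (N : ℝ) ^ (2 * ε) :=
            Real.rpow_le_rpow_of_exponent_le hN1' (by linarith)
          linarith
  calc ‖χ.LFunction s‖ ≤ (1 + 1 / ε) * (N : ℝ) ^ (2 * ε) + 8 * (N : ℝ) ^ (2 * ε) :=
        hmain.trans (add_le_add (sum_le ε hε s.re h1 N hN1) hsecond)
    _ = (1 + 1 / ε + 8) * (N : ℝ) ^ (2 * ε) := by ring
    _ ≤ (1 + 1 / ε + 8) * (2 * A) ^ (2 * ε) := by gcongr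
    _ = (1 + 1 / ε + 8) * 2 ^ (2 * ε) * A ^ (2 * ε) := by
        rw [Real.mul_rpow (by norm_num) (by linarith)]; ring

/-- Growth of the derivatives (Cauchy estimate on the circle of radius `min ε (1/4)`). -/
theorem growth_deriv (ε : ℝ) (hε : 0 < ε) (k : ℕ) : ∃ C : ℝ, 0 < C ∧
    ∀ (q : ℕ) [NeZero q] (χ : DirichletCharacter ℂ q), χ ≠ 1 → ∀ s : ℂ,
      1 ≤ s.re → s.re ≤ 3 →
      ‖iteratedDeriv k χ.LFunction s‖ ≤ C * ((q : ℝ) * (|s.im| + 2)) ^ (2 * ε) := by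
  obtain ⟨C, hC, hg⟩ := growth ε hε
  set r : ℝ := min ε (1 / 4) with hr
  have hr0 : 0 < r := lt_min hε (by norm_num)
  refine ⟨k.factorial * (C * 2 ^ (2 * ε)) / r ^ k, by positivity, ?_⟩
  intro q _ χ hχ s h1 h2
  have hq : (1 : ℝ) ≤ q := by exact_mod_cast NeZero.one_le
  have hr1 : r ≤ ε := min_le_left _ _
  have hr2 : r ≤ 1 / 4 := min_le_right _ _
  have hb : ∀ z ∈ Metric.sphere s r,
      ‖χ.LFunction z‖ ≤ C * 2 ^ (2 * ε) * ((q : ℝ) * (|s.im| + 2)) ^ (2 * ε) := by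
    intro z hz
    rw [mem_sphere_iff_norm] at hz
    have hre : |z.re - s.re| ≤ r := by
      have := Complex.abs_re_le_norm (z - s)
      rwa [hz, Complex.sub_re] at this
    have him : |z.im - s.im| ≤ r := by
      have := Complex.abs_im_le_norm (z - s)
      rwa [hz, Complex.sub_im] at this
    have hre' := abs_le.mp hre
    have himz : |z.im| ≤ |s.im| + r := by
      have := abs_sub_abs_le_abs_sub z.im s.im
      linarith
    have := hg q χ hχ z (by linarith [hre'.1]) (by linarith [hre'.1]) (by linarith [hre'.2])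
    refine this.trans ?_
    rw [mul_assoc C, ← Real.mul_rpow (by norm_num) (by positivity)]
    have h4 : (q : ℝ) * (|z.im| + 2) ≤ 2 * ((q : ℝ) * (|s.im| + 2)) := by
      have : |z.im| + 2 ≤ 2 * (|s.im| + 2) := by linarith [abs_nonneg s.im]
      nlinarith
    gcongr
  have h := norm_iteratedDeriv_le_of_forall_mem_sphere_norm_le (c := s) k hr0
    (DirichletCharacter.differentiable_LFunction hχ).diffContOnCl hb
  calc ‖iteratedDeriv k χ.LFunction s‖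
      ≤ k.factorial * (C * 2 ^ (2 * ε) * ((q : ℝ) * (|s.im| + 2)) ^ (2 * ε)) / r ^ k := h
    _ = k.factorial * (C * 2 ^ (2 * ε)) / r ^ k * ((q : ℝ) * (|s.im| + 2)) ^ (2 * ε) := by ring

/-- Bound on the half plane `Re s >= 1/2`, for Estermann's argument
(`N = 1` in `norm_LFunction_le`). -/
theorem norm_LFunction_le_disc {q : ℕ} [NeZero q] (χ : DirichletCharacter ℂ q) (hχ : χ ≠ 1)
    (s : ℂ) (hs : ‖s - 2‖ ≤ 3 / 2) : ‖χ.LFunction s‖ ≤ 8 * q := by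
  have hq : (1 : ℝ) ≤ q := by exact_mod_cast NeZero.one_le
  have hre : 1 / 2 ≤ s.re := by
    have h := (Complex.abs_re_le_norm (s - 2)).trans hs
    rw [Complex.sub_re] at h
    have h' := (abs_le.mp h).1
    have : (2 : ℂ).re = 2 := by norm_num
    rw [this] at h'
    linarith
  have hn : ‖s‖ ≤ 7 / 2 := by
    calc ‖s‖ = ‖(s - 2) + 2‖ := by ring_nf
      _ ≤ ‖s - 2‖ + ‖(2 : ℂ)‖ := norm_add_le _ _
      _ ≤ 3 / 2 + 2 := by
          have : ‖(2 : ℂ)‖ = 2 := by norm_num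
          rw [this]; linarith
      _ = 7 / 2 := by norm_num
  have hσ : 0 < s.re := by linarith
  have h := norm_LFunction_le χ hχ 1 le_rfl s hσ
  simp only [Finset.Icc_self, Finset.sum_singleton, Nat.cast_one, Real.one_rpow, mul_one] at h
  refine h.trans ?_
  have h2 : q * ‖s‖ / s.re ≤ 7 * q := by
    rw [div_le_iff₀ hσ]
    nlinarith [norm_nonneg s]
  linarith

end Pool.Agent.SWz
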