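import Pool.Agent.SWz.Pos

/-! MP_3509fd_nt part C1 (Siegel-Walfisz): positivity of `1 * χ₁ * χ₂ * χ₁χ₂`. -/

namespace Pool.Agent.SWz

open Complex
open scoped ComplexOrder

namespace PosBAux

/-- multiplication by the logarithm -/
noncomputable def L (g : ArithmeticFunction ℂ) : ArithmeticFunction ℂ :=
  ⟨fun n => (Real.log n : ℂ) * g n, by simp⟩

theorem L_apply (g : ArithmeticFunction ℂ) (n : ℕ) : L g n = (Real.log n : ℂ) * g n := rfl

theorem L_mul (g h : ArithmeticFunction ℂ) : L (g * h) = L g * h + g * L h := by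
  ext n
  rw [L_apply, ArithmeticFunction.mul_apply, ArithmeticFunction.add_apply,
    ArithmeticFunction.mul_apply, ArithmeticFunction.mul_apply, Finset.mul_sum,
    ← Finset.sum_add_distrib]
  refine Finset.sum_congr rfl fun x hx => ?_
  obtain ⟨h1, h2⟩ := Nat.mem_divisorsAntidiagonal.1 hx
  have ha : x.1 ≠ 0 := by
    intro h0
    apply h2
    rw [← h1, h0, zero_mul]
  have hb : x.2 ≠ 0 := by
    intro h0
    apply h2
    rw [← h1, h0, mul_zero]
  have h3 : Real.log (n : ℝ) = Real.log (x.1 : ℝ) + Real.log (x.2 : ℝ) := by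
    rw [← h1, Nat.cast_mul, Real.log_mul (by exact_mod_cast ha) (by exact_mod_cast hb)]
  rw [L_apply, L_apply, h3, Complex.ofReal_add]
  ring

/-- `g Λ` -/
noncomputable def V (g : ArithmeticFunction ℂ) : ArithmeticFunction ℂ :=
  ⟨fun n => g n * (ArithmeticFunction.vonMangoldt n : ℂ), by simp⟩

theorem V_apply (g : ArithmeticFunction ℂ) (n : ℕ) :
    V g n = g n * (ArithmeticFunction.vonMangoldt n : ℂ) := rfl

theorem L_eq (g : ArithmeticFunction ℂ) (hg : ∀ a b : ℕ, a ≠ 0 → b ≠ 0 → g (a * b) = g a * g b) :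
    L g = V g * g := by
  ext n
  rw [L_apply, ArithmeticFunction.mul_apply]
  have h1 : ∑ x ∈ n.divisorsAntidiagonal, V g x.1 * g x.2 =
      ∑ x ∈ n.divisorsAntidiagonal, g n * (ArithmeticFunction.vonMangoldt x.1 : ℂ) := by
    refine Finset.sum_congr rfl fun x hx => ?_
    obtain ⟨h1, h2⟩ := Nat.mem_divisorsAntidiagonal.1 hx
    have ha : x.1 ≠ 0 := by
      intro h0
      apply h2
      rw [← h1, h0, zero_mul]
    have hb : x.2 ≠ 0 := by
      intro h0
      apply h2
      rw [← h1, h0, mul_zero]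
    rw [V_apply, ← h1, hg _ _ ha hb]
    ring
  rw [h1, ← Finset.mul_sum, Nat.sum_divisorsAntidiagonal (fun d _ => (ArithmeticFunction.vonMangoldt d : ℂ)),
    ← Complex.ofReal_sum, ArithmeticFunction.vonMangoldt_sum, mul_comm]

theorem zeta_mul (a b : ℕ) (ha : a ≠ 0) (hb : b ≠ 0) :
    (ArithmeticFunction.zeta : ArithmeticFunction ℂ) (a * b) =
      (ArithmeticFunction.zeta : ArithmeticFunction ℂ) a *
        (ArithmeticFunction.zeta : ArithmeticFunction ℂ) b := by
  rw [ArithmeticFunction.natCoe_apply, ArithmeticFunction.natCoe_apply,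
    ArithmeticFunction.natCoe_apply, ArithmeticFunction.zeta_apply_ne (mul_ne_zero ha hb),
    ArithmeticFunction.zeta_apply_ne ha, ArithmeticFunction.zeta_apply_ne hb]
  simp

theorem af_apply {q : ℕ} (χ : DirichletCharacter ℂ q) {n : ℕ} (hn : n ≠ 0) :
    af χ n = χ (n : ZMod q) := by
  change (if n = 0 then (0 : ℂ) else χ (n : ZMod q)) = _
  rw [if_neg hn]

theorem af_mul {q : ℕ} (χ : DirichletCharacter ℂ q) (a b : ℕ) (ha : a ≠ 0) (hb : b ≠ 0) :
    af χ (a * b) = af χ a * af χ b := by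
  rw [af_apply χ ha, af_apply χ hb, af_apply χ (mul_ne_zero ha hb), Nat.cast_mul, map_mul]

theorem one_add_nonneg {q : ℕ} (χ : DirichletCharacter ℂ q) (h : χ ^ 2 = 1) (a : ZMod q) :
    0 ≤ 1 + χ a := by
  by_cases ha : IsUnit a
  · have h1 : (χ a) ^ 2 = 1 := by
      have h2 := DFunLike.congr_fun h a
      rw [MulChar.pow_apply' χ two_ne_zero, MulChar.one_apply ha] at h2
      exact h2
    rcases sq_eq_one_iff.1 h1 with h3 | h3
    · rw [h3]
      norm_num
    · rw [h3]
      norm_num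
  · rw [MulChar.map_nonunit χ ha]
    norm_num

theorem key {q₁ q₂ : ℕ} (χ₁ : DirichletCharacter ℂ q₁) (χ₂ : DirichletCharacter ℂ q₂) :
    L (four χ₁ χ₂) = (V (ArithmeticFunction.zeta : ArithmeticFunction ℂ) + V (af χ₁) + V (af χ₂) +
      V (af (mulc χ₁ χ₂))) * four χ₁ χ₂ := by
  have h1 := L_eq _ zeta_mul
  have h2 := L_eq (af χ₁) (af_mul χ₁)
  have h3 := L_eq (af χ₂) (af_mul χ₂)
  have h4 := L_eq (af (mulc χ₁ χ₂)) (af_mul (mulc χ₁ χ₂))
  unfold four
  rw [L_mul, L_mul, L_mul, h1, h2, h3, h4]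
  ring

theorem coef {q₁ q₂ : ℕ} (χ₁ : DirichletCharacter ℂ q₁) (χ₂ : DirichletCharacter ℂ q₂)
    (h₁ : χ₁ ^ 2 = 1) (h₂ : χ₂ ^ 2 = 1) (n : ℕ) :
    0 ≤ (V (ArithmeticFunction.zeta : ArithmeticFunction ℂ) + V (af χ₁) + V (af χ₂) +
      V (af (mulc χ₁ χ₂))) n := by
  by_cases hn : n = 0
  · subst hn
    rw [ArithmeticFunction.map_zero]
  · rw [ArithmeticFunction.add_apply, ArithmeticFunction.add_apply, ArithmeticFunction.add_apply,
      V_apply, V_apply, V_apply, V_apply, af_apply _ hn, af_apply _ hn, af_apply _ hn,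
      mulc_apply, ArithmeticFunction.natCoe_apply, ArithmeticFunction.zeta_apply_ne hn]
    have h3 : (((1 : ℕ) : ℂ) * (ArithmeticFunction.vonMangoldt n : ℂ) +
        χ₁ (n : ZMod q₁) * (ArithmeticFunction.vonMangoldt n : ℂ) +
        χ₂ (n : ZMod q₂) * (ArithmeticFunction.vonMangoldt n : ℂ) +
        χ₁ (n : ZMod q₁) * χ₂ (n : ZMod q₂) * (ArithmeticFunction.vonMangoldt n : ℂ)) =
        (1 + χ₁ (n : ZMod q₁)) * (1 + χ₂ (n : ZMod q₂)) *
          ((ArithmeticFunction.vonMangoldt n : ℝ) : ℂ) := by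
      push_cast
      ring
    rw [h3]
    have h4 : (0 : ℂ) ≤ ((ArithmeticFunction.vonMangoldt n : ℝ) : ℂ) := by
      rw [Complex.zero_le_real]
      exact ArithmeticFunction.vonMangoldt_nonneg
    exact mul_nonneg (mul_nonneg (one_add_nonneg χ₁ h₁ _) (one_add_nonneg χ₂ h₂ _)) h4

end PosBAux

open PosBAux in
/-- Positivity of the coefficients of `ζ L(χ₁) L(χ₂) L(χ₁χ₂)`. -/
theorem four_nonneg {q₁ q₂ : ℕ} (χ₁ : DirichletCharacter ℂ q₁) (χ₂ : DirichletCharacter ℂ q₂)
    (h₁ : χ₁ ^ 2 = 1) (h₂ : χ₂ ^ 2 = 1) (n : ℕ) : 0 ≤ four χ₁ χ₂ n := by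
  induction n using Nat.strong_induction_on with
  | _ n ih =>
    rcases Nat.lt_or_ge n 2 with hn | hn
    · interval_cases n
      · rw [ArithmeticFunction.map_zero]
      · have h1 : four χ₁ χ₂ 1 = 1 := by
          unfold four
          rw [ArithmeticFunction.mul_apply_one, ArithmeticFunction.mul_apply_one,
            ArithmeticFunction.mul_apply_one, af_apply _ one_ne_zero, af_apply _ one_ne_zero,
            af_apply _ one_ne_zero, ArithmeticFunction.natCoe_apply,
            ArithmeticFunction.zeta_apply_ne one_ne_zero]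
          simp
        rw [h1]
        exact zero_le_one
    · have h1 := DFunLike.congr_fun (key χ₁ χ₂) n
      rw [L_apply, ArithmeticFunction.mul_apply] at h1
      have h2 : 0 ≤ (Real.log n : ℂ) * four χ₁ χ₂ n := by
        rw [h1]
        apply Finset.sum_nonneg
        intro x hx
        obtain ⟨h3, h4⟩ := Nat.mem_divisorsAntidiagonal.1 hx
        by_cases h5 : x.1 = 1
        · have h6 : (V (ArithmeticFunction.zeta : ArithmeticFunction ℂ) + V (af χ₁) + V (af χ₂) +
              V (af (mulc χ₁ χ₂))) x.1 = 0 := by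
            rw [h5, ArithmeticFunction.add_apply, ArithmeticFunction.add_apply,
              ArithmeticFunction.add_apply, V_apply, V_apply, V_apply, V_apply,
              ArithmeticFunction.vonMangoldt_apply_one]
            simp
          rw [h6, zero_mul]
        · apply mul_nonneg (coef χ₁ χ₂ h₁ h₂ _)
          apply ih
          have ha : x.1 ≠ 0 := by
            intro h0
            apply h4
            rw [← h3, h0, zero_mul]
          have hb : x.2 ≠ 0 := by
            intro h0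
            apply h4
            rw [← h3, h0, mul_zero]
          have hc : 2 ≤ x.1 := by omega
          have hd : 1 ≤ x.2 := Nat.pos_of_ne_zero hb
          rw [← h3]
          nlinarith
      have h3 : (0 : ℝ) < Real.log n := Real.log_pos (by exact_mod_cast hn)
      have h4 : four χ₁ χ₂ n = ((Real.log n)⁻¹ : ℝ) * ((Real.log n : ℂ) * four χ₁ χ₂ n) := by
        rw [← mul_assoc, ← Complex.ofReal_mul, inv_mul_cancel₀ h3.ne', Complex.ofReal_one, one_mul]
      rw [h4]
      apply mul_nonneg _ h2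
      rw [Complex.zero_le_real]
      exact (inv_pos.2 h3).le

end Pool.Agent.SWz
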