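import Mathlib

/-! MP_3509fd_nt part C1 (Siegel-Walfisz): real characters on the real line. -/

namespace Pool.Agent.SWz

open Complex

namespace REALAux

open Filter Topology

lemma conj_char {q : ℕ} [NeZero q] (χ : DirichletCharacter ℂ q) (h2 : χ ^ 2 = 1) (a : ZMod q) :
    (starRingEnd ℂ) (χ a) = χ a := by
  by_cases ha : IsUnit a
  · have h1 : χ a * χ a = 1 := by
      have : (χ ^ 2) a = 1 := by rw [h2]; exact MulChar.one_apply ha
      rwa [MulChar.pow_apply' _ two_ne_zero, pow_two] at this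
    rcases mul_self_eq_one_iff.mp h1 with h | h <;> simp [h]
  · simp [MulChar.map_nonunit χ ha]

lemma conj_term {q : ℕ} [NeZero q] (χ : DirichletCharacter ℂ q) (h2 : χ ^ 2 = 1) (s : ℂ) (n : ℕ) :
    (starRingEnd ℂ) (LSeries.term (fun n => χ (n : ZMod q)) ((starRingEnd ℂ) s) n)
      = LSeries.term (fun n => χ (n : ZMod q)) s n := by
  rcases eq_or_ne n 0 with rfl | hn
  · simp
  · rw [LSeries.term_of_ne_zero hn, LSeries.term_of_ne_zero hn, map_div₀, conj_char χ h2,
      ← conj_cpow _ _ (by rw [natCast_arg]; exact Real.pi_pos.ne), conj_natCast]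

lemma conj_LFunction {q : ℕ} [NeZero q] (χ : DirichletCharacter ℂ q) (hχ : χ ≠ 1)
    (h2 : χ ^ 2 = 1) (s : ℂ) :
    (starRingEnd ℂ) (χ.LFunction ((starRingEnd ℂ) s)) = χ.LFunction s := by
  have hd := DirichletCharacter.differentiable_LFunction hχ
  have hg : Differentiable ℂ (fun z => (starRingEnd ℂ) (χ.LFunction ((starRingEnd ℂ) z))) :=
    fun z => differentiableAt_conj_conj_iff.mpr (hd _)
  have hgz (z : ℂ) (hz : 1 < z.re) :
      (starRingEnd ℂ) (χ.LFunction ((starRingEnd ℂ) z)) = χ.LFunction z := by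
    rw [DirichletCharacter.LFunction_eq_LSeries χ (by rwa [conj_re]),
      DirichletCharacter.LFunction_eq_LSeries χ hz, LSeries, LSeries, conj_tsum]
    exact tsum_congr fun n => conj_term χ h2 z n
  have heq : (fun z => (starRingEnd ℂ) (χ.LFunction ((starRingEnd ℂ) z))) = χ.LFunction := by
    refine AnalyticOnNhd.eq_of_eventuallyEq (z₀ := 2)
      (fun z _ => hg.analyticAt z) (fun z _ => hd.analyticAt z) ?_
    exact eventuallyEq_of_mem
      ((isOpen_lt continuous_const continuous_re).mem_nhds (by norm_num)) hgz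
  exact congrFun heq s

lemma two_pos {q : ℕ} [NeZero q] (χ : DirichletCharacter ℂ q) :
    0 < (χ.LFunction 2).re := by
  have h12 : (1 : ℝ) < (2 : ℂ).re := by norm_num
  have hs : LSeriesSummable (fun n => χ (n : ZMod q)) 2 :=
    DirichletCharacter.LSeriesSummable_of_one_lt_re χ h12
  have h1 : HasSum (fun n => LSeries.term (fun n => χ (n : ZMod q)) 2 n
      - (if n = 1 then (1 : ℂ) else 0)) (χ.LFunction 2 - 1) := by
    rw [DirichletCharacter.LFunction_eq_LSeries χ h12]
    exact hs.hasSum.sub (hasSum_ite_eq 1 1)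
  have h2 : HasSum (fun n : ℕ => (1 : ℝ) / (n : ℝ) ^ 2 - (if n = 1 then (1 : ℝ) else 0))
      (Real.pi ^ 2 / 6 - 1) := hasSum_zeta_two.sub (hasSum_ite_eq 1 1)
  have h3 : ‖χ.LFunction 2 - 1‖ ≤ Real.pi ^ 2 / 6 - 1 := by
    rw [← h1.tsum_eq]
    refine tsum_of_norm_bounded h2 fun n => ?_
    rcases eq_or_ne n 0 with rfl | hn
    · simp
    · rw [LSeries.term_of_ne_zero hn]
      rcases eq_or_ne n 1 with rfl | hn1
      · simp
      · simp only [hn1, if_false, sub_zero]
        rw [norm_div]
        have : ‖((n : ℂ) ^ (2 : ℂ))‖ = (n : ℝ) ^ 2 := by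
          have h := Complex.cpow_natCast (n : ℂ) 2
          rw [show ((2 : ℕ) : ℂ) = 2 by norm_num] at h
          rw [h, norm_pow, Complex.norm_natCast]
        rw [this]
        gcongr
        exact DirichletCharacter.norm_le_one χ _
  have h4 : Real.pi ^ 2 < 12 := by
    have := Real.pi_lt_d2
    nlinarith [Real.pi_pos]
  have h5 := (Complex.abs_re_le_norm (χ.LFunction 2 - 1)).trans h3
  rw [Complex.sub_re, Complex.one_re] at h5
  have h6 := (abs_le.mp h5).1
  linarith

end REALAux

open REALAux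

/-- The L-function of a real character is real on the real axis.
(`conj (L(conj s))` is entire and agrees with `L(s)` on `Re s > 1`; identity theorem.) -/
theorem LFunction_im_eq_zero {q : ℕ} [NeZero q] (χ : DirichletCharacter ℂ q) (hχ : χ ≠ 1)
    (h2 : χ ^ 2 = 1) (x : ℝ) : (χ.LFunction x).im = 0 := by
  have h := conj_LFunction χ hχ h2 x
  rw [conj_ofReal] at h
  exact conj_eq_iff_im.mp h

/-- No zero on `[α, 1]` implies that `L` is positive there (`L(x) → 1`... or `L(x) > 0` for
`x > 1` by the Euler product or by `LFunction_ne_zero_of_one_le_re` and continuity and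
`L(x) → 1` for `x → ∞`). -/
theorem LFunction_pos_of_no_zero {q : ℕ} [NeZero q] (χ : DirichletCharacter ℂ q) (hχ : χ ≠ 1)
    (h2 : χ ^ 2 = 1) (α : ℝ) (hz : ∀ x : ℝ, α ≤ x → x < 1 → χ.LFunction x ≠ 0) :
    ∀ x : ℝ, α ≤ x → 0 < (χ.LFunction x).re := by
  have hne : ∀ x : ℝ, α ≤ x → (χ.LFunction x).re ≠ 0 := by
    intro x hx h0
    have hL : χ.LFunction x = 0 := by
      apply Complex.ext
      · simpa using h0
      · simpa using LFunction_im_eq_zero χ hχ h2 x
    rcases lt_or_ge x 1 with h1 | h1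
    · exact hz x hx h1 hL
    · exact DirichletCharacter.LFunction_ne_zero_of_one_le_re χ (.inl hχ) (by simpa using h1) hL
  have hcont : Continuous (fun x : ℝ => (χ.LFunction x).re) :=
    continuous_re.comp ((DirichletCharacter.differentiable_LFunction hχ).continuous.comp
      continuous_ofReal)
  intro x hx
  by_contra hneg
  have hlt : (χ.LFunction x).re < 0 := lt_of_le_of_ne (not_lt.mp hneg) (hne x hx)
  have h2pos : 0 < (χ.LFunction ((2 : ℝ) : ℂ)).re := by
    have := two_pos χ
    simpa using this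
  have hmem : (0 : ℝ) ∈ (fun x : ℝ => (χ.LFunction x).re) '' Set.uIcc x 2 := by
    apply intermediate_value_uIcc hcont.continuousOn
    exact Set.mem_uIcc.mpr (Or.inl ⟨hlt.le, h2pos.le⟩)
  obtain ⟨y, hy, hy0⟩ := hmem
  refine hne y ?_ hy0
  rcases lt_or_ge 2 α with h | h
  · -- then both endpoints could be problematic: use that `y` lies between
    rcases Set.mem_uIcc.mp hy with h' | h'
    · linarith [h'.1]
    · -- `2 <= y <= x`; here `α > 2`, argue directly that `L` has no zero at `y >= 1`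
      exfalso
      have hL : χ.LFunction y = 0 := by
        apply Complex.ext
        · simpa using hy0
        · simpa using LFunction_im_eq_zero χ hχ h2 y
      exact DirichletCharacter.LFunction_ne_zero_of_one_le_re χ (.inl hχ)
        (by simpa using (by linarith [h'.1] : (1 : ℝ) ≤ y)) hL
  · rcases Set.mem_uIcc.mp hy with h' | h' <;> linarith [h'.1]

theorem LFunction_one_pos {q : ℕ} [NeZero q] (χ : DirichletCharacter ℂ q) (hχ : χ ≠ 1)
    (h2 : χ ^ 2 = 1) : 0 < (χ.LFunction 1).re ∧ χ.LFunction 1 = ((χ.LFunction 1).re : ℂ) := by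
  constructor
  · have h := LFunction_pos_of_no_zero χ hχ h2 1 (fun x h1 h2 => absurd h1 (not_le.mpr h2)) 1 le_rfl
    simpa using h
  · have h := LFunction_im_eq_zero χ hχ h2 1
    apply Complex.ext
    · simp
    · simpa using h

/-- `Re ζ(x) < 0` for real `x < 1` near `1` (from `riemannZeta_residue_one`). -/
theorem zeta_neg : ∃ δ : ℝ, 0 < δ ∧ ∀ x : ℝ, 1 - δ < x → x < 1 → (riemannZeta x).re < 0 := by
  have h := riemannZeta_residue_one
  have hre : Filter.Tendsto (fun s : ℂ => ((s - 1) * riemannZeta s).re) (nhdsWithin 1 {1}ᶜ)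
      (nhds 1) := by
    have := (continuous_re.tendsto (1 : ℂ)).comp h
    rw [one_re] at this
    exact this
  have hev : ∀ᶠ s : ℂ in nhdsWithin 1 {1}ᶜ, 0 < ((s - 1) * riemannZeta s).re :=
    hre.eventually (lt_mem_nhds one_pos)
  rw [eventually_nhdsWithin_iff, Metric.eventually_nhds_iff] at hev
  obtain ⟨δ, hδ, hball⟩ := hev
  refine ⟨δ, hδ, fun x hx1 hx2 => ?_⟩
  have hd : dist (x : ℂ) 1 < δ := by
    rw [dist_eq_norm, ← ofReal_one, ← ofReal_sub, norm_real, Real.norm_eq_abs, abs_lt]
    constructor <;> linarith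
  have hne : (x : ℂ) ∈ ({1}ᶜ : Set ℂ) := by
    simp only [Set.mem_compl_iff, Set.mem_singleton_iff]
    intro h
    rw [← ofReal_one] at h
    exact absurd (ofReal_injective h) hx2.ne
  have h0 := hball hd hne
  rw [← ofReal_one, ← ofReal_sub, re_ofReal_mul] at h0
  by_contra hcon
  have : 0 ≤ (riemannZeta x).re := not_lt.mp hcon
  nlinarith

end Pool.Agent.SWz
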