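import Mathlib
import Pool.Agent.SWz.Growth
import Pool.Agent.SWz.PhiLow
import Pool.Agent.SWz.PosB
import Pool.Agent.SWz.Esterm
import Pool.Agent.SWz.RealL

/-! MP_3509fd_nt part C1 (Siegel-Walfisz): Siegel's theorem. -/

namespace Pool.Agent.SWz

open Complex

namespace SiegelAux

/-- Choice of `M` in Estermann's inequality. -/
theorem choose_M (C K g α : ℝ) (hC : 1 ≤ C) (hK : 1 ≤ K) (hα : 7 / 8 ≤ α) (hα1 : α < 1)
    (h : ∀ M : ℕ, 1 - g * (2 - α) ^ M / (1 - α) - C * K * (3 / 4) ^ M ≤ 0) :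
    (1 - α) / (4 * Real.exp 1 * C) * K ^ (-(4 * (1 - α))) ≤ g := by
  set L := Real.log (2 * C * K) with hL
  have hCK : 1 ≤ C * K := by nlinarith
  have h2CK : (2 : ℝ) ≤ 2 * C * K := by nlinarith
  have hLpos : 0 < L := Real.log_pos (by linarith)
  have h43 : (1 / 4 : ℝ) ≤ Real.log (4 / 3) := by
    have := Real.one_sub_inv_le_log_of_pos (show (0 : ℝ) < 4 / 3 by norm_num)
    norm_num at this ⊢
    linarith
  set M := ⌈L / Real.log (4 / 3)⌉₊ with hM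
  have hM1 : L / Real.log (4 / 3) ≤ M := Nat.le_ceil _
  have hM2 : (M : ℝ) < L / Real.log (4 / 3) + 1 :=
    Nat.ceil_lt_add_one (by positivity)
  have hl43 : 0 < Real.log (4 / 3) := by linarith
  have hML : L ≤ M * Real.log (4 / 3) := by
    rw [div_le_iff₀ hl43] at hM1
    exact hM1
  have hM4 : (M : ℝ) ≤ 4 * L + 1 := by
    have : L / Real.log (4 / 3) ≤ 4 * L := by
      rw [div_le_iff₀ hl43]
      nlinarith
    linarith
  -- the tail
  have htail : C * K * (3 / 4) ^ M ≤ 1 / 2 := by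
    have h1 : (3 / 4 : ℝ) ^ M = Real.exp (-(M * Real.log (4 / 3))) := by
      rw [← Real.rpow_natCast, Real.rpow_def_of_pos (by norm_num)]
      congr 1
      rw [show (3 / 4 : ℝ) = (4 / 3)⁻¹ by norm_num, Real.log_inv]
      ring
    have h2 : (3 / 4 : ℝ) ^ M ≤ Real.exp (-L) := by
      rw [h1]
      exact Real.exp_le_exp.mpr (by linarith)
    have h3 : Real.exp (-L) = (2 * C * K)⁻¹ := by
      rw [Real.exp_neg, hL, Real.exp_log (by linarith)]
    calc C * K * (3 / 4) ^ M ≤ C * K * (2 * C * K)⁻¹ := by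
          rw [← h3]; gcongr
      _ = 1 / 2 := by
          have : C * K ≠ 0 := by positivity
          field_simp
  have hbig : (2 - α) ^ M ≤ Real.exp 1 * (2 * C) * K ^ (4 * (1 - α)) := by
    have h1 : (2 - α) ≤ Real.exp (1 - α) := by
      have := Real.add_one_le_exp (1 - α)
      linarith
    have h2 : (2 - α) ^ M ≤ Real.exp (M * (1 - α)) := by
      calc (2 - α) ^ M ≤ (Real.exp (1 - α)) ^ M := by
            apply pow_le_pow_left₀ (by linarith) h1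
        _ = Real.exp (M * (1 - α)) := by rw [← Real.exp_nat_mul]
    have h3 : Real.exp (M * (1 - α)) ≤ Real.exp ((4 * L + 1) * (1 - α)) := by
      apply Real.exp_le_exp.mpr
      apply mul_le_mul_of_nonneg_right hM4 (by linarith)
    have h4 : Real.exp ((4 * L + 1) * (1 - α)) =
        Real.exp (1 - α) * (2 * C * K) ^ (4 * (1 - α)) := by
      rw [Real.rpow_def_of_pos (by linarith), ← Real.exp_add, ← hL]
      congr 1
      ring
    have h5 : (2 * C * K) ^ (4 * (1 - α)) = (2 * C) ^ (4 * (1 - α)) * K ^ (4 * (1 - α)) :=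
      Real.mul_rpow (by linarith) (by linarith)
    have h6 : (2 * C) ^ (4 * (1 - α)) ≤ 2 * C := by
      calc (2 * C) ^ (4 * (1 - α)) ≤ (2 * C) ^ (1 : ℝ) :=
            Real.rpow_le_rpow_of_exponent_le (by linarith) (by linarith)
        _ = 2 * C := Real.rpow_one _
    have h7 : Real.exp (1 - α) ≤ Real.exp 1 := Real.exp_le_exp.mpr (by linarith)
    calc (2 - α) ^ M ≤ Real.exp (1 - α) * ((2 * C) ^ (4 * (1 - α)) * K ^ (4 * (1 - α))) := by
          rw [← h5, ← h4]; exact h2.trans h3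
      _ ≤ Real.exp 1 * ((2 * C) * K ^ (4 * (1 - α))) := by
          gcongr
      _ = Real.exp 1 * (2 * C) * K ^ (4 * (1 - α)) := by ring
  have hmain := h M
  have hα0 : 0 < 1 - α := by linarith
  have hg1 : 1 / 2 ≤ g * (2 - α) ^ M / (1 - α) := by linarith
  have hg2 : (1 - α) / 2 ≤ g * (2 - α) ^ M := by
    rw [le_div_iff₀ hα0] at hg1
    linarith
  have hpow : 0 < (2 - α) ^ M := by
    apply pow_pos; linarith
  have hg0 : 0 < g := by
    by_contra hcon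
    push Not at hcon
    nlinarith
  have hKp : 0 < K ^ (4 * (1 - α)) := Real.rpow_pos_of_pos (by linarith) _
  have hg3 : (1 - α) / 2 ≤ g * (Real.exp 1 * (2 * C) * K ^ (4 * (1 - α))) :=
    hg2.trans (mul_le_mul_of_nonneg_left hbig hg0.le)
  rw [Real.rpow_neg (by linarith), ← div_eq_mul_inv, div_div, div_le_iff₀ (by positivity)]
  nlinarith [Real.exp_pos 1]

/-- No zeros near `1` at all. -/
theorem caseB (ε α : ℝ) (hα : 7 / 8 ≤ α) (hα1 : α < 1) (hαε : 4 * (1 - α) ≤ ε)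
    (hz : (riemannZeta α).re < 0)
    (hB : ∀ (q : ℕ) [NeZero q] (χ : DirichletCharacter ℂ q), χ ^ 2 = 1 → χ ≠ 1 →
      ∀ x : ℝ, α ≤ x → x < 1 → χ.LFunction x ≠ 0) :
    ∃ c : ℝ, 0 < c ∧ ∀ (q : ℕ) [NeZero q] (χ : DirichletCharacter ℂ q), χ ^ 2 = 1 → χ ≠ 1 →
      c * (q : ℝ) ^ (-ε) ≤ ‖χ.LFunction 1‖ := by
  obtain ⟨C, hC0, hC⟩ := estermann
  set C' := max C 1 with hC'
  have hC'1 : 1 ≤ C' := le_max_right _ _
  refine ⟨(1 - α) / (4 * Real.exp 1 * C') * (8 : ℝ) ^ (-ε), ?_, ?_⟩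
  · have : 0 < 1 - α := by linarith
    positivity
  intro q _ χ h2 hχ
  have hq1 : (1 : ℝ) ≤ q := by exact_mod_cast NeZero.one_le
  have hK1 : (1 : ℝ) ≤ 8 * q := by linarith
  have hest := hC (two χ) χ.LFunction (8 * q) (two_nonneg χ h2) (two_one χ)
    (fun s hs => two_lseries χ s hs) (DirichletCharacter.differentiable_LFunction hχ)
    (fun s hs => norm_LFunction_le_disc χ hχ s hs) α hα hα1
  have hpos := LFunction_pos_of_no_zero χ hχ h2 α (hB q χ h2 hχ) α le_rfl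
  have him := LFunction_im_eq_zero χ hχ h2 α
  have hneg : (riemannZeta α * χ.LFunction α).re ≤ 0 := by
    rw [mul_re, him, mul_zero, sub_zero]
    nlinarith
  have hall : ∀ M : ℕ, 1 - (χ.LFunction 1).re * (2 - α) ^ M / (1 - α)
      - C' * (8 * q) * (3 / 4) ^ M ≤ 0 := by
    intro M
    have h1 := hest M
    have h2 : C * (8 * q) * (3 / 4 : ℝ) ^ M ≤ C' * (8 * q) * (3 / 4) ^ M := by
      gcongr
      exact le_max_left _ _
    linarith
  have hfin := choose_M C' (8 * q) (χ.LFunction 1).re α hC'1 hK1 hα hα1 hall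
  have hpow : (8 : ℝ) ^ (-ε) * (q : ℝ) ^ (-ε) ≤ (8 * (q : ℝ)) ^ (-(4 * (1 - α))) := by
    rw [← Real.mul_rpow (by norm_num) (by linarith)]
    exact Real.rpow_le_rpow_of_exponent_le hK1 (by linarith)
  have hpref : 0 ≤ (1 - α) / (4 * Real.exp 1 * C') := by
    have : 0 < 1 - α := by linarith
    positivity
  calc (1 - α) / (4 * Real.exp 1 * C') * (8 : ℝ) ^ (-ε) * (q : ℝ) ^ (-ε)
      = (1 - α) / (4 * Real.exp 1 * C') * ((8 : ℝ) ^ (-ε) * (q : ℝ) ^ (-ε)) := by ring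
    _ ≤ (1 - α) / (4 * Real.exp 1 * C') * (8 * (q : ℝ)) ^ (-(4 * (1 - α))) :=
        mul_le_mul_of_nonneg_left hpow hpref
    _ ≤ (χ.LFunction 1).re := hfin
    _ ≤ ‖χ.LFunction 1‖ := Complex.re_le_norm _

/-- One exceptional zero. -/
theorem caseA (ε β : ℝ) (hε : 0 < ε) (hβ : 7 / 8 ≤ β) (hβ1 : β < 1) (hβε : 16 * (1 - β) ≤ ε)
    (q₁ : ℕ) [NeZero q₁] (χ₁ : DirichletCharacter ℂ q₁) (h₁ : χ₁ ^ 2 = 1) (hχ₁ : χ₁ ≠ 1)
    (hz : χ₁.LFunction β = 0) :
    ∃ c : ℝ, 0 < c ∧ ∀ (q : ℕ) [NeZero q] (χ : DirichletCharacter ℂ q), χ ^ 2 = 1 → χ ≠ 1 →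
      c * (q : ℝ) ^ (-ε) ≤ ‖χ.LFunction 1‖ := by
  obtain ⟨C, hC0, hC⟩ := estermann
  set C' := max C 1 with hC'
  have hC'1 : 1 ≤ C' := le_max_right _ _
  obtain ⟨Cg, hCg0, hCg⟩ := growth (ε / 8) (by positivity)
  obtain ⟨Cl, hCl0, hCl⟩ := changeLevel_le (ε / 2) (by positivity)
  have hA1 : 0 < ‖χ₁.LFunction 1‖ :=
    norm_pos_iff.mpr (DirichletCharacter.LFunction_apply_one_ne_zero hχ₁)
  set A := ‖χ₁.LFunction 1‖ with hA
  have hq₁ : (1 : ℝ) ≤ q₁ := by exact_mod_cast NeZero.one_le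
  have hβ0 : 0 < 1 - β := by linarith
  -- constants of the two sub-cases
  set cA : ℝ := (1 - β) / (4 * Real.exp 1 * C') * (512 * (q₁ : ℝ) ^ 2) ^ (-(ε / 4)) /
    (A * Cg * (2 * q₁) ^ (ε / 4)) with hcA
  set cB : ℝ := A / (Cl * Cl * (q₁ : ℝ) ^ ε) with hcB
  have hcA0 : 0 < cA := by positivity
  have hcB0 : 0 < cB := by positivity
  refine ⟨min cA cB, lt_min hcA0 hcB0, ?_⟩
  intro q _ χ h2 hχ
  have hq1 : (1 : ℝ) ≤ q := by exact_mod_cast NeZero.one_le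
  have hqpos : (0 : ℝ) < q := by linarith
  have hqq : 0 < (q : ℝ) ^ (-ε) := Real.rpow_pos_of_pos hqpos _
  by_cases hm : mulc χ₁ χ = 1
  · -- the characters are induced by the same primitive character
    refine (mul_le_mul_of_nonneg_right (min_le_right _ _) hqq.le).trans ?_
    have hlev : DirichletCharacter.changeLevel (Dvd.intro q rfl : q₁ ∣ q₁ * q) χ₁ =
        DirichletCharacter.changeLevel (Dvd.intro_left q₁ rfl : q ∣ q₁ * q) χ := by
      have hm' : DirichletCharacter.changeLevel (Dvd.intro q rfl : q₁ ∣ q₁ * q) χ₁ *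
          DirichletCharacter.changeLevel (Dvd.intro_left q₁ rfl : q ∣ q₁ * q) χ = 1 := hm
      have hsq : DirichletCharacter.changeLevel (Dvd.intro_left q₁ rfl : q ∣ q₁ * q) χ *
          DirichletCharacter.changeLevel (Dvd.intro_left q₁ rfl : q ∣ q₁ * q) χ = 1 := by
        rw [← pow_two, ← map_pow, h2, map_one]
      exact mul_right_cancel (hm'.trans hsq.symm)
    have e1 := (hCl q₁ (q₁ * q) (Dvd.intro q rfl) χ₁ hχ₁ 1 (by simp)).2
    have e2 := (hCl q (q₁ * q) (Dvd.intro_left q₁ rfl) χ hχ 1 (by simp)).1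
    rw [hlev] at e1
    have hN : (((q₁ * q : ℕ) : ℝ)) ^ (ε / 2) = (q₁ : ℝ) ^ (ε / 2) * (q : ℝ) ^ (ε / 2) := by
      push_cast
      exact Real.mul_rpow (by linarith) (by linarith)
    set X : ℝ := ((q₁ * q : ℕ) : ℝ) ^ (ε / 2) with hX
    have hXpos : 0 < X := by
      rw [hN]; positivity
    have e3 : A ≤ Cl * X * (Cl * X * ‖χ.LFunction 1‖) :=
      e1.trans (mul_le_mul_of_nonneg_left e2 (by positivity))
    have hXX : X * X = (q₁ : ℝ) ^ ε * (q : ℝ) ^ ε := by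
      rw [hN]
      rw [show (q₁ : ℝ) ^ (ε / 2) * (q : ℝ) ^ (ε / 2) * ((q₁ : ℝ) ^ (ε / 2) * (q : ℝ) ^ (ε / 2)) =
        ((q₁ : ℝ) ^ (ε / 2) * (q₁ : ℝ) ^ (ε / 2)) * ((q : ℝ) ^ (ε / 2) * (q : ℝ) ^ (ε / 2)) by ring]
      rw [← Real.rpow_add (by linarith), ← Real.rpow_add (by linarith), add_halves]
    have e4 : A ≤ Cl * Cl * (q₁ : ℝ) ^ ε * ((q : ℝ) ^ ε * ‖χ.LFunction 1‖) := by
      calc A ≤ Cl * X * (Cl * X * ‖χ.LFunction 1‖) := e3
        _ = Cl * Cl * (X * X) * ‖χ.LFunction 1‖ := by ring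
        _ = _ := by rw [hXX]; ring
    have e5 : cB ≤ (q : ℝ) ^ ε * ‖χ.LFunction 1‖ := by
      rw [hcB, div_le_iff₀ (by positivity)]
      linarith
    rw [Real.rpow_neg hqpos.le]
    have hqe : 0 < (q : ℝ) ^ ε := Real.rpow_pos_of_pos hqpos _
    rw [← div_eq_mul_inv, div_le_iff₀ hqe]
    linarith
  · refine (mul_le_mul_of_nonneg_right (min_le_left _ _) hqq.le).trans ?_
    set G : ℂ → ℂ := fun s => χ₁.LFunction s * χ.LFunction s * (mulc χ₁ χ).LFunction s with hG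
    set K : ℝ := 512 * (q₁ : ℝ) ^ 2 * (q : ℝ) ^ 2 with hK
    have hK1 : 1 ≤ K := by
      have a1 : 1 ≤ (q₁ : ℝ) ^ 2 := one_le_pow₀ hq₁
      have a2 : 1 ≤ (q : ℝ) ^ 2 := one_le_pow₀ hq1
      have a3 : 1 ≤ (q₁ : ℝ) ^ 2 * (q : ℝ) ^ 2 := one_le_mul_of_one_le_of_one_le a1 a2
      rw [hK]; nlinarith
    have hdiff : Differentiable ℂ G :=
      ((DirichletCharacter.differentiable_LFunction hχ₁).mul
        (DirichletCharacter.differentiable_LFunction hχ)).mul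
        (DirichletCharacter.differentiable_LFunction hm)
    have hbd : ∀ s : ℂ, ‖s - 2‖ ≤ 3 / 2 → ‖G s‖ ≤ K := by
      intro s hs
      have b1 := norm_LFunction_le_disc χ₁ hχ₁ s hs
      have b2 := norm_LFunction_le_disc χ hχ s hs
      have b3 := norm_LFunction_le_disc (mulc χ₁ χ) hm s hs
      push_cast at b3
      calc ‖G s‖ = ‖χ₁.LFunction s‖ * ‖χ.LFunction s‖ * ‖(mulc χ₁ χ).LFunction s‖ := by
            simp [hG]
        _ ≤ (8 * q₁) * (8 * q) * (8 * (q₁ * q)) := by gcongr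
        _ = K := by rw [hK]; ring
    have hest := hC (four χ₁ χ) G K (four_nonneg χ₁ χ h₁ h2) (four_one χ₁ χ)
      (fun s hs => four_lseries χ₁ χ s hs) hdiff hbd β hβ hβ1
    have hG0 : G β = 0 := by simp [hG, hz]
    have hall : ∀ M : ℕ, 1 - (G 1).re * (2 - β) ^ M / (1 - β) - C' * K * (3 / 4) ^ M ≤ 0 := by
      intro M
      have h1 := hest M
      rw [hG0, mul_zero, zero_re] at h1
      have h2 : C * K * (3 / 4 : ℝ) ^ M ≤ C' * K * (3 / 4) ^ M := by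
        gcongr
        exact le_max_left _ _
      linarith
    have hfin := choose_M C' K (G 1).re β hC'1 hK1 hβ hβ1 hall
    -- lower bound of the power of K
    have hKpow : (512 * (q₁ : ℝ) ^ 2) ^ (-(ε / 4)) * (q : ℝ) ^ (-(ε / 2)) ≤
        K ^ (-(4 * (1 - β))) := by
      have e1 : (q : ℝ) ^ (-(ε / 2)) = ((q : ℝ) ^ 2) ^ (-(ε / 4)) := by
        rw [← Real.rpow_natCast, ← Real.rpow_mul hqpos.le]
        congr 1
        push_cast; ring
      rw [e1, ← Real.mul_rpow (by positivity) (by positivity)]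
      exact Real.rpow_le_rpow_of_exponent_le hK1 (by linarith)
    -- upper bound of G(1)
    have hG1 : (G 1).re ≤ A * ‖χ.LFunction 1‖ * (Cg * ((2 * q₁) ^ (ε / 4) * (q : ℝ) ^ (ε / 4))) := by
      have g1 := hCg (q₁ * q) (mulc χ₁ χ) hm 1 (by simp; positivity) (by simp; norm_num)
        (by simp)
      have g2 : (((q₁ * q : ℕ) : ℝ) * (|(1 : ℂ).im| + 2)) ^ (2 * (ε / 8)) =
          (2 * (q₁ : ℝ)) ^ (ε / 4) * (q : ℝ) ^ (ε / 4) := by
        rw [← Real.mul_rpow (by positivity) (by positivity)]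
        push_cast
        simp only [one_im, abs_zero, zero_add]
        congr 1 <;> ring_nf
      rw [g2] at g1
      calc (G 1).re ≤ ‖G 1‖ := Complex.re_le_norm _
        _ = A * ‖χ.LFunction 1‖ * ‖(mulc χ₁ χ).LFunction 1‖ := by simp [hG, hA]
        _ ≤ _ := by gcongr
    have hqsplit : (q : ℝ) ^ (-(ε / 2)) = (q : ℝ) ^ (-(3 * ε / 4)) * (q : ℝ) ^ (ε / 4) := by
      rw [← Real.rpow_add hqpos]; congr 1; ring
    have hq4 : 0 < (q : ℝ) ^ (ε / 4) := Real.rpow_pos_of_pos hqpos _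
    have hfin2 : (1 - β) / (4 * Real.exp 1 * C') * (512 * (q₁ : ℝ) ^ 2) ^ (-(ε / 4)) *
        (q : ℝ) ^ (-(3 * ε / 4)) ≤ A * Cg * (2 * q₁) ^ (ε / 4) * ‖χ.LFunction 1‖ := by
      have hpref : 0 ≤ (1 - β) / (4 * Real.exp 1 * C') := by positivity
      have k1 : (1 - β) / (4 * Real.exp 1 * C') *
          ((512 * (q₁ : ℝ) ^ 2) ^ (-(ε / 4)) * (q : ℝ) ^ (-(ε / 2))) ≤
          A * ‖χ.LFunction 1‖ * (Cg * ((2 * q₁) ^ (ε / 4) * (q : ℝ) ^ (ε / 4))) :=
        (mul_le_mul_of_nonneg_left hKpow hpref).trans (hfin.trans hG1)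
      rw [hqsplit] at k1
      have k2 : ((1 - β) / (4 * Real.exp 1 * C') * (512 * (q₁ : ℝ) ^ 2) ^ (-(ε / 4)) *
        (q : ℝ) ^ (-(3 * ε / 4))) * (q : ℝ) ^ (ε / 4) ≤
          (A * Cg * (2 * q₁) ^ (ε / 4) * ‖χ.LFunction 1‖) * (q : ℝ) ^ (ε / 4) := by
        calc _ = (1 - β) / (4 * Real.exp 1 * C') *
          ((512 * (q₁ : ℝ) ^ 2) ^ (-(ε / 4)) * ((q : ℝ) ^ (-(3 * ε / 4)) * (q : ℝ) ^ (ε / 4))) := by
                ring
          _ ≤ _ := k1
          _ = _ := by ring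
      exact le_of_mul_le_mul_right k2 hq4
    have hmono : (q : ℝ) ^ (-ε) ≤ (q : ℝ) ^ (-(3 * ε / 4)) :=
      Real.rpow_le_rpow_of_exponent_le hq1 (by linarith)
    calc cA * (q : ℝ) ^ (-ε) ≤ cA * (q : ℝ) ^ (-(3 * ε / 4)) := by gcongr
      _ = ((1 - β) / (4 * Real.exp 1 * C') * (512 * (q₁ : ℝ) ^ 2) ^ (-(ε / 4)) *
        (q : ℝ) ^ (-(3 * ε / 4))) / (A * Cg * (2 * q₁) ^ (ε / 4)) := by rw [hcA]; ring
      _ ≤ ‖χ.LFunction 1‖ := by
          rw [div_le_iff₀ (by positivity)]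
          linarith

end SiegelAux

open SiegelAux in
/-- Siegel's theorem (all real nonprincipal characters, primitive or not). -/
theorem siegel (ε : ℝ) (hε : 0 < ε) : ∃ c : ℝ, 0 < c ∧
    ∀ (q : ℕ) [NeZero q] (χ : DirichletCharacter ℂ q), χ ^ 2 = 1 → χ ≠ 1 →
      c * (q : ℝ) ^ (-ε) ≤ ‖χ.LFunction 1‖ := by
  obtain ⟨δ, hδ, hζ⟩ := zeta_neg
  set α : ℝ := max (7 / 8) (max (1 - ε / 16) (1 - δ / 2)) with hα
  have hα1 : α < 1 := by
    rw [hα]
    refine max_lt (by norm_num) (max_lt (by linarith) (by linarith))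
  have hα2 : 7 / 8 ≤ α := le_max_left _ _
  have hα3 : 1 - ε / 16 ≤ α := (le_max_left _ _).trans (le_max_right _ _)
  have hα4 : 1 - δ / 2 ≤ α := (le_max_right _ _).trans (le_max_right _ _)
  by_cases hB : ∀ (q : ℕ) [NeZero q] (χ : DirichletCharacter ℂ q), χ ^ 2 = 1 → χ ≠ 1 →
      ∀ x : ℝ, α ≤ x → x < 1 → χ.LFunction x ≠ 0
  · exact caseB ε α hα2 hα1 (by linarith) (hζ α (by linarith) hα1) hB
  · push Not at hB
    obtain ⟨q₁, hne, χ₁, h₁, hχ₁, β, hβ1, hβ2, hβ3⟩ := hB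
    exact caseA ε β hε (hα2.trans hβ1) hβ2 (by linarith) q₁ χ₁ h₁ hχ₁ hβ3

end Pool.Agent.SWz
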