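import Mathlib

namespace Pool.Agent.SWz

open Filter Topology

/-- the summand, entire in `s` -/
noncomputable def ZCONTb (n : ℕ) (s : ℂ) : ℂ :=
  (s - 1) * ((n : ℂ) + 1) ^ (-s) + (((n : ℂ) + 2) ^ (1 - s) - ((n : ℂ) + 1) ^ (1 - s))

theorem ZCONT_diff (n : ℕ) : Differentiable ℂ (ZCONTb n) := by
  unfold ZCONTb
  have h1 : ((n : ℂ) + 1) ≠ 0 := by exact_mod_cast Nat.succ_ne_zero n
  have h2 : ((n : ℂ) + 2) ≠ 0 := by exact_mod_cast Nat.succ_ne_zero (n + 1)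
  intro s
  apply DifferentiableAt.add
  · apply DifferentiableAt.mul (by fun_prop)
    exact DifferentiableAt.const_cpow (by fun_prop) (Or.inl h1)
  · apply DifferentiableAt.sub
    · exact DifferentiableAt.const_cpow (by fun_prop) (Or.inl h2)
    · exact DifferentiableAt.const_cpow (by fun_prop) (Or.inl h1)

theorem ZCONT_psi (a : ℝ) (ha : 0 < a) (s : ℂ) (hs : 0 < s.re) (u : ℝ) (hu : 0 ≤ u) :
    ‖((a + u : ℝ) : ℂ) ^ (-s) - ((a : ℝ) : ℂ) ^ (-s)‖ ≤ ‖s‖ * a ^ (-s.re - 1) * u := by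
  have hder : ∀ x ∈ Set.Icc (0 : ℝ) u, HasDerivWithinAt
      (fun v : ℝ => ((a + v : ℝ) : ℂ) ^ (-s)) (-s * ((a + x : ℝ) : ℂ) ^ (-s - 1))
      (Set.Icc 0 u) x := by
    intro x hx
    have hpos : 0 < a + x := by linarith [hx.1]
    have h1 : HasDerivAt (fun v : ℝ => a + v) 1 x := by
      simpa using (hasDerivAt_id x).const_add a
    have h2 : HasDerivAt (fun v : ℝ => ((a + v : ℝ) : ℂ)) ((1 : ℝ) : ℂ) x := h1.ofReal_comp
    have h3 := HasDerivAt.comp x (h := fun v : ℝ => ((a + v : ℝ) : ℂ))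
      (h₂ := fun z : ℂ => z ^ (-s)) (h₂' := -s * ((a + x : ℝ) : ℂ) ^ (-s - 1)) (h' := ((1 : ℝ) : ℂ)) ?_ h2
    · simpa using! h3.hasDerivWithinAt
    · have := (hasDerivAt_id (((a + x : ℝ) : ℂ))).cpow_const (c := -s) (by
        left
        simpa using hpos)
      simpa using! this
  have hb : ∀ x ∈ Set.Ico (0 : ℝ) u, ‖-s * ((a + x : ℝ) : ℂ) ^ (-s - 1)‖ ≤
      ‖s‖ * a ^ (-s.re - 1) := by
    intro x hx
    have hpos : 0 < a + x := by linarith [hx.1]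
    rw [norm_mul, norm_neg, Complex.norm_cpow_eq_rpow_re_of_pos hpos]
    apply mul_le_mul_of_nonneg_left _ (norm_nonneg _)
    simp only [Complex.sub_re, Complex.neg_re, Complex.one_re]
    exact Real.rpow_le_rpow_of_nonpos ha (by linarith [hx.1]) (by linarith)
  have h := norm_image_sub_le_of_norm_deriv_le_segment' hder hb u ⟨hu, le_rfl⟩
  simpa using! h

theorem ZCONT_bound (n : ℕ) (s : ℂ) (hs : 0 < s.re) :
    ‖ZCONTb n s‖ ≤ ‖s - 1‖ * (‖s‖ * ((n : ℝ) + 1) ^ (-s.re - 1)) := by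
  have ha : (0 : ℝ) < (n : ℝ) + 1 := by positivity
  set a : ℝ := (n : ℝ) + 1 with hadef
  have hder : ∀ x ∈ Set.Icc (0 : ℝ) 1, HasDerivWithinAt
      (fun v : ℝ => (s - 1) * ((a : ℝ) : ℂ) ^ (-s) * (v : ℂ) + ((a + v : ℝ) : ℂ) ^ (1 - s))
      ((s - 1) * (((a : ℝ) : ℂ) ^ (-s) - ((a + x : ℝ) : ℂ) ^ (-s)))
      (Set.Icc 0 1) x := by
    intro x hx
    have hpos : 0 < a + x := by linarith [hx.1]
    have h1 : HasDerivAt (fun v : ℝ => a + v) 1 x := by
      simpa using (hasDerivAt_id x).const_add a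
    have h2 : HasDerivAt (fun v : ℝ => ((a + v : ℝ) : ℂ)) ((1 : ℝ) : ℂ) x := h1.ofReal_comp
    have h3 := HasDerivAt.comp x (h := fun v : ℝ => ((a + v : ℝ) : ℂ))
      (h₂ := fun z : ℂ => z ^ (1 - s)) (h₂' := (1 - s) * ((a + x : ℝ) : ℂ) ^ (-s)) (h' := ((1 : ℝ) : ℂ)) ?_ h2
    · have h4 : HasDerivAt (fun v : ℝ => (s - 1) * ((a : ℝ) : ℂ) ^ (-s) * (v : ℂ))
          ((s - 1) * ((a : ℝ) : ℂ) ^ (-s) * 1) x := by
        have := (hasDerivAt_id x).ofReal_comp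
        exact (this.const_mul ((s - 1) * ((a : ℝ) : ℂ) ^ (-s)))
      have h5 := (h4.add h3).hasDerivWithinAt (s := Set.Icc (0 : ℝ) 1)
      refine h5.congr_deriv ?_
      push_cast
      ring
    · have := (hasDerivAt_id (((a + x : ℝ) : ℂ))).cpow_const (c := 1 - s) (by
        left
        simpa using hpos)
      simpa using! this
  have hb : ∀ x ∈ Set.Ico (0 : ℝ) 1, ‖(s - 1) * (((a : ℝ) : ℂ) ^ (-s) -
      ((a + x : ℝ) : ℂ) ^ (-s))‖ ≤ ‖s - 1‖ * (‖s‖ * a ^ (-s.re - 1)) := by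
    intro x hx
    rw [norm_mul]
    apply mul_le_mul_of_nonneg_left _ (norm_nonneg _)
    rw [norm_sub_rev]
    refine (ZCONT_psi a ha s hs x hx.1).trans ?_
    have h0 : 0 ≤ ‖s‖ * a ^ (-s.re - 1) := by positivity
    calc ‖s‖ * a ^ (-s.re - 1) * x ≤ ‖s‖ * a ^ (-s.re - 1) * 1 :=
          mul_le_mul_of_nonneg_left hx.2.le h0
      _ = _ := mul_one _
  have h := norm_image_sub_le_of_norm_deriv_le_segment' hder hb 1 ⟨zero_le_one, le_rfl⟩
  have e : ZCONTb n s = ((s - 1) * ((a : ℝ) : ℂ) ^ (-s) * ((1 : ℝ) : ℂ) +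
      ((a + 1 : ℝ) : ℂ) ^ (1 - s)) -
      ((s - 1) * ((a : ℝ) : ℂ) ^ (-s) * ((0 : ℝ) : ℂ) + ((a + 0 : ℝ) : ℂ) ^ (1 - s)) := by
    unfold ZCONTb
    rw [hadef]
    push_cast
    have : (n : ℂ) + 1 + 1 = (n : ℂ) + 2 := by ring
    rw [this]
    simp only [add_zero, mul_zero, mul_one, zero_add]
    ring
  rw [e]
  refine h.trans ?_
  simp

theorem ZCONT_tele (N : ℕ) (s : ℂ) :
    ∑ n ∈ Finset.range N, ZCONTb n s =
      (s - 1) * ∑ n ∈ Finset.range N, ((n : ℂ) + 1) ^ (-s) + (((N : ℂ) + 1) ^ (1 - s) - 1) := by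
  induction N with
  | zero => simp
  | succ N ih =>
    rw [Finset.sum_range_succ, ih, Finset.sum_range_succ]
    unfold ZCONTb
    push_cast
    have : (N : ℂ) + 1 + 1 = (N : ℂ) + 2 := by ring
    rw [this]
    ring

theorem ZCONT_step (x σ : ℝ) (hx : 0 < x) (hσ : 0 < σ) :
    (x + 1) ^ (-σ - 1) ≤ (x ^ (-σ) - (x + 1) ^ (-σ)) / σ := by
  have hx1 : 0 < x + 1 := by linarith
  rw [le_div_iff₀ hσ]
  have h1 : (x + 1) ^ (-σ - 1) = (x + 1) ^ (-σ) * (1 / (x + 1)) := by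
    rw [Real.rpow_sub_one hx1.ne']
    field_simp
  have h2 : 1 + σ * (1 / (x + 1)) ≤ (x / (x + 1)) ^ (-σ) := by
    have hq : 0 < x / (x + 1) := by positivity
    rw [Real.rpow_def_of_pos hq]
    have h3 : Real.log (x / (x + 1)) ≤ x / (x + 1) - 1 := Real.log_le_sub_one_of_pos hq
    have h4 : x / (x + 1) - 1 = -(1 / (x + 1)) := by
      field_simp
      ring
    have h5 := Real.add_one_le_exp (Real.log (x / (x + 1)) * -σ)
    nlinarith
  have h3 : x ^ (-σ) = (x + 1) ^ (-σ) * (x / (x + 1)) ^ (-σ) := by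
    rw [← Real.mul_rpow hx1.le (by positivity)]
    congr 1
    field_simp
  rw [h1, h3]
  have h4 : 0 < (x + 1) ^ (-σ) := Real.rpow_pos_of_pos hx1 _
  have h5 := mul_le_mul_of_nonneg_left h2 h4.le
  linarith

theorem ZCONT_tailsum (N M : ℕ) (hN : 1 ≤ N) (σ : ℝ) (hσ : 0 < σ) :
    ∑ n ∈ Finset.range M, (((n + N : ℕ) : ℝ) + 1) ^ (-σ - 1) ≤
      ((N : ℝ) ^ (-σ) - (((N + M : ℕ)) : ℝ) ^ (-σ)) / σ := by
  induction M with
  | zero => simp
  | succ M ih =>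
    rw [Finset.sum_range_succ]
    have h := ZCONT_step ((M + N : ℕ) : ℝ) σ (by positivity) hσ
    have e1 : ((M + N : ℕ) : ℝ) = ((N + M : ℕ) : ℝ) := by push_cast; ring
    have e2 : (((N + (M + 1) : ℕ)) : ℝ) = ((M + N : ℕ) : ℝ) + 1 := by push_cast; ring
    rw [e2]
    rw [← e1] at ih
    calc _ ≤ ((N : ℝ) ^ (-σ) - (((M + N : ℕ)) : ℝ) ^ (-σ)) / σ +
          ((((M + N : ℕ)) : ℝ) ^ (-σ) - ((((M + N : ℕ)) : ℝ) + 1) ^ (-σ)) / σ := add_le_add ih h
      _ = _ := by ring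

theorem ZCONT_sumble (σ : ℝ) (hσ : 0 < σ) : Summable (fun n : ℕ => ((n : ℝ) + 1) ^ (-σ - 1)) := by
  have h : Summable (fun n : ℕ => (n : ℝ) ^ (-σ - 1)) := by
    rw [Real.summable_nat_rpow]
    linarith
  have h2 := (summable_nat_add_iff 1).mpr h
  simpa using! h2

theorem ZCONT_sumb (s : ℂ) (hs : 0 < s.re) : Summable (fun n : ℕ => ZCONTb n s) := by
  refine Summable.of_norm_bounded ?_ (fun n => ZCONT_bound n s hs)
  exact ((ZCONT_sumble s.re hs).mul_left _).mul_left _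

theorem ZCONT_right (s : ℂ) (hs : 1 < s.re) :
    1 + ∑' n : ℕ, ZCONTb n s = riemannZeta₁ s := by
  have hs0 : 0 < s.re := by linarith
  have hs1 : s ≠ 1 := by
    intro h
    rw [h] at hs
    simp at hs
  have h1 := (ZCONT_sumb s hs0).hasSum.tendsto_sum_nat
  have hz : HasSum (fun n : ℕ => ((n : ℂ) + 1) ^ (-s)) (riemannZeta s) := by
    have e := zeta_eq_tsum_one_div_nat_add_one_cpow hs
    rw [e]
    have e2 : (fun n : ℕ => ((n : ℂ) + 1) ^ (-s)) = fun n : ℕ => 1 / ((n : ℂ) + 1) ^ s := by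
      funext n
      rw [Complex.cpow_neg, one_div]
    rw [e2]
    apply Summable.hasSum
    have := (summable_nat_add_iff 1).mpr (Complex.summable_one_div_nat_cpow.mpr hs)
    simpa using! this
  have h2 := hz.tendsto_sum_nat
  have h3 : Tendsto (fun N : ℕ => ((N : ℂ) + 1) ^ (1 - s)) atTop (𝓝 0) := by
    rw [tendsto_zero_iff_norm_tendsto_zero]
    have e : (fun N : ℕ => ‖((N : ℂ) + 1) ^ (1 - s)‖) = fun N : ℕ => ((N : ℝ) + 1) ^ (-(s.re - 1)) := by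
      funext N
      have : ((N : ℂ) + 1) = (((N : ℝ) + 1 : ℝ) : ℂ) := by push_cast; ring
      rw [this, Complex.norm_cpow_eq_rpow_re_of_pos (by positivity)]
      simp
    rw [e]
    have h4 := tendsto_rpow_neg_atTop (y := s.re - 1) (by linarith)
    exact h4.comp (tendsto_atTop_add_const_right _ _ tendsto_natCast_atTop_atTop)
  have h4 : Tendsto (fun N : ℕ => ∑ n ∈ Finset.range N, ZCONTb n s) atTop
      (𝓝 ((s - 1) * riemannZeta s + (0 - 1))) := by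
    have e : (fun N : ℕ => ∑ n ∈ Finset.range N, ZCONTb n s) = fun N : ℕ =>
        (s - 1) * ∑ n ∈ Finset.range N, ((n : ℂ) + 1) ^ (-s) + (((N : ℂ) + 1) ^ (1 - s) - 1) :=
      funext fun N => ZCONT_tele N s
    rw [e]
    exact (h2.const_mul _).add (h3.sub_const 1)
  have h5 := tendsto_nhds_unique h1 h4
  rw [h5, riemannZeta_eq_inv_sub_mul hs1]
  have : s - 1 ≠ 0 := sub_ne_zero.mpr hs1
  field_simp
  ring

theorem ZCONT_diffOn : DifferentiableOn ℂ (fun s : ℂ => 1 + ∑' n : ℕ, ZCONTb n s)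
    {s : ℂ | 0 < s.re} := by
  intro s hs
  have hs' : 0 < s.re := hs
  set δ : ℝ := s.re / 2 with hδ
  have hδ0 : 0 < δ := by positivity
  set R : ℝ := ‖s‖ + 1 with hR
  set U : Set ℂ := {z : ℂ | δ < z.re} ∩ Metric.ball 0 R with hU
  have hUo : IsOpen U := by
    apply IsOpen.inter
    · exact isOpen_lt continuous_const Complex.continuous_re
    · exact Metric.isOpen_ball
  have hsU : s ∈ U := by
    refine ⟨?_, ?_⟩
    · change δ < s.re
      rw [hδ]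
      linarith
    · simp [hR]
  have hsum : Summable (fun n : ℕ => (R + 1) * (R * ((n : ℝ) + 1) ^ (-δ - 1))) :=
    ((ZCONT_sumble δ hδ0).mul_left _).mul_left _
  have h := Complex.differentiableOn_tsum_of_summable_norm (U := U) (F := ZCONTb) hsum
    (fun n => (ZCONT_diff n).differentiableOn) hUo (by
      intro n z hz
      have hz1 : δ < z.re := hz.1
      have hz2 : ‖z‖ < R := by simpa using hz.2
      refine (ZCONT_bound n z (by linarith)).trans ?_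
      have h1 : ‖z - 1‖ ≤ R + 1 := by
        calc ‖z - 1‖ ≤ ‖z‖ + ‖(1 : ℂ)‖ := norm_sub_le _ _
          _ ≤ R + 1 := by
            rw [norm_one]
            linarith
      have h2 : ((n : ℝ) + 1) ^ (-z.re - 1) ≤ ((n : ℝ) + 1) ^ (-δ - 1) := by
        apply Real.rpow_le_rpow_of_exponent_le
        · have : (0 : ℝ) ≤ (n : ℝ) := by positivity
          linarith
        · linarith
      have h3 : 0 ≤ ((n : ℝ) + 1) ^ (-z.re - 1) := by positivity
      gcongr)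
  have h2 := (h s hsU).differentiableAt (hUo.mem_nhds hsU)
  exact (h2.const_add 1).differentiableWithinAt

theorem ZCONT_eq (s : ℂ) (hs : 0 < s.re) :
    1 + ∑' n : ℕ, ZCONTb n s = riemannZeta₁ s := by
  have hUo : IsOpen {s : ℂ | 0 < s.re} := isOpen_lt continuous_const Complex.continuous_re
  have h1 : AnalyticOnNhd ℂ (fun s : ℂ => 1 + ∑' n : ℕ, ZCONTb n s) {s : ℂ | 0 < s.re} :=
    ZCONT_diffOn.analyticOnNhd hUo
  have h2 : AnalyticOnNhd ℂ riemannZeta₁ {s : ℂ | 0 < s.re} :=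
    (differentiable_riemannZeta₁.differentiableOn).analyticOnNhd hUo
  have hpre : IsPreconnected {s : ℂ | 0 < s.re} := (convex_halfSpace_re_gt 0).isPreconnected
  have h3 := h1.eqOn_of_preconnected_of_eventuallyEq h2 hpre (z₀ := (2 : ℂ)) (by simp) (by
    filter_upwards [(isOpen_lt continuous_const Complex.continuous_re).mem_nhds
      (show (1 : ℝ) < (2 : ℂ).re by simp)] with z hz
    exact ZCONT_right z hz)
  exact h3 hs

/-- MODULE ZCONT. Continuation formula for zeta with explicit remainder: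
for `Re s > 0`, `s ≠ 1`, `N ≥ 1`:
`|zeta(s) - sum_(n=1..N) n^-s - (N+1)^(1-s)/(s-1)| ≤ 3 |s| N^(-sig)/sig`  (any numerical constant is fine, keep 3). -/
theorem zeta_cont (s : ℂ) (hs : 0 < s.re) (hs1 : s ≠ 1) (N : ℕ) (hN : 1 ≤ N) :
    ‖riemannZeta s - ∑ n ∈ Finset.Icc 1 N, (n : ℂ) ^ (-s) - ((N : ℂ) + 1) ^ (1 - s) / (s - 1)‖
      ≤ 3 * ‖s‖ * (N : ℝ) ^ (-s.re) / s.re := by
  have hs1' : s - 1 ≠ 0 := sub_ne_zero.mpr hs1
  have h1 := ZCONT_eq s hs
  have h2 := (ZCONT_sumb s hs).sum_add_tsum_nat_add N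
  have h3 := ZCONT_tele N s
  have h4 : ∑ n ∈ Finset.Icc 1 N, (n : ℂ) ^ (-s) = ∑ n ∈ Finset.range N, ((n : ℂ) + 1) ^ (-s) := by
    have e1 := Finset.sum_Ico_add' (fun n : ℕ => (n : ℂ) ^ (-s)) 0 N 1
    have e2 : Finset.Icc 1 N = Finset.Ico (0 + 1) (N + 1) := by
      ext x
      simp only [Finset.mem_Icc, Finset.mem_Ico]
      omega
    rw [e2, ← e1, Finset.range_eq_Ico]
    apply Finset.sum_congr rfl
    intro n _
    push_cast
    rfl
  have h5 : riemannZeta s - ∑ n ∈ Finset.Icc 1 N, (n : ℂ) ^ (-s) -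
      ((N : ℂ) + 1) ^ (1 - s) / (s - 1) = (s - 1)⁻¹ * ∑' n : ℕ, ZCONTb (n + N) s := by
    rw [riemannZeta_eq_inv_sub_mul hs1, ← h1, ← h2, h3, h4]
    field_simp
    ring
  rw [h5, norm_mul, norm_inv]
  have hb : ∀ n : ℕ, ‖ZCONTb (n + N) s‖ ≤ ‖s - 1‖ * (‖s‖ * (((n + N : ℕ) : ℝ) + 1) ^ (-s.re - 1)) :=
    fun n => ZCONT_bound (n + N) s hs
  have hsm : Summable (fun n : ℕ => ‖s - 1‖ * (‖s‖ * (((n + N : ℕ) : ℝ) + 1) ^ (-s.re - 1))) :=
    (((summable_nat_add_iff N).mpr (ZCONT_sumble s.re hs)).mul_left _).mul_left _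
  have hb2 := tsum_of_norm_bounded hsm.hasSum hb
  have hNpos : (0 : ℝ) < (N : ℝ) := by
    have : 0 < N := hN
    exact_mod_cast this
  have hb3 : ∑' n : ℕ, ‖s - 1‖ * (‖s‖ * (((n + N : ℕ) : ℝ) + 1) ^ (-s.re - 1)) ≤
      ‖s - 1‖ * (‖s‖ * ((N : ℝ) ^ (-s.re) / s.re)) := by
    apply Real.tsum_le_of_sum_range_le
    · intro n
      positivity
    · intro M
      rw [← Finset.mul_sum, ← Finset.mul_sum]
      have h6 := ZCONT_tailsum N M hN s.re hs
      have h7 : ((N : ℝ) ^ (-s.re) - (((N + M : ℕ)) : ℝ) ^ (-s.re)) / s.re ≤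
          (N : ℝ) ^ (-s.re) / s.re := by
        apply div_le_div_of_nonneg_right _ hs.le
        have : (0 : ℝ) ≤ (((N + M : ℕ)) : ℝ) ^ (-s.re) := by positivity
        linarith
      have h8 := h6.trans h7
      gcongr
  have hn : 0 < ‖s - 1‖ := norm_pos_iff.mpr hs1'
  calc ‖s - 1‖⁻¹ * ‖∑' n : ℕ, ZCONTb (n + N) s‖
      ≤ ‖s - 1‖⁻¹ * (‖s - 1‖ * (‖s‖ * ((N : ℝ) ^ (-s.re) / s.re))) := by
        apply mul_le_mul_of_nonneg_left (hb2.trans hb3)
        positivity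
    _ = ‖s‖ * (N : ℝ) ^ (-s.re) / s.re := by
        field_simp
    _ ≤ 3 * ‖s‖ * (N : ℝ) ^ (-s.re) / s.re := by
        apply div_le_div_of_nonneg_right _ hs.le
        have : 0 ≤ ‖s‖ * (N : ℝ) ^ (-s.re) := by positivity
        nlinarith

end Pool.Agent.SWz
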