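import Pool.Agent.SWz.Iface
import Pool.Agent.SWz.ZetaCont

namespace Pool.Agent.SWz

theorem ZGROW_sum (ε : ℝ) (hε : 0 < ε) (N : ℕ) (hN : 1 ≤ N) (s : ℂ) (hs : 1 - ε ≤ s.re) :
    ‖∑ n ∈ Finset.Icc 1 N, (n : ℂ) ^ (-s)‖ ≤ (1 + 1 / ε) * (N : ℝ) ^ (2 * ε) := by
  have hNpos : (0 : ℝ) < (N : ℝ) := by
    have : 0 < N := hN
    exact_mod_cast this
  have hN1 : (1 : ℝ) ≤ (N : ℝ) := by exact_mod_cast hN
  have h1 : ‖∑ n ∈ Finset.Icc 1 N, (n : ℂ) ^ (-s)‖ ≤
      ∑ n ∈ Finset.Icc 1 N, (N : ℝ) ^ ε * ((n : ℝ)⁻¹) := by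
    refine (norm_sum_le _ _).trans (Finset.sum_le_sum ?_)
    intro n hn
    rw [Finset.mem_Icc] at hn
    have hn0 : 0 < n := hn.1
    have hnpos : (0 : ℝ) < (n : ℝ) := by exact_mod_cast hn0
    have hn1 : (1 : ℝ) ≤ (n : ℝ) := by exact_mod_cast hn.1
    have hnN : (n : ℝ) ≤ (N : ℝ) := by exact_mod_cast hn.2
    rw [Complex.norm_natCast_cpow_of_pos hn0]
    calc (n : ℝ) ^ (-s).re ≤ (n : ℝ) ^ (ε + (-1 : ℝ)) := by
          apply Real.rpow_le_rpow_of_exponent_le hn1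
          rw [Complex.neg_re]
          linarith
      _ = (n : ℝ) ^ ε * (n : ℝ)⁻¹ := by
          rw [Real.rpow_add hnpos, Real.rpow_neg_one]
      _ ≤ (N : ℝ) ^ ε * (n : ℝ)⁻¹ := by
          apply mul_le_mul_of_nonneg_right _ (by positivity)
          exact Real.rpow_le_rpow hnpos.le hnN hε.le
  have h2 : ∑ n ∈ Finset.Icc 1 N, (n : ℝ)⁻¹ ≤ 1 + Real.log N := by
    have h := harmonic_le_one_add_log N
    rw [harmonic_eq_sum_Icc] at h
    push_cast at h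
    exact h
  have h3 : Real.log N ≤ (N : ℝ) ^ ε / ε := Real.log_le_rpow_div hNpos.le hε
  have h4 : (1 : ℝ) ≤ (N : ℝ) ^ ε := Real.one_le_rpow hN1 hε.le
  have h5 : (N : ℝ) ^ (2 * ε) = (N : ℝ) ^ ε * (N : ℝ) ^ ε := by
    rw [two_mul, Real.rpow_add hNpos]
  rw [← Finset.mul_sum] at h1
  refine h1.trans ?_
  rw [h5]
  calc (N : ℝ) ^ ε * ∑ n ∈ Finset.Icc 1 N, (n : ℝ)⁻¹
      ≤ (N : ℝ) ^ ε * ((N : ℝ) ^ ε + (N : ℝ) ^ ε / ε) := by
        apply mul_le_mul_of_nonneg_left _ (by positivity)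
        linarith
    _ = (1 + 1 / ε) * ((N : ℝ) ^ ε * (N : ℝ) ^ ε) := by ring

/-- MODULE ZGROW (from `zeta_cont`). -/
theorem zgrow : ZGrow := by
  intro ε hε hε4
  refine ⟨(1 + 1 / ε) + 18, ?_⟩
  intro s hs1 hs3 hs0
  set t : ℝ := |s.im| with ht
  have htpos : 0 < t := abs_pos.mpr hs0
  set T : ℝ := t + 2 with hT
  have hT2 : 2 ≤ T := by linarith
  have hT0 : 0 < T := by linarith
  have hT1 : 1 ≤ T := by linarith
  set N : ℕ := ⌊T⌋₊ with hN
  have hNT : (N : ℝ) ≤ T := Nat.floor_le hT0.le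
  have hNT2 : T < (N : ℝ) + 1 := Nat.lt_floor_add_one T
  have hN2 : T / 2 ≤ (N : ℝ) := by linarith
  have hN1 : 1 ≤ N := by
    have : (1 : ℝ) ≤ (N : ℝ) := by linarith
    exact_mod_cast this
  have hNpos : (0 : ℝ) < (N : ℝ) := by linarith
  have hσ : 3 / 4 ≤ s.re := by linarith
  have hσ0 : 0 < s.re := by linarith
  have hsne : s ≠ 1 := by
    intro h
    rw [h] at hs0
    simp at hs0
  have hmain := zeta_cont s hσ0 hsne N hN1
  have hA := ZGROW_sum ε hε N hN1 s hs1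
  have hpow : (N : ℝ) ^ (2 * ε) ≤ T ^ (2 * ε) := Real.rpow_le_rpow hNpos.le hNT (by linarith)
  have hTε : T ^ ε ≤ T ^ (2 * ε) := Real.rpow_le_rpow_of_exponent_le hT1 (by linarith)
  have hTpos : 0 < T ^ (2 * ε) := by positivity
  -- second term
  have hB : ‖((N : ℂ) + 1) ^ (1 - s) / (s - 1)‖ ≤ 2 * T ^ (2 * ε) / t := by
    have e1 : ((N : ℂ) + 1) = (((N : ℝ) + 1 : ℝ) : ℂ) := by push_cast; ring
    have hNp : (0 : ℝ) < (N : ℝ) + 1 := by linarith
    rw [norm_div, e1, Complex.norm_cpow_eq_rpow_re_of_pos hNp]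
    have h1 : t ≤ ‖s - 1‖ := by
      have := Complex.abs_im_le_norm (s - 1)
      simpa [ht] using this
    have h2 : ((N : ℝ) + 1) ^ (1 - s).re ≤ 2 * T ^ (2 * ε) := by
      calc ((N : ℝ) + 1) ^ (1 - s).re ≤ ((N : ℝ) + 1) ^ ε := by
            apply Real.rpow_le_rpow_of_exponent_le (by linarith)
            simp only [Complex.sub_re, Complex.one_re]
            linarith
        _ ≤ (2 * T) ^ ε := Real.rpow_le_rpow hNp.le (by linarith) hε.le
        _ = 2 ^ ε * T ^ ε := Real.mul_rpow (by norm_num) hT0.le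
        _ ≤ 2 * T ^ (2 * ε) := by
            apply mul_le_mul _ hTε (by positivity) (by norm_num)
            calc (2 : ℝ) ^ ε ≤ 2 ^ (1 : ℝ) :=
                  Real.rpow_le_rpow_of_exponent_le (by norm_num) (by linarith)
              _ = 2 := Real.rpow_one 2
    exact div_le_div₀ (by positivity) h2 htpos h1
  -- third term
  have hC : 3 * ‖s‖ * (N : ℝ) ^ (-s.re) / s.re ≤ 16 * T ^ (2 * ε) := by
    have h1 : ‖s‖ ≤ 2 * T := by
      have := Complex.norm_le_abs_re_add_abs_im s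
      rw [abs_of_pos hσ0] at this
      calc ‖s‖ ≤ s.re + |s.im| := this
        _ ≤ 2 * T := by
          rw [← ht]
          linarith
    have h2 : (N : ℝ) ^ (-s.re) ≤ 2 * T ^ (2 * ε) / T := by
      calc (N : ℝ) ^ (-s.re) ≤ (N : ℝ) ^ (ε + (-1 : ℝ)) := by
            apply Real.rpow_le_rpow_of_exponent_le (by exact_mod_cast hN1)
            linarith
        _ = (N : ℝ) ^ ε * (N : ℝ)⁻¹ := by
            rw [Real.rpow_add hNpos, Real.rpow_neg_one]
        _ ≤ T ^ (2 * ε) * (T / 2)⁻¹ := by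
            apply mul_le_mul
            · exact (Real.rpow_le_rpow hNpos.le hNT hε.le).trans hTε
            · exact inv_anti₀ (by positivity) hN2
            · positivity
            · positivity
        _ = 2 * T ^ (2 * ε) / T := by
            field_simp
    rw [div_le_iff₀ hσ0]
    have h3 : 3 * ‖s‖ * (N : ℝ) ^ (-s.re) ≤ 3 * (2 * T) * (2 * T ^ (2 * ε) / T) := by
      gcongr
    have h4 : 3 * (2 * T) * (2 * T ^ (2 * ε) / T) = 12 * T ^ (2 * ε) := by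
      field_simp
      ring
    rw [h4] at h3
    nlinarith
  have hz : ‖riemannZeta s‖ ≤ (1 + 1 / ε) * T ^ (2 * ε) + 2 * T ^ (2 * ε) / t +
      16 * T ^ (2 * ε) := by
    have e : riemannZeta s = (riemannZeta s - ∑ n ∈ Finset.Icc 1 N, (n : ℂ) ^ (-s) -
        ((N : ℂ) + 1) ^ (1 - s) / (s - 1)) + ∑ n ∈ Finset.Icc 1 N, (n : ℂ) ^ (-s) +
        ((N : ℂ) + 1) ^ (1 - s) / (s - 1) := by ring
    rw [e]
    refine (norm_add₃_le).trans ?_
    have h1 : (1 + 1 / ε) * (N : ℝ) ^ (2 * ε) ≤ (1 + 1 / ε) * T ^ (2 * ε) := by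
      apply mul_le_mul_of_nonneg_left hpow (by positivity)
    linarith
  refine hz.trans ?_
  have h1 : 0 ≤ T ^ (2 * ε) / t := by positivity
  have h2 : 0 ≤ (1 + 1 / ε) * (T ^ (2 * ε) / t) := by positivity
  have h3 : ((1 + 1 / ε) + 18) * (1 + 1 / t) * T ^ (2 * ε) =
      (1 + 1 / ε) * T ^ (2 * ε) + 18 * T ^ (2 * ε) + (1 + 1 / ε) * (T ^ (2 * ε) / t) +
      18 * (T ^ (2 * ε) / t) := by
    field_simp
    ring
  rw [h3]
  have h4 : 2 * T ^ (2 * ε) / t = 2 * (T ^ (2 * ε) / t) := by ring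
  rw [h4]
  linarith

end Pool.Agent.SWz
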