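import Mathlib
import Pool.Agent.SWz.Siegel
import Pool.Agent.SWz.GrowthD
import Pool.Agent.SWz.Lower
import Pool.Agent.SWz.LTriv
import Pool.Agent.SWz.ZetaGrow
import Pool.Agent.SWz.Fin1
import Pool.Agent.SWz.Fin2
import Pool.Agent.SWz.Final

/-! MP_3509fd_nt part C1: the Siegel-Walfisz theorem (unconditional, final form). -/

namespace Pool.Agent.SWz

open Finset ArithmeticFunction

theorem growth_prop : Growth := by
  intro ε hε hε4
  obtain ⟨C, _, hC⟩ := growth ε hε
  exact ⟨C, fun q _ χ hχ s h1 h2 => hC q χ hχ s h1 (by linarith) (by linarith)⟩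

theorem siegel_prop : Siegel := by
  intro ε hε
  exact siegel ε hε

theorem totlow_prop : TotLow := by
  intro ε hε
  obtain ⟨C, hC0, hC⟩ := prod_inv_le ε hε
  refine ⟨C⁻¹, inv_pos.mpr hC0, fun q hq => ?_⟩
  have hq0 : (0 : ℝ) < q := by exact_mod_cast hq
  have h1 := hC q hq
  have h2 : (q.totient : ℝ) = q * ∏ p ∈ q.primeFactors, (1 - (p : ℝ)⁻¹) := by
    have := Nat.totient_eq_mul_prod_factors q
    have h3 := congrArg (fun x : ℚ => (x : ℝ)) this
    push_cast at h3
    exact h3
  have hprod : 0 < ∏ p ∈ q.primeFactors, (1 - (p : ℝ)⁻¹) := by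
    refine Finset.prod_pos fun p hp => ?_
    have hp2 : (2 : ℝ) ≤ p := by exact_mod_cast (Nat.prime_of_mem_primeFactors hp).two_le
    have : (p : ℝ)⁻¹ ≤ 2⁻¹ := inv_anti₀ (by norm_num) hp2
    norm_num at this ⊢
    linarith
  rw [Finset.prod_inv_distrib, inv_le_iff_one_le_mul₀ hprod] at h1
  rw [h2, mul_div_assoc, mul_comm (q : ℝ), div_mul_cancel₀ _ hq0.ne', Real.rpow_neg hq0.le,
    ← mul_inv, inv_le_iff_one_le_mul₀ (by positivity)]
  linarith

theorem growthD_prop : GrowthD := growthD growth_prop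

theorem ltriv_prop : LTriv := ltriv totlow_prop

theorem lower_prop : Lower := lower growth_prop growthD_prop siegel_prop ltriv_prop zgrow

theorem charBd : CharBd := fun A => mu_chi_aux growthD_prop lower_prop A

theorem pntBd : PntBd := fun A => pnt zgrow A

/-- **Siegel-Walfisz for the Moebius function**, with a coprimality condition. -/
theorem swmu : Pool.Agent.BGG.SWmu := swmu_of charBd pntBd

/-- **Siegel-Walfisz for the von Mangoldt function.** -/
theorem swlam : Pool.Agent.BGG.SWLam := swlam_of charBd pntBd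

end Pool.Agent.SWz
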