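import Mathlib

namespace Pool.Agent.SWz

open MeasureTheory

/-- the kernel function as a complex function -/
noncomputable def KER1g (u : ℝ) : ℂ :=
  if 0 ≤ u then ((Real.exp (-u) * (1 - Real.exp (-u)) : ℝ) : ℂ) else 0

theorem KER1_cont : Continuous KER1g := by
  unfold KER1g
  apply Continuous.if_le
  · fun_prop
  · fun_prop
  · fun_prop
  · fun_prop
  · intro x hx
    subst hx
    simp

theorem KER1_int : Integrable KER1g := by
  have h1 : KER1g = Set.indicator (Set.Ici (0 : ℝ)) (fun v : ℝ =>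
        ((Real.exp (-v) * (1 - Real.exp (-v)) : ℝ) : ℂ)) := by
    funext v
    unfold KER1g Set.indicator
    by_cases h : 0 ≤ v
    · simp [h]
    · simp [h]
  rw [h1, integrable_indicator_iff measurableSet_Ici, integrableOn_Ici_iff_integrableOn_Ioi]
  have h2 := (integrableOn_exp_mul_complex_Ioi (a := -1) (by simp) 0).sub
    (integrableOn_exp_mul_complex_Ioi (a := -2) (by simp) 0)
  refine h2.congr_fun ?_ measurableSet_Ioi
  intro x hx
  simp only [Pi.sub_apply]
  push_cast
  rw [mul_sub, ← Complex.exp_add]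
  congr 1
  · ring_nf
  · ring_nf

theorem KER1_four (ξ : ℝ) : FourierTransform.fourier KER1g ξ =
    1 / ((1 + 2 * Real.pi * Complex.I * ξ) * (2 + 2 * Real.pi * Complex.I * ξ)) := by
  rw [Real.fourier_real_eq_integral_exp_smul]
  have h1 : (fun v : ℝ => Complex.exp (↑(-2 * Real.pi * v * ξ) * Complex.I) • KER1g v) =
      Set.indicator (Set.Ici (0 : ℝ)) (fun v : ℝ =>
        Complex.exp ((-(1 + 2 * Real.pi * Complex.I * ξ)) * v) -
        Complex.exp ((-(2 + 2 * Real.pi * Complex.I * ξ)) * v)) := by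
    funext v
    unfold KER1g Set.indicator
    by_cases h : 0 ≤ v
    · simp only [h, if_true, Set.mem_Ici, smul_eq_mul]
      push_cast
      rw [mul_sub, mul_one, mul_sub, ← Complex.exp_add, ← Complex.exp_add, ← Complex.exp_add]
      congr 1
      · ring_nf
      · ring_nf
    · simp [h]
  rw [h1, integral_indicator measurableSet_Ici, integral_Ici_eq_integral_Ioi]
  have e1 : (-(1 + 2 * (Real.pi : ℂ) * Complex.I * ξ)).re < 0 := by simp
  have e2 : (-(2 + 2 * (Real.pi : ℂ) * Complex.I * ξ)).re < 0 := by simp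
  have hn1 : (1 + 2 * (Real.pi : ℂ) * Complex.I * ξ) ≠ 0 := by
    intro h
    rw [h] at e1
    simp at e1
  have hn2 : (2 + 2 * (Real.pi : ℂ) * Complex.I * ξ) ≠ 0 := by
    intro h
    rw [h] at e2
    simp at e2
  rw [integral_sub (integrableOn_exp_mul_complex_Ioi e1 0)
    (integrableOn_exp_mul_complex_Ioi e2 0), integral_exp_mul_complex_Ioi e1,
    integral_exp_mul_complex_Ioi e2]
  simp only [Complex.ofReal_zero, mul_zero, Complex.exp_zero]
  rw [neg_div_neg_eq, neg_div_neg_eq, div_sub_div _ _ hn1 hn2]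
  congr 1
  ring

theorem KER1_fint : Integrable (FourierTransform.fourier KER1g) := by
  have h1 : FourierTransform.fourier KER1g = fun ξ : ℝ =>
    1 / ((1 + 2 * Real.pi * Complex.I * ξ) * (2 + 2 * Real.pi * Complex.I * ξ)) :=
    funext KER1_four
  have e1 : ∀ ξ : ℝ, (1 + 2 * (Real.pi : ℂ) * Complex.I * ξ) ≠ 0 := by
    intro ξ h
    have := congrArg Complex.re h
    simp at this
  have e2 : ∀ ξ : ℝ, (2 + 2 * (Real.pi : ℂ) * Complex.I * ξ) ≠ 0 := by
    intro ξ h
    have := congrArg Complex.re h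
    simp at this
  rw [h1]
  refine integrable_inv_one_add_sq.mono' ?_ ?_
  · apply Continuous.aestronglyMeasurable
    apply Continuous.div
    · fun_prop
    · fun_prop
    · intro ξ
      exact mul_ne_zero (e1 ξ) (e2 ξ)
  · refine Filter.Eventually.of_forall ?_
    intro ξ
    rw [norm_div, norm_one, norm_mul, one_div]
    have hpi : (1 : ℝ) ≤ 2 * Real.pi := by
      have := Real.pi_gt_three
      linarith
    have hb : ∀ c : ℝ, 1 ≤ c → Real.sqrt (1 + ξ ^ 2) ≤
        ‖((c : ℂ) + 2 * (Real.pi : ℂ) * Complex.I * ξ)‖ := by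
      intro c hc
      rw [Complex.norm_def]
      apply Real.sqrt_le_sqrt
      rw [Complex.normSq_apply]
      simp only [Complex.add_re, Complex.ofReal_re, Complex.mul_re, Complex.re_ofNat,
        Complex.im_ofNat, Complex.ofReal_im, mul_zero, sub_zero, Complex.I_re, Complex.mul_im,
        zero_mul, add_zero, Complex.I_im, mul_one, zero_add, Complex.add_im, sub_self]
      have h1 : ξ ^ 2 ≤ (2 * Real.pi * ξ) * (2 * Real.pi * ξ) := by
        have : ξ ^ 2 * 1 ≤ ξ ^ 2 * ((2 * Real.pi) * (2 * Real.pi)) := by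
          apply mul_le_mul_of_nonneg_left _ (sq_nonneg ξ)
          nlinarith
        nlinarith
      nlinarith
    have h1' := hb 1 le_rfl
    have h2' := hb 2 (by norm_num)
    push_cast at h1' h2'
    have hpos : 0 < 1 + ξ ^ 2 := by positivity
    apply inv_anti₀ hpos
    calc 1 + ξ ^ 2 = Real.sqrt (1 + ξ ^ 2) * Real.sqrt (1 + ξ ^ 2) :=
          (Real.mul_self_sqrt hpos.le).symm
      _ ≤ _ := mul_le_mul h1' h2' (Real.sqrt_nonneg _) (norm_nonneg _)

/-- MODULE KER1. The Fourier transform of the kernel `g(u) = e^(-u)(1 - e^(-u))` (`u ≥ 0`), `0` for `u < 0`: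
`g(u) = ∫ e^(2 pi i xi u) / ((1 + 2 pi i xi)(2 + 2 pi i xi)) dxi` for every real `u`.
HINT: `g` is continuous and integrable, its Fourier transform is computed by `integral_exp_mul_complex_Ioi`
(`1/(1+2πiξ) - 1/(2+2πiξ)`), it is integrable (`≤ 1/(1+ξ²)`), Fourier inversion
`MeasureTheory.Integrable.fourierInv_fourier_eq` / `Continuous.fourierInv_fourier_eq`. -/
theorem ker_inv (u : ℝ) :
    ∫ ξ : ℝ, Complex.exp (2 * Real.pi * Complex.I * ξ * u) /
      ((1 + 2 * Real.pi * Complex.I * ξ) * (2 + 2 * Real.pi * Complex.I * ξ)) =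
    if 0 ≤ u then ((Real.exp (-u) * (1 - Real.exp (-u)) : ℝ) : ℂ) else 0 := by
  have h := congrFun (Continuous.fourierInv_fourier_eq KER1_cont KER1_int KER1_fint) u
  rw [Real.fourierInv_eq'] at h
  have hg : KER1g u = if 0 ≤ u then ((Real.exp (-u) * (1 - Real.exp (-u)) : ℝ) : ℂ) else 0 := rfl
  rw [← hg, ← h]
  apply integral_congr_ae
  refine Filter.Eventually.of_forall ?_
  intro ξ
  simp only [KER1_four, smul_eq_mul]
  rw [div_eq_mul_one_div]
  congr 2
  simp only [RCLike.inner_apply, conj_trivial]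
  push_cast
  ring

end Pool.Agent.SWz
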