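import Mathlib

namespace Pool.Agent.SWz

/-- MODULE LOWCORE (real variables only). `f` is Lipschitz with constant `D` on `(0,1]` and
`f x ^ 4 V (2/x)^3 ≥ 1`. Then `f ≥ 1/(128 V D^3)` on all of `(0,1]`.
HINT: put `x0 := 1 / (128 * V * D ^ 4)` (so `x0 ≤ 1`). For `x ≥ x0`: `f x ^ 4 ≥ (x/2)^3 / V ≥ (x0/2)^3 / V`
`= (1/(256 V D^4))^3 / V = 1/(2^24 V^4 D^12) = (1/(64 V D^3))^4`, hence `f x ≥ 1/(64 V D^3)`
(`pow_le_pow_left₀` / `le_of_pow_le_pow_left₀`). For `x < x0`: `f x ≥ f x0 - D (x0 - x) ≥ 1/(64 V D^3) - D x0`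
`= 1/(64 V D^3) - 1/(128 V D^3)`. -/
theorem low_core (f : ℝ → ℝ) (V D : ℝ) (hV : 1 ≤ V) (hD : 1 ≤ D)
    (hf0 : ∀ x, 0 < x → x ≤ 1 → 0 ≤ f x)
    (hlip : ∀ x y, 0 < x → x ≤ y → y ≤ 1 → |f x - f y| ≤ D * (y - x))
    (h341 : ∀ x, 0 < x → x ≤ 1 → 1 ≤ (2 / x) ^ 3 * f x ^ 4 * V) :
    ∀ x, 0 < x → x ≤ 1 → 1 / (128 * V * D ^ 3) ≤ f x := by
  have hV0 : 0 < V := by linarith
  have hD0 : 0 < D := by linarith
  set x0 : ℝ := 1 / (128 * V * D ^ 4) with hx0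
  have hx0pos : 0 < x0 := by positivity
  have hx0le : x0 ≤ 1 := by
    rw [hx0, div_le_one (by positivity)]
    have : 1 ≤ D ^ 4 := one_le_pow₀ hD
    nlinarith
  have hbig : ∀ x, x0 ≤ x → x ≤ 1 → 1 / (64 * V * D ^ 3) ≤ f x := by
    intro x hx hx1
    have hxp : 0 < x := by linarith
    have h := h341 x hxp hx1
    have hf := hf0 x hxp hx1
    have h1 : (x / 2) ^ 3 / V ≤ f x ^ 4 := by
      have e : (2 / x) ^ 3 * f x ^ 4 * V = f x ^ 4 * V / (x / 2) ^ 3 := by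
        field_simp
      rw [e, le_div_iff₀ (by positivity), one_mul] at h
      rw [div_le_iff₀ hV0]
      exact h
    have h2 : (x0 / 2) ^ 3 / V ≤ (x / 2) ^ 3 / V := by gcongr
    have h3 : (x0 / 2) ^ 3 / V = (1 / (64 * V * D ^ 3)) ^ 4 := by
      rw [hx0]
      field_simp
      norm_num
    rw [h3] at h2
    exact le_of_pow_le_pow_left₀ (by norm_num) hf (h2.trans h1)
  intro x hx hx1
  have e1 : 1 / (128 * V * D ^ 3) = 1 / (64 * V * D ^ 3) - D * x0 := by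
    rw [hx0]
    field_simp
    norm_num
  rcases le_or_gt x0 x with h | h
  · have := hbig x h hx1
    have h2 : 0 ≤ D * x0 := by positivity
    linarith
  · have h1 := hbig x0 le_rfl hx0le
    have h2 := hlip x x0 hx h.le hx0le
    have h3 := (abs_le.mp h2).1
    have h4 : D * (x0 - x) ≤ D * x0 := by
      apply mul_le_mul_of_nonneg_left _ hD0.le
      linarith
    linarith

end Pool.Agent.SWz
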