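import Pool.Agent.SWz.Iface
import Pool.Agent.SWz.LowPt

namespace Pool.Agent.SWz

/-- MODULE LOWB (complex characters). -/
theorem lower_complex (hG : Growth) (hD : GrowthD) :
    ∀ δ : ℝ, 0 < δ → ∃ c : ℝ, 0 < c ∧ ∀ (q : ℕ) [NeZero q] (χ : DirichletCharacter ℂ q),
      χ ^ 2 ≠ 1 → ∀ s : ℂ, 1 < s.re → s.re ≤ 2 →
      c * ((q : ℝ) * (|s.im| + 2)) ^ (-δ) ≤ ‖χ.LFunction s‖ := by
  intro δ hδ
  obtain ⟨η, hη0, hη1, hη2⟩ : ∃ η : ℝ, 0 < η ∧ η ≤ δ / 14 ∧ η ≤ 1 / 8 :=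
    ⟨min (δ / 14) (1 / 8), by positivity, min_le_left _ _, min_le_right _ _⟩
  obtain ⟨C', hC'⟩ := hD η hη0 (by linarith)
  obtain ⟨C, hC1, hCC'⟩ : ∃ C : ℝ, 1 ≤ C ∧ C' ≤ C := ⟨max 1 C', le_max_left _ _, le_max_right _ _⟩
  obtain ⟨G', hG'⟩ := hG η hη0 (by linarith)
  obtain ⟨G, hG1, hGG'⟩ : ∃ C : ℝ, 1 ≤ C ∧ G' ≤ C := ⟨max 1 G', le_max_left _ _, le_max_right _ _⟩
  set K : ℝ := G * 2 ^ (2 * η) with hK
  have hK1 : 1 ≤ K :=
    one_le_mul_of_one_le_of_one_le hG1 (Real.one_le_rpow (by norm_num) (by positivity))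
  have hK0 : 0 < K := by linarith
  have hC0 : 0 < C := by linarith
  refine ⟨1 / (128 * K * C ^ 3), by positivity, ?_⟩
  intro q hq χ hχ2 s hs1 hs2
  have hχ : χ ≠ 1 := by
    intro h; apply hχ2; rw [h, one_pow]
  have hq1 : (1 : ℝ) ≤ q := by exact_mod_cast Nat.one_le_iff_ne_zero.2 (NeZero.ne q)
  have hq0 : (0 : ℝ) < q := by linarith
  set Q : ℝ := (q : ℝ) * (|s.im| + 2) with hQ
  have hqQ : (q : ℝ) ≤ Q := by
    rw [hQ]; nlinarith [abs_nonneg s.im]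
  have hQ1 : 1 ≤ Q := le_trans hq1 hqQ
  have hQ0 : 0 < Q := by linarith
  have hDD : 1 ≤ C * Q ^ (4 * η) :=
    one_le_mul_of_one_le_of_one_le hC1 (Real.one_le_rpow hQ1 (by positivity))
  have hVV : 1 ≤ K * Q ^ (2 * η) :=
    one_le_mul_of_one_le_of_one_le hK1 (Real.one_le_rpow hQ1 (by positivity))
  have hpt := low_point q χ s.im (K * Q ^ (2 * η)) (C * Q ^ (4 * η)) (Or.inl hχ) hVV hDD ?_ ?_
    (s.re - 1) (by linarith) (by linarith)
  · have hsx : (1 : ℂ) + ((s.re - 1 : ℝ) : ℂ) + (s.im : ℂ) * Complex.I = s := by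
      apply Complex.ext <;> simp
    rw [hsx] at hpt
    refine le_trans ?_ hpt
    have hexp : (K * Q ^ (2 * η)) * (C * Q ^ (4 * η)) ^ 3 = K * C ^ 3 * Q ^ (14 * η) := by
      rw [mul_pow, ← Real.rpow_natCast (Q ^ (4 * η)) 3, ← Real.rpow_mul hQ0.le]
      have : Q ^ (14 * η) = Q ^ (2 * η) * Q ^ (4 * η * ((3 : ℕ) : ℝ)) := by
        rw [← Real.rpow_add hQ0]; congr 1; push_cast; ring
      rw [this]; ring
    have hle : 1 / (128 * (K * Q ^ (2 * η)) * (C * Q ^ (4 * η)) ^ 3) =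
        1 / (128 * K * C ^ 3) * Q ^ (-(14 * η)) := by
      rw [mul_assoc 128 (K * Q ^ (2 * η)), hexp, Real.rpow_neg hQ0.le]
      field_simp
    rw [hle]
    exact mul_le_mul_of_nonneg_left
      (Real.rpow_le_rpow_of_exponent_le hQ1 (by linarith)) (by positivity)
  · intro x hx0 hx1
    have hre : ((1 : ℂ) + (x : ℂ) + (s.im : ℂ) * Complex.I).re = 1 + x := by simp
    have him : ((1 : ℂ) + (x : ℂ) + (s.im : ℂ) * Complex.I).im = s.im := by simp
    have h := hC' q χ hχ (1 + x + s.im * Complex.I) (by rw [hre]; linarith)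
      (by rw [hre]; linarith)
    rw [him] at h
    exact le_trans h (mul_le_mul_of_nonneg_right hCC' (by positivity))
  · intro x hx0 hx1
    have hre : ((1 : ℂ) + (x : ℂ) + 2 * (s.im : ℂ) * Complex.I).re = 1 + x := by simp
    have him : ((1 : ℂ) + (x : ℂ) + 2 * (s.im : ℂ) * Complex.I).im = 2 * s.im := by simp
    have h := hG' q (χ ^ 2) hχ2 (1 + x + 2 * s.im * Complex.I) (by rw [hre]; linarith)
      (by rw [hre]; linarith)
    rw [him, abs_mul, abs_two] at h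
    calc ‖(χ ^ 2).LFunction (1 + x + 2 * s.im * Complex.I)‖
        ≤ G' * ((q : ℝ) * (2 * |s.im| + 2)) ^ (2 * η) := h
      _ ≤ G * ((q : ℝ) * (2 * |s.im| + 2)) ^ (2 * η) :=
          mul_le_mul_of_nonneg_right hGG' (by positivity)
      _ ≤ G * (2 * Q) ^ (2 * η) := by
          apply mul_le_mul_of_nonneg_left _ (by linarith)
          apply Real.rpow_le_rpow (by positivity) _ (by positivity)
          rw [hQ]; nlinarith [abs_nonneg s.im]
      _ = K * Q ^ (2 * η) := by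
          rw [Real.mul_rpow (by norm_num) hQ0.le, hK]; ring

end Pool.Agent.SWz
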