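import Mathlib

/-! MP_3509fd_nt part C1 (Siegel-Walfisz): the Dirichlet series `ζ L(χ₁) L(χ₂) L(χ₁χ₂)`. -/

namespace Pool.Agent.SWz

open Complex
open scoped ComplexOrder

/-- The arithmetic function of a character. -/
noncomputable def af {q : ℕ} (χ : DirichletCharacter ℂ q) : ArithmeticFunction ℂ :=
  ⟨fun n => if n = 0 then 0 else χ (n : ZMod q), by simp⟩

/-- The product of two characters of levels `q₁`, `q₂` as a character of level `q₁ q₂`. -/
noncomputable def mulc {q₁ q₂ : ℕ} (χ₁ : DirichletCharacter ℂ q₁) (χ₂ : DirichletCharacter ℂ q₂) :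
    DirichletCharacter ℂ (q₁ * q₂) :=
  DirichletCharacter.changeLevel (Dvd.intro q₂ rfl) χ₁ *
    DirichletCharacter.changeLevel (Dvd.intro_left q₁ rfl) χ₂

/-- `mulc χ₁ χ₂` takes the value `χ₁(n) χ₂(n)` for every natural number `n`. -/
theorem mulc_apply {q₁ q₂ : ℕ} (χ₁ : DirichletCharacter ℂ q₁) (χ₂ : DirichletCharacter ℂ q₂)
    (n : ℕ) : mulc χ₁ χ₂ (n : ZMod (q₁ * q₂)) = χ₁ (n : ZMod q₁) * χ₂ (n : ZMod q₂) := by
  by_cases hn : Nat.Coprime n (q₁ * q₂)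
  · have hz : IsCoprime (n : ℤ) ((q₁ * q₂ : ℕ) : ℤ) := Nat.isCoprime_iff_coprime.mpr hn
    have h1 := DirichletCharacter.changeLevel_eq_cast_of_dvd' χ₁ (Dvd.intro q₂ rfl) hz
    have h2 := DirichletCharacter.changeLevel_eq_cast_of_dvd' χ₂ (Dvd.intro_left q₁ rfl) hz
    rw [mulc, MulChar.mul_apply]
    simp only [Int.cast_natCast] at h1 h2
    rw [h1, h2]
  · have h0 : ¬ IsUnit (n : ZMod (q₁ * q₂)) := by
      rw [ZMod.isUnit_iff_coprime]
      exact hn
    rw [MulChar.map_nonunit _ h0]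
    rw [Nat.coprime_mul_iff_right, not_and_or] at hn
    rcases hn with hn | hn
    · have h1 : ¬ IsUnit (n : ZMod q₁) := by
        rw [ZMod.isUnit_iff_coprime]
        exact hn
      rw [MulChar.map_nonunit _ h1, zero_mul]
    · have h1 : ¬ IsUnit (n : ZMod q₂) := by
        rw [ZMod.isUnit_iff_coprime]
        exact hn
      rw [MulChar.map_nonunit _ h1, mul_zero]

theorem mulc_sq {q₁ q₂ : ℕ} (χ₁ : DirichletCharacter ℂ q₁) (χ₂ : DirichletCharacter ℂ q₂)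
    (h₁ : χ₁ ^ 2 = 1) (h₂ : χ₂ ^ 2 = 1) : (mulc χ₁ χ₂) ^ 2 = 1 := by
  rw [mulc, mul_pow, ← map_pow, ← map_pow, h₁, h₂, map_one, map_one, one_mul]

/-- `f = 1 * χ`. -/
noncomputable def two {q : ℕ} (χ : DirichletCharacter ℂ q) : ArithmeticFunction ℂ :=
  (ArithmeticFunction.zeta : ArithmeticFunction ℂ) * af χ

/-- `f = 1 * χ₁ * χ₂ * χ₁χ₂`. -/
noncomputable def four {q₁ q₂ : ℕ} (χ₁ : DirichletCharacter ℂ q₁)
    (χ₂ : DirichletCharacter ℂ q₂) : ArithmeticFunction ℂ :=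
  (ArithmeticFunction.zeta : ArithmeticFunction ℂ) * af χ₁ * af χ₂ * af (mulc χ₁ χ₂)

namespace POSAAux

theorem af_eq {q : ℕ} (χ : DirichletCharacter ℂ q) : af χ = toArithmeticFunction (χ ·) := rfl

theorem af_one {q : ℕ} (χ : DirichletCharacter ℂ q) : af χ 1 = 1 := by
  have h : af χ 1 = χ ((1 : ℕ) : ZMod q) := rfl
  rw [h, Nat.cast_one, map_one]

theorem zeta_one : (ArithmeticFunction.zeta : ArithmeticFunction ℂ) 1 = 1 := by
  simp

theorem mul_one_apply (f g : ArithmeticFunction ℂ) : (f * g) 1 = f 1 * g 1 := by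
  simp [ArithmeticFunction.mul_apply]

theorem af_hasSum {q : ℕ} [NeZero q] (χ : DirichletCharacter ℂ q) {s : ℂ} (hs : 1 < s.re) :
    LSeriesHasSum (af χ ·) s (χ.LFunction s) := by
  have h1 : LSeriesHasSum (χ ·) s (LSeries (χ ·) s) :=
    (DirichletCharacter.LSeriesSummable_of_one_lt_re χ hs).LSeriesHasSum
  rw [← DirichletCharacter.LFunction_eq_LSeries χ hs] at h1
  refine (LSeriesHasSum_congr s (χ.LFunction s) (fun {n} hn => ?_)).1 h1
  change χ (n : ZMod q) = if n = 0 then 0 else χ (n : ZMod q)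
  rw [if_neg hn]

theorem zeta_hasSum {s : ℂ} (hs : 1 < s.re) :
    LSeriesHasSum ((ArithmeticFunction.zeta : ArithmeticFunction ℂ) ·) s (riemannZeta s) := by
  have h1 := ArithmeticFunction.LSeriesHasSum_zeta hs
  exact h1

end POSAAux

open POSAAux

theorem two_nonneg {q : ℕ} (χ : DirichletCharacter ℂ q) (h : χ ^ 2 = 1) (n : ℕ) :
    0 ≤ two χ n :=
  DirichletCharacter.zetaMul_nonneg h n

theorem two_one {q : ℕ} (χ : DirichletCharacter ℂ q) : two χ 1 = 1 := by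
  rw [two, mul_one_apply, zeta_one, af_one, one_mul]

theorem four_one {q₁ q₂ : ℕ} (χ₁ : DirichletCharacter ℂ q₁) (χ₂ : DirichletCharacter ℂ q₂) :
    four χ₁ χ₂ 1 = 1 := by
  rw [four, mul_one_apply, mul_one_apply, mul_one_apply, zeta_one, af_one, af_one, af_one, one_mul,
    one_mul, one_mul]

theorem two_lseries {q : ℕ} [NeZero q] (χ : DirichletCharacter ℂ q) (s : ℂ) (hs : 1 < s.re) :
    LSeriesSummable (two χ ·) s ∧ LSeries (two χ ·) s = riemannZeta s * χ.LFunction s := by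
  have h1 := ArithmeticFunction.LSeriesHasSum_mul (zeta_hasSum hs) (af_hasSum χ hs)
  exact ⟨h1.LSeriesSummable, h1.LSeries_eq⟩

theorem four_lseries {q₁ q₂ : ℕ} [NeZero q₁] [NeZero q₂] (χ₁ : DirichletCharacter ℂ q₁)
    (χ₂ : DirichletCharacter ℂ q₂) (s : ℂ) (hs : 1 < s.re) :
    LSeriesSummable (four χ₁ χ₂ ·) s ∧ LSeries (four χ₁ χ₂ ·) s =
      riemannZeta s * (χ₁.LFunction s * χ₂.LFunction s * (mulc χ₁ χ₂).LFunction s) := by
  have h1 := ArithmeticFunction.LSeriesHasSum_mul (ArithmeticFunction.LSeriesHasSum_mul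
    (ArithmeticFunction.LSeriesHasSum_mul (zeta_hasSum hs) (af_hasSum χ₁ hs)) (af_hasSum χ₂ hs))
    (af_hasSum (mulc χ₁ χ₂) hs)
  refine ⟨h1.LSeriesSummable, ?_⟩
  have h2 := h1.LSeries_eq
  have h3 : LSeries (four χ₁ χ₂ ·) s = riemannZeta s * χ₁.LFunction s * χ₂.LFunction s *
    (mulc χ₁ χ₂).LFunction s := h2
  rw [h3]
  ring

end Pool.Agent.SWz
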