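import Mathlib

namespace Pool.Agent.SWz

/-- summatory function bounded trivially -/
lemma Tau1_triv (b : ℕ → ℂ) (P : ℝ) (N : ℕ) (h : ∀ n ∈ Finset.Icc 1 N, ‖b n‖ ≤ P) :
    ‖∑ n ∈ Finset.Icc 1 N, b n‖ ≤ N * P := by
  refine (norm_sum_le _ _).trans ((Finset.sum_le_sum h).trans ?_)
  simp

/-- the difference of two Riesz means -/
lemma Tau1_diff (b : ℕ → ℂ) (W P x h : ℝ) (hx : 1 ≤ x) (hh : 0 < h) (hhx : h ≤ x)
    (hP : 0 ≤ P) (hb : ∀ n : ℕ, 1 ≤ n → (n : ℝ) ≤ 2 * x → ‖b n‖ ≤ P) (hW : 0 ≤ W)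
    (hR : ∀ x : ℝ, 1 ≤ x → ‖∑ n ∈ Finset.Icc 1 ⌊x⌋₊, b n * (1 - (n : ℂ) / x)‖ ≤ W * x) :
    ‖∑ n ∈ Finset.Icc 1 ⌊x⌋₊, b n‖ ≤ 5 * W * x ^ 2 / h + (h + 1) * P := by
  have hx0 : 0 < x := by linarith
  -- Riesz means
  have hR' : ∀ y : ℝ, 1 ≤ y → ‖∑ n ∈ Finset.Icc 1 ⌊y⌋₊, b n * ((y : ℂ) - n)‖ ≤ W * y ^ 2 := by
    intro y hy
    have hy0 : (y : ℂ) ≠ 0 := by
      have : y ≠ 0 := by linarith
      exact_mod_cast this
    have h1 : ∑ n ∈ Finset.Icc 1 ⌊y⌋₊, b n * ((y : ℂ) - n) =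
        y * ∑ n ∈ Finset.Icc 1 ⌊y⌋₊, b n * (1 - (n : ℂ) / y) := by
      rw [Finset.mul_sum]
      refine Finset.sum_congr rfl (fun n _ => ?_)
      field_simp
    rw [h1, norm_mul, Complex.norm_real, Real.norm_eq_abs, abs_of_nonneg (by linarith)]
    have := mul_le_mul_of_nonneg_left (hR y hy) (by linarith : (0:ℝ) ≤ y)
    nlinarith [this]
  have hfl : ⌊x⌋₊ ≤ ⌊x + h⌋₊ := Nat.floor_le_floor (by linarith)
  have hsplit : ∑ n ∈ Finset.Icc 1 ⌊x + h⌋₊, b n * (((x + h : ℝ) : ℂ) - n) =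
      ∑ n ∈ Finset.Icc 1 ⌊x⌋₊, b n * (((x + h : ℝ) : ℂ) - n) +
      ∑ n ∈ Finset.Ioc ⌊x⌋₊ ⌊x + h⌋₊, b n * (((x + h : ℝ) : ℂ) - n) := by
    have e1 : Finset.Icc 1 ⌊x + h⌋₊ = Finset.Ioc 0 ⌊x + h⌋₊ := by ext; simp; omega
    have e2 : Finset.Icc 1 ⌊x⌋₊ = Finset.Ioc 0 ⌊x⌋₊ := by ext; simp; omega
    rw [e1, e2, Finset.sum_Ioc_consecutive _ (Nat.zero_le _) hfl]
  have hkey : (h : ℂ) * ∑ n ∈ Finset.Icc 1 ⌊x⌋₊, b n =
      ∑ n ∈ Finset.Icc 1 ⌊x + h⌋₊, b n * (((x + h : ℝ) : ℂ) - n) -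
      ∑ n ∈ Finset.Icc 1 ⌊x⌋₊, b n * ((x : ℂ) - n) -
      ∑ n ∈ Finset.Ioc ⌊x⌋₊ ⌊x + h⌋₊, b n * (((x + h : ℝ) : ℂ) - n) := by
    rw [hsplit, Finset.mul_sum]
    have : ∑ n ∈ Finset.Icc 1 ⌊x⌋₊, b n * (((x + h : ℝ) : ℂ) - n) =
        ∑ n ∈ Finset.Icc 1 ⌊x⌋₊, (h : ℂ) * b n + ∑ n ∈ Finset.Icc 1 ⌊x⌋₊, b n * ((x : ℂ) - n) := by
      rw [← Finset.sum_add_distrib]
      refine Finset.sum_congr rfl (fun n _ => ?_)
      push_cast; ring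
    rw [this]; ring
  have htail : ‖∑ n ∈ Finset.Ioc ⌊x⌋₊ ⌊x + h⌋₊, b n * (((x + h : ℝ) : ℂ) - n)‖ ≤
      (h + 1) * (P * h) := by
    have hterm : ∀ n ∈ Finset.Ioc ⌊x⌋₊ ⌊x + h⌋₊, ‖b n * (((x + h : ℝ) : ℂ) - n)‖ ≤ P * h := by
      intro n hn
      rw [Finset.mem_Ioc] at hn
      have h1 : x < n := (Nat.floor_lt hx0.le).1 hn.1
      have h2 : (n : ℝ) ≤ x + h := (Nat.le_floor_iff (by linarith)).1 hn.2
      have h3 : 1 ≤ n := by omega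
      rw [norm_mul]
      have h4 : ‖((x + h : ℝ) : ℂ) - n‖ ≤ h := by
        have : ((x + h : ℝ) : ℂ) - n = ((x + h - n : ℝ) : ℂ) := by push_cast; ring
        rw [this, Complex.norm_real, Real.norm_eq_abs, abs_of_nonneg (by linarith)]
        linarith
      exact mul_le_mul (hb n h3 (by linarith)) h4 (norm_nonneg _) hP
    refine (norm_sum_le _ _).trans ((Finset.sum_le_sum hterm).trans ?_)
    rw [Finset.sum_const, nsmul_eq_mul, Nat.card_Ioc]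
    refine mul_le_mul_of_nonneg_right ?_ (mul_nonneg hP hh.le)
    rw [Nat.cast_sub hfl]
    have h1 : (⌊x + h⌋₊ : ℝ) ≤ x + h := Nat.floor_le (by linarith)
    have h2 : x < ⌊x⌋₊ + 1 := Nat.lt_floor_add_one x
    linarith
  have hn := congrArg norm hkey
  rw [norm_mul, Complex.norm_real, Real.norm_eq_abs, abs_of_pos hh] at hn
  have h1 := norm_sub_le (∑ n ∈ Finset.Icc 1 ⌊x + h⌋₊, b n * (((x + h : ℝ) : ℂ) - n) -
      ∑ n ∈ Finset.Icc 1 ⌊x⌋₊, b n * ((x : ℂ) - n))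
      (∑ n ∈ Finset.Ioc ⌊x⌋₊ ⌊x + h⌋₊, b n * (((x + h : ℝ) : ℂ) - n))
  have h2 := norm_sub_le (∑ n ∈ Finset.Icc 1 ⌊x + h⌋₊, b n * (((x + h : ℝ) : ℂ) - n))
      (∑ n ∈ Finset.Icc 1 ⌊x⌋₊, b n * ((x : ℂ) - n))
  have h3 := hR' (x + h) (by linarith)
  have h4 := hR' x hx
  have h5 : (x + h) ^ 2 ≤ 4 * x ^ 2 := by nlinarith
  have h6 : W * (x + h) ^ 2 ≤ W * (4 * x ^ 2) := mul_le_mul_of_nonneg_left h5 hW
  have h7 : h * ‖∑ n ∈ Finset.Icc 1 ⌊x⌋₊, b n‖ ≤ 5 * W * x ^ 2 + (h + 1) * (P * h) := by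
    linarith
  have h8 : 5 * W * x ^ 2 / h + (h + 1) * P = (5 * W * x ^ 2 + (h + 1) * (P * h)) / h := by
    field_simp
  rw [h8, le_div_iff₀ hh]
  linarith

/-- MODULE TAU1 (unsmoothing). `b` with `‖b n‖ ≤ (1 + log n)^(k+1)` and `‖∑_(n≤x) b n (1 - n/x)‖ ≤ W x` for all `x ≥ 1`.
HINT: `R(x) = ∑_(n ≤ x) b n (x - n)`, `‖R(x)‖ ≤ W x^2`. For `0 < h ≤ x`:
`R(x+h) - R(x) = h S(x) + ∑_(x<n≤x+h) b n (x+h-n)`, so with `ℓ = 1 + log (2x)`: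
`‖S(x)‖ ≤ 5 W x^2/h + (h+1) ℓ^(k+1)`. If `W ≤ ℓ^(k+1)` take `h = x √W ℓ^(-(k+1)/2) ≤ x`:
`‖S‖ ≤ 6 x √W ℓ^((k+1)/2) + ℓ^(k+1)`; the last term is `≤ C_k x √W ℓ^((k+1)/2)` because `W ≥ 1` and
`ℓ^((k+1)/2) ≤ C_k x`. If `W > ℓ^(k+1)`: trivial bound `‖S‖ ≤ x ℓ^(k+1) ≤ x √W ℓ^((k+1)/2)`. -/
theorem tau1 (k : ℕ) : ∃ C : ℝ, 0 < C ∧ ∀ (b : ℕ → ℂ) (W : ℝ), 1 ≤ W →
    (∀ n : ℕ, 1 ≤ n → ‖b n‖ ≤ (1 + Real.log n) ^ (k + 1)) →
    (∀ x : ℝ, 1 ≤ x → ‖∑ n ∈ Finset.Icc 1 ⌊x⌋₊, b n * (1 - (n : ℂ) / x)‖ ≤ W * x) →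
    ∀ x : ℝ, 1 ≤ x → ‖∑ n ∈ Finset.Icc 1 ⌊x⌋₊, b n‖ ≤
      C * √W * x * (1 + Real.log (2 * x)) ^ ((k + 1 : ℝ) / 2) := by
  set D : ℝ := 6 * (k + 1).factorial with hD
  have hD1 : 1 ≤ D := by
    have : (1 : ℝ) ≤ (k + 1).factorial := by exact_mod_cast Nat.one_le_iff_ne_zero.2 (Nat.factorial_ne_zero _)
    linarith
  refine ⟨6 + D, by linarith, fun b W hW hb hR x hx => ?_⟩
  have hx0 : 0 < x := by linarith
  set l : ℝ := 1 + Real.log (2 * x) with hl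
  have hlog : 0 ≤ Real.log (2 * x) := Real.log_nonneg (by linarith)
  have hl1 : 1 ≤ l := by linarith
  set P : ℝ := l ^ (k + 1) with hPdef
  have hP1 : 1 ≤ P := one_le_pow₀ hl1
  have hP0 : 0 ≤ P := by linarith
  have hsq : l ^ ((k + 1 : ℝ) / 2) = √P := by
    rw [Real.sqrt_eq_rpow, hPdef, ← Real.rpow_natCast, ← Real.rpow_mul (by linarith)]
    congr 1
    push_cast
    ring
  rw [hsq]
  have hbP : ∀ n : ℕ, 1 ≤ n → (n : ℝ) ≤ 2 * x → ‖b n‖ ≤ P := by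
    intro n hn hn2
    refine (hb n hn).trans ?_
    have hn1 : (1 : ℝ) ≤ n := by exact_mod_cast hn
    have h1 : Real.log n ≤ Real.log (2 * x) := Real.log_le_log (by linarith) hn2
    have h0 : 0 ≤ Real.log n := Real.log_nonneg hn1
    exact pow_le_pow_left₀ (by linarith) (by linarith) _
  have hsW : 1 ≤ √W := by rw [Real.one_le_sqrt]; exact hW
  have hsP : 1 ≤ √P := by rw [Real.one_le_sqrt]; exact hP1
  have hWW : √W * √W = W := Real.mul_self_sqrt (by linarith)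
  have hPP : √P * √P = P := Real.mul_self_sqrt hP0
  rcases le_or_gt W P with hWP | hWP
  · have hsWP : √W ≤ √P := Real.sqrt_le_sqrt hWP
    set h : ℝ := x * √W / √P with hh
    have hsP0 : 0 < √P := by linarith
    have hh0 : 0 < h := by positivity
    have hhx : h ≤ x := by
      rw [hh, div_le_iff₀ hsP0]
      exact mul_le_mul_of_nonneg_left hsWP hx0.le
    have hmain := Tau1_diff b W P x h hx hh0 hhx hP0 hbP (by linarith) hR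
    have e1 : 5 * W * x ^ 2 / h = 5 * (x * √W * √P) := by
      rw [hh]
      field_simp
      nlinarith [hWW, hPP]
    have e2 : h * P = x * √W * √P := by
      calc h * P = x * √W / √P * (√P * √P) := by rw [hPP]
        _ = x * √W * √P := by field_simp
    have hPD : P ≤ D * x := by
      have h1 := Real.pow_div_factorial_le_exp l (by linarith) (k + 1)
      have h2 : Real.exp l = Real.exp 1 * (2 * x) := by
        rw [hl, Real.exp_add, Real.exp_log (by linarith)]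
      have h3 : Real.exp 1 < 3 := Real.exp_one_lt_three
      have hf : (0 : ℝ) < (k + 1).factorial := by exact_mod_cast Nat.factorial_pos _
      rw [div_le_iff₀ hf, h2] at h1
      rw [hPdef, hD]
      have h4 : Real.exp 1 * (2 * x) ≤ 6 * x := by nlinarith
      nlinarith [mul_le_mul_of_nonneg_right h4 hf.le]
    have hsPD : √P ≤ D * x := by
      have : √P ≤ √P * √P := by nlinarith
      linarith
    have e3 : P ≤ D * (x * √W * √P) := by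
      have h1 : √P * √P ≤ √P * (D * x) := mul_le_mul_of_nonneg_left hsPD hsP0.le
      have h2 : √P * (D * x) ≤ √P * (D * x) * √W := by
        have : 0 ≤ √P * (D * x) := by positivity
        nlinarith
      rw [hPP] at h1
      nlinarith
    calc _ ≤ _ := hmain
      _ = 5 * (x * √W * √P) + (x * √W * √P + P) := by rw [e1, add_mul, one_mul, e2]
      _ ≤ 6 * (x * √W * √P) + D * (x * √W * √P) := by linarith
      _ = (6 + D) * √W * x * √P := by ring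
  · have hsWP : √P ≤ √W := Real.sqrt_le_sqrt hWP.le
    have h1 := Tau1_triv b P ⌊x⌋₊ (fun n hn => by
      rw [Finset.mem_Icc] at hn
      have : (n : ℝ) ≤ x := (Nat.le_floor_iff hx0.le).1 hn.2
      exact hbP n hn.1 (by linarith))
    have h2 : (⌊x⌋₊ : ℝ) ≤ x := Nat.floor_le hx0.le
    have h3 : (⌊x⌋₊ : ℝ) * P ≤ x * P := mul_le_mul_of_nonneg_right h2 hP0
    have h4 : x * P ≤ x * (√W * √P) := by
      have h40 : √P * √P ≤ √W * √P := mul_le_mul_of_nonneg_right hsWP (Real.sqrt_nonneg _)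
      rw [hPP] at h40
      exact mul_le_mul_of_nonneg_left h40 hx0.le
    have h5 : 0 ≤ x * (√W * √P) := by positivity
    nlinarith

end Pool.Agent.SWz
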