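import Pool.Agent.SWz.Iface

namespace Pool.Agent.SWz

/-- MODULE ZDER. Growth of `zeta'` for `|t| ≥ 1` by Cauchy from `ZGrow` (radius `ε ≤ 1/8`). -/
theorem zgrowD (hZ : ZGrow) :
    ∀ ε : ℝ, 0 < ε → ε ≤ 1 / 8 → ∃ C : ℝ, ∀ s : ℂ, 1 - ε ≤ s.re → s.re ≤ 5 / 2 → 1 / 2 ≤ |s.im| →
      ‖deriv riemannZeta s‖ ≤ C * (|s.im| + 2) ^ (4 * ε) := by
  intro ε hε hε8
  obtain ⟨C, hC⟩ := hZ (2 * ε) (by linarith) (by linarith)
  refine ⟨(|C| * 4 * 2) / ε, ?_⟩
  intro s hs1 hs2 hs3
  have hball : ∀ z ∈ Metric.closedBall s ε, 3 / 8 ≤ |z.im| ∧ |z.im| ≤ |s.im| + 1 / 8 ∧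
      1 - 2 * ε ≤ z.re ∧ z.re ≤ 3 := by
    intro z hz
    rw [Metric.mem_closedBall, Complex.dist_eq] at hz
    have h1 : |(z - s).im| ≤ ε := (Complex.abs_im_le_norm _).trans hz
    have h2 : |(z - s).re| ≤ ε := (Complex.abs_re_le_norm _).trans hz
    rw [Complex.sub_im] at h1
    rw [Complex.sub_re, abs_le] at h2
    have h3 : |s.im| - |z.im| ≤ |z.im - s.im| := by
      rw [abs_sub_comm]
      exact abs_sub_abs_le_abs_sub _ _
    have h4 : |z.im| - |s.im| ≤ |z.im - s.im| := abs_sub_abs_le_abs_sub _ _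
    refine ⟨by linarith, by linarith, by linarith [h2.1], by linarith [h2.2]⟩
  have hd : DiffContOnCl ℂ riemannZeta (Metric.ball s ε) := by
    apply DifferentiableOn.diffContOnCl
    rw [closure_ball s hε.ne']
    intro z hz
    apply DifferentiableAt.differentiableWithinAt
    apply differentiableAt_riemannZeta
    intro h
    have := (hball z hz).1
    rw [h] at this
    norm_num at this
  have hbd : ∀ z ∈ Metric.sphere s ε, ‖riemannZeta z‖ ≤ |C| * 4 * 2 * (|s.im| + 2) ^ (4 * ε) := by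
    intro z hz
    obtain ⟨h1, h2, h3, h4⟩ := hball z (Metric.sphere_subset_closedBall hz)
    have hne : z.im ≠ 0 := by
      intro h
      rw [h] at h1
      norm_num at h1
    have hzpos : 0 < |z.im| := abs_pos.mpr hne
    refine (hC z (by linarith) h4 hne).trans ?_
    have e1 : (2 : ℝ) * (2 * ε) = 4 * ε := by ring
    rw [e1]
    have hT : (2 : ℝ) ≤ |s.im| + 2 := by
      have := abs_nonneg s.im
      linarith
    have h5 : (|z.im| + 2) ^ (4 * ε) ≤ 2 * (|s.im| + 2) ^ (4 * ε) := by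
      calc (|z.im| + 2) ^ (4 * ε) ≤ (2 * (|s.im| + 2)) ^ (4 * ε) := by
            apply Real.rpow_le_rpow (by positivity) (by linarith) (by linarith)
        _ = 2 ^ (4 * ε) * (|s.im| + 2) ^ (4 * ε) := Real.mul_rpow (by norm_num) (by linarith)
        _ ≤ 2 * (|s.im| + 2) ^ (4 * ε) := by
            apply mul_le_mul_of_nonneg_right _ (by positivity)
            calc (2 : ℝ) ^ (4 * ε) ≤ 2 ^ (1 : ℝ) :=
                  Real.rpow_le_rpow_of_exponent_le (by norm_num) (by linarith)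
              _ = 2 := Real.rpow_one 2
    have h6 : 1 + 1 / |z.im| ≤ 4 := by
      have : 1 / |z.im| ≤ 1 / (3 / 8) := one_div_le_one_div_of_le (by norm_num) h1
      have h7 : (1 : ℝ) / (3 / 8) = 8 / 3 := by norm_num
      rw [h7] at this
      linarith
    calc C * (1 + 1 / |z.im|) * (|z.im| + 2) ^ (4 * ε)
        ≤ |C| * (1 + 1 / |z.im|) * (|z.im| + 2) ^ (4 * ε) := by
          gcongr
          exact le_abs_self C
      _ ≤ |C| * 4 * (2 * (|s.im| + 2) ^ (4 * ε)) := by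
          gcongr
      _ = |C| * 4 * 2 * (|s.im| + 2) ^ (4 * ε) := by ring
  have h := Complex.norm_deriv_le_of_forall_mem_sphere_norm_le hε hd hbd
  refine h.trans (le_of_eq ?_)
  ring

end Pool.Agent.SWz
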