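import Pool.Agent.SWz.Iface
import Pool.Agent.SWz.ZGrowD
import Pool.Agent.SWz.LowPt

namespace Pool.Agent.SWz

/-- MODULE ZLOW. HINT: `low_point` with `q = 1`, `χ = 1` (`DirichletCharacter.LFunction_modOne_eq`), `t ≠ 0`,
`D = max 1 (C T^..)`, `V = max 1 (C T^..)`. -/
theorem zlow (hZ : ZGrow) :
    ∀ δ : ℝ, 0 < δ → ∃ c : ℝ, 0 < c ∧ ∀ s : ℂ, 1 < s.re → s.re ≤ 2 → 1 ≤ |s.im| →
      c * (|s.im| + 2) ^ (-δ) ≤ ‖riemannZeta s‖ := by
  intro δ hδ
  set ε : ℝ := min (δ / 14) (1 / 8) with hεdef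
  have hε : 0 < ε := lt_min (by linarith) (by norm_num)
  have hε1 : 14 * ε ≤ δ := by
    have : ε ≤ δ / 14 := min_le_left _ _
    linarith
  have hε2 : ε ≤ 1 / 8 := min_le_right _ _
  obtain ⟨C1, hC1⟩ := zgrowD hZ ε hε hε2
  obtain ⟨C2, hC2⟩ := hZ ε hε (by linarith)
  set a : ℝ := 1 + |C1| with ha
  set b : ℝ := 1 + 2 * |C2| * 2 ^ (2 * ε) with hb
  have ha1 : 1 ≤ a := by rw [ha]; linarith [abs_nonneg C1]
  have hb1 : 1 ≤ b := by
    have : 0 ≤ 2 * |C2| * (2 : ℝ) ^ (2 * ε) := by positivity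
    rw [hb]; linarith
  refine ⟨1 / (128 * b * a ^ 3), by positivity, ?_⟩
  intro s hs1 hs2 him
  set T : ℝ := |s.im| + 2 with hT
  have hT1 : 1 ≤ T := by rw [hT]; linarith
  have hT0 : 0 < T := by linarith
  have him0 : s.im ≠ 0 := by
    intro h0
    rw [h0, abs_zero] at him
    linarith
  have hTe : ∀ r : ℝ, 0 ≤ r → 1 ≤ T ^ r := fun r hr => Real.one_le_rpow hT1 hr
  have hfun : ∀ χ : DirichletCharacter ℂ 1, χ.LFunction = riemannZeta :=
    fun χ => DirichletCharacter.LFunction_modOne_eq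
  have key := low_point 1 (1 : DirichletCharacter ℂ 1) s.im (b * T ^ (2 * ε)) (a * T ^ (4 * ε))
    (Or.inr him0) (one_le_mul_of_one_le_of_one_le hb1 (hTe _ (by linarith)))
    (one_le_mul_of_one_le_of_one_le ha1 (hTe _ (by linarith)))
    (by
      intro x hx0 hx1
      rw [hfun]
      have hre : (1 + (x : ℂ) + s.im * Complex.I).re = 1 + x := by simp
      have himm : (1 + (x : ℂ) + s.im * Complex.I).im = s.im := by simp
      have h := hC1 (1 + (x : ℂ) + s.im * Complex.I) (by rw [hre]; linarith)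
        (by rw [hre]; linarith) (by rw [himm]; linarith)
      rw [himm] at h
      refine h.trans ?_
      have hp : 0 ≤ T ^ (4 * ε) := (Real.rpow_pos_of_pos hT0 _).le
      apply mul_le_mul_of_nonneg_right _ hp
      rw [ha]
      linarith [le_abs_self C1])
    (by
      intro x hx0 hx1
      rw [hfun]
      have hre : (1 + (x : ℂ) + 2 * s.im * Complex.I).re = 1 + x := by simp
      have himm : (1 + (x : ℂ) + 2 * s.im * Complex.I).im = 2 * s.im := by simp
      have h := hC2 (1 + (x : ℂ) + 2 * s.im * Complex.I) (by rw [hre]; linarith)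
        (by rw [hre]; linarith) (by rw [himm]; exact mul_ne_zero two_ne_zero him0)
      rw [himm] at h
      refine h.trans ?_
      have e0 : |2 * s.im| = 2 * |s.im| := by rw [abs_mul, abs_two]
      rw [e0]
      have e1 : 1 + 1 / (2 * |s.im|) ≤ 2 := by
        have : 1 / (2 * |s.im|) ≤ 1 := by
          rw [div_le_one (by linarith)]
          linarith
        linarith
      have e2 : 2 * |s.im| + 2 ≤ 2 * T := by rw [hT]; linarith
      have e3 : 0 ≤ 1 + 1 / (2 * |s.im|) := by positivity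
      have e4 : (0 : ℝ) ≤ 2 * |s.im| + 2 := by positivity
      calc C2 * (1 + 1 / (2 * |s.im|)) * (2 * |s.im| + 2) ^ (2 * ε)
          ≤ |C2| * (1 + 1 / (2 * |s.im|)) * (2 * |s.im| + 2) ^ (2 * ε) := by
            gcongr
            exact le_abs_self C2
        _ ≤ |C2| * 2 * (2 * T) ^ (2 * ε) := by gcongr
        _ = 2 * |C2| * 2 ^ (2 * ε) * T ^ (2 * ε) := by
            rw [Real.mul_rpow (by norm_num) hT0.le]; ring
        _ ≤ b * T ^ (2 * ε) := by
            apply mul_le_mul_of_nonneg_right _ (Real.rpow_pos_of_pos hT0 _).le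
            rw [hb]; linarith)
    (s.re - 1) (by linarith) (by linarith)
  rw [hfun] at key
  have hsform : (1 : ℂ) + ((s.re - 1 : ℝ) : ℂ) + s.im * Complex.I = s := by
    apply Complex.ext <;> simp
  rw [hsform] at key
  refine le_trans ?_ key
  have h4 : T ^ (2 * ε) * (T ^ (4 * ε)) ^ 3 = T ^ (14 * ε) := by
    rw [← Real.rpow_natCast (T ^ (4 * ε)) 3, ← Real.rpow_mul hT0.le, ← Real.rpow_add hT0]
    congr 1
    push_cast
    ring
  have h5 : 128 * (b * T ^ (2 * ε)) * (a * T ^ (4 * ε)) ^ 3 = 128 * b * a ^ 3 * T ^ (14 * ε) := by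
    rw [← h4]; ring
  have h6 : 1 / (128 * b * a ^ 3 * T ^ (14 * ε)) = 1 / (128 * b * a ^ 3) * T ^ (-(14 * ε)) := by
    rw [Real.rpow_neg hT0.le]
    have : T ^ (14 * ε) ≠ 0 := (Real.rpow_pos_of_pos hT0 _).ne'
    field_simp
  rw [h5, h6]
  apply mul_le_mul_of_nonneg_left _ (by positivity)
  exact Real.rpow_le_rpow_of_exponent_le hT1 (by linarith)

end Pool.Agent.SWz
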