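import Pool.Agent.SWz.Iface
import Pool.Agent.SWz.ZGrowD
import Pool.Agent.SWz.ZLow
import Pool.Agent.SWz.InvCore

namespace Pool.Agent.SWz

lemma ZINV_ball {s z : ℂ} {ε : ℝ} (hz : z ∈ Metric.ball s ε) :
    |z.re - s.re| < ε ∧ |z.im - s.im| < ε := by
  have h : ‖z - s‖ < ε := by
    have := Metric.mem_ball.1 hz
    rwa [dist_eq_norm] at this
  constructor
  · refine lt_of_le_of_lt ?_ h
    have := Complex.abs_re_le_norm (z - s)
    rwa [Complex.sub_re] at this
  · refine lt_of_le_of_lt ?_ h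
    have := Complex.abs_im_le_norm (z - s)
    rwa [Complex.sub_im] at this

/-- MODULE ZINV. HINT: `inv_core` with `L = zeta` on the ball of radius `ε ≤ 1/8` (avoids `s = 1`), and Cauchy for the
derivatives of zeta itself. -/
theorem zinv (hZ : ZGrow) (k : ℕ) :
    ∃ C : ℝ, ∀ s : ℂ, 1 < s.re → s.re ≤ 2 → 1 ≤ |s.im| →
      ‖iteratedDeriv k (fun z => (riemannZeta z)⁻¹) s‖ ≤ C * (|s.im| + 2) ^ (1 / 2 : ℝ) ∧
      ‖iteratedDeriv k (fun z => deriv riemannZeta z / riemannZeta z + riemannZeta z) s‖ ≤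
        C * (|s.im| + 2) ^ (1 / 2 : ℝ) := by
  set δ : ℝ := 1 / (4 * (k + 1)) with hδ
  have hk1 : (1 : ℝ) ≤ (k : ℝ) + 1 := by
    have : (0 : ℝ) ≤ k := Nat.cast_nonneg k
    linarith
  have hδ0 : 0 < δ := by positivity
  have hδ1 : δ ≤ 1 / 4 := by
    rw [hδ]
    apply one_div_le_one_div_of_le (by norm_num); linarith
  have hδk : δ * (2 * k + 2) = 1 / 2 := by
    rw [hδ]; field_simp; norm_num
  set ε : ℝ := δ / 4 with hε
  have hε0 : 0 < ε := by positivity
  have hε1 : ε ≤ 1 / 16 := by rw [hε]; linarith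
  obtain ⟨C1, hC1⟩ := zgrowD hZ ε hε0 (by linarith)
  obtain ⟨c, hc, hlow⟩ := zlow hZ δ hδ0
  obtain ⟨C2, hC2⟩ := hZ ε hε0 (by linarith)
  set D0 : ℝ := max (2 * max C1 1) (c / (2 * ε)) with hD0
  have hD01 : 2 * max C1 1 ≤ D0 := le_max_left _ _
  have hD02 : c / (2 * ε) ≤ D0 := le_max_right _ _
  have hmax1 : (1 : ℝ) ≤ max C1 1 := le_max_right _ _
  have hD0pos : 0 < D0 := by linarith
  set A1 : ℝ := k.factorial * (2 / c) * (4 * D0 / c) ^ k with hA1
  set A2 : ℝ := k.factorial * (2 * D0 / c) * (4 * D0 / c) ^ k with hA2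
  set A3 : ℝ := k.factorial * (6 * max C2 1) / (ε / 2) ^ k with hA3
  have hA1n : 0 ≤ A1 := by positivity
  have hA2n : 0 ≤ A2 := by positivity
  have hA3n : 0 ≤ A3 := by
    have : (1 : ℝ) ≤ max C2 1 := le_max_right _ _
    positivity
  refine ⟨A1 + A2 + A3, ?_⟩
  intro s hs1 hs2 him
  set T : ℝ := |s.im| + 2 with hT
  have hT3 : 3 ≤ T := by linarith
  have hT0 : 0 < T := by linarith
  have hT1 : 1 ≤ T := by linarith
  -- facts on the ball
  have hball : ∀ z ∈ Metric.ball s ε, 1 - ε ≤ z.re ∧ z.re ≤ 5 / 2 ∧ 1 / 2 ≤ |z.im| ∧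
      |z.im| + 2 ≤ 2 * T ∧ z ≠ 1 := by
    intro z hz
    obtain ⟨h1, h2⟩ := ZINV_ball hz
    have h1' := abs_lt.1 h1
    have h3 : |z.im| ≤ |s.im| + |z.im - s.im| := by
      have : z.im = s.im + (z.im - s.im) := by ring
      calc |z.im| = |s.im + (z.im - s.im)| := by rw [← this]
        _ ≤ _ := abs_add_le _ _
    have h4 : |s.im| ≤ |z.im| + |z.im - s.im| := by
      have : s.im = z.im - (z.im - s.im) := by ring
      calc |s.im| = |z.im - (z.im - s.im)| := by rw [← this]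
        _ ≤ _ := abs_sub _ _
    refine ⟨by linarith, by linarith, by linarith, by linarith, ?_⟩
    intro h
    rw [h] at h4 h2
    simp only [Complex.one_im, abs_zero, zero_sub, abs_neg] at h4 h2
    linarith
  have hdiff : DifferentiableOn ℂ riemannZeta (Metric.ball s ε) := fun z hz =>
    (differentiableAt_riemannZeta (hball z hz).2.2.2.2).differentiableWithinAt
  have h2pow : (2 : ℝ) ^ (4 * ε) ≤ 2 := by
    calc (2 : ℝ) ^ (4 * ε) ≤ (2 : ℝ) ^ (1 : ℝ) :=
          Real.rpow_le_rpow_of_exponent_le (by norm_num) (by linarith)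
      _ = 2 := Real.rpow_one _
  have hd : ∀ z ∈ Metric.ball s ε, ‖deriv riemannZeta z‖ ≤ D0 * T ^ δ := by
    intro z hz
    obtain ⟨h1, h2, h3, h4, -⟩ := hball z hz
    have hz0 : 0 < |z.im| + 2 := by positivity
    calc ‖deriv riemannZeta z‖ ≤ C1 * (|z.im| + 2) ^ (4 * ε) := hC1 z h1 h2 h3
      _ ≤ max C1 1 * (|z.im| + 2) ^ (4 * ε) :=
          mul_le_mul_of_nonneg_right (le_max_left _ _) (by positivity)
      _ ≤ max C1 1 * (2 * T) ^ (4 * ε) :=
          mul_le_mul_of_nonneg_left (Real.rpow_le_rpow hz0.le h4 (by positivity)) (by positivity)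
      _ = max C1 1 * (2 ^ (4 * ε) * T ^ δ) := by
          rw [Real.mul_rpow (by norm_num) hT0.le]
          congr 3
          rw [hε]; ring
      _ ≤ max C1 1 * (2 * T ^ δ) :=
          mul_le_mul_of_nonneg_left (mul_le_mul_of_nonneg_right h2pow (by positivity)) (by positivity)
      _ = (2 * max C1 1) * T ^ δ := by ring
      _ ≤ D0 * T ^ δ := mul_le_mul_of_nonneg_right hD01 (by positivity)
  have hTδ : 1 ≤ T ^ δ := Real.one_le_rpow hT1 hδ0.le
  have hTδ0 : 0 < T ^ δ := by positivity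
  have hTneg : T ^ (-δ) = (T ^ δ)⁻¹ := Real.rpow_neg hT0.le δ
  have hm0 : 0 < c * T ^ (-δ) := by positivity
  have hDpos : 0 < D0 * T ^ δ := by positivity
  have hmD : c * T ^ (-δ) / (2 * (D0 * T ^ δ)) ≤ ε := by
    rw [div_le_iff₀ (by positivity)]
    have h1 : c ≤ 2 * ε * D0 := by
      rw [div_le_iff₀ (by positivity)] at hD02
      linarith
    calc c * T ^ (-δ) ≤ c * 1 := by
          apply mul_le_mul_of_nonneg_left _ hc.le
          rw [hTneg]; exact inv_le_one_of_one_le₀ hTδ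
      _ = c := mul_one c
      _ ≤ 2 * ε * D0 := h1
      _ = ε * (2 * (D0 * 1)) := by ring
      _ ≤ ε * (2 * (D0 * T ^ δ)) := by
          apply mul_le_mul_of_nonneg_left _ hε0.le
          apply mul_le_mul_of_nonneg_left _ (by norm_num)
          exact mul_le_mul_of_nonneg_left hTδ hD0pos.le
  obtain ⟨hA, hB⟩ := inv_core riemannZeta s ε (c * T ^ (-δ)) (D0 * T ^ δ) hε0 hm0 hDpos hmD hdiff hd
    (hlow s hs1 hs2 him) k
  -- powers of T
  have e0 : 4 * (D0 * T ^ δ) / (c * T ^ (-δ)) = 4 * D0 / c * (T ^ δ * T ^ δ) := by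
    rw [hTneg]; field_simp
  have e1 : (4 * (D0 * T ^ δ) / (c * T ^ (-δ))) ^ k = (4 * D0 / c) ^ k * T ^ (2 * δ * k) := by
    rw [e0, mul_pow]
    congr 1
    rw [← Real.rpow_add hT0, ← Real.rpow_natCast, ← Real.rpow_mul hT0.le]
    congr 1; ring
  have hexp1 : T ^ δ * T ^ (2 * δ * k) ≤ T ^ (1 / 2 : ℝ) := by
    rw [← Real.rpow_add hT0]
    apply Real.rpow_le_rpow_of_exponent_le hT1
    nlinarith
  have hexp2 : T ^ δ * T ^ δ * T ^ (2 * δ * k) ≤ T ^ (1 / 2 : ℝ) := by
    rw [← Real.rpow_add hT0, ← Real.rpow_add hT0]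
    apply Real.rpow_le_rpow_of_exponent_le hT1
    nlinarith
  have hT12 : 0 ≤ T ^ (1 / 2 : ℝ) := by positivity
  have hA' : ‖iteratedDeriv k (fun z => (riemannZeta z)⁻¹) s‖ ≤ A1 * T ^ (1 / 2 : ℝ) := by
    refine hA.trans ?_
    have : (k.factorial : ℝ) * (2 / (c * T ^ (-δ))) * (4 * (D0 * T ^ δ) / (c * T ^ (-δ))) ^ k =
        A1 * (T ^ δ * T ^ (2 * δ * k)) := by
      rw [e1, hTneg, hA1]; field_simp
    rw [this]
    exact mul_le_mul_of_nonneg_left hexp1 hA1n
  have hB' : ‖iteratedDeriv k (fun z => deriv riemannZeta z / riemannZeta z) s‖ ≤ A2 * T ^ (1 / 2 : ℝ) := by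
    refine hB.trans ?_
    have : (k.factorial : ℝ) * (2 * (D0 * T ^ δ) / (c * T ^ (-δ))) *
        (4 * (D0 * T ^ δ) / (c * T ^ (-δ))) ^ k = A2 * (T ^ δ * T ^ δ * T ^ (2 * δ * k)) := by
      rw [e1, hTneg, hA2]; field_simp
    rw [this]
    exact mul_le_mul_of_nonneg_left hexp2 hA2n
  -- zeta itself
  have hcl : Metric.closedBall s (ε / 2) ⊆ Metric.ball s ε :=
    Metric.closedBall_subset_ball (by linarith)
  have hC : ‖iteratedDeriv k riemannZeta s‖ ≤ A3 * T ^ (1 / 2 : ℝ) := by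
    have h2pow' : (2 : ℝ) ^ (2 * ε) ≤ 2 := by
      calc (2 : ℝ) ^ (2 * ε) ≤ (2 : ℝ) ^ (1 : ℝ) :=
            Real.rpow_le_rpow_of_exponent_le (by norm_num) (by linarith)
        _ = 2 := Real.rpow_one _
    have := Complex.norm_iteratedDeriv_le_of_forall_mem_sphere_norm_le (F := ℂ) (c := s) (R := ε / 2)
      (C := 6 * max C2 1 * T ^ (1 / 2 : ℝ)) (f := riemannZeta) k (by positivity)
      ((hdiff.mono ((Metric.closure_ball_subset_closedBall).trans hcl)).diffContOnCl) (by
        intro z hz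
        have hz' : z ∈ Metric.ball s ε := hcl (Metric.sphere_subset_closedBall hz)
        obtain ⟨h1, h2, h3, h4, -⟩ := hball z hz'
        have hz0 : 0 < |z.im| + 2 := by positivity
        have hzi : 0 < |z.im| := by linarith
        have h5 : 1 + 1 / |z.im| ≤ 3 := by
          have : 1 / |z.im| ≤ 2 := by
            rw [div_le_iff₀ hzi]; linarith
          linarith
        have hTT : T ^ (2 * ε) ≤ T ^ (1 / 2 : ℝ) :=
          Real.rpow_le_rpow_of_exponent_le hT1 (by linarith)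
        calc ‖riemannZeta z‖ ≤ C2 * (1 + 1 / |z.im|) * (|z.im| + 2) ^ (2 * ε) :=
              hC2 z h1 (by linarith) (abs_pos.1 hzi)
          _ ≤ max C2 1 * (1 + 1 / |z.im|) * (|z.im| + 2) ^ (2 * ε) := by
              apply mul_le_mul_of_nonneg_right _ (by positivity)
              exact mul_le_mul_of_nonneg_right (le_max_left _ _) (by positivity)
          _ ≤ max C2 1 * 3 * (2 * T) ^ (2 * ε) := by
              apply mul_le_mul
              · exact mul_le_mul_of_nonneg_left h5 (by positivity)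
              · exact Real.rpow_le_rpow hz0.le h4 (by positivity)
              · positivity
              · positivity
          _ = max C2 1 * 3 * (2 ^ (2 * ε) * T ^ (2 * ε)) := by
              rw [Real.mul_rpow (by norm_num) hT0.le]
          _ ≤ max C2 1 * 3 * (2 * T ^ (1 / 2 : ℝ)) := by
              apply mul_le_mul_of_nonneg_left _ (by positivity)
              exact mul_le_mul h2pow' hTT (by positivity) (by norm_num)
          _ = 6 * max C2 1 * T ^ (1 / 2 : ℝ) := by ring)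
    refine this.trans (le_of_eq ?_)
    rw [hA3]; ring
  refine ⟨?_, ?_⟩
  · refine hA'.trans ?_
    apply mul_le_mul_of_nonneg_right _ hT12
    linarith
  · have hs0 : s ∈ Metric.ball s ε := Metric.mem_ball_self hε0
    have hne1 : s ≠ 1 := (hball s hs0).2.2.2.2
    have hopen : IsOpen ({1}ᶜ : Set ℂ) := isOpen_compl_singleton
    have hζan : AnalyticAt ℂ riemannZeta s := by
      have hdo : DifferentiableOn ℂ riemannZeta ({1}ᶜ : Set ℂ) := fun z hz =>
        (differentiableAt_riemannZeta hz).differentiableWithinAt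
      exact hdo.analyticAt (hopen.mem_nhds hne1)
    have hζ0 : riemannZeta s ≠ 0 := riemannZeta_ne_zero_of_one_lt_re hs1
    have hq : AnalyticAt ℂ (fun z => deriv riemannZeta z / riemannZeta z) s :=
      (hζan.deriv).div hζan hζ0
    have hadd : iteratedDeriv k (fun z => deriv riemannZeta z / riemannZeta z + riemannZeta z) s =
        iteratedDeriv k (fun z => deriv riemannZeta z / riemannZeta z) s +
        iteratedDeriv k riemannZeta s :=
      iteratedDeriv_fun_add (hq.contDiffAt) (hζan.contDiffAt)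
    rw [hadd]
    calc _ ≤ ‖iteratedDeriv k (fun z => deriv riemannZeta z / riemannZeta z) s‖ +
          ‖iteratedDeriv k riemannZeta s‖ := norm_add_le _ _
      _ ≤ A2 * T ^ (1 / 2 : ℝ) + A3 * T ^ (1 / 2 : ℝ) := add_le_add hB' hC
      _ = (A2 + A3) * T ^ (1 / 2 : ℝ) := by ring
      _ ≤ (A1 + A2 + A3) * T ^ (1 / 2 : ℝ) := by
          apply mul_le_mul_of_nonneg_right _ hT12
          linarith

end Pool.Agent.SWz
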